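import Pool.Agent.NH45.Petal.Fourier
import Pool.Agent.R811.Cross.Comb

set_option autoImplicit false
set_option linter.unusedSectionVars false

/-! Anticoncentration of a quadratic function on the cube whose mixed differences contain a staircase. -/

namespace Pool.Agent.NH45.Petal

open Finset
open Pool.Agent.R811.Cross (D)

theorem lin1 {r : ℕ} (G : (Fin r → Bool) → ℤ) (m : Fin r → ℤ)
    (h : ∀ i a, G (Function.update a i true) - G (Function.update a i false) = m i) (a : Fin r → Bool) :
    G a = G (fun _ => false) + ∑ i, bet (a i) * m i := by
  have h1 : ∀ i (a : Fin r → Bool), a i = false → ∀ y, G (Function.update a i y) = G a + bet y * m i := by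
    intro i a hai y
    have h2 : Function.update a i false = a := by rw [← hai]; exact Function.update_eq_self i a
    have h3 := h i a
    rw [h2] at h3
    cases y
    · rw [h2]; simp [bet]
    · simp only [bet, if_true, one_mul]; linarith
  have key : ∀ S : Finset (Fin r), G (fun k => if k ∈ S then a k else false) =
      G (fun _ => false) + ∑ i ∈ S, bet (a i) * m i := by
    intro S
    induction S using Finset.induction_on with
    | empty => simp
    | insert i S hi ih =>
      rw [Finset.sum_insert hi]
      have h4 := h1 i (fun k => if k ∈ S then a k else false) (by simp [hi]) (a i)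
      have h5 : Function.update (fun k => if k ∈ S then a k else false) i (a i) =
          fun k => if k ∈ insert i S then a k else false := by
        funext k
        by_cases hk : k = i
        · subst hk; simp
        · simp [hk]
      rw [h5] at h4
      rw [h4, ih]
      ring
  have := key Finset.univ
  simpa using this

theorem bilin {r : ℕ} (K : (Fin r → Bool) → (Fin r → Bool) → ℤ) (m : Fin r → Fin r → ℤ)
    (h : ∀ i j a b, (K (Function.update a i true) (Function.update b j true) -
        K (Function.update a i false) (Function.update b j true)) -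
      (K (Function.update a i true) (Function.update b j false) -
        K (Function.update a i false) (Function.update b j false)) = m i j) (a b : Fin r → Bool) :
    K a b = K a (fun _ => false) + (K (fun _ => false) b - K (fun _ => false) (fun _ => false)) +
      ∑ i, bet (a i) * ∑ j, bet (b j) * m i j := by
  have h1 := lin1 (fun a => K a b - K a (fun _ => false)) (fun i => ∑ j, bet (b j) * m i j) (by
    intro i a
    have h2 := lin1 (fun b => K (Function.update a i true) b - K (Function.update a i false) b)
      (fun j => m i j) (fun j b => h i j a b) b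
    linarith) a
  linarith

section cube

variable {ι : Type} [Fintype ι] [DecidableEq ι] {r : ℕ}

/-- the mask -/
def mask (u v : Fin r → ι) (a b : Fin r → Bool) (k : ι) : Bool :=
  decide (∃ i, u i = k ∧ a i = true) || decide (∃ j, v j = k ∧ b j = true)

/-- the shifted point -/
def shf (u v : Fin r → ι) (x : ι → Bool) (a b : Fin r → Bool) (k : ι) : Bool :=
  xor (x k) (mask u v a b k)

theorem shf_a (u v : Fin r → ι) (hinj : Function.Injective (Sum.elim u v)) (x : ι → Bool)
    (a b : Fin r → Bool) (i : Fin r) (y : Bool) :
    shf u v x (Function.update a i y) b = Function.update (shf u v x a b) (u i) (xor (x (u i)) y) := by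
  have hu : ∀ i j, u i = u j → i = j := fun i j h => Sum.inl_injective (hinj (a₁ := Sum.inl i) (a₂ := Sum.inl j) h)
  have huv : ∀ i j, u i ≠ v j := fun i j h => by
    have := hinj (a₁ := Sum.inl i) (a₂ := Sum.inr j) h
    cases this
  funext k
  by_cases hk : k = u i
  · subst hk
    rw [Function.update_self]
    unfold shf mask
    have e1 : (∃ j, v j = u i ∧ b j = true) ↔ False := by
      constructor
      · rintro ⟨j, hj, _⟩; exact huv i j hj.symm
      · exact False.elim
    have e2 : (∃ j, u j = u i ∧ Function.update a i y j = true) ↔ y = true := by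
      constructor
      · rintro ⟨j, hj, h⟩
        have := hu _ _ hj
        subst this
        simpa using h
      · intro h; exact ⟨i, rfl, by simpa using h⟩
    simp only [e1, e2]
    cases y <;> simp
  · rw [Function.update_of_ne hk]
    unfold shf mask
    have e2 : (∃ j, u j = k ∧ Function.update a i y j = true) ↔ (∃ j, u j = k ∧ a j = true) := by
      constructor
      · rintro ⟨j, hj, h⟩
        have hne : j ≠ i := fun e => hk (by rw [← hj, e])
        exact ⟨j, hj, by rwa [Function.update_of_ne hne] at h⟩
      · rintro ⟨j, hj, h⟩
        have hne : j ≠ i := fun e => hk (by rw [← hj, e])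
        exact ⟨j, hj, by rwa [Function.update_of_ne hne]⟩
    simp only [e2]

theorem shf_b (u v : Fin r → ι) (hinj : Function.Injective (Sum.elim u v)) (x : ι → Bool)
    (a b : Fin r → Bool) (j : Fin r) (y : Bool) :
    shf u v x a (Function.update b j y) = Function.update (shf u v x a b) (v j) (xor (x (v j)) y) := by
  have hinj' : Function.Injective (Sum.elim v u) := by
    rintro (p | p) (q | q) h
    · exact congrArg Sum.inl (Sum.inr_injective (hinj (a₁ := Sum.inr p) (a₂ := Sum.inr q) h))
    · have := hinj (a₁ := Sum.inr p) (a₂ := Sum.inl q) h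
      cases this
    · have := hinj (a₁ := Sum.inl p) (a₂ := Sum.inr q) h
      cases this
    · exact congrArg Sum.inr (Sum.inl_injective (hinj (a₁ := Sum.inl p) (a₂ := Sum.inl q) h))
  have e : ∀ a b : Fin r → Bool, shf u v x a b = shf v u x b a := by
    intro a b
    funext k
    unfold shf mask
    rw [Bool.or_comm]
  rw [e, e, shf_a v u hinj']

theorem sgn_D (H : (ι → Bool) → ℤ) (z : ι → Bool) (k : ι) (x : Bool) :
    H (Function.update z k (xor x true)) - H (Function.update z k (xor x false)) =
      (if x then -1 else 1) * D k H z := by
  unfold D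
  cases x <;> simp

theorem D_upd_self (H : (ι → Bool) → ℤ) (z : ι → Bool) (k : ι) (y : Bool) :
    D k H (Function.update z k y) = D k H z := by
  unfold D
  rw [Function.update_idem, Function.update_idem]

theorem sum_shf (u v : Fin r → ι) (f : (ι → Bool) → ℕ) :
    4 ^ r * ∑ x, f x = ∑ x, ∑ z : (Fin r → Bool) × (Fin r → Bool), f (shf u v x z.1 z.2) := by
  rw [Finset.sum_comm]
  have : ∀ z : (Fin r → Bool) × (Fin r → Bool), ∑ x, f (shf u v x z.1 z.2) = ∑ x, f x := by
    intro z
    have e : Function.Involutive (fun x : ι → Bool => shf u v x z.1 z.2) := by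
      intro x
      funext k
      show xor (xor (x k) (mask u v z.1 z.2 k)) (mask u v z.1 z.2 k) = x k
      cases x k <;> cases mask u v z.1 z.2 k <;> rfl
    exact Equiv.sum_comp e.toPerm f
  rw [Finset.sum_congr rfl (fun z _ => this z), Finset.sum_const, Finset.card_univ,
    Fintype.card_prod, Fintype.card_fun, Fintype.card_bool, Fintype.card_fin, smul_eq_mul, ← mul_pow]
  norm_num

/-- anticoncentration on the cube -/
theorem cube {M : ℕ} [NeZero M] (hM : M ≤ r) (H : (ι → Bool) → ℤ) (u v : Fin r → ι)
    (hinj : Function.Injective (Sum.elim u v)) (ε δ : Fin r → ℤ)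
    (hε : ∀ i, ε i = 1 ∨ ε i = -1) (hδ : ∀ i, δ i = 1 ∨ δ i = -1) (κ c : ℤ)
    (hκ : IsUnit (κ : ZMod M))
    (h : ∀ i j x, D (v j) (D (u i) H) x = if j ≤ i then κ * (ε i * δ j) else 0) :
    M * (Finset.univ.filter (fun x => H x = c)).card ≤ 158 * 2 ^ Fintype.card ι := by
  classical
  have hvu : ∀ i j, v j ≠ u i := fun i j h => by
    have := hinj (a₁ := Sum.inr j) (a₂ := Sum.inl i) h
    cases this
  have key : ∀ x : ι → Bool, M * (Finset.univ.filter (fun z : (Fin r → Bool) × (Fin r → Bool) =>
      H (shf u v x z.1 z.2) = c)).card ≤ 158 * 4 ^ r := by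
    intro x
    set ε' : Fin r → ℤ := fun i => (if x (u i) then -1 else 1) * ε i with hε'
    set δ' : Fin r → ℤ := fun j => (if x (v j) then -1 else 1) * δ j with hδ'
    set K : (Fin r → Bool) → (Fin r → Bool) → ℤ := fun a b => H (shf u v x a b) with hK
    have hb := bilin K (fun i j => if j ≤ i then κ * (ε' i * δ' j) else 0) (by
      intro i j a b
      have e1 : ∀ b' : Fin r → Bool, K (Function.update a i true) b' - K (Function.update a i false) b' =
          (if x (u i) then -1 else 1) * D (u i) H (shf u v x a b') := by
        intro b'
        simp only [hK]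
        rw [shf_a u v hinj, shf_a u v hinj]
        exact sgn_D H _ _ _
      rw [e1, e1, ← mul_sub, shf_b u v hinj, shf_b u v hinj, sgn_D (D (u i) H), h i j]
      simp only [hε', hδ']
      split_ifs <;> ring)
    have hm := anti_mod hM (fun a => K a (fun _ => false))
      (fun b => K (fun _ => false) b - K (fun _ => false) (fun _ => false)) ε' δ' (by
        intro i
        simp only [hε']
        rcases hε i with h | h <;> rw [h] <;> split_ifs <;> simp) (by
        intro i
        simp only [hδ']
        rcases hδ i with h | h <;> rw [h] <;> split_ifs <;> simp) κ c hκ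
    refine le_trans (le_of_eq ?_) hm
    congr 2
    ext z
    rw [Finset.mem_filter, Finset.mem_filter]
    refine and_congr_right fun _ => ?_
    have e2 : H (shf u v x z.1 z.2) = K z.1 z.2 := rfl
    rw [e2, hb z.1 z.2]
    have e3 : κ * SS ε' δ' z.1 z.2 = ∑ i, bet (z.1 i) * ∑ j, bet (z.2 j) *
        (if j ≤ i then κ * (ε' i * δ' j) else 0) := by
      unfold SS
      rw [Finset.mul_sum]
      refine Finset.sum_congr rfl fun i _ => ?_
      rw [Finset.mul_sum, Finset.mul_sum]
      refine Finset.sum_congr rfl fun j _ => ?_
      split_ifs
      · ring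
      · ring
    rw [e3]
  have h4 := sum_shf u v (fun x => if H x = c then 1 else 0)
  have h5 : 4 ^ r * (M * (Finset.univ.filter (fun x => H x = c)).card) ≤
      4 ^ r * (158 * 2 ^ Fintype.card ι) := by
    have e5 : (Finset.univ.filter (fun x => H x = c)).card = ∑ x, if H x = c then 1 else 0 := by
      rw [Finset.card_filter]
    calc 4 ^ r * (M * (Finset.univ.filter (fun x => H x = c)).card) =
        M * (4 ^ r * ∑ x, if H x = c then 1 else 0) := by rw [e5]; ring
      _ = ∑ x : ι → Bool, M * (Finset.univ.filter (fun z : (Fin r → Bool) × (Fin r → Bool) =>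
            H (shf u v x z.1 z.2) = c)).card := by
          rw [h4, Finset.mul_sum]
          refine Finset.sum_congr rfl fun x _ => ?_
          rw [Finset.card_filter]
      _ ≤ ∑ _x : ι → Bool, 158 * 4 ^ r := Finset.sum_le_sum fun x _ => key x
      _ = 4 ^ r * (158 * 2 ^ Fintype.card ι) := by
          rw [Finset.sum_const, Finset.card_univ, Fintype.card_fun, Fintype.card_bool, smul_eq_mul]
          ring
  exact Nat.le_of_mul_le_mul_left h5 (by positivity)

end cube

end Pool.Agent.NH45.Petal
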