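import Pool.Agent.R811.Cross.Closed
import Pool.Agent.Y463.BS.Last

set_option autoImplicit false

/-! The exact values of the second differences of the second moment of `f` under crossing changes. -/

namespace Pool.Agent.NH45.Petal

open Finset LaurentPolynomial Pool.Agent.H891R2.Jones Pool.Agent.H832R3.VJ Pool.Agent.R811.Cross
open Pool.Agent.Y463.BS (E lp v X cor al pts Two Concl three pair)
open Pool.Agent.H953R3.Q2 (m_sum m_one T_mul0 T_mul1 T_mul2 mul0 mul1 mul2)
open Pool.Agent.H832R3.VJ.V7 (moment_term moment_C_mul)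

theorem m0_two {P : Type} [Finite P] [DecidableEq P] [Nonempty P] (D : Diagram P)
    (h : Two (al D.arcs D.crossings)) : -2 * moment 0 D.fPoly = v (X D.crossings ++ D.arcs) := by
  obtain ⟨b0, -⟩ := Pool.Agent.Y463.BS.m_bracket D
  rw [Pool.Agent.Y463.BS.W_eq _ _ h] at b0
  obtain ⟨t, ht⟩ := Pool.Agent.Y463.BS.sign_parity D.crossings
  have hw : D.writhe = 2 * t + D.crossings.length := by
    unfold Diagram.writhe
    linarith
  set ε : ℤ := (-1) ^ D.crossings.length with hε
  have hf : D.fPoly = C ε * (T (-3 * D.writhe) * D.bracket) := by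
    unfold Diagram.fPoly
    by_cases he : Even D.writhe
    · have he' : Even D.crossings.length := by
        obtain ⟨r, hr⟩ := he
        rw [← Int.even_coe_nat]
        exact ⟨r - t, by linarith⟩
      rw [if_pos he, hε, he'.neg_one_pow, map_one, one_mul, one_mul]
    · have he' : Odd D.crossings.length := by
        by_contra hno
        rw [Nat.not_odd_iff_even] at hno
        obtain ⟨r, hr⟩ := hno
        exact he ⟨t + r, by rw [hw, hr]; push_cast; ring⟩
      rw [if_neg he, hε, he'.neg_one_pow, map_neg, map_one]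
      ring
  have hee : ε * ε = 1 := by
    rw [hε, ← pow_add, ← two_mul, pow_mul]
    norm_num
  rw [hf, moment_C_mul, T_mul0]
  linear_combination ε * b0 + v (X D.crossings ++ D.arcs) * hee

variable {n : ℕ} (G : Shadow n)

/-- the four marked points at a crossing -/
def corn (k : Fin n) : List (Fin (2 * n)) := [G.p k, G.q k, next (G.p k), next (G.q k)]

theorem cor_choice (k : Fin n) (b : Bool) (e : Fin (2 * n)) :
    (cor (G.choice k b)).count e = (corn G k).count e := by
  unfold cor corn Shadow.choice positive negative Shadow.crossing switch Crossing.sign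
  cases G.left k <;> cases b <;> simp [List.count_cons] <;> omega

theorem pts_sm (k : Fin n) (e : Fin (2 * n)) :
    (pts (sm (G.crossing k))).count e = (corn G k).count e := by
  unfold pts sm corn positive Shadow.crossing switch Crossing.sign
  cases G.left k <;> simp [List.count_cons] <;> omega

theorem count_corn (l : List (Fin n)) (e : Fin (2 * n)) : (l.flatMap (corn G)).count e =
    (l.map G.p).count e + (l.map G.q).count e + ((l.map (fun k => next (G.p k))).count e +
      (l.map (fun k => next (G.q k))).count e) := by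
  induction l with
  | nil => rfl
  | cons k l ih =>
    rw [List.flatMap_cons, List.count_append, ih]
    simp only [corn, List.map_cons, List.count_cons, List.count_nil]
    omega

theorem count_all (e : Fin (2 * n)) : ((List.finRange n).flatMap (corn G)).count e = 2 := by
  rw [count_corn]
  have h1 := count_pq G id Function.injective_id e
  have h2 := count_pq G next next_inj e
  simp only [id_eq] at h1
  have e1 : List.map (fun k => G.p k) (List.finRange n) = List.map G.p (List.finRange n) := rfl
  have e2 : List.map (fun k => G.q k) (List.finRange n) = List.map G.q (List.finRange n) := rfl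
  rw [e1, e2] at h1
  omega

theorem perm_rest (l : List (Fin n)) (hl : l.Nodup) :
    (List.finRange n).Perm (l ++ (List.finRange n).filter (fun k => k ∉ l)) := by
  rw [List.perm_ext_iff_of_nodup (List.nodup_finRange n)]
  · intro a
    simp only [List.mem_finRange, List.mem_append, List.mem_filter, true_and, decide_eq_true_eq, true_iff]
    tauto
  · apply List.Nodup.append hl ((List.nodup_finRange n).filter _)
    intro a ha hb
    have := (List.mem_filter.1 hb).2
    simp only [decide_eq_true_eq] at this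
    exact this ha

theorem count_cor_map (l : List (Fin n)) (s : Fin n → Bool) (e : Fin (2 * n)) :
    ((l.map (fun k => G.choice k (s k))).flatMap cor).count e = (l.flatMap (corn G)).count e := by
  induction l with
  | nil => rfl
  | cons k l ih =>
    rw [List.map_cons, List.flatMap_cons, List.flatMap_cons, List.count_append, List.count_append, ih,
      cor_choice]

theorem count_rest (l : List (Fin n)) (hl : l.Nodup) (s : Fin n → Bool) (e : Fin (2 * n)) :
    (l.flatMap (corn G)).count e + ((rest G l s).flatMap cor).count e = 2 := by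
  unfold rest
  rw [count_cor_map, ← List.count_append, ← List.flatMap_append]
  exact (((perm_rest l hl).flatMap_right (corn G)).symm.count_eq e).trans (count_all G e)

theorem strand_all (s : Fin n → Bool) (e f : Fin (2 * n)) :
    E (X (G.diagram s).crossings ++ (G.diagram s).arcs) e f := by
  have h := isKnot G s e f
  induction h with
  | rel x y h0 =>
    apply E.of_mem
    rw [List.mem_append, Pool.Agent.Y463.BS.mem_X]
    rcases h0 with h0 | h0
    · exact Or.inr h0
    · exact Or.inl h0
  | refl x => exact E.refl _ _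
  | symm x y _ ih => exact ih.symm
  | trans x y z _ _ h1 h2 => exact h1.trans h2

theorem lp_one {P : Type} [Nonempty P] {L : List (P × P)} (h : ∀ e f, E L e f) : lp L = 1 := by
  unfold Pool.Agent.Y463.BS.lp
  rw [Nat.card_eq_one_iff_unique]
  refine ⟨⟨?_⟩, ⟨Quot.mk _ (Classical.arbitrary P)⟩⟩
  intro x y
  induction x using Quot.ind with
  | mk x =>
    induction y using Quot.ind with
    | mk y => exact Quot.sound (h x y)

/-- the value at `1` is `1`, the derivative is `0` -/
theorem knot_m (hn : 0 < n) (s : Fin n → Bool) :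
    moment 0 (G.diagram s).fPoly = 1 ∧ moment 1 (G.diagram s).fPoly = 0 := by
  have : Nonempty (Fin (2 * n)) := ⟨⟨0, by omega⟩⟩
  apply Pool.Agent.Y463.BS.knot_moments
  refine ⟨isClosed G s, ?_⟩
  rw [Pool.Agent.Y463.BS.card_strand]
  exact lp_one (strand_all G s)

/-- the diagram with two crossings smoothed -/
noncomputable def D00 (i j : Fin n) (s : Fin n → Bool) : Diagram (Fin (2 * n)) :=
  ⟨sm (G.crossing j) ++ (sm (G.crossing i) ++ []), rest G [i, j] s⟩

theorem two_00 {i j : Fin n} (hij : i ≠ j) (s : Fin n → Bool) :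
    Two (al (D00 G i j s).arcs (D00 G i j s).crossings) := by
  intro e
  right
  have h := count_rest G [i, j] (by simp [hij]) s e
  have e1 : ([i, j].flatMap (corn G)) = corn G i ++ (corn G j ++ []) := by
    rw [List.flatMap_cons, List.flatMap_cons, List.flatMap_nil]
  rw [e1] at h
  simp only [List.count_append, List.append_nil] at h
  show (pts (sm (G.crossing j) ++ (sm (G.crossing i) ++ [])) ++ (rest G [i, j] s).flatMap cor).count e = 2
  rw [List.count_append, Pool.Agent.Y463.BS.count_pts_append, List.append_nil, pts_sm, pts_sm]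
  omega

theorem m2_diff {i j : Fin n} (hij : i ≠ j) (s : Fin n → Bool) :
    D j (D i (F G)) s = 32 * moment 0 (D00 G i j s).fPoly - 128 := by
  have hn : 0 < n := Nat.pos_of_ne_zero (fun h => by subst h; exact i.elim0)
  have e : ∀ a b : Bool, (⟨[], (if a then positive (G.crossing i) else negative (G.crossing i)) ::
        (if b then positive (G.crossing j) else negative (G.crossing j)) :: rest G [i, j] s⟩ :
      Diagram (Fin (2 * n))).fPoly =
      (G.diagram (Function.update (Function.update s j b) i a)).fPoly := by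
    intro a b
    rw [diagram_eq G [i, j] (by simp [hij])]
    rw [rest_congr G [i, j] (Function.update (Function.update s j b) i a) s]
    · simp [hij.symm, Shadow.choice]
    · intro k hk
      simp only [List.mem_cons, List.not_mem_nil, or_false, not_or] at hk
      simp [hk.1, hk.2]
  have h0 := congrArg (moment 2) (skein2 [] (G.crossing i) (G.crossing j) (rest G [i, j] s))
  have e1 := e true true
  have e2 := e true false
  have e3 := e false true
  have e4 := e false false
  simp only [if_true, if_false, Bool.false_eq_true] at e1 e2 e3 e4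
  rw [e1, e2, e3, e4] at h0
  rw [moment_add, m_sub, m_sub, T_mul2, T_mul2, mul2] at h0
  have z0 : moment 0 ((T (-2) - T 2 : ℤ[T;T⁻¹]) ^ 2) = 0 := by
    rw [pow_two, mul0, m_sub, m_T, m_T]; norm_num
  have z1 : moment 1 ((T (-2) - T 2 : ℤ[T;T⁻¹]) ^ 2) = 0 := by
    rw [pow_two, mul1, m_sub, m_sub, m_T, m_T, m_T, m_T]; norm_num
  have z2 : moment 2 ((T (-2) - T 2 : ℤ[T;T⁻¹]) ^ 2) = 32 := by
    rw [pow_two, mul2, m_sub, m_sub, m_sub, m_T, m_T, m_T, m_T, m_T, m_T]; norm_num
  rw [z0, z1, z2] at h0
  obtain ⟨k1, k2⟩ := knot_m G hn (Function.update (Function.update s j true) i true)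
  obtain ⟨k3, k4⟩ := knot_m G hn (Function.update (Function.update s j false) i false)
  rw [k1, k2, k3, k4] at h0
  have e5 : (⟨sm (G.crossing j) ++ (sm (G.crossing i) ++ []), rest G [i, j] s⟩ :
      Diagram (Fin (2 * n))).fPoly = (D00 G i j s).fPoly := rfl
  rw [e5] at h0
  have hDD : D j (D i (F G)) s =
      (F G (Function.update (Function.update s j true) i true) -
        F G (Function.update (Function.update s j true) i false)) -
      (F G (Function.update (Function.update s j false) i true) -
        F G (Function.update (Function.update s j false) i false)) := rfl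
  rw [hDD]
  unfold F
  linarith

/-- interlaced crossings -/
theorem D2_int {i j : Fin n} (h : G.Interlaced i j) (s : Fin n → Bool) : D j (D i (F G)) s = -96 := by
  have hij := ne_of_interlaced G h
  have hn : 0 < n := Nat.pos_of_ne_zero (fun h => by subst h; exact i.elim0)
  have : Nonempty (Fin (2 * n)) := ⟨⟨0, by omega⟩⟩
  have h1 := odd00 G h s
  have h2 := m0_two (D00 G i j s) (two_00 G hij s)
  have e5 : (⟨sm (G.crossing j) ++ (sm (G.crossing i) ++ []), rest G [i, j] s⟩ :
      Diagram (Fin (2 * n))).fPoly = (D00 G i j s).fPoly := rfl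
  rw [e5] at h1
  rw [m2_diff G hij]
  unfold v at h2
  obtain ⟨m, hm⟩ : ∃ m, lp (X (D00 G i j s).crossings ++ (D00 G i j s).arcs) = m + 1 := by
    refine Nat.exists_eq_succ_of_ne_zero ?_
    have : 0 < lp (X (D00 G i j s).crossings ++ (D00 G i j s).arcs) := by
      unfold Pool.Agent.Y463.BS.lp
      have : Nonempty (Quot (E (X (D00 G i j s).crossings ++ (D00 G i j s).arcs))) :=
        ⟨Quot.mk _ (Classical.arbitrary _)⟩
      exact Nat.card_pos
    omega
  rw [hm, pow_succ] at h2
  have h3 : moment 0 (D00 G i j s).fPoly = (-2) ^ m := by linarith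
  rw [h3] at h1 ⊢
  cases m with
  | zero => norm_num
  | succ m =>
    exfalso
    rw [pow_succ] at h1
    have : Even ((-2 : ℤ) ^ m * -2) := ⟨(-2) ^ m * -1, by ring⟩
    exact (Int.not_even_iff_odd.2 h1) this

/-- one of the two unoriented or oriented smoothings has at most one curve more -/
theorem lp_le {P : Type} [Finite P] [DecidableEq P] {L : List (P × P)} {a b c d : P}
    (h : Concl L a b c d) : lp ((a, b) :: (c, d) :: L) ≤ lp ((a, c) :: (b, d) :: L) + 1 := by
  rcases three L a b c d h with ⟨-, -, h1, h2, h3, -⟩ | ⟨h1, h2, h3⟩ | ⟨-, -, h1, h2, h3, -⟩ <;> omega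

theorem lp_mem' {P : Type} {L M : List (P × P)} (h : ∀ z, z ∈ L ↔ z ∈ M) : lp L = lp M :=
  Pool.Agent.Y463.BS.lp_mem h

/-- the smoothed diagram has at most three curves -/
theorem lp_three {i j : Fin n} (hij : i ≠ j) (s : Fin n → Bool) :
    lp (X (D00 G i j s).crossings ++ (D00 G i j s).arcs) ≤ 3 := by
  have hn : 0 < n := Nat.pos_of_ne_zero (fun h => by subst h; exact i.elim0)
  have : Nonempty (Fin (2 * n)) := ⟨⟨0, by omega⟩⟩
  set R := X (rest G [i, j] s) with hR
  set yi := positive (G.crossing i) with hyi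
  set yj := positive (G.crossing j) with hyj
  have hcr : ∀ e, (pts R).count e + (corn G i).count e + (corn G j).count e = 2 := by
    intro e
    have h := count_rest G [i, j] (by simp [hij]) s e
    have e1 : ([i, j].flatMap (corn G)) = corn G i ++ (corn G j ++ []) := by
      rw [List.flatMap_cons, List.flatMap_cons, List.flatMap_nil]
    rw [e1] at h
    simp only [List.count_append, List.append_nil] at h
    rw [hR, Pool.Agent.Y463.BS.count_X]
    omega
  have hci : ∀ e, ([yi.a, yi.b, yi.c, yi.d]).count e = (corn G i).count e := fun e =>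
    cor_choice G i true e
  have hcj : ∀ e, ([yj.a, yj.b, yj.c, yj.d]).count e = (corn G j).count e := fun e =>
    cor_choice G j true e
  have hcj2 : ∀ e, ([yj.a, yj.c]).count e + ([yj.b, yj.d]).count e = (corn G j).count e := by
    intro e
    rw [← hcj]
    simp only [List.count_cons, List.count_nil]
    omega
  -- all crossings run through
  have h0 : lp ((yi.a, yi.c) :: (yi.b, yi.d) :: (yj.a, yj.c) :: (yj.b, yj.d) :: R) = 1 := by
    set s' := Function.update (Function.update s j true) i true with hs'
    have h1 := lp_one (strand_all G s')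
    rw [← h1]
    apply lp_mem'
    intro z
    obtain ⟨z1, z2⟩ := z
    rw [List.mem_append, Pool.Agent.Y463.BS.mem_X]
    have hi : G.choice i (s' i) = yi := by rw [hs']; simp [Shadow.choice, hyi]
    have hj : G.choice j (s' j) = yj := by rw [hs']; simp [Shadow.choice, hyj, hij.symm]
    have hrest : ∀ k, k ≠ i → k ≠ j → G.choice k (s' k) = G.choice k (s k) := by
      intro k h1 h2
      rw [hs']; simp [h1, h2]
    have hm : ∀ x, x ∈ (G.diagram s').crossings ↔ ∃ k, G.choice k (s' k) = x := by
      intro x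
      unfold Shadow.diagram
      simp [List.mem_map]
    constructor
    · intro hz
      left
      simp only [List.mem_cons, Prod.mk.injEq] at hz
      rcases hz with hz | hz | hz | hz | hz
      · exact ⟨yi, (hm _).2 ⟨i, hi⟩, Or.inl hz⟩
      · exact ⟨yi, (hm _).2 ⟨i, hi⟩, Or.inr hz⟩
      · exact ⟨yj, (hm _).2 ⟨j, hj⟩, Or.inl hz⟩
      · exact ⟨yj, (hm _).2 ⟨j, hj⟩, Or.inr hz⟩
      · rw [hR, Pool.Agent.Y463.BS.mem_X] at hz
        obtain ⟨x, hx, hz⟩ := hz
        obtain ⟨k, hk, rfl⟩ := (mem_rest G _ s _).1 hx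
        simp only [List.mem_cons, List.not_mem_nil, or_false, not_or] at hk
        exact ⟨_, (hm _).2 ⟨k, hrest k hk.1 hk.2⟩, hz⟩
    · rintro (⟨x, hx, hz⟩ | hz)
      · obtain ⟨k, rfl⟩ := (hm x).1 hx
        simp only [List.mem_cons, Prod.mk.injEq]
        by_cases hki : k = i
        · subst hki
          rw [hi] at hz
          rcases hz with hz | hz
          · exact Or.inl hz
          · exact Or.inr (Or.inl hz)
        by_cases hkj : k = j
        · subst hkj
          rw [hj] at hz
          rcases hz with hz | hz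
          · exact Or.inr (Or.inr (Or.inl hz))
          · exact Or.inr (Or.inr (Or.inr (Or.inl hz)))
        right; right; right; right
        rw [hR, Pool.Agent.Y463.BS.mem_X]
        rw [hrest k hki hkj] at hz
        exact ⟨_, (mem_rest G _ s _).2 ⟨k, by simp [hki, hkj], rfl⟩, hz⟩
      · have : (G.diagram s').arcs = [] := rfl
        rw [this] at hz
        exact absurd hz (by simp)
  have c1 : Concl ((yj.a, yj.c) :: (yj.b, yj.d) :: R) yi.a yi.b yi.c yi.d := by
    refine pair _ _ rfl _ _ _ _ (fun e => ?_)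
    right
    rw [List.count_append, Pool.Agent.Y463.BS.count_pts_cons, Pool.Agent.Y463.BS.count_pts_cons, hci]
    have := hcr e
    have := hcj2 e
    omega
  have h1 := lp_le c1
  have c2 : Concl ((yi.a, yi.b) :: (yi.c, yi.d) :: R) yj.a yj.b yj.c yj.d := by
    refine pair _ _ rfl _ _ _ _ (fun e => ?_)
    right
    rw [List.count_append, Pool.Agent.Y463.BS.count_pts_cons, Pool.Agent.Y463.BS.count_pts_cons, hcj]
    have := hcr e
    have h2 : ([yi.a, yi.b]).count e + ([yi.c, yi.d]).count e = (corn G i).count e := by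
      rw [← hci]
      simp only [List.count_cons, List.count_nil]
      omega
    omega
  have h2 := lp_le c2
  have e1 : lp ((yj.a, yj.c) :: (yj.b, yj.d) :: (yi.a, yi.b) :: (yi.c, yi.d) :: R) =
      lp ((yi.a, yi.b) :: (yi.c, yi.d) :: (yj.a, yj.c) :: (yj.b, yj.d) :: R) :=
    lp_mem' fun z => by simp only [List.mem_cons]; tauto
  have e2 : lp (X (D00 G i j s).crossings ++ (D00 G i j s).arcs) =
      lp ((yj.a, yj.b) :: (yj.c, yj.d) :: (yi.a, yi.b) :: (yi.c, yi.d) :: R) := by
    apply lp_mem'
    intro z
    show z ∈ R ++ ([(yj.a, yj.b), (yj.c, yj.d)] ++ ([(yi.a, yi.b), (yi.c, yi.d)] ++ [])) ↔ _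
    simp only [List.mem_append, List.mem_cons, List.not_mem_nil, or_false]
    tauto
  omega

/-- the arcs of the smoothed diagram, for colourings -/
theorem inv_E {C : Type} (h : Fin (2 * n) → C) {i j : Fin n} (s : Fin n → Bool)
    (h0 : ∀ e, e ≠ G.p i → e ≠ G.q i → e ≠ G.p j → e ≠ G.q j → h e = h (next e))
    (hi : h (G.p i) = h (next (G.q i)) ∧ h (G.q i) = h (next (G.p i)))
    (hj : h (G.p j) = h (next (G.q j)) ∧ h (G.q j) = h (next (G.p j))) {x y : Fin (2 * n)}
    (hxy : E (X (D00 G i j s).crossings ++ (D00 G i j s).arcs) x y) : h x = h y := by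
  have hsm : ∀ k, (h (G.p k) = h (next (G.q k)) ∧ h (G.q k) = h (next (G.p k))) →
      ∀ z ∈ sm (G.crossing k), h z.1 = h z.2 := by
    intro k hk z hz
    obtain ⟨h1, h2⟩ := hk
    unfold sm positive Shadow.crossing switch Crossing.sign at hz
    cases hl : G.left k <;> rw [hl] at hz <;> simp at hz <;> rcases hz with rfl | rfl <;> simp [h1, h2]
  have hthr : ∀ k, k ≠ i → k ≠ j → ∀ a b, ((a = (G.choice k (s k)).a ∧ b = (G.choice k (s k)).c) ∨
      (a = (G.choice k (s k)).b ∧ b = (G.choice k (s k)).d)) → h a = h b := by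
    intro k hki hkj a b hab
    have h1 := h0 (G.p k) (p_ne G hki) (pq_ne G _ _) (p_ne G hkj) (pq_ne G _ _)
    have h2 := h0 (G.q k) (pq_ne G _ _).symm (q_ne G hki) (pq_ne G _ _).symm (q_ne G hkj)
    unfold Shadow.choice positive negative Shadow.crossing switch Crossing.sign at hab
    cases hl : G.left k <;> cases hs : s k <;> rw [hl, hs] at hab <;> simp at hab <;>
      rcases hab with ⟨rfl, rfl⟩ | ⟨rfl, rfl⟩ <;> simp [h1, h2]
  induction hxy with
  | rel x y hm =>
    rw [List.mem_append, Pool.Agent.Y463.BS.mem_X] at hm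
    rcases hm with ⟨w, hw, hm⟩ | hm
    · obtain ⟨k, hk, rfl⟩ := (mem_rest G _ s _).1 hw
      simp only [List.mem_cons, List.not_mem_nil, or_false, not_or] at hk
      exact hthr k hk.1 hk.2 x y hm
    · change (x, y) ∈ sm (G.crossing j) ++ (sm (G.crossing i) ++ []) at hm
      rw [List.append_nil, List.mem_append] at hm
      rcases hm with hm | hm
      · exact hsm j hj _ hm
      · exact hsm i hi _ hm
  | refl x => rfl
  | symm x y _ ih => exact ih.symm
  | trans x y z _ _ h1 h2 => exact h1.trans h2

theorem pb_max (i : Fin n) : (pa G i < pb G i) ∧ ((G.p i : ℕ) = pa G i ∧ (G.q i : ℕ) = pb G i ∨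
    (G.p i : ℕ) = pb G i ∧ (G.q i : ℕ) = pa G i) := by
  refine ⟨pa_lt_pb G i, ?_⟩
  rcases cases_pab G i with ⟨a, b⟩ | ⟨a, b⟩
  · left; omega
  · right; omega

/-- membership in the arc of the curve between the two passages through a crossing -/
def arc (i : Fin n) (e : Fin (2 * n)) : Bool := decide (pa G i < (e : ℕ) ∧ (e : ℕ) ≤ pb G i)

theorem arc_inv {i j : Fin n} (hij : i ≠ j) (hno : ¬ G.Interlaced i j) :
    (∀ e, e ≠ G.p i → e ≠ G.q i → e ≠ G.p j → e ≠ G.q j → arc G i e = arc G i (next e)) ∧
    (arc G i (G.p i) = arc G i (next (G.q i)) ∧ arc G i (G.q i) = arc G i (next (G.p i))) ∧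
    (arc G i (G.p j) = arc G i (next (G.q j)) ∧ arc G i (G.q j) = arc G i (next (G.p j))) := by
  rw [int_iff, not_not] at hno
  have d := pa_inj G hij
  obtain ⟨l1, c1⟩ := pb_max G i
  obtain ⟨l2, c2⟩ := pb_max G j
  have b1 := pb_lt G i
  have b2 := pb_lt G j
  unfold arc
  simp only [decide_eq_decide]
  refine ⟨?_, ⟨?_, ?_⟩, ⟨?_, ?_⟩⟩
  · intro e a b _ _
    have a1 : (e : ℕ) ≠ G.p i := fun h => a (Fin.ext h)
    have b1 : (e : ℕ) ≠ G.q i := fun h => b (Fin.ext h)
    rcases next_val e with ⟨he, hn⟩ | ⟨he, hn⟩ <;> rw [hn] <;> omega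
  · rcases next_val (G.q i) with ⟨he, hn⟩ | ⟨he, hn⟩ <;> rw [hn] <;> omega
  · rcases next_val (G.p i) with ⟨he, hn⟩ | ⟨he, hn⟩ <;> rw [hn] <;> omega
  · rcases next_val (G.q j) with ⟨he, hn⟩ | ⟨he, hn⟩ <;> rw [hn] <;> omega
  · rcases next_val (G.p j) with ⟨he, hn⟩ | ⟨he, hn⟩ <;> rw [hn] <;> omega

theorem int_symm {i j : Fin n} (hij : i ≠ j) : G.Interlaced i j ↔ G.Interlaced j i := by
  rw [int_iff, int_iff, not_iff_not]
  have d := pa_inj G hij
  have l1 := pa_lt_pb G i
  have l2 := pa_lt_pb G j
  constructor <;> intro h <;> omega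

theorem three_le {P C : Type} [Finite P] {L : List (P × P)} (h : P → C)
    (hinv : ∀ x y, E L x y → h x = h y) (x1 x2 x3 : P) (h12 : h x1 ≠ h x2) (h13 : h x1 ≠ h x3)
    (h23 : h x2 ≠ h x3) : 3 ≤ lp L := by
  unfold Pool.Agent.Y463.BS.lp
  have hm : ∀ x y : P, Quot.mk (E L) x = Quot.mk (E L) y → h x = h y := fun x y hxy =>
    hinv x y (Pool.Agent.Y463.BS.quot_E.1 hxy)
  have hf : Function.Injective (![Quot.mk (E L) x1, Quot.mk (E L) x2, Quot.mk (E L) x3] :
      Fin 3 → Quot (E L)) := by
    intro a b hab
    fin_cases a <;> fin_cases b <;> simp at hab ⊢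
    · exact h12 (hm _ _ hab)
    · exact h13 (hm _ _ hab)
    · exact h12 (hm _ _ hab.symm)
    · exact h23 (hm _ _ hab)
    · exact h13 (hm _ _ hab.symm)
    · exact h23 (hm _ _ hab.symm)
  have := Nat.card_le_card_of_injective _ hf
  simpa using this

/-- crossings which are not interlaced -/
theorem D2_nint {i j : Fin n} (hij : i ≠ j) (hno : ¬ G.Interlaced i j) (s : Fin n → Bool) :
    D j (D i (F G)) s = 0 := by
  have hn : 0 < n := Nat.pos_of_ne_zero (fun h => by subst h; exact i.elim0)
  have : Nonempty (Fin (2 * n)) := ⟨⟨0, by omega⟩⟩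
  have h2 := m0_two (D00 G i j s) (two_00 G hij s)
  rw [m2_diff G hij]
  have h3 := lp_three G hij s
  have hno' : ¬ G.Interlaced j i := fun h => hno ((int_symm G hij).2 h)
  obtain ⟨a1, a2, a3⟩ := arc_inv G hij hno
  obtain ⟨b1, b2, b3⟩ := arc_inv G hij.symm hno'
  have hinv : ∀ x y, E (X (D00 G i j s).crossings ++ (D00 G i j s).arcs) x y →
      (arc G i x, arc G j x) = (arc G i y, arc G j y) := by
    intro x y hxy
    refine inv_E G (fun e => (arc G i e, arc G j e)) s ?_ ⟨?_, ?_⟩ ⟨?_, ?_⟩ hxy
    · intro e q1 q2 q3 q4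
      exact Prod.ext (a1 e q1 q2 q3 q4) (b1 e q3 q4 q1 q2)
    · exact Prod.ext a2.1 b3.1
    · exact Prod.ext a2.2 b3.2
    · exact Prod.ext a3.1 b2.1
    · exact Prod.ext a3.2 b2.2
  have hfin : ∀ z, z < 2 * n → ∃ e : Fin (2 * n), (e : ℕ) = z := fun z hz => ⟨⟨z, hz⟩, rfl⟩
  rw [int_iff, not_not] at hno
  have d := pa_inj G hij
  have l1 := pa_lt_pb G i
  have l2 := pa_lt_pb G j
  have c1 := pb_lt G i
  have c2 := pb_lt G j
  obtain ⟨e1, f1⟩ := hfin (pb G i) c1
  obtain ⟨e2, f2⟩ := hfin (pb G j) c2
  have h4 : 3 ≤ lp (X (D00 G i j s).crossings ++ (D00 G i j s).arcs) := by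
    rcases Nat.lt_or_ge (pa G j) (pa G i) with hlt | hge
    · -- the start of `j` is first
      obtain ⟨e3, f3⟩ := hfin (pa G j) (by omega)
      refine three_le (fun e => (arc G i e, arc G j e)) hinv e1 e2 e3 ?_ ?_ ?_ <;>
        simp only [ne_eq, Prod.mk.injEq, arc, decide_eq_decide, f1, f2, f3] <;> omega
    · obtain ⟨e3, f3⟩ := hfin (pa G i) (by omega)
      refine three_le (fun e => (arc G i e, arc G j e)) hinv e1 e2 e3 ?_ ?_ ?_ <;>
        simp only [ne_eq, Prod.mk.injEq, arc, decide_eq_decide, f1, f2, f3] <;> omega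
  have h5 : lp (X (D00 G i j s).crossings ++ (D00 G i j s).arcs) = 3 := le_antisymm h3 h4
  unfold v at h2
  rw [h5] at h2
  linarith

end Pool.Agent.NH45.Petal
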