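import Pool.Agent.NH45.Petal.Star
import Pool.Agent.NH45.Petal.Cube
import Pool.Agent.NH45.Petal.Exact

set_option autoImplicit false

/-! Exchanging neighbouring heights in a petal diagram. -/

namespace Pool.Agent.NH45.Petal

open Finset Equiv
open Pool.Agent.H891R2.Jones Pool.Agent.R811.Cross

variable {k : ℕ}

/-- the other height of the pair `{2 e, 2 e + 1}`; the height `2 k + 2` has no partner -/
def xi (h : Fin (2 * k + 3)) : Fin (2 * k + 3) :=
  ⟨if (h : ℕ) = 2 * k + 2 then h else if (h : ℕ) % 2 = 0 then h + 1 else h - 1, by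
    have := h.2; split_ifs <;> omega⟩

theorem xi_val (h : Fin (2 * k + 3)) : ((xi h : Fin (2 * k + 3)) : ℕ) =
    if (h : ℕ) = 2 * k + 2 then (h : ℕ) else if (h : ℕ) % 2 = 0 then (h : ℕ) + 1 else (h : ℕ) - 1 := rfl

theorem xi_xi (h : Fin (2 * k + 3)) : xi (xi h) = h := by
  apply Fin.ext
  have := h.2
  rw [xi_val, xi_val]
  split_ifs <;> omega

/-- the pair of the height `h` -/
def blk (h : Fin (2 * k + 3)) : Fin (k + 1) := ⟨min (h / 2) k, by omega⟩

/-- exchange the heights `2 e` and `2 e + 1` for all `e` with `x e = true` -/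
def sw (x : Fin (k + 1) → Bool) (h : Fin (2 * k + 3)) : Fin (2 * k + 3) := if x (blk h) then xi h else h

theorem blk_xi (h : Fin (2 * k + 3)) : blk (xi h) = blk h := by
  apply Fin.ext
  have := h.2
  show min (((xi h : Fin (2 * k + 3)) : ℕ) / 2) k = min ((h : ℕ) / 2) k
  rw [xi_val]
  split_ifs <;> omega

theorem sw_invol (x : Fin (k + 1) → Bool) : Function.Involutive (sw x) := by
  intro h
  unfold sw
  by_cases hx : x (blk h) = true
  · rw [if_pos hx, blk_xi, if_pos hx, xi_xi]
  · rw [if_neg hx, if_neg hx]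

/-- the permutation of the heights -/
def swP (x : Fin (k + 1) → Bool) : Perm (Fin (2 * k + 3)) := (sw_invol x).toPerm

theorem swP_apply (x : Fin (k + 1) → Bool) (h : Fin (2 * k + 3)) : swP x h = sw x h := rfl

/-- the signs of the crossings -/
def sgn (σ : Perm (Fin (2 * k + 3))) (c : Fin ((2 * k + 3) * k)) : Bool := decide (σ (segQ c) < σ (segP c))

theorem seg_ne (c : Fin ((2 * k + 3) * k)) : segP c ≠ segQ c := by
  intro h
  obtain ⟨a1, a2, a3, a4⟩ := other_cases k c c.2
  have h' : (c : ℕ) / k = other k c := congrArg Fin.val h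
  omega

theorem sw_lt_ne (x : Fin (k + 1) → Bool) (h h' : Fin (2 * k + 3)) (hb : (h : ℕ) / 2 ≠ (h' : ℕ) / 2) :
    sw x h < sw x h' ↔ h < h' := by
  have key : ∀ h : Fin (2 * k + 3), ((sw x h : Fin (2 * k + 3)) : ℕ) / 2 = (h : ℕ) / 2 := by
    intro h
    unfold sw
    split_ifs
    · rw [xi_val]
      have := h.2
      split_ifs <;> omega
    · rfl
  have k1 := key h
  have k2 := key h'
  rw [Fin.lt_def, Fin.lt_def]
  omega

theorem sw_lt_eq (x : Fin (k + 1) → Bool) (h h' : Fin (2 * k + 3)) (hne : h ≠ h')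
    (hb : (h : ℕ) / 2 = (h' : ℕ) / 2) :
    decide (sw x h < sw x h') = xor (decide (h < h')) (x (blk h)) := by
  have hne' : (h : ℕ) ≠ h' := fun e => hne (Fin.ext e)
  have hbl : blk h' = blk h := Fin.ext (by show min ((h' : ℕ) / 2) k = min ((h : ℕ) / 2) k; rw [hb])
  have h1 := h.2
  have h2 := h'.2
  unfold sw
  rw [hbl]
  cases hx : x (blk h)
  · simp
  · simp only [if_true, Bool.xor_true]
    rw [← decide_not, decide_eq_decide, Fin.lt_def, Fin.lt_def, xi_val, xi_val]
    split_ifs <;> omega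

theorem sgn_sw (π : Perm (Fin (2 * k + 3))) (x : Fin (k + 1) → Bool) (c : Fin ((2 * k + 3) * k)) :
    sgn (swP x * π) c = if ((π (segQ c) : Fin (2 * k + 3)) : ℕ) / 2 = ((π (segP c) : Fin (2 * k + 3)) : ℕ) / 2
      then xor (sgn π c) (x (blk (π (segQ c)))) else sgn π c := by
  unfold sgn
  rw [Perm.mul_apply, Perm.mul_apply, swP_apply, swP_apply]
  split_ifs with h
  · exact sw_lt_eq x _ _ (fun e => seg_ne c (π.injective e).symm) h
  · rw [decide_eq_decide]
    exact sw_lt_ne x _ _ h

/-- the two segments of `c` have the heights `2 e` and `2 e + 1` -/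
def Blk (π : Perm (Fin (2 * k + 3))) (c : Fin ((2 * k + 3) * k)) (e : Fin (k + 1)) : Prop :=
  ((π (segP c) : Fin (2 * k + 3)) : ℕ) / 2 = e ∧ ((π (segQ c) : Fin (2 * k + 3)) : ℕ) / 2 = e

theorem Blk_unique {π : Perm (Fin (2 * k + 3))} {c c' : Fin ((2 * k + 3) * k)} {e : Fin (k + 1)}
    (h : Blk π c e) (h' : Blk π c' e) : c = c' := by
  have he := e.2
  have key : ∀ p q p' q' : Fin (2 * k + 3), p ≠ q → p' ≠ q' → (p : ℕ) / 2 = e → (q : ℕ) / 2 = e →
      (p' : ℕ) / 2 = e → (q' : ℕ) / 2 = e → (p' = p ∧ q' = q) ∨ (p' = q ∧ q' = p) := by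
    intro p q p' q' h1 h2 h3 h4 h5 h6
    have h1' : (p : ℕ) ≠ q := fun e => h1 (Fin.ext e)
    have h2' : (p' : ℕ) ≠ q' := fun e => h2 (Fin.ext e)
    rcases Nat.lt_or_ge (p : ℕ) q with a | a <;> rcases Nat.lt_or_ge (p' : ℕ) q' with b | b
    · left; exact ⟨Fin.ext (by omega), Fin.ext (by omega)⟩
    · right; exact ⟨Fin.ext (by omega), Fin.ext (by omega)⟩
    · right; exact ⟨Fin.ext (by omega), Fin.ext (by omega)⟩
    · left; exact ⟨Fin.ext (by omega), Fin.ext (by omega)⟩
  have h1 := key _ _ _ _ (fun e => seg_ne c (π.injective e)) (fun e => seg_ne c' (π.injective e))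
    h.1 h.2 h'.1 h'.2
  refine conn_unique (a := segP c) (b := segQ c) (Or.inl ⟨rfl, rfl⟩) ?_
  rcases h1 with ⟨h2, h3⟩ | ⟨h2, h3⟩
  · exact Or.inl ⟨π.injective h2, π.injective h3⟩
  · exact Or.inr ⟨π.injective h2, π.injective h3⟩

theorem sgn_upd {π : Perm (Fin (2 * k + 3))} {c : Fin ((2 * k + 3) * k)} {e : Fin (k + 1)}
    (h : Blk π c e) (x : Fin (k + 1) → Bool) (y : Bool) :
    sgn (swP (Function.update x e y) * π) = Function.update (sgn (swP x * π)) c (xor (sgn π c) y) := by
  have he := e.2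
  funext c'
  by_cases hc : c' = c
  · subst hc
    rw [Function.update_self, sgn_sw, if_pos (h.2.trans h.1.symm)]
    have : blk (π (segQ c')) = e := Fin.ext (by
      show min (((π (segQ c') : Fin (2 * k + 3)) : ℕ) / 2) k = e
      rw [h.2]; omega)
    rw [this, Function.update_self]
  · rw [Function.update_of_ne hc, sgn_sw, sgn_sw]
    split_ifs with h1
    · have hne : blk (π (segQ c')) ≠ e := by
        intro h2
        apply hc
        have h3 : min (((π (segQ c') : Fin (2 * k + 3)) : ℕ) / 2) k = e := congrArg Fin.val h2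
        have h4 := (π (segQ c')).2
        have h5 := (π (segP c')).2
        have h6 : ((π (segQ c') : Fin (2 * k + 3)) : ℕ) ≠ (π (segP c') : Fin (2 * k + 3)) :=
          fun e => seg_ne c' (π.injective (Fin.ext e)).symm
        have h7 : ((π (segQ c') : Fin (2 * k + 3)) : ℕ) / 2 = e := by omega
        exact Blk_unique ⟨by omega, h7⟩ h
      rw [Function.update_of_ne hne]
    · rfl

/-- the function on the cube -/
noncomputable def HH (π : Perm (Fin (2 * k + 3))) (x : Fin (k + 1) → Bool) : ℤ :=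
  F (star k) (sgn (swP x * π))

/-- the sign -/
def sg' (b : Bool) : ℤ := if b then -1 else 1

theorem sg'_pm (b : Bool) : sg' b = 1 ∨ sg' b = -1 := by cases b <;> simp [sg']

theorem D_HH {π : Perm (Fin (2 * k + 3))} {c c' : Fin ((2 * k + 3) * k)} {e e' : Fin (k + 1)}
    (h : Blk π c e) (h' : Blk π c' e') (x : Fin (k + 1) → Bool) :
    D e' (D e (HH π)) x = sg' (sgn π c) * sg' (sgn π c') *
      D c' (D c (F (star k))) (sgn (swP x * π)) := by
  have h1 : ∀ x, D e (HH π) x = sg' (sgn π c) * D c (F (star k)) (sgn (swP x * π)) := by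
    intro x
    have e1 : D e (HH π) x = F (star k) (sgn (swP (Function.update x e true) * π)) -
      F (star k) (sgn (swP (Function.update x e false) * π)) := rfl
    rw [e1, sgn_upd h, sgn_upd h, sgn_D]
    rfl
  have e2 : D e' (D e (HH π)) x = D e (HH π) (Function.update x e' true) -
    D e (HH π) (Function.update x e' false) := rfl
  rw [e2, h1, h1, sgn_upd h', sgn_upd h', ← mul_sub, sgn_D (D c (F (star k)))]
  unfold sg'
  ring

/-! ### interlacement -/

theorem lt_seg {m a b x y : ℕ} (h : a < b) (hx : x < m) : a * m + x < b * m + y := by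
  have h1 : (a + 1) * m ≤ b * m := Nat.mul_le_mul_right _ h
  have e : (a + 1) * m = a * m + m := by ring
  omega

theorem passages {c : Fin ((2 * k + 3) * k)} {a b : Fin (2 * k + 3)} (h : Conn c a b)
    (hab : (a : ℕ) < b) : ∃ x y, x < 2 * k ∧ y < 2 * k ∧ pa (star k) c = a * (2 * k) + x ∧
      pb (star k) c = b * (2 * k) + y := by
  obtain ⟨a1, a2, a3, a4⟩ := other_cases k c c.2
  have hp : (((star k).p c : Fin (2 * ((2 * k + 3) * k))) : ℕ) = (segP c : ℕ) * (2 * k) + (k + c % k) := rfl
  have hq : (((star k).q c : Fin (2 * ((2 * k + 3) * k))) : ℕ) =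
    (segQ c : ℕ) * (2 * k) + (k - 1 - c % k) := rfl
  unfold pa pb
  rw [hp, hq]
  rcases h with ⟨h1, h2⟩ | ⟨h1, h2⟩ <;> rw [h1, h2]
  · have := lt_seg (m := 2 * k) (x := k + c % k) (y := k - 1 - c % k) hab (by omega)
    exact ⟨_, _, by omega, by omega, min_eq_left this.le, max_eq_right this.le⟩
  · have := lt_seg (m := 2 * k) (x := k - 1 - c % k) (y := k + c % k) hab (by omega)
    exact ⟨_, _, by omega, by omega, min_eq_right this.le, max_eq_left this.le⟩

theorem inter_iff {c c' : Fin ((2 * k + 3) * k)} {a b a' b' : Fin (2 * k + 3)} (h : Conn c a b)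
    (h' : Conn c' a' b') (hab : (a : ℕ) < b) (hab' : (a' : ℕ) < b') (h1 : (a : ℕ) < a')
    (h2 : (b : ℕ) < b') (h3 : (a' : ℕ) ≠ b) : (star k).Interlaced c c' ↔ (a' : ℕ) < b := by
  obtain ⟨x, y, hx, hy, e1, e2⟩ := passages h hab
  obtain ⟨x', y', hx', hy', e3, e4⟩ := passages h' hab'
  rw [int_iff, e1, e2, e3, e4]
  have l1 := lt_seg (m := 2 * k) (y := x') h1 hx
  have l2 := lt_seg (m := 2 * k) (y := y') h2 hy
  rcases Nat.lt_or_gt_of_ne h3 with h4 | h4
  · have l3 := lt_seg (m := 2 * k) (y := y) h4 hx'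
    constructor
    · intro _; exact h4
    · intro _ h5
      have := (h5.1 ⟨l1, l3⟩).2
      omega
  · have l3 := lt_seg (m := 2 * k) (y := x') h4 hy
    constructor
    · intro h5
      exfalso
      apply h5
      constructor
      · rintro ⟨_, h6⟩; omega
      · rintro ⟨_, h6⟩; omega
    · intro h5; omega

/-! ### the selected pairs of heights -/

/-- the segment whose height is the partner of the height of the segment `p` -/
def rho (π : Perm (Fin (2 * k + 3))) (p : Fin (2 * k + 3)) : Fin (2 * k + 3) := π.symm (xi (π p))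

theorem pi_rho (π : Perm (Fin (2 * k + 3))) (p : Fin (2 * k + 3)) : π (rho π p) = xi (π p) := by
  unfold rho
  exact π.apply_symm_apply _

theorem rho_top {π : Perm (Fin (2 * k + 3))} {p : Fin (2 * k + 3)} (h : rho π p ≠ p) :
    ((π p : Fin (2 * k + 3)) : ℕ) < 2 * k + 2 := by
  have h1 := (π p).2
  by_contra h2
  apply h
  apply π.injective
  rw [pi_rho]
  apply Fin.ext
  rw [xi_val, if_pos (by omega)]

theorem blk_eq {π : Perm (Fin (2 * k + 3))} {p p' : Fin (2 * k + 3)} (h : rho π p ≠ p)
    (h' : rho π p' ≠ p') (hb : blk (π p) = blk (π p')) : p = p' ∨ rho π p = p' := by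
  have h1 := rho_top h
  have h2 := rho_top h'
  have h3 : min (((π p : Fin (2 * k + 3)) : ℕ) / 2) k = min (((π p' : Fin (2 * k + 3)) : ℕ) / 2) k :=
    congrArg Fin.val hb
  by_cases h4 : π p = π p'
  · left; exact π.injective h4
  · right
    apply π.injective
    rw [pi_rho]
    have h4' : ((π p : Fin (2 * k + 3)) : ℕ) ≠ (π p' : Fin (2 * k + 3)) := fun e => h4 (Fin.ext e)
    apply Fin.ext
    rw [xi_val]
    split_ifs <;> omega

theorem Blk_of_conn {π : Perm (Fin (2 * k + 3))} {c : Fin ((2 * k + 3) * k)} {p : Fin (2 * k + 3)}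
    (h : rho π p ≠ p) (hc : Conn c p (rho π p)) : Blk π c (blk (π p)) := by
  have h1 := rho_top h
  have h2 : ((π (rho π p) : Fin (2 * k + 3)) : ℕ) / 2 = ((π p : Fin (2 * k + 3)) : ℕ) / 2 := by
    rw [pi_rho, xi_val]
    split_ifs <;> omega
  have h3 : ((blk (π p) : Fin (k + 1)) : ℕ) = ((π p : Fin (2 * k + 3)) : ℕ) / 2 := by
    show min (((π p : Fin (2 * k + 3)) : ℕ) / 2) k = _
    omega
  unfold Blk
  rw [h3]
  rcases hc with ⟨h4, h5⟩ | ⟨h4, h5⟩ <;> rw [h4, h5]
  · exact ⟨rfl, h2⟩
  · exact ⟨h2, rfl⟩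

/-- the segment `2 t` -/
def ev (t : Fin (k + 1)) : Fin (2 * k + 3) := ⟨2 * t, by omega⟩
/-- the segment `2 t + 1` -/
def od (t : Fin (k + 1)) : Fin (2 * k + 3) := ⟨2 * t + 1, by omega⟩

/-- the numbers `t` in `[2 w, 3 w)` such that the partner of `2 t` is at the end and the partner of
`2 t + 1` at the beginning -/
def Good (w : ℕ) (π : Perm (Fin (2 * k + 3))) : Finset (Fin (k + 1)) :=
  Finset.univ.filter (fun t => 2 * w ≤ (t : ℕ) ∧ (t : ℕ) < 3 * w ∧
    6 * w + 1 ≤ ((rho π (ev t) : Fin (2 * k + 3)) : ℕ) ∧ ((rho π (od t) : Fin (2 * k + 3)) : ℕ) + 2 ≤ 4 * w)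

/-- many good `t`: anticoncentration -/
theorem good_pi {w : ℕ} (π : Perm (Fin (2 * k + 3))) {r M : ℕ}
    [NeZero M] (hr : r ≤ (Good w π).card) (hM : M ≤ r) (hκ : IsUnit ((-96 : ℤ) : ZMod M)) (c : ℤ) :
    M * (Finset.univ.filter (fun x => HH π x = c)).card ≤ 158 * 2 ^ (k + 1) := by
  classical
  obtain ⟨S, hS, hcard⟩ := Finset.exists_subset_card_eq hr
  set f := S.orderEmbOfFin hcard with hf
  have hgood : ∀ i, 2 * w ≤ (f i : ℕ) ∧ (f i : ℕ) < 3 * w ∧
      6 * w + 1 ≤ ((rho π (ev (f i)) : Fin (2 * k + 3)) : ℕ) ∧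
      ((rho π (od (f i)) : Fin (2 * k + 3)) : ℕ) + 2 ≤ 4 * w := by
    intro i
    have := hS (Finset.orderEmbOfFin_mem S hcard i)
    exact (Finset.mem_filter.1 this).2
  have hev : ∀ t : Fin (k + 1), ((ev t : Fin (2 * k + 3)) : ℕ) = 2 * t := fun t => rfl
  have hod : ∀ t : Fin (k + 1), ((od t : Fin (2 * k + 3)) : ℕ) = 2 * t + 1 := fun t => rfl
  have hneE : ∀ i, rho π (ev (f i)) ≠ ev (f i) := by
    intro i h
    have h1 := hgood i
    have h2 := congrArg Fin.val h
    rw [hev] at h2
    omega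
  have hneO : ∀ i, rho π (od (f i)) ≠ od (f i) := by
    intro i h
    have h1 := hgood i
    have h2 := congrArg Fin.val h
    rw [hod] at h2
    omega
  -- the crossings
  have hcu : ∀ i, ∃ c, Conn c (rho π (od (f i))) (od (f i)) := by
    intro i
    have h1 := hgood i
    apply conn_exists
    · rw [hod]; omega
    · rw [hod]; omega
  have hcv : ∀ i, ∃ c, Conn c (ev (f i)) (rho π (ev (f i))) := by
    intro i
    have h1 := hgood i
    have h2 := (rho π (ev (f i))).2
    apply conn_exists
    · rw [hev]; omega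
    · rw [hev]; omega
  choose cu hcu using hcu
  choose cv hcv using hcv
  set u : Fin r → Fin (k + 1) := fun i => blk (π (od (f i))) with hu
  set v : Fin r → Fin (k + 1) := fun i => blk (π (ev (f i))) with hv
  have hfinj : ∀ i j, (f i : ℕ) = f j → i = j := fun i j h => f.injective (Fin.ext h)
  have hinj : Function.Injective (Sum.elim u v) := by
    rintro (i | i) (j | j) h
    · have h' : blk (π (od (f i))) = blk (π (od (f j))) := h
      rcases blk_eq (hneO i) (hneO j) h' with h1 | h1
      · have h2 := congrArg Fin.val h1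
        rw [hod, hod] at h2
        rw [hfinj i j (by omega)]
      · exfalso
        have h2 := congrArg Fin.val h1
        have := hgood i
        have := hgood j
        rw [hod] at h2
        omega
    · exfalso
      have h' : blk (π (od (f i))) = blk (π (ev (f j))) := h
      rcases blk_eq (hneO i) (hneE j) h' with h1 | h1
      · have h2 := congrArg Fin.val h1
        rw [hod, hev] at h2
        omega
      · have h2 := congrArg Fin.val h1
        have := hgood i
        have := hgood j
        rw [hev] at h2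
        omega
    · exfalso
      have h' : blk (π (ev (f i))) = blk (π (od (f j))) := h
      rcases blk_eq (hneE i) (hneO j) h' with h1 | h1
      · have h2 := congrArg Fin.val h1
        rw [hod, hev] at h2
        omega
      · have h2 := congrArg Fin.val h1
        have := hgood i
        have := hgood j
        rw [hod] at h2
        omega
    · have h' : blk (π (ev (f i))) = blk (π (ev (f j))) := h
      rcases blk_eq (hneE i) (hneE j) h' with h1 | h1
      · have h2 := congrArg Fin.val h1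
        rw [hev, hev] at h2
        rw [hfinj i j (by omega)]
      · exfalso
        have h2 := congrArg Fin.val h1
        have := hgood i
        have := hgood j
        rw [hev] at h2
        omega
  have hBu : ∀ i, Blk π (cu i) (u i) := fun i => Blk_of_conn (hneO i) ((hcu i).symm)
  have hBv : ∀ i, Blk π (cv i) (v i) := fun i => Blk_of_conn (hneE i) (hcv i)
  have hmain := cube hM (HH π) u v hinj (fun i => sg' (sgn π (cu i))) (fun j => sg' (sgn π (cv j)))
    (fun i => sg'_pm _) (fun j => sg'_pm _) (-96) c hκ (by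
      intro i j x
      rw [D_HH (hBu i) (hBv j) x]
      have hi := hgood i
      have hj := hgood j
      have hint := inter_iff (hcu i) (hcv j) (by rw [hod]; omega) (by rw [hev]; omega)
        (by rw [hev]; omega) (by rw [hod]; omega) (by rw [hod, hev]; omega)
      rw [hev, hod] at hint
      have hij : j ≤ i ↔ 2 * (f j : ℕ) < 2 * (f i : ℕ) + 1 := by
        rw [← f.le_iff_le, Fin.le_def]
        omega
      by_cases h : j ≤ i
      · rw [if_pos h, D2_int (star k) (hint.2 (hij.1 h))]
        ring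
      · rw [if_neg h]
        have hno : ¬ (star k).Interlaced (cu i) (cv j) := fun h1 => h (hij.2 (hint.1 h1))
        have hne : cu i ≠ cv j := by
          intro h1
          have h2 := hBu i
          have h3 := hBv j
          rw [h1] at h2
          have h4 : (u i : ℕ) = v j := h2.1.symm.trans h3.1
          have h5 : u i = v j := Fin.ext h4
          have := hinj (a₁ := Sum.inl i) (a₂ := Sum.inr j) h5
          cases this
        rw [D2_nint (star k) hne hno, mul_zero])
  rw [Fintype.card_fin] at hmain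
  exact hmain

end Pool.Agent.NH45.Petal
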