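import Pool.Agent.NH45.Petal.Stat

set_option autoImplicit false

/-! The Jones polynomials of random petal diagrams. -/

namespace Pool.Agent.NH45.Petal

open Finset Equiv LaurentPolynomial
open Pool.Agent.H891R2.Jones Pool.Agent.R811.Cross Pool.Agent.H832R3.VJ

variable {k : ℕ}

theorem unit96 (m : ℕ) : IsUnit ((-96 : ℤ) : ZMod (6 * m + 1)) := by
  have h1 : Nat.Coprime 6 (6 * m + 1) := by
    rw [Nat.coprime_mul_left_add_right]
    exact Nat.coprime_one_right 6
  have h2 : Nat.Coprime 96 (6 * m + 1) :=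
    Nat.Coprime.coprime_dvd_left (by norm_num : 96 ∣ 6 ^ 5) (Nat.Coprime.pow_left 5 h1)
  have h3 : IsUnit ((96 : ℕ) : ZMod (6 * m + 1)) := (ZMod.isUnit_iff_coprime 96 (6 * m + 1)).2 h2
  have e : ((-96 : ℤ) : ZMod (6 * m + 1)) = -((96 : ℕ) : ZMod (6 * m + 1)) := by push_cast; ring
  rw [e]
  exact h3.neg

/-- averaging over the exchanges of neighbouring heights -/
theorem averaging (c : ℤ) :
    2 ^ (k + 1) * (Finset.univ.filter (fun π : Perm (Fin (2 * k + 3)) => F (star k) (sgn π) = c)).card =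
      ∑ π : Perm (Fin (2 * k + 3)), (Finset.univ.filter (fun x => HH π x = c)).card := by
  classical
  have h1 : ∀ π : Perm (Fin (2 * k + 3)), (Finset.univ.filter (fun x => HH π x = c)).card =
      ∑ x : Fin (k + 1) → Bool, if F (star k) (sgn (swP x * π)) = c then 1 else 0 := by
    intro π
    rw [Finset.card_filter]
    rfl
  rw [Finset.sum_congr rfl (fun π _ => h1 π), Finset.sum_comm]
  have h2 : ∀ x : Fin (k + 1) → Bool, ∑ π : Perm (Fin (2 * k + 3)),
      (if F (star k) (sgn (swP x * π)) = c then 1 else 0) =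
      (Finset.univ.filter (fun π : Perm (Fin (2 * k + 3)) => F (star k) (sgn π) = c)).card := by
    intro x
    rw [Finset.card_filter]
    exact Equiv.sum_comp (Equiv.mulLeft (swP x)) (fun π => if F (star k) (sgn π) = c then 1 else 0)
  rw [Finset.sum_congr rfl (fun x _ => h2 x), Finset.sum_const, Finset.card_univ, Fintype.card_fun,
    Fintype.card_bool, Fintype.card_fin, smul_eq_mul]

theorem few_bad {w : ℕ} (hw : 200 ≤ w) (h5 : 5 * w ≤ k) (h6 : k ≤ 5 * w + 4) :
    w * (Finset.univ.filter (fun π : Perm (Fin (2 * k + 3)) => (Good w π).card < w / 16)).card ≤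
      180224 * (2 * k + 3).factorial := by
  classical
  have hk : 0 < k := by omega
  have hm := mean (w := w) hk (by omega)
  set Nf := (2 * k + 3).factorial with hNf
  set Gs := ∑ π : Perm (Fin (2 * k + 3)), (Good w π).card with hGs
  have h1 : w * Nf ≤ 8 * Gs := by
    have a1 : 16 * w ^ 2 ≤ (4 * w - 1) * (2 * k + 2 - 6 * w) := by
      calc 16 * w ^ 2 ≤ (4 * w - 1) * (4 * w + 2) := by
            obtain ⟨v, rfl⟩ : ∃ v, w = v + 1 := ⟨w - 1, by omega⟩
            have : 4 * (v + 1) - 1 = 4 * v + 3 := by omega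
            rw [this]
            nlinarith
        _ ≤ _ := Nat.mul_le_mul_left _ (by omega)
    have a2 : (2 * k + 3) * (2 * k + 1) ≤ 128 * w ^ 2 := by
      calc (2 * k + 3) * (2 * k + 1) ≤ (10 * w + 11) * (10 * w + 9) :=
            Nat.mul_le_mul (by omega) (by omega)
        _ ≤ 128 * w ^ 2 := by nlinarith
    have a3 : (16 * w ^ 2) * (w * Nf) ≤ (16 * w ^ 2) * (8 * Gs) := by
      calc (16 * w ^ 2) * (w * Nf) = w * (16 * w ^ 2) * Nf := by ring
        _ ≤ w * ((4 * w - 1) * (2 * k + 2 - 6 * w)) * Nf :=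
            Nat.mul_le_mul_right _ (Nat.mul_le_mul_left _ a1)
        _ ≤ Gs * ((2 * k + 3) * (2 * k + 1)) := hm
        _ ≤ Gs * (128 * w ^ 2) := Nat.mul_le_mul_left _ a2
        _ = (16 * w ^ 2) * (8 * Gs) := by ring
    exact Nat.le_of_mul_le_mul_left a3 (by positivity)
  have hc := cheb 4 (2 * k + 3) (fun π => ((Good w π).card : ℝ)) (fun π a b => good_lip w π a b)
    ((w : ℝ) / 8) (by positivity) (by
      have h1' : (w : ℝ) * Nf ≤ 8 * (Gs : ℕ) := by exact_mod_cast h1
      rw [hGs] at h1'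
      push_cast at h1'
      linarith)
  have hsub : (Finset.univ.filter (fun π : Perm (Fin (2 * k + 3)) => (Good w π).card < w / 16)).card ≤
      (Finset.univ.filter (fun π : Perm (Fin (2 * k + 3)) => ((Good w π).card : ℝ) < (w : ℝ) / 8 / 2)).card := by
    apply Finset.card_le_card
    intro π hπ
    rw [Finset.mem_filter] at hπ ⊢
    refine ⟨hπ.1, ?_⟩
    have h2 : 16 * (Good w π).card < w := by have := hπ.2; omega
    have h3 : (16 : ℝ) * (Good w π).card < w := by exact_mod_cast h2
    linarith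
  set b := (Finset.univ.filter (fun π : Perm (Fin (2 * k + 3)) => (Good w π).card < w / 16)).card with hb
  have hsub' : (b : ℝ) ≤ ((Finset.univ.filter (fun π : Perm (Fin (2 * k + 3)) =>
      ((Good w π).card : ℝ) < (w : ℝ) / 8 / 2)).card : ℝ) := by exact_mod_cast hsub
  have hw0 : (0 : ℝ) < w := by
    have : 0 < w := by omega
    exact_mod_cast this
  have h4 : (b : ℝ) * (w / 8) ^ 2 ≤ 16 * 4 ^ 2 * ((2 * k + 3 : ℕ) : ℝ) * Nf :=
    (mul_le_mul_of_nonneg_right hsub' (by positivity)).trans hc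
  have h7 : ((2 * k + 3 : ℕ) : ℝ) ≤ 11 * w := by
    have : 2 * k + 3 ≤ 11 * w := by omega
    exact_mod_cast this
  have h8 : (b : ℝ) * w ^ 2 ≤ 180224 * w * Nf := by
    have h9 : 16 * 4 ^ 2 * ((2 * k + 3 : ℕ) : ℝ) * Nf ≤ 16 * 4 ^ 2 * (11 * w) * Nf := by
      apply mul_le_mul_of_nonneg_right _ (by positivity)
      linarith
    have h10 : (b : ℝ) * (w / 8) ^ 2 = b * w ^ 2 / 64 := by ring
    rw [h10] at h4
    linarith
  have h11 : (w : ℝ) * (w * b) ≤ w * (180224 * Nf) := by linarith
  have h12 := le_of_mul_le_mul_left h11 hw0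
  exact_mod_cast h12

theorem count_F (c : ℤ) : (2 * k + 3) *
    (Finset.univ.filter (fun π : Perm (Fin (2 * k + 3)) => F (star k) (sgn π) = c)).card ≤
      2100000 * (2 * k + 3).factorial := by
  classical
  set A := (Finset.univ.filter (fun π : Perm (Fin (2 * k + 3)) => F (star k) (sgn π) = c)).card with hA
  set Nf := (2 * k + 3).factorial with hNf
  have hAN : A ≤ Nf := by
    rw [hA, hNf]
    refine (Finset.card_le_univ _).trans ?_
    rw [Fintype.card_perm, Fintype.card_fin]
  rcases Nat.lt_or_ge k 1040 with hk | hk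
  · calc (2 * k + 3) * A ≤ 2100000 * A := Nat.mul_le_mul_right _ (by omega)
      _ ≤ 2100000 * Nf := Nat.mul_le_mul_left _ hAN
  set w := k / 5 with hw
  have hw1 : 208 ≤ w := by omega
  have h5 : 5 * w ≤ k := by omega
  have h6 : k ≤ 5 * w + 4 := by omega
  have hbad := few_bad (by omega) h5 h6
  set b := (Finset.univ.filter (fun π : Perm (Fin (2 * k + 3)) => (Good w π).card < w / 16)).card with hb
  set m := (w / 16 - 1) / 6 with hm
  set M := 6 * m + 1 with hM
  have hMw : M ≤ w / 16 := by omega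
  have hMn : 2 * k + 3 ≤ 307 * M := by omega
  have hav := averaging (k := k) c
  rw [← hA] at hav
  have key : M * (2 ^ (k + 1) * A) ≤ 2 ^ (k + 1) * (158 * Nf + M * b) := by
    rw [hav, Finset.mul_sum, ← Finset.sum_filter_add_sum_filter_not (Finset.univ)
      (fun π : Perm (Fin (2 * k + 3)) => (Good w π).card < w / 16)]
    have h7 : ∑ π ∈ Finset.univ.filter (fun π : Perm (Fin (2 * k + 3)) => (Good w π).card < w / 16),
        M * (Finset.univ.filter (fun x => HH π x = c)).card ≤ b * (M * 2 ^ (k + 1)) := by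
      have h9 : ∀ π ∈ Finset.univ.filter (fun π : Perm (Fin (2 * k + 3)) => (Good w π).card < w / 16),
          M * (Finset.univ.filter (fun x => HH π x = c)).card ≤ M * 2 ^ (k + 1) := by
        intro π _
        refine Nat.mul_le_mul_left _ ?_
        refine (Finset.card_le_univ _).trans ?_
        rw [Fintype.card_fun, Fintype.card_bool, Fintype.card_fin]
      refine (Finset.sum_le_sum h9).trans (le_of_eq ?_)
      rw [Finset.sum_const, smul_eq_mul]
    have h8 : ∑ π ∈ Finset.univ.filter (fun π : Perm (Fin (2 * k + 3)) => ¬ (Good w π).card < w / 16),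
        M * (Finset.univ.filter (fun x => HH π x = c)).card ≤ Nf * (158 * 2 ^ (k + 1)) := by
      have h9 : ∀ π ∈ Finset.univ.filter (fun π : Perm (Fin (2 * k + 3)) => ¬ (Good w π).card < w / 16),
          M * (Finset.univ.filter (fun x => HH π x = c)).card ≤ 158 * 2 ^ (k + 1) := by
        intro π hπ
        have h10 := (Finset.mem_filter.1 hπ).2
        exact good_pi π (r := (Good w π).card) le_rfl (by omega) (unit96 m) c
      refine (Finset.sum_le_sum h9).trans ?_
      rw [Finset.sum_const, smul_eq_mul]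
      refine Nat.mul_le_mul_right _ ?_
      refine (Finset.card_le_univ _).trans ?_
      rw [Fintype.card_perm, Fintype.card_fin]
    refine (add_le_add h7 h8).trans (le_of_eq ?_)
    ring
  have key2 : M * A ≤ 158 * Nf + M * b := by
    have : 2 ^ (k + 1) * (M * A) ≤ 2 ^ (k + 1) * (158 * Nf + M * b) := by
      calc 2 ^ (k + 1) * (M * A) = M * (2 ^ (k + 1) * A) := by ring
        _ ≤ _ := key
    exact Nat.le_of_mul_le_mul_left this (by positivity)
  have hbn : (2 * k + 3) * b ≤ 1982464 * Nf := by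
    calc (2 * k + 3) * b ≤ (11 * w) * b := Nat.mul_le_mul_right _ (by omega)
      _ = 11 * (w * b) := by ring
      _ ≤ 11 * (180224 * Nf) := Nat.mul_le_mul_left _ hbad
      _ = 1982464 * Nf := by ring
  have key3 : M * ((2 * k + 3) * A) ≤ M * (2100000 * Nf) := by
    calc M * ((2 * k + 3) * A) = (2 * k + 3) * (M * A) := by ring
      _ ≤ (2 * k + 3) * (158 * Nf + M * b) := Nat.mul_le_mul_left _ key2
      _ = (2 * k + 3) * (158 * Nf) + M * ((2 * k + 3) * b) := by ring
      _ ≤ (307 * M) * (158 * Nf) + M * (1982464 * Nf) :=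
          Nat.add_le_add (Nat.mul_le_mul_right _ hMn) (Nat.mul_le_mul_left _ hbn)
      _ = M * (2030970 * Nf) := by ring
      _ ≤ M * (2100000 * Nf) := Nat.mul_le_mul_left _ (Nat.mul_le_mul_right _ (by norm_num))
  exact Nat.le_of_mul_le_mul_left key3 (by omega)

theorem petal_closed (k : ℕ) (π : Perm (Fin (2 * k + 3))) : (petal k π).IsClosed :=
  isClosed (star k) (sgn π)

theorem petal_knot (k : ℕ) (π : Perm (Fin (2 * k + 3))) : Pool.Agent.TH561.PK.IsKnot (petal k π) :=
  isKnot (star k) (sgn π)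

open Classical in
/-- the main theorem -/
theorem main (g : ℤ[T;T⁻¹]) : (2 * k + 3) *
    (Finset.univ.filter (fun π : Perm (Fin (2 * k + 3)) =>
      (T 1 - 1 : ℤ[T;T⁻¹]) ^ 3 ∣ (petal k π).fPoly - g)).card ≤ 2100000 * (2 * k + 3).factorial := by
  refine le_trans (Nat.mul_le_mul_left _ (Finset.card_le_card ?_)) (count_F (moment 2 g))
  intro π hπ
  rw [Finset.mem_filter] at hπ ⊢
  refine ⟨hπ.1, ?_⟩
  have h2 := moment_of_dvd 2 _ hπ.2
  rw [m_sub] at h2
  have e : F (star k) (sgn π) = moment 2 (petal k π).fPoly := rfl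
  rw [e]
  omega

end Pool.Agent.NH45.Petal
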