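import Pool.Agent.NH45.Petal.Walk

set_option autoImplicit false

/-! Anticoncentration of a quadratic form with a staircase, by Fourier analysis modulo `M`. -/

namespace Pool.Agent.NH45.Petal

open Finset Real

/-- `1` for `true`, `0` for `false` -/
def bet (b : Bool) : ℤ := if b then 1 else 0

/-- the walk -/
def W {r : ℕ} (δ : Fin r → ℤ) (b b' : Fin r → Bool) (i : Fin r) : ℤ :=
  ∑ j, if j ≤ i then δ j * (bet (b j) - bet (b' j)) else 0

theorem sum_cons {n : ℕ} {α : Type} [AddCommMonoid α] (F : (Fin (n + 1) → Bool) → α) :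
    ∑ s, F s = ∑ b : Bool, ∑ s : Fin n → Bool, F (Fin.cons b s) := by
  rw [← (Fin.consEquiv (fun _ : Fin (n + 1) => Bool)).sum_comp, Fintype.sum_prod_type]
  rfl

theorem W_zero {r : ℕ} (δ : Fin (r + 1) → ℤ) (b0 b0' : Bool) (b b' : Fin r → Bool) :
    W δ (Fin.cons b0 b) (Fin.cons b0' b') 0 = δ 0 * (bet b0 - bet b0') := by
  unfold W
  rw [Fin.sum_univ_succ, if_pos (le_refl _), Finset.sum_eq_zero, add_zero]
  · simp
  · intro j _
    rw [if_neg]
    exact not_le.2 (Fin.succ_pos j)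

theorem W_succ {r : ℕ} (δ : Fin (r + 1) → ℤ) (b0 b0' : Bool) (b b' : Fin r → Bool) (i : Fin r) :
    W δ (Fin.cons b0 b) (Fin.cons b0' b') i.succ =
      δ 0 * (bet b0 - bet b0') + W (fun j => δ j.succ) b b' i := by
  unfold W
  rw [Fin.sum_univ_succ, if_pos (Fin.zero_le _)]
  simp only [Fin.succ_le_succ_iff, Fin.cons_succ, Fin.cons_zero]

theorem sum_walk (g : ℤ → ℝ) : ∀ (r : ℕ) (δ : Fin r → ℤ), (∀ j, δ j = 1 ∨ δ j = -1) → ∀ s : ℤ,
    ∑ b : Fin r → Bool, ∑ b' : Fin r → Bool, ∏ i, g (s + W δ b b' i) =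
      4 ^ r * (TT g)^[r] (fun _ => 1) s := by
  intro r
  induction r with
  | zero => intro δ _ s; simp
  | succ r ih =>
    intro δ hδ s
    have ih' := ih (fun j => δ j.succ) (fun j => hδ j.succ)
    rw [sum_cons]
    have e : ∀ b0 : Bool, ∑ b : Fin r → Bool, ∑ b' : Fin (r + 1) → Bool,
        ∏ i, g (s + W δ (Fin.cons b0 b) b' i) = ∑ b0' : Bool,
          g (s + δ 0 * (bet b0 - bet b0')) * (4 ^ r * (TT g)^[r] (fun _ => 1)
            (s + δ 0 * (bet b0 - bet b0'))) := by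
      intro b0
      have e1 : ∀ b : Fin r → Bool, ∑ b' : Fin (r + 1) → Bool,
          ∏ i, g (s + W δ (Fin.cons b0 b) b' i) = ∑ b0' : Bool, ∑ b' : Fin r → Bool,
            g (s + δ 0 * (bet b0 - bet b0')) *
              ∏ i, g (s + δ 0 * (bet b0 - bet b0') + W (fun j => δ j.succ) b b' i) := by
        intro b
        rw [sum_cons]
        refine Finset.sum_congr rfl fun b0' _ => Finset.sum_congr rfl fun b' _ => ?_
        rw [Fin.prod_univ_succ, W_zero]
        simp only [W_succ, add_assoc]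
      rw [Finset.sum_congr rfl (fun b _ => e1 b), Finset.sum_comm]
      refine Finset.sum_congr rfl fun b0' _ => ?_
      rw [← ih', Finset.mul_sum]
      refine Finset.sum_congr rfl fun b _ => ?_
      rw [Finset.mul_sum]
    rw [Finset.sum_congr rfl (fun b0 _ => e b0), Fintype.sum_bool, Fintype.sum_bool,
      Fintype.sum_bool, Function.iterate_succ_apply', TT_apply]
    simp only [bet, if_true, Bool.false_eq_true, if_false, sub_self, mul_zero, add_zero, sub_zero,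
      zero_sub, mul_one, pow_succ]
    rcases hδ 0 with h | h <;> rw [h]
    · have e1 : s + 1 * -1 = s - 1 := by ring
      rw [e1]; ring
    · have e1 : s + -1 = s - 1 := by ring
      have e2 : s + -1 * -1 = s + 1 := by ring
      rw [e1, e2]; ring

/-- the quadratic form -/
def SS {r : ℕ} (ε δ : Fin r → ℤ) (a b : Fin r → Bool) : ℤ :=
  ∑ i, ∑ j, if j ≤ i then ε i * δ j * (bet (a i) * bet (b j)) else 0

theorem SS_sub {r : ℕ} (ε δ : Fin r → ℤ) (a b b' : Fin r → Bool) :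
    SS ε δ a b - SS ε δ a b' = ∑ i, bet (a i) * (ε i * W δ b b' i) := by
  unfold SS W
  rw [← Finset.sum_sub_distrib]
  refine Finset.sum_congr rfl fun i _ => ?_
  rw [← Finset.sum_sub_distrib, Finset.mul_sum, Finset.mul_sum]
  refine Finset.sum_congr rfl fun j _ => ?_
  split_ifs
  · ring
  · ring

variable {M : ℕ} [NeZero M]

theorem norm_one_add (τ w : ℤ) :
    ‖(1 : ℂ) + ZMod.stdAddChar (((τ * w : ℤ) : ZMod M))‖ = 2 * gc (τ / M) w := by
  rw [ZMod.stdAddChar_coe]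
  unfold gc
  set θ : ℝ := π * ((τ : ℝ) / M * w) with hθ
  have e : 2 * (π : ℂ) * Complex.I * ((τ * w : ℤ) : ℂ) / M = (θ : ℂ) * Complex.I + (θ : ℂ) * Complex.I := by
    rw [hθ]; push_cast; ring
  have e2 : (1 : ℂ) + Complex.exp ((θ : ℂ) * Complex.I + (θ : ℂ) * Complex.I) =
      Complex.exp ((θ : ℂ) * Complex.I) * ((2 * Real.cos θ : ℝ) : ℂ) := by
    push_cast
    rw [Complex.two_cos, Complex.exp_add, mul_add, ← Complex.exp_add, ← Complex.exp_add]
    have : (θ : ℂ) * Complex.I + -(θ : ℂ) * Complex.I = 0 := by ring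
    rw [this, Complex.exp_zero, add_comm]
  rw [e, e2, norm_mul, Complex.norm_exp_ofReal_mul_I, one_mul, Complex.norm_real, Real.norm_eq_abs,
    abs_mul, abs_of_pos (by norm_num : (0 : ℝ) < 2)]

theorem gc_neg (α : ℝ) (w : ℤ) : gc α (-w) = gc α w := by
  unfold gc
  push_cast
  have : π * (α * -(w : ℝ)) = -(π * (α * w)) := by ring
  rw [this, cos_neg]

theorem norm_psi (x : ZMod M) : ‖ZMod.stdAddChar (N := M) x‖ = 1 := AddChar.norm_apply _ _

theorem psi_sum {ι : Type} (s : Finset ι) (f : ι → ZMod M) : ZMod.stdAddChar (N := M) (∑ i ∈ s, f i) = ∏ i ∈ s, ZMod.stdAddChar (N := M) (f i) := by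
  classical
  induction s using Finset.induction_on with
  | empty => simp
  | insert a s ha ih => rw [Finset.sum_insert ha, Finset.prod_insert ha, AddChar.map_add_eq_mul, ih]

theorem sum_a {r : ℕ} (ε : Fin r → ℤ) (w : Fin r → ℤ) (x : ZMod M) :
    ∑ a : Fin r → Bool, ZMod.stdAddChar (N := M) (x * ((∑ i, bet (a i) * (ε i * w i) : ℤ) : ZMod M)) =
      ∏ i, (1 + ZMod.stdAddChar (N := M) (x * ((ε i * w i : ℤ) : ZMod M))) := by
  have h1 : ∀ a : Fin r → Bool, ZMod.stdAddChar (N := M) (x * ((∑ i, bet (a i) * (ε i * w i) : ℤ) : ZMod M)) =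
      ∏ i, ZMod.stdAddChar (N := M) (x * ((bet (a i) * (ε i * w i) : ℤ) : ZMod M)) := by
    intro a
    rw [Int.cast_sum, Finset.mul_sum, psi_sum]
  rw [Finset.sum_congr rfl (fun a _ => h1 a)]
  have h2 := Finset.prod_univ_sum (fun _ : Fin r => (Finset.univ : Finset Bool))
    (fun i x' => ZMod.stdAddChar (N := M) (x * ((bet x' * (ε i * w i) : ℤ) : ZMod M)))
  rw [Fintype.piFinset_univ] at h2
  rw [← h2]
  refine Finset.prod_congr rfl fun i _ => ?_
  rw [Fintype.sum_bool]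
  simp only [bet, if_true, Bool.false_eq_true, if_false, one_mul, zero_mul, Int.cast_zero, mul_zero,
    AddChar.map_zero_eq_one]
  rw [add_comm]

/-- the second moment -/
theorem second {r : ℕ} (hM : M ≤ r) (B : (Fin r → Bool) → ℤ) (ε δ : Fin r → ℤ)
    (hε : ∀ i, ε i = 1 ∨ ε i = -1) (hδ : ∀ i, δ i = 1 ∨ δ i = -1) (κ : ℤ) (t : ZMod M) :
    ∑ a : Fin r → Bool, ‖∑ b : Fin r → Bool, ZMod.stdAddChar (N := M) (t * ((B b + κ * SS ε δ a b : ℤ) : ZMod M))‖ ^ 2 ≤
      8 ^ r * (1011 / 1024 : ℝ) ^ (2 * (t * κ).valMinAbs.natAbs) := by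
  set τ := (t * (κ : ZMod M)).valMinAbs with hτ
  have hτ' : ((τ : ℤ) : ZMod M) = t * κ := ZMod.coe_valMinAbs _
  set F : (Fin r → Bool) → ℂ := fun a => ∑ b : Fin r → Bool,
    ZMod.stdAddChar (N := M) (t * ((B b + κ * SS ε δ a b : ℤ) : ZMod M)) with hF
  have e1 : ((∑ a : Fin r → Bool, ‖F a‖ ^ 2 : ℝ) : ℂ) = ∑ b : Fin r → Bool, ∑ b' : Fin r → Bool,
      ZMod.stdAddChar (N := M) (t * ((B b - B b' : ℤ) : ZMod M)) * ∏ i, (1 + ZMod.stdAddChar (N := M) ((t * κ) * ((ε i * W δ b b' i : ℤ) : ZMod M))) := by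
    rw [Complex.ofReal_sum]
    simp only [Complex.ofReal_pow]
    have e2 : ∀ a : Fin r → Bool, ((‖F a‖ : ℂ)) ^ 2 = ∑ b : Fin r → Bool, ∑ b' : Fin r → Bool,
        ZMod.stdAddChar (N := M) (t * ((B b - B b' : ℤ) : ZMod M)) *
          ZMod.stdAddChar (N := M) ((t * κ) * ((∑ i, bet (a i) * (ε i * W δ b b' i) : ℤ) : ZMod M)) := by
      intro a
      rw [← Complex.mul_conj', hF]
      simp only [map_sum]
      rw [Finset.sum_mul_sum]
      refine Finset.sum_congr rfl fun b _ => Finset.sum_congr rfl fun b' _ => ?_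
      rw [← AddChar.map_neg_eq_conj, ← AddChar.map_add_eq_mul, ← AddChar.map_add_eq_mul, ← SS_sub]
      congr 1
      push_cast
      ring
    rw [Finset.sum_congr rfl (fun a _ => e2 a), Finset.sum_comm]
    refine Finset.sum_congr rfl fun b _ => ?_
    rw [Finset.sum_comm]
    refine Finset.sum_congr rfl fun b' _ => ?_
    rw [← Finset.mul_sum, sum_a]
  have e3 : ∑ a : Fin r → Bool, ‖F a‖ ^ 2 = ‖((∑ a : Fin r → Bool, ‖F a‖ ^ 2 : ℝ) : ℂ)‖ := by
    rw [Complex.norm_real, Real.norm_eq_abs, abs_of_nonneg]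
    exact Finset.sum_nonneg fun _ _ => by positivity
  have e4 : ∀ b b' : Fin r → Bool, ‖ZMod.stdAddChar (N := M) (t * ((B b - B b' : ℤ) : ZMod M)) *
      ∏ i, (1 + ZMod.stdAddChar (N := M) ((t * κ) * ((ε i * W δ b b' i : ℤ) : ZMod M)))‖ =
      2 ^ r * ∏ i, gc (τ / M) (0 + W δ b b' i) := by
    intro b b'
    rw [norm_mul, norm_psi, one_mul, norm_prod]
    have : ∀ i, ‖(1 : ℂ) + ZMod.stdAddChar (N := M) ((t * κ) * ((ε i * W δ b b' i : ℤ) : ZMod M))‖ =
        2 * gc (τ / M) (0 + W δ b b' i) := by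
      intro i
      rw [← hτ', ← Int.cast_mul, norm_one_add, zero_add]
      rcases hε i with h | h <;> rw [h]
      · rw [one_mul]
      · rw [neg_one_mul, gc_neg]
    rw [Finset.prod_congr rfl (fun i _ => this i), Finset.prod_mul_distrib, Finset.prod_const,
      Finset.card_univ, Fintype.card_fin]
  show ∑ a : Fin r → Bool, ‖F a‖ ^ 2 ≤ _
  rw [e3, e1]
  refine (norm_sum_le _ _).trans ?_
  refine (Finset.sum_le_sum fun b _ => norm_sum_le _ _).trans ?_
  rw [Finset.sum_congr rfl (fun b _ => Finset.sum_congr rfl fun b' _ => e4 b b')]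
  simp only [← Finset.mul_sum]
  rw [sum_walk _ r δ hδ 0, ← mul_assoc, ← mul_pow]
  have h8 : (2 * 4 : ℝ) = 8 := by norm_num
  rw [h8]
  refine mul_le_mul_of_nonneg_left ?_ (by positivity)
  apply decay M (Nat.pos_of_ne_zero (NeZero.ne M)) τ _ r hM
  have h1 := ZMod.natAbs_valMinAbs_le (t * (κ : ZMod M))
  rw [← hτ] at h1
  have h2 : (τ.natAbs : ℤ) = |τ| := Int.natCast_natAbs τ
  omega

theorem phi_bound {r : ℕ} (hM : M ≤ r) (A B : (Fin r → Bool) → ℤ) (ε δ : Fin r → ℤ)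
    (hε : ∀ i, ε i = 1 ∨ ε i = -1) (hδ : ∀ i, δ i = 1 ∨ δ i = -1) (κ c : ℤ) (t : ZMod M) :
    ‖∑ a : Fin r → Bool, ∑ b : Fin r → Bool,
      ZMod.stdAddChar (N := M) (t * ((A a + B b + κ * SS ε δ a b - c : ℤ) : ZMod M))‖ ≤
      4 ^ r * (1011 / 1024 : ℝ) ^ (t * κ).valMinAbs.natAbs := by
  set q : ℝ := 1011 / 1024 with hq
  set m := (t * (κ : ZMod M)).valMinAbs.natAbs with hm
  set F : (Fin r → Bool) → ℂ := fun a => ∑ b : Fin r → Bool,
    ZMod.stdAddChar (N := M) (t * ((B b + κ * SS ε δ a b : ℤ) : ZMod M)) with hF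
  have e1 : ∀ a : Fin r → Bool, ∑ b : Fin r → Bool,
      ZMod.stdAddChar (N := M) (t * ((A a + B b + κ * SS ε δ a b - c : ℤ) : ZMod M)) = 
        ZMod.stdAddChar (N := M) (t * ((A a - c : ℤ) : ZMod M)) * F a := by
    intro a
    rw [hF, Finset.mul_sum]
    refine Finset.sum_congr rfl fun b _ => ?_
    rw [← AddChar.map_add_eq_mul]
    congr 1
    push_cast
    ring
  rw [Finset.sum_congr rfl (fun a _ => e1 a)]
  have h1 : ‖∑ a : Fin r → Bool, ZMod.stdAddChar (N := M) (t * ((A a - c : ℤ) : ZMod M)) * F a‖ ≤ ∑ a, ‖F a‖ := by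
    refine (norm_sum_le _ _).trans (le_of_eq ?_)
    refine Finset.sum_congr rfl fun a _ => ?_
    rw [norm_mul, norm_psi, one_mul]
  refine h1.trans ?_
  have h2 : (∑ a : Fin r → Bool, ‖F a‖) ^ 2 ≤ 2 ^ r * ∑ a : Fin r → Bool, ‖F a‖ ^ 2 := by
    have := sq_sum_le_card_mul_sum_sq (s := (Finset.univ : Finset (Fin r → Bool))) (f := fun a => ‖F a‖)
    rw [Finset.card_univ, Fintype.card_fun, Fintype.card_bool, Fintype.card_fin] at this
    push_cast at this
    exact this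
  have h3 := second hM B ε δ hε hδ κ t
  have h4 : (∑ a : Fin r → Bool, ‖F a‖) ^ 2 ≤ (4 ^ r * q ^ m) ^ 2 := by
    refine h2.trans ?_
    calc (2 : ℝ) ^ r * ∑ a : Fin r → Bool, ‖F a‖ ^ 2 ≤ 2 ^ r * (8 ^ r * q ^ (2 * m)) :=
          mul_le_mul_of_nonneg_left h3 (by positivity)
      _ = (4 ^ r * q ^ m) ^ 2 := by
          rw [mul_pow, ← pow_mul, ← pow_mul, mul_comm m 2, ← mul_assoc, ← mul_pow, mul_comm r 2, pow_mul, pow_mul]
          norm_num
  exact (abs_le_of_sq_le_sq' h4 (by positivity)).2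

theorem geom_le (n : ℕ) : ∑ j ∈ Finset.range n, (1011 / 1024 : ℝ) ^ j ≤ 79 := by
  have h := mul_neg_geom_sum (1011 / 1024 : ℝ) n
  have h2 : (0 : ℝ) ≤ (1011 / 1024) ^ n := by positivity
  linarith

theorem sum_q : ∑ x : ZMod M, (1011 / 1024 : ℝ) ^ x.valMinAbs.natAbs ≤ 158 := by
  classical
  have h1 : ∑ x : ZMod M, (1011 / 1024 : ℝ) ^ x.valMinAbs.natAbs =
      ∑ z ∈ (Finset.univ : Finset (ZMod M)).image ZMod.valMinAbs, (1011 / 1024 : ℝ) ^ z.natAbs := by
    rw [Finset.sum_image]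
    intro x _ y _ hxy
    exact ZMod.injective_valMinAbs hxy
  rw [h1]
  have h2 : (Finset.univ : Finset (ZMod M)).image ZMod.valMinAbs ⊆
      (Finset.range (M + 1)).image (fun n : ℕ => (n : ℤ)) ∪
        (Finset.range (M + 1)).image (fun n : ℕ => -(n : ℤ)) := by
    intro z hz
    obtain ⟨x, _, rfl⟩ := Finset.mem_image.1 hz
    have h3 := ZMod.natAbs_valMinAbs_le x
    rw [Finset.mem_union, Finset.mem_image, Finset.mem_image]
    rcases Int.natAbs_eq x.valMinAbs with h | h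
    · exact Or.inl ⟨_, Finset.mem_range.2 (by omega), h.symm⟩
    · exact Or.inr ⟨_, Finset.mem_range.2 (by omega), h.symm⟩
  refine (Finset.sum_le_sum_of_subset_of_nonneg h2 (fun _ _ _ => by positivity)).trans ?_
  have h4 : ∑ z ∈ (Finset.range (M + 1)).image (fun n : ℕ => (n : ℤ)) ∪
        (Finset.range (M + 1)).image (fun n : ℕ => -(n : ℤ)), (1011 / 1024 : ℝ) ^ z.natAbs ≤ 
      ∑ z ∈ (Finset.range (M + 1)).image (fun n : ℕ => (n : ℤ)), (1011 / 1024 : ℝ) ^ z.natAbs +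
        ∑ z ∈ (Finset.range (M + 1)).image (fun n : ℕ => -(n : ℤ)), (1011 / 1024 : ℝ) ^ z.natAbs := by
    rw [← Finset.sum_union_inter]
    exact le_add_of_nonneg_right (Finset.sum_nonneg fun _ _ => by positivity)
  refine h4.trans ?_
  rw [Finset.sum_image (fun a _ b _ h => by exact_mod_cast h),
    Finset.sum_image (fun a _ b _ h => by simpa using h)]
  simp only [Int.natAbs_natCast, Int.natAbs_neg]
  have := geom_le (M + 1)
  linarith

/-- anticoncentration modulo `M` -/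
theorem anti_mod {r : ℕ} (hM : M ≤ r) (A B : (Fin r → Bool) → ℤ) (ε δ : Fin r → ℤ)
    (hε : ∀ i, ε i = 1 ∨ ε i = -1) (hδ : ∀ i, δ i = 1 ∨ δ i = -1) (κ c : ℤ)
    (hκ : IsUnit (κ : ZMod M)) :
    M * (Finset.univ.filter (fun x : (Fin r → Bool) × (Fin r → Bool) =>
      A x.1 + B x.2 + κ * SS ε δ x.1 x.2 = c)).card ≤ 158 * 4 ^ r := by
  classical
  have hprim : (ZMod.stdAddChar (N := M)).IsPrimitive := ZMod.isPrimitive_stdAddChar M
  have key : (((M * (Finset.univ.filter (fun x : (Fin r → Bool) × (Fin r → Bool) =>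
      A x.1 + B x.2 + κ * SS ε δ x.1 x.2 = c)).card : ℕ) : ℝ)) ≤ 
      ((158 * 4 ^ r : ℕ) : ℝ) := by
    set G : (Fin r → Bool) × (Fin r → Bool) → ZMod M := fun x =>
      ((A x.1 + B x.2 + κ * SS ε δ x.1 x.2 - c : ℤ) : ZMod M) with hG
    have h1 : ∀ x, ∑ t : ZMod M, ZMod.stdAddChar (N := M) (t * G x) = if G x = 0 then (M : ℂ) else 0 := by
      intro x
      rw [AddChar.sum_mulShift _ hprim, ZMod.card]
      split_ifs <;> simp
    have h2 : (((M * (Finset.univ.filter (fun x => G x = 0)).card : ℕ) : ℝ)) =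
        ‖∑ x, ∑ t : ZMod M, ZMod.stdAddChar (N := M) (t * G x)‖ := by
      rw [Finset.sum_congr rfl (fun x _ => h1 x), ← Finset.sum_filter, Finset.sum_const,
        nsmul_eq_mul, norm_mul, Complex.norm_natCast, Complex.norm_natCast]
      push_cast
      ring
    have h3 : (Finset.univ.filter (fun x : (Fin r → Bool) × (Fin r → Bool) =>
      A x.1 + B x.2 + κ * SS ε δ x.1 x.2 = c)).card ≤ (Finset.univ.filter (fun x => G x = 0)).card := by
      apply Finset.card_le_card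
      intro x hx
      rw [Finset.mem_filter] at hx ⊢
      refine ⟨hx.1, ?_⟩
      rw [hG]
      show ((A x.1 + B x.2 + κ * SS ε δ x.1 x.2 - c : ℤ) : ZMod M) = 0
      rw [hx.2, sub_self, Int.cast_zero]
    have h4 : (((M * (Finset.univ.filter (fun x : (Fin r → Bool) × (Fin r → Bool) =>
      A x.1 + B x.2 + κ * SS ε δ x.1 x.2 = c)).card : ℕ) : ℝ)) ≤
        (((M * (Finset.univ.filter (fun x => G x = 0)).card : ℕ) : ℝ)) := by
      exact_mod_cast Nat.mul_le_mul_left M h3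
    refine h4.trans ?_
    rw [h2, Finset.sum_comm]
    refine (norm_sum_le _ _).trans ?_
    have h5 : ∀ t : ZMod M, ‖∑ x, ZMod.stdAddChar (N := M) (t * G x)‖ ≤
        4 ^ r * (1011 / 1024 : ℝ) ^ (t * κ).valMinAbs.natAbs := by
      intro t
      rw [Fintype.sum_prod_type]
      exact phi_bound hM A B ε δ hε hδ κ c t
    refine (Finset.sum_le_sum fun t _ => h5 t).trans ?_
    rw [← Finset.mul_sum]
    obtain ⟨u, hu⟩ := hκ
    have h6 : ∑ t : ZMod M, (1011 / 1024 : ℝ) ^ (t * κ).valMinAbs.natAbs =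
        ∑ t : ZMod M, (1011 / 1024 : ℝ) ^ t.valMinAbs.natAbs := by
      rw [← hu]
      exact (Equiv.sum_comp (Units.mulRight u) (fun t : ZMod M => (1011 / 1024 : ℝ) ^ t.valMinAbs.natAbs))
    rw [h6]
    have h7 := sum_q (M := M)
    push_cast
    have h8 : (0 : ℝ) < 4 ^ r := by positivity
    nlinarith
  exact_mod_cast key

end Pool.Agent.NH45.Petal
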