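import Pool.Agent.NH45.Petal.Exact

set_option autoImplicit false

/-! The leading coefficients of the moments of `f`. -/

namespace Pool.Agent.NH45.Petal

open Finset LaurentPolynomial Pool.Agent.H891R2.Jones Pool.Agent.H832R3.VJ Pool.Agent.R811.Cross
open Pool.Agent.H832R3.VJ.V7 (moment_T_mul moment_pow_mul momH_apply)

/-- the skein relation for diagrams with double points -/
theorem skeinF {P : Type} (l : List (Crossing P)) : ∀ (arcs : List (P × P)) (x : Crossing P)
    (cr : List (Crossing P)), T 4 * singF arcs (positive x :: cr) l -
      T (-4) * singF arcs (negative x :: cr) l = (T (-2) - T 2) * singF (sm x ++ arcs) cr l := by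
  induction l with
  | nil => intro arcs x cr; exact skein arcs x cr
  | cons y l ih =>
    intro arcs x cr
    show T 4 * (singF arcs (positive y :: positive x :: cr) l -
        singF arcs (negative y :: positive x :: cr) l) -
      T (-4) * (singF arcs (positive y :: negative x :: cr) l -
        singF arcs (negative y :: negative x :: cr) l) =
      (T (-2) - T 2) * (singF (sm x ++ arcs) (positive y :: cr) l -
        singF (sm x ++ arcs) (negative y :: cr) l)
    have e : ∀ z w : Crossing P, singF arcs (z :: w :: cr) l = singF arcs (w :: z :: cr) l :=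
      fun z w => V6b.singF_congr l arcs arcs _ _ (fun _ _ => Iff.rfl) (List.Perm.swap _ _ _)
    rw [e (positive y), e (negative y), e (positive y), e (negative y)]
    linear_combination ih arcs x (positive y :: cr) - ih arcs x (negative y :: cr)

/-- the moments of a multiple of a power of `T 1 - 1` -/
theorem top_T (j : ℕ) (a : ℤ) (X : ℤ[T;T⁻¹]) (h : (T 1 - 1 : ℤ[T;T⁻¹]) ^ j ∣ X) :
    moment (j + 1) (T a * X) = moment (j + 1) X + (j + 1) * a * moment j X := by
  have hlow : ∀ i < j, moment i X = 0 := by
    obtain ⟨Y, rfl⟩ := h
    exact moment_pow_mul j Y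
  rw [moment_T_mul, Finset.sum_range_succ, Finset.sum_range_succ, Finset.sum_eq_zero]
  · have e1 : j + 1 - j = 1 := by omega
    rw [e1, Nat.sub_self, Nat.choose_self, Nat.choose_succ_self_right]
    push_cast
    ring
  · intro i hi
    rw [hlow i (Finset.mem_range.1 hi), mul_zero]

/-- the leading coefficient -/
noncomputable def Vw {P : Type} : List (P × P) → List (Crossing P) → List (Crossing P) → ℤ
  | arcs, cr, [] => moment 0 (⟨arcs, cr⟩ : Diagram P).fPoly
  | arcs, cr, x :: l => 2 * Vw arcs (positive x :: cr) l + Vw (sm x ++ arcs) cr l

theorem top_coef {P : Type} (l : List (Crossing P)) : ∀ (arcs : List (P × P))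
    (cr : List (Crossing P)),
    moment l.length (singF arcs cr l) = (-4) ^ l.length * l.length.factorial * Vw arcs cr l := by
  induction l with
  | nil => intro arcs cr; show moment 0 _ = _; simp [Vw, singF]
  | cons x l ih =>
    intro arcs cr
    have h1 := congrArg (moment (l.length + 1)) (skeinF l arcs x cr)
    have dP := singF_dvd arcs (positive x :: cr) l
    have dN := singF_dvd arcs (negative x :: cr) l
    have dZ := singF_dvd (sm x ++ arcs) cr l
    rw [m_sub, sub_mul, m_sub, top_T _ _ _ dP, top_T _ _ _ dN, top_T _ _ _ dZ, top_T _ _ _ dZ] at h1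
    have h2 : moment l.length (singF arcs (positive x :: cr) l) =
        moment l.length (singF arcs (negative x :: cr) l) := by
      have h3 := moment_of_dvd l.length _ (singF_dvd arcs cr (x :: l))
      have e : singF arcs cr (x :: l) = singF arcs (positive x :: cr) l -
        singF arcs (negative x :: cr) l := rfl
      rw [e, m_sub] at h3
      linarith
    have e : singF arcs cr (x :: l) = singF arcs (positive x :: cr) l -
        singF arcs (negative x :: cr) l := rfl
    rw [e, List.length_cons, m_sub, Vw, Nat.factorial_succ, pow_succ]
    rw [← h2, ih, ih] at h1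
    push_cast
    linear_combination h1

/-! ### differences on the cube of the signs -/

variable {n : ℕ} (G : Shadow n)

/-- the moments of `f` -/
noncomputable def Fm (m : ℕ) (s : Fin n → Bool) : ℤ := moment m (G.diagram s).fPoly

/-- the moments of diagrams with double points -/
noncomputable def Ev (m : ℕ) (l : List (Fin n)) (s : Fin n → Bool) : ℤ :=
  moment m (singF [] (rest G l s) (l.map G.crossing))

theorem Ev_nil (m : ℕ) : Ev G m [] = Fm G m := by
  funext s
  unfold Ev Fm
  have e : rest G [] s = (G.diagram s).crossings := by
    unfold rest Shadow.diagram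
    simp
  rw [e]
  rfl

theorem rest_perm {l : List (Fin n)} {c : Fin n} (hc : c ∉ l) (s : Fin n → Bool) (b : Bool) :
    (rest G l (Function.update s c b)).Perm (G.choice c b :: rest G (c :: l) s) := by
  have h1 : G.choice c b :: rest G (c :: l) s =
      (c :: (List.finRange n).filter (fun k => k ∉ c :: l)).map
        (fun k => G.choice k (Function.update s c b k)) := by
    rw [List.map_cons, Function.update_self, rest_congr G (c :: l) s (Function.update s c b) (by
      intro k hk
      have : k ≠ c := fun h => hk (by simp [h])
      rw [Function.update_of_ne this])]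
    rfl
  rw [h1]
  unfold rest
  apply List.Perm.map
  rw [List.perm_ext_iff_of_nodup ((List.nodup_finRange n).filter _)]
  · intro a
    simp only [List.mem_filter, List.mem_finRange, true_and, decide_eq_true_eq, List.mem_cons, not_or]
    by_cases ha : a = c
    · subst ha; simp [hc]
    · simp [ha]
  · rw [List.nodup_cons]
    refine ⟨?_, (List.nodup_finRange n).filter _⟩
    simp

theorem Ev_cons (m : ℕ) {l : List (Fin n)} {c : Fin n} (hc : c ∉ l) :
    D c (Ev G m l) = Ev G m (c :: l) := by
  funext s
  have e1 : Ev G m (c :: l) s =
      moment m (singF [] (positive (G.crossing c) :: rest G (c :: l) s) (l.map G.crossing)) -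
      moment m (singF [] (negative (G.crossing c) :: rest G (c :: l) s) (l.map G.crossing)) := by
    unfold Ev
    rw [← m_sub]
    rfl
  rw [e1]
  unfold D Ev
  rw [V6b.singF_congr (l.map G.crossing) [] [] (rest G l (Function.update s c true))
    (G.choice c true :: rest G (c :: l) s) (fun _ _ => Iff.rfl) (rest_perm G hc s true),
    V6b.singF_congr (l.map G.crossing) [] [] (rest G l (Function.update s c false))
    (G.choice c false :: rest G (c :: l) s) (fun _ _ => Iff.rfl) (rest_perm G hc s false)]
  rfl

theorem Ev_top (l : List (Fin n)) (s : Fin n → Bool) : Ev G l.length l s =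
    (-4) ^ l.length * l.length.factorial * Vw [] (rest G l s) (l.map G.crossing) := by
  unfold Ev
  have := top_coef (l.map G.crossing) [] (rest G l s)
  rw [List.length_map] at this
  exact this

end Pool.Agent.NH45.Petal
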