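import Pool.Agent.NH45.Petal.M9

set_option autoImplicit false

/-! The choice of the parameters. -/

namespace Pool.Agent.NH45.Petal

open Finset Equiv
open Real (exp exp_pos exp_le_exp exp_le_one_iff)
open Pool.Agent.H891R2.Jones Pool.Agent.R811.Cross Pool.Agent.H832R3.VJ

theorem dl_wt (j : ℕ) : dl (j + 1) (Sel.wt (j + 2)) = 2 * (-4) ^ (j + 1) * (j + 2).factorial * (6 * 2 ^ j) := by
  have e : Sel.wt (j + 2) = fun es => (2 * (-4) ^ (j + 1) * (j + 2).factorial : ℤ) * omega0 es := by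
    funext es
    unfold Sel.wt
    rfl
  rw [e, dl_mul, dl_omega0]

theorem coprime_wt {m Q : ℕ} (hQ : Q.Prime) (hQm : m < Q) (hQ3 : 3 < Q) (t : ℕ) (ht : 2 ≤ t) (htm : t ≤ m) :
    IsCoprime (Q : ℤ) (dl (t - 1) (Sel.wt t)) := by
  obtain ⟨j, rfl⟩ : ∃ j, t = j + 2 := ⟨t - 2, by omega⟩
  have e1 : j + 2 - 1 = j + 1 := by omega
  rw [e1, dl_wt]
  have key : ∀ d : ℕ, ¬ Q ∣ d → IsCoprime (Q : ℤ) (d : ℤ) := fun d hd =>
    Nat.isCoprime_iff_coprime.2 ((Nat.Prime.coprime_iff_not_dvd hQ).2 hd)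
  have h2 : IsCoprime (Q : ℤ) (2 : ℤ) := key 2 (fun h => by
    have := Nat.le_of_dvd (by norm_num) h; omega)
  have h3 : IsCoprime (Q : ℤ) (3 : ℤ) := key 3 (fun h => by
    have := Nat.le_of_dvd (by norm_num) h; omega)
  have hf : IsCoprime (Q : ℤ) (((j + 2).factorial : ℕ) : ℤ) := key _ (fun h => by
    have := (Nat.Prime.dvd_factorial hQ).1 h; omega)
  have e6 : (6 : ℤ) = 2 * 3 := by norm_num
  have e4 : (-4 : ℤ) = -(2 * 2) := by norm_num
  rw [e6, e4]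
  exact ((h2.mul_right (h2.mul_right h2).neg_right.pow_right).mul_right hf).mul_right
    ((h2.mul_right h3).mul_right h2.pow_right)

theorem eventually_le (D : ℕ) (B : ℝ) : ∃ q0 : ℕ, ∀ q : ℕ, q0 ≤ q → B * (q : ℝ) ^ D * (3 / 5) ^ q ≤ 1 := by
  have h1 := tendsto_pow_const_mul_const_pow_of_lt_one D (r := (3 / 5 : ℝ)) (by norm_num) (by norm_num)
  have h2 := h1.const_mul B
  rw [mul_zero] at h2
  have h3 := h2.eventually (ge_mem_nhds (show (0 : ℝ) < 1 by norm_num))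
  obtain ⟨q0, hq0⟩ := Filter.eventually_atTop.1 h3
  refine ⟨q0, fun q hq => ?_⟩
  have := hq0 q hq
  linarith

theorem exp_one_le : exp (-1) ≤ 3 / 5 := by
  rw [Real.exp_neg]
  have h1 : (2.7 : ℝ) ≤ exp 1 := by linarith [Real.exp_one_gt_d9]
  rw [inv_le_comm₀ (exp_pos 1) (by norm_num)]
  linarith

/-- the sum of the orders `2, …, m` -/
def EE (m : ℕ) : ℕ := ∑ i : Fin (m - 1), ((i : ℕ) + 2)

theorem EE_eq (m : ℕ) : 2 * EE (m + 1) = m * (m + 3) := by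
  unfold EE
  rw [Nat.add_sub_cancel, Fin.sum_univ_eq_sum_range (fun i => i + 2)]
  induction m with
  | zero => simp
  | succ m ih =>
    rw [Finset.sum_range_succ, mul_add, ih]
    ring

/-- the bound for given `q` -/
theorem par2 {m a q k : ℕ} (hm : 2 ≤ m) (ha : 3 ≤ a) (hqD : 262144 * (m + 1) ^ 4 ≤ q)
    (hqk : q ^ (2 * a) ≤ 2 * k + 3)
    (hη : (m : ℝ) * ((q : ℝ) ^ ((a - 1) * EE m)) ^ (2 ^ m) * (3 / 5) ^ q ≤ 1) (c : Fin (m - 1) → ℤ) :
    ((Finset.univ.filter (fun π : Perm (Fin (2 * k + 3)) =>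
      ∀ i : Fin (m - 1), Fm (star k) ((i : ℕ) + 2) (sgn π) = c i)).card : ℝ) ≤
      ((m * (q * (q + 1)) : ℕ) * (3 / 5) ^ q + 2 * (400 * ((m : ℝ) + 1) / (q : ℝ) ^ (a - 1)) ^ EE m) *
        (2 * k + 3).factorial := by
  set K : ℕ := 100 * (m + 1) with hK
  set D : ℕ := 262144 * (m + 1) ^ 4 with hD
  have hm4 : (m + 1) ^ 2 ≤ (m + 1) ^ 4 := Nat.pow_le_pow_right (by omega) (by norm_num)
  have hm2 : (m + 1) ^ 2 = m * (m + 1) + m + 1 := by ring
  have hmm : m + 1 ≤ (m + 1) ^ 2 := Nat.le_self_pow (by norm_num) _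
  have hqK : K ≤ q := by omega
  have hq0 : 0 < q := by omega
  set n : ℕ := 2 * k + 3 with hn
  -- powers of `q`
  have hqa : q ^ (2 * a) = (q ^ (a - 1)) ^ 2 * q ^ 2 := by
    rw [← pow_mul, ← pow_add]; congr 1; omega
  have hqq : q ≤ q ^ (a - 1) := Nat.le_self_pow (by omega) _
  have hq6 : q ^ 6 ≤ n := (Nat.pow_le_pow_right hq0 (by omega)).trans hqk
  have hnq : 12 * (m + 1) * q ≤ n := by
    calc 12 * (m + 1) * q ≤ q * q := Nat.mul_le_mul_right _ (by omega)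
      _ = q ^ 2 := by ring
      _ ≤ q ^ 6 := Nat.pow_le_pow_right hq0 (by norm_num)
      _ ≤ n := hq6
  -- the size of the blocks
  set s : ℕ := (2 * k + 2) / ((m + 1) * (2 * q + 1)) with hs
  have hW : 0 < (m + 1) * (2 * q + 1) := by positivity
  have hfit : (m + 1) * (2 * q + 1) * s ≤ 2 * k + 2 := Nat.mul_div_le _ _
  have hs1 : n ≤ 4 * (m + 1) * q * s := by
    have h1 : 2 * k + 2 < (m + 1) * (2 * q + 1) * (s + 1) := Nat.lt_mul_div_succ _ hW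
    have h2 : (m + 1) * (2 * q + 1) * (s + 1) ≤ 3 * (m + 1) * q * (s + 1) := by
      apply Nat.mul_le_mul_right
      calc (m + 1) * (2 * q + 1) ≤ (m + 1) * (3 * q) := Nat.mul_le_mul_left _ (by omega)
        _ = 3 * (m + 1) * q := by ring
    have e1 : 3 * (m + 1) * q * (s + 1) = 3 * ((m + 1) * q * s) + 3 * ((m + 1) * q) := by ring
    have e2 : 4 * (m + 1) * q * s = 4 * ((m + 1) * q * s) := by ring
    have e3 : 12 * (m + 1) * q = 12 * ((m + 1) * q) := by ring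
    omega
  have hs0 : 0 < s := by
    rcases Nat.eq_zero_or_pos s with h0 | h0
    · rw [h0, mul_zero] at hs1; omega
    · exact h0
  -- the number of the crossings
  set L : ℕ := q ^ (a - 1) / K with hL
  have hKpos : 0 < K := by positivity
  have hLK : K * L ≤ q ^ (a - 1) := Nat.mul_div_le _ _
  have hLq : L ≤ q ^ (a - 1) := Nat.div_le_self _ _
  have hLbig : 2 * m + 8 ≤ L := by
    rw [hL, Nat.le_div_iff_mul_le hKpos]
    refine le_trans ?_ (hqD.trans hqq)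
    have e : (2 * m + 8) * K = 200 * (m * (m + 1)) + 800 * (m + 1) := by rw [hK]; ring
    rw [e]
    omega
  have hL1 : 1 ≤ L := by omega
  have hLK2 : q ^ (a - 1) ≤ 2 * K * L := by
    have h1 : q ^ (a - 1) < K * (L + 1) := Nat.lt_mul_div_succ _ hKpos
    have h2 : K * (L + 1) ≤ K * (2 * L) := Nat.mul_le_mul_left _ (by omega)
    have e : K * (2 * L) = 2 * K * L := by ring
    omega
  -- the prime
  obtain ⟨Q, hQp, hQ1, hQ2⟩ := Nat.exists_prime_lt_and_le_two_mul (L / 2) (by omega)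
  have hQL : Q ≤ L := by omega
  have hQ0 : 0 < Q := hQp.pos
  have hQL2 : L ≤ 2 * Q := by omega
  have hKQ : q ^ (a - 1) ≤ 4 * K * Q := by
    refine hLK2.trans ?_
    calc 2 * K * L ≤ 2 * K * (2 * Q) := Nat.mul_le_mul_left _ hQL2
      _ = 4 * K * Q := by ring
  have hn0 : (0 : ℝ) < n := by
    have : 0 < n := by omega
    exact_mod_cast this
  have hqr : (0 : ℝ) < q := by exact_mod_cast hq0
  have hQr : (0 : ℝ) < Q := by exact_mod_cast hQ0
  have hs1r : (n : ℝ) ≤ 4 * (m + 1) * q * s := by exact_mod_cast hs1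
  have hN : ((256 * L ^ 2 : ℕ) : ℝ) ≤ (s : ℝ) ^ 2 / (2 * (n : ℕ)) := by
    rw [le_div_iff₀ (by positivity)]
    have h1 : (n : ℝ) ^ 2 ≤ (4 * (m + 1) * q * s) ^ 2 := pow_le_pow_left₀ hn0.le hs1r 2
    have h2 : ((K * L : ℕ) : ℝ) ^ 2 ≤ ((q ^ (a - 1) : ℕ) : ℝ) ^ 2 :=
      pow_le_pow_left₀ (Nat.cast_nonneg _) (by exact_mod_cast hLK) 2
    have h3 : ((q ^ (a - 1) : ℕ) : ℝ) ^ 2 * (q : ℝ) ^ 2 ≤ n := by
      have : (q ^ (a - 1)) ^ 2 * q ^ 2 ≤ n := by rw [← hqa]; exact hqk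
      exact_mod_cast this
    have h4 : ((K * L : ℕ) : ℝ) ^ 2 * (q : ℝ) ^ 2 ≤ n :=
      (mul_le_mul_of_nonneg_right h2 (by positivity)).trans h3
    have h5 : ((K * L : ℕ) : ℝ) ^ 2 = 10000 * ((m : ℝ) + 1) ^ 2 * (L : ℝ) ^ 2 := by
      rw [hK]; push_cast; ring
    rw [h5] at h4
    have h6 := mul_le_mul_of_nonneg_left h4 hn0.le
    have hpos : (0 : ℝ) < 16 * ((m : ℝ) + 1) ^ 2 * (q : ℝ) ^ 2 := by positivity
    have h7 : (16 * ((m : ℝ) + 1) ^ 2 * (q : ℝ) ^ 2) * (((256 * L ^ 2 : ℕ) : ℝ) * (2 * n)) ≤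
        (16 * ((m : ℝ) + 1) ^ 2 * (q : ℝ) ^ 2) * (s : ℝ) ^ 2 := by
      have e1 : ((256 * L ^ 2 : ℕ) : ℝ) = 256 * (L : ℝ) ^ 2 := by push_cast; ring
      rw [e1]
      have h8 : (0 : ℝ) ≤ n * (((m : ℝ) + 1) ^ 2 * (L : ℝ) ^ 2 * (q : ℝ) ^ 2) := by positivity
      calc (16 * ((m : ℝ) + 1) ^ 2 * (q : ℝ) ^ 2) * ((256 * (L : ℝ) ^ 2) * (2 * n)) =
          8192 * (n * (((m : ℝ) + 1) ^ 2 * (L : ℝ) ^ 2 * (q : ℝ) ^ 2)) := by ring
        _ ≤ 10000 * (n * (((m : ℝ) + 1) ^ 2 * (L : ℝ) ^ 2 * (q : ℝ) ^ 2)) := by linarith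
        _ = n * (10000 * ((m : ℝ) + 1) ^ 2 * (L : ℝ) ^ 2 * (q : ℝ) ^ 2) := by ring
        _ ≤ n * n := h6
        _ = (n : ℝ) ^ 2 := by ring
        _ ≤ (4 * (m + 1) * q * s) ^ 2 := h1
        _ = _ := by ring
    exact le_of_mul_le_mul_left h7 hpos
  -- the exponential
  have hexp : exp (-((s : ℝ) ^ 4 / (1024 * (n : ℕ) ^ 3))) ≤ (3 / 5) ^ q := by
    have h1 : (q : ℝ) ≤ (s : ℝ) ^ 4 / (1024 * (n : ℝ) ^ 3) := by
      rw [le_div_iff₀ (by positivity)]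
      have h2 : (n : ℝ) ^ 4 ≤ (4 * (m + 1) * q * s) ^ 4 := pow_le_pow_left₀ hn0.le hs1r 4
      have h3 : ((D * q : ℕ) : ℝ) * (q : ℝ) ^ 4 ≤ n := by
        have : D * q * q ^ 4 ≤ n := by
          calc D * q * q ^ 4 ≤ q * q * q ^ 4 := Nat.mul_le_mul_right _ (Nat.mul_le_mul_right _ hqD)
            _ = q ^ 6 := by ring
            _ ≤ n := hq6
        exact_mod_cast this
      have h4 : ((D * q : ℕ) : ℝ) = 262144 * ((m : ℝ) + 1) ^ 4 * q := by
        rw [hD]; push_cast; ring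
      rw [h4] at h3
      have h5 := mul_le_mul_of_nonneg_right h3 (show (0 : ℝ) ≤ (n : ℝ) ^ 3 by positivity)
      have hpos : (0 : ℝ) < 256 * ((m : ℝ) + 1) ^ 4 * (q : ℝ) ^ 4 := by positivity
      have h6 : (256 * ((m : ℝ) + 1) ^ 4 * (q : ℝ) ^ 4) * ((q : ℝ) * (1024 * (n : ℝ) ^ 3)) ≤
          (256 * ((m : ℝ) + 1) ^ 4 * (q : ℝ) ^ 4) * (s : ℝ) ^ 4 := by
        calc (256 * ((m : ℝ) + 1) ^ 4 * (q : ℝ) ^ 4) * ((q : ℝ) * (1024 * (n : ℝ) ^ 3)) =
            262144 * ((m : ℝ) + 1) ^ 4 * q * (q : ℝ) ^ 4 * (n : ℝ) ^ 3 := by ring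
          _ ≤ n * (n : ℝ) ^ 3 := h5
          _ = (n : ℝ) ^ 4 := by ring
          _ ≤ (4 * (m + 1) * q * s) ^ 4 := h2
          _ = _ := by ring
      exact le_of_mul_le_mul_left h6 hpos
    calc exp (-((s : ℝ) ^ 4 / (1024 * (n : ℕ) ^ 3))) ≤ exp (-(q : ℝ)) := exp_le_exp.2 (by linarith)
      _ = exp (-1) ^ q := by rw [← Real.exp_nat_mul]; congr 1; ring
      _ ≤ (3 / 5) ^ q := pow_le_pow_left₀ (exp_pos _).le exp_one_le q
  -- the product of the moduli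
  have hprod : (∏ i : Fin (m - 1), Q ^ ((i : ℕ) + 2)) = Q ^ EE m := by
    unfold EE
    rw [Finset.prod_pow_eq_pow_sum]
  have hηt : ∀ t, 2 ≤ t → t ≤ m → (t : ℝ) * (3 / 5 : ℝ) ^ q ≤
      (1 / ((∏ i : Fin (m - 1), Q ^ ((i : ℕ) + 2) : ℕ) : ℝ)) ^ (2 ^ t) := by
    intro t _ htm
    rw [hprod]
    set X : ℝ := (q : ℝ) ^ ((a - 1) * EE m) with hX
    have hPX : ((Q ^ EE m : ℕ) : ℝ) ≤ X := by
      have : Q ^ EE m ≤ q ^ ((a - 1) * EE m) := by
        rw [pow_mul]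
        exact Nat.pow_le_pow_left (hQL.trans hLq) _
      rw [hX]
      exact_mod_cast this
    have hP1 : (1 : ℝ) ≤ ((Q ^ EE m : ℕ) : ℝ) := by
      have : 1 ≤ Q ^ EE m := Nat.one_le_pow _ _ hQ0
      exact_mod_cast this
    have hX1 : 1 ≤ X := hP1.trans hPX
    have e1 : (1 / ((Q ^ EE m : ℕ) : ℝ)) ^ (2 ^ t) = 1 / ((Q ^ EE m : ℕ) : ℝ) ^ (2 ^ t) := by
      rw [div_pow, one_pow]
    rw [e1, le_div_iff₀ (by positivity)]
    have h1 : ((Q ^ EE m : ℕ) : ℝ) ^ (2 ^ t) ≤ X ^ (2 ^ m) :=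
      (pow_le_pow_left₀ (by positivity) hPX _).trans
        (pow_le_pow_right₀ hX1 (Nat.pow_le_pow_right (by norm_num) htm))
    have htmr : (t : ℝ) ≤ m := by exact_mod_cast htm
    calc (t : ℝ) * (3 / 5) ^ q * ((Q ^ EE m : ℕ) : ℝ) ^ (2 ^ t) ≤ m * (3 / 5) ^ q * X ^ (2 ^ m) :=
          mul_le_mul (mul_le_mul_of_nonneg_right htmr (by positivity)) h1 (by positivity) (by positivity)
      _ = (m : ℝ) * X ^ (2 ^ m) * (3 / 5) ^ q := by ring
      _ ≤ 1 := hη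
  have hmain := bound_joint (k := k) (m := m) (R := q) (s := s) (L := L) (Q := Q) hm hq0 hs0
    hL1 hfit hN hQ0 hQL (fun t h1 h2 => coprime_wt hQp (by omega) (by omega) t h1 h2) hηt c
  refine hmain.trans (mul_le_mul_of_nonneg_right ?_ (Nat.cast_nonneg _))
  apply add_le_add
  · exact mul_le_mul_of_nonneg_left hexp (Nat.cast_nonneg _)
  · rw [hprod]
    have h1 : 1 / (Q : ℝ) ≤ 400 * ((m : ℝ) + 1) / (q : ℝ) ^ (a - 1) := by
      rw [div_le_div_iff₀ hQr (by positivity), one_mul]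
      have e : 400 * ((m : ℝ) + 1) * Q = ((4 * K * Q : ℕ) : ℝ) := by rw [hK]; push_cast; ring
      rw [e]
      exact_mod_cast hKQ
    have h2 := pow_le_pow_left₀ (by positivity) h1 (EE m)
    rw [div_pow, one_pow] at h2
    push_cast
    calc 2 / (Q : ℝ) ^ EE m = 2 * (1 / (Q : ℝ) ^ EE m) := by ring
      _ ≤ _ := mul_le_mul_of_nonneg_left h2 (by norm_num)

/-- the root of `n` -/
theorem exists_root (a n : ℕ) (ha : 0 < a) : ∃ q : ℕ, q ^ a ≤ n ∧ n < (q + 1) ^ a := by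
  classical
  set q := Nat.findGreatest (fun q => q ^ a ≤ n) n with hq
  have h1 : q ^ a ≤ n := Nat.findGreatest_spec (P := fun q => q ^ a ≤ n) (Nat.zero_le n) (by
    show 0 ^ a ≤ n
    rw [zero_pow (by omega)]
    exact Nat.zero_le _)
  refine ⟨q, h1, ?_⟩
  by_contra hno
  rw [not_lt] at hno
  have h2 : q + 1 ≤ n := le_trans (Nat.le_self_pow (by omega) _) hno
  exact Nat.findGreatest_is_greatest (P := fun q => q ^ a ≤ n) (Nat.lt_succ_self q) h2 hno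

/-- for large `q` -/
theorem par3 {m a : ℕ} (hm : 2 ≤ m) (ha : 3 ≤ a) : ∃ (q0 : ℕ) (C : ℝ), 1 ≤ q0 ∧ 0 < C ∧ ∀ q : ℕ, q0 ≤ q →
    ∀ k : ℕ, q ^ (2 * a) ≤ 2 * k + 3 → ∀ c : Fin (m - 1) → ℤ,
      ((Finset.univ.filter (fun π : Perm (Fin (2 * k + 3)) =>
        ∀ i : Fin (m - 1), Fm (star k) ((i : ℕ) + 2) (sgn π) = c i)).card : ℝ) ≤
        C / (q : ℝ) ^ ((a - 1) * EE m) * (2 * k + 3).factorial := by
  obtain ⟨q1, hq1⟩ := eventually_le ((a - 1) * EE m * 2 ^ m) m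
  obtain ⟨q2, hq2⟩ := eventually_le ((a - 1) * EE m + 2) (2 * m)
  refine ⟨max (max q1 q2) (262144 * (m + 1) ^ 4), 1 + 2 * (400 * ((m : ℝ) + 1)) ^ EE m, ?_,
    by positivity, ?_⟩
  · have : 1 ≤ 262144 * (m + 1) ^ 4 := Nat.one_le_iff_ne_zero.2 (by positivity)
    exact this.trans (le_max_right _ _)
  intro q hq k hqk c
  have hqD : 262144 * (m + 1) ^ 4 ≤ q := (le_max_right _ _).trans hq
  have hq1' := hq1 q ((le_max_left q1 q2).trans ((le_max_left _ _).trans hq))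
  have hq2' := hq2 q ((le_max_right q1 q2).trans ((le_max_left _ _).trans hq))
  have hq0 : 0 < q := by
    have : 0 < 262144 * (m + 1) ^ 4 := by positivity
    omega
  have hqr : (0 : ℝ) < q := by exact_mod_cast hq0
  refine (par2 hm ha hqD hqk (by rw [← pow_mul]; exact hq1') c).trans
    (mul_le_mul_of_nonneg_right ?_ (Nat.cast_nonneg _))
  have hqp : (0 : ℝ) < (q : ℝ) ^ ((a - 1) * EE m) := by positivity
  rw [add_div]
  apply add_le_add
  · have h1 : ((m * (q * (q + 1)) : ℕ) : ℝ) ≤ 2 * m * (q : ℝ) ^ 2 := by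
      have : m * (q * (q + 1)) ≤ 2 * m * q ^ 2 := by
        calc m * (q * (q + 1)) ≤ m * (q * (2 * q)) := Nat.mul_le_mul_left _ (Nat.mul_le_mul_left _ (by omega))
          _ = 2 * m * q ^ 2 := by ring
      exact_mod_cast this
    rw [le_div_iff₀ hqp]
    have h2 := mul_le_mul_of_nonneg_right h1 (show (0 : ℝ) ≤ (3 / 5 : ℝ) ^ q by positivity)
    refine (mul_le_mul_of_nonneg_right h2 hqp.le).trans (le_trans (le_of_eq ?_) hq2')
    rw [pow_add]
    ring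
  · rw [div_pow, ← pow_mul]
    apply le_of_eq
    ring

/-- the moments of the orders `2, …, m` of the `f`-polynomial of a random petal diagram have given values
with probability `O (n ^ (-(m - 1) (m + 2) / 4 + ε))` -/
theorem moments (m : ℕ) (hm : 2 ≤ m) (ε : ℝ) (hε : 0 < ε) : ∃ C : ℝ, 0 < C ∧ ∀ (k : ℕ)
    (c : Fin (m - 1) → ℤ), ((Finset.univ.filter (fun π : Perm (Fin (2 * k + 3)) =>
      ∀ i : Fin (m - 1), Fm (star k) ((i : ℕ) + 2) (sgn π) = c i)).card : ℝ) ≤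
      C * ((2 * k + 3 : ℕ) : ℝ) ^ (-(((m : ℝ) - 1) * (m + 2) / 4) + ε) * (2 * k + 3).factorial := by
  set W : ℕ := EE m with hW
  have hWr : (W : ℝ) = ((m : ℝ) - 1) * (m + 2) / 2 := by
    obtain ⟨m', rfl⟩ : ∃ m', m = m' + 1 := ⟨m - 1, by omega⟩
    have h := EE_eq m'
    rw [← hW] at h
    have h' : (2 : ℝ) * W = m' * (m' + 3) := by exact_mod_cast h
    push_cast
    linarith
  set a : ℕ := max 3 ⌈(W : ℝ) / (2 * ε)⌉₊ with ha
  have ha3 : 3 ≤ a := le_max_left _ _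
  have har : (0 : ℝ) < a := by
    have : 0 < a := by omega
    exact_mod_cast this
  have hma : (W : ℝ) / (2 * a) ≤ ε := by
    have h1 : (W : ℝ) / (2 * ε) ≤ a := (Nat.le_ceil _).trans (by exact_mod_cast le_max_right _ _)
    rw [div_le_iff₀ (by positivity)] at h1 ⊢
    linarith
  obtain ⟨q0, C, hq0, hC, hmain⟩ := par3 hm ha3
  rw [← hW] at hmain
  set B : ℝ := ((q0 + 1 : ℕ) : ℝ) ^ (2 * a) with hB
  have hB1 : 1 ≤ B := one_le_pow₀ (by push_cast; linarith [(Nat.cast_nonneg q0 : (0 : ℝ) ≤ q0)])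
  set E : ℝ := (((a - 1) * W : ℕ) : ℝ) / (2 * a) with hE
  have hE0 : 0 ≤ E := by positivity
  have hEe : -E ≤ -(((m : ℝ) - 1) * (m + 2) / 4) + ε := by
    have e : (((a - 1) * W : ℕ) : ℝ) = ((a : ℝ) - 1) * W := by
      rw [Nat.cast_mul, Nat.cast_sub (by omega)]
      push_cast
      ring
    have e2 : E = (W : ℝ) / 2 - W / (2 * a) := by
      rw [hE, e]
      field_simp
    have e3 : ((m : ℝ) - 1) * (m + 2) / 4 = W / 2 := by rw [hWr]; ring
    rw [e2, e3]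
    linarith
  refine ⟨max (C * 2 ^ ((a - 1) * W)) (B ^ E), lt_of_lt_of_le (by positivity) (le_max_left _ _), ?_⟩
  intro k c
  set n : ℕ := 2 * k + 3 with hn
  have hn1 : (1 : ℝ) ≤ n := by
    have : 1 ≤ n := by omega
    exact_mod_cast this
  have hX : (n : ℝ) ^ (-E) ≤ (n : ℝ) ^ (-(((m : ℝ) - 1) * (m + 2) / 4) + ε) :=
    Real.rpow_le_rpow_of_exponent_le hn1 hEe
  obtain ⟨q, hq1, hq2⟩ := exists_root (2 * a) n (by omega)
  have hfact : (0 : ℝ) ≤ (n.factorial : ℕ) := Nat.cast_nonneg _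
  rcases Nat.lt_or_ge q q0 with h | h
  · -- small `n`
    have h1 : (n : ℝ) ≤ B := by
      have : n ≤ (q0 + 1) ^ (2 * a) := hq2.le.trans (Nat.pow_le_pow_left (by omega) _)
      rw [hB]
      exact_mod_cast this
    have h2 : B ^ (-E) ≤ (n : ℝ) ^ (-E) :=
      Real.rpow_le_rpow_of_nonpos (by linarith) h1 (by linarith)
    have h3 : 1 ≤ max (C * 2 ^ ((a - 1) * W)) (B ^ E) * (n : ℝ) ^ (-(((m : ℝ) - 1) * (m + 2) / 4) + ε) := by
      have h4 : B ^ E * B ^ (-E) = 1 := by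
        rw [← Real.rpow_add (by linarith)]
        simp
      calc (1 : ℝ) = B ^ E * B ^ (-E) := h4.symm
        _ ≤ max (C * 2 ^ ((a - 1) * W)) (B ^ E) * (n : ℝ) ^ (-(((m : ℝ) - 1) * (m + 2) / 4) + ε) :=
          mul_le_mul (le_max_right _ _) (h2.trans hX) (by positivity)
            (le_trans (by positivity) (le_max_right _ _))
    have h5 : ((Finset.univ.filter (fun π : Perm (Fin n) =>
        ∀ i : Fin (m - 1), Fm (star k) ((i : ℕ) + 2) (sgn π) = c i)).card : ℝ) ≤ n.factorial := by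
      have : (Finset.univ.filter (fun π : Perm (Fin n) =>
          ∀ i : Fin (m - 1), Fm (star k) ((i : ℕ) + 2) (sgn π) = c i)).card ≤ n.factorial := by
        refine (Finset.card_le_univ _).trans ?_
        rw [Fintype.card_perm, Fintype.card_fin]
      exact_mod_cast this
    refine h5.trans ?_
    have := mul_le_mul_of_nonneg_right h3 hfact
    rwa [one_mul] at this
  · -- large `n`
    have h1 := hmain q h k hq1 c
    refine h1.trans (mul_le_mul_of_nonneg_right ?_ hfact)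
    have hqr : (0 : ℝ) < q := by
      have : 0 < q := by omega
      exact_mod_cast this
    have h2 : (n : ℝ) ≤ (2 * q : ℝ) ^ (2 * a) := by
      have : n ≤ (2 * q) ^ (2 * a) := hq2.le.trans (Nat.pow_le_pow_left (by omega) _)
      exact_mod_cast this
    have h3 : ((2 * q : ℝ) ^ (2 * a)) ^ (-E) ≤ (n : ℝ) ^ (-E) :=
      Real.rpow_le_rpow_of_nonpos (by linarith) h2 (by linarith)
    have h4 : ((2 * q : ℝ) ^ (2 * a)) ^ (-E) * (2 * q : ℝ) ^ ((a - 1) * W) = 1 := by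
      rw [← Real.rpow_natCast, ← Real.rpow_mul (by positivity), ← Real.rpow_natCast,
        ← Real.rpow_add (by positivity)]
      have e : ((2 * a : ℕ) : ℝ) * -E + (((a - 1) * W : ℕ) : ℝ) = 0 := by
        rw [hE]
        push_cast
        field_simp
        ring
      rw [e, Real.rpow_zero]
    have h5 : 1 / (q : ℝ) ^ ((a - 1) * W) ≤ 2 ^ ((a - 1) * W) *
        (n : ℝ) ^ (-(((m : ℝ) - 1) * (m + 2) / 4) + ε) := by
      rw [div_le_iff₀ (by positivity)]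
      calc (1 : ℝ) = ((2 * q : ℝ) ^ (2 * a)) ^ (-E) * (2 * q : ℝ) ^ ((a - 1) * W) := h4.symm
        _ ≤ (n : ℝ) ^ (-(((m : ℝ) - 1) * (m + 2) / 4) + ε) * (2 * q : ℝ) ^ ((a - 1) * W) :=
          mul_le_mul_of_nonneg_right (h3.trans hX) (by positivity)
        _ = _ := by rw [mul_pow]; ring
    calc C / (q : ℝ) ^ ((a - 1) * W) = C * (1 / (q : ℝ) ^ ((a - 1) * W)) := by ring
      _ ≤ C * (2 ^ ((a - 1) * W) * (n : ℝ) ^ (-(((m : ℝ) - 1) * (m + 2) / 4) + ε)) :=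
          mul_le_mul_of_nonneg_left h5 hC.le
      _ = C * 2 ^ ((a - 1) * W) * (n : ℝ) ^ (-(((m : ℝ) - 1) * (m + 2) / 4) + ε) := by ring
      _ ≤ _ := mul_le_mul_of_nonneg_right (le_max_left _ _) (by positivity)

end Pool.Agent.NH45.Petal
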