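import Pool.Agent.NH45.Petal.M8

set_option autoImplicit false
set_option linter.unusedSectionVars false

/-! The joint distribution of the moments. -/

namespace Pool.Agent.NH45.Petal

open Finset
open Real (exp)
open Pool.Agent.R811.Cross

section fourier

variable {ι : Type} [Fintype ι] [DecidableEq ι]

theorem phase {R N L : ℕ} (hL : 1 ≤ L) (hN : 256 * L ^ 2 ≤ N)
    (us : List (JJ R N → ι)) (u : JJ R N → ι) (H : (ι → Bool) → ℤ)
    (hinj : ∀ v ∈ u :: us, Function.Injective v)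
    (hpw : List.Pairwise (fun v v' : JJ R N → ι => ∀ c c', v c ≠ v' c') (u :: us))
    (om' : List Bool → ℤ) (h : MD (u :: us) H (fun l => om' (bits l))) (θ : ℝ)
    (hθ : 1 / (16 * (L : ℝ) ^ (us.length + 1)) ≤ nd (θ * (dl us.length om' : ℤ))) {δ : ℝ} (hδ : 0 ≤ δ)
    (hη : (us.length + 1) * (3 / 5 : ℝ) ^ R ≤ δ ^ (2 ^ (us.length + 1))) :
    ‖∑ x, ee (θ * H x)‖ / 2 ^ Fintype.card ι ≤ δ := by
  have h3 := gcs θ us u H _ hinj hpw h
  have h4 := lev (R := R) (N := N) hL hN θ us.length (fun l => om' (bits l))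
    (fun _ => om') (fun _ _ _ => rfl) ⟨0, hθ⟩
  exact le_of_pow_le_pow_left₀ (by positivity) hδ (h3.trans (h4.trans hη))

theorem ee_int (z : ℤ) : ee z = 1 := by
  unfold ee
  rw [Complex.exp_eq_one_iff]
  refine ⟨z, ?_⟩
  push_cast
  ring

theorem ee_nat (t : ℕ) (x : ℝ) : ee (t * x) = ee x ^ t := by
  unfold ee
  rw [← Complex.exp_nat_mul]
  congr 1
  push_cast
  ring

open Classical in
/-- orthogonality -/
theorem orth (q : ℕ) (hq : 0 < q) (z : ℤ) : ∑ t ∈ Finset.range q, ee ((t / q : ℝ) * z) =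
    ((if ee ((z : ℝ) / q) = 1 then (q : ℝ) else 0 : ℝ) : ℂ) := by
  have hqr : (q : ℝ) ≠ 0 := by
    have : (0 : ℝ) < q := by exact_mod_cast hq
    exact this.ne'
  have h1 : ∀ t ∈ Finset.range q, ee ((t / q : ℝ) * z) = ee ((z : ℝ) / q) ^ t := by
    intro t _
    rw [← ee_nat]
    congr 1
    ring
  rw [Finset.sum_congr rfl h1]
  split_ifs with h
  · rw [h]
    simp
  · rw [geom_sum_eq h, ← ee_nat]
    have e : (q : ℝ) * ((z : ℝ) / q) = z := by field_simp
    rw [e, ee_int, sub_self, zero_div]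
    simp

/-- Fourier analysis of several functions -/
theorem fourierN {I : Type} [Fintype I] [DecidableEq I] (q : I → ℕ) (hq : ∀ i, 0 < q i)
    (F : I → (ι → Bool) → ℤ) (c : I → ℤ) [DecidablePred (fun x : ι → Bool => ∀ i, F i x = c i)]
    (δ : ℝ) (hδ0 : 0 ≤ δ) (h : ∀ τ : I → ℕ, (∀ i, τ i < q i) → (∃ i, τ i ≠ 0) →
      ‖∑ x, ee (∑ i, (τ i / q i : ℝ) * F i x)‖ / 2 ^ Fintype.card ι ≤ δ)
    (hδ : δ * ((∏ i, q i : ℕ) : ℝ) ≤ 1) :
    (∏ i, q i) * (Finset.univ.filter (fun x => ∀ i, F i x = c i)).card ≤ 2 * 2 ^ Fintype.card ι := by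
  classical
  set P : ℕ := ∏ i, q i with hP
  set T : Finset (I → ℕ) := Fintype.piFinset (fun i => Finset.range (q i)) with hT
  have hTcard : T.card = P := by
    rw [hT, Fintype.card_piFinset]
    simp [hP]
  -- the indicator
  have h1 : ∀ x : ι → Bool, ∑ τ ∈ T, ee (∑ i, (τ i / q i : ℝ) * ((F i x - c i : ℤ) : ℝ)) =
      ((∏ i, (if ee (((F i x - c i : ℤ) : ℝ) / q i) = 1 then (q i : ℝ) else 0) : ℝ) : ℂ) := by
    intro x
    have h2 := Finset.prod_univ_sum (fun i => Finset.range (q i))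
      (fun i t => ee ((t / q i : ℝ) * ((F i x - c i : ℤ) : ℝ)))
    rw [Complex.ofReal_prod]
    rw [Finset.prod_congr rfl (fun i _ => (orth (q i) (hq i) (F i x - c i)).symm), h2]
    refine Finset.sum_congr rfl fun τ _ => ?_
    rw [ee_sum]
  have h2 : ((P * (Finset.univ.filter (fun x => ∀ i, F i x = c i)).card : ℕ) : ℝ) ≤
      ‖∑ x : ι → Bool, ∑ τ ∈ T, ee (∑ i, (τ i / q i : ℝ) * ((F i x - c i : ℤ) : ℝ))‖ := by
    rw [Finset.sum_congr rfl (fun x _ => h1 x), ← Complex.ofReal_sum, Complex.norm_real, Real.norm_eq_abs]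
    refine le_trans ?_ (le_abs_self _)
    have h3 : ∀ x : ι → Bool, (if x ∈ Finset.univ.filter (fun x => ∀ i, F i x = c i) then (P : ℝ) else 0) ≤
        ∏ i, (if ee (((F i x - c i : ℤ) : ℝ) / q i) = 1 then (q i : ℝ) else 0) := by
      intro x
      split_ifs with hx
      · rw [Finset.mem_filter] at hx
        rw [hP]
        push_cast
        apply le_of_eq
        refine Finset.prod_congr rfl fun i _ => ?_
        rw [hx.2 i, if_pos]
        simp [ee_zero]
      · refine Finset.prod_nonneg fun i _ => ?_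
        split_ifs
        · exact Nat.cast_nonneg _
        · exact le_refl _
    refine le_trans (le_of_eq ?_) (Finset.sum_le_sum fun x _ => h3 x)
    rw [Finset.sum_ite_mem, Finset.univ_inter, Finset.sum_const, nsmul_eq_mul]
    push_cast
    ring
  rw [Finset.sum_comm] at h2
  have h3 : ∀ τ ∈ T, ‖∑ x : ι → Bool, ee (∑ i, (τ i / q i : ℝ) * ((F i x - c i : ℤ) : ℝ))‖ ≤
      (if τ = 0 then 2 ^ Fintype.card ι else 0) + 2 ^ Fintype.card ι * δ := by
    intro τ hτ
    rw [hT, Fintype.mem_piFinset] at hτ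
    have h4 : ∀ x : ι → Bool, ee (∑ i, (τ i / q i : ℝ) * ((F i x - c i : ℤ) : ℝ)) =
        ee (∑ i, (τ i / q i : ℝ) * (-c i)) * ee (∑ i, (τ i / q i : ℝ) * F i x) := by
      intro x
      rw [← ee_add, ← Finset.sum_add_distrib]
      congr 1
      refine Finset.sum_congr rfl fun i _ => ?_
      push_cast
      ring
    rw [Finset.sum_congr rfl (fun x _ => h4 x), ← Finset.mul_sum, norm_mul, norm_ee, one_mul]
    have hpos : (0 : ℝ) < 2 ^ Fintype.card ι := by positivity
    by_cases h0 : τ = 0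
    · rw [if_pos h0]
      have h6 : ‖∑ x : ι → Bool, ee (∑ i, (τ i / q i : ℝ) * F i x)‖ ≤ 2 ^ Fintype.card ι := by
        refine (norm_sum_le _ _).trans (le_of_eq ?_)
        rw [Finset.sum_congr rfl (fun x _ => norm_ee _), Finset.sum_const, nsmul_eq_mul, card_cubeR, mul_one]
      have : (0 : ℝ) ≤ 2 ^ Fintype.card ι * δ := by positivity
      linarith
    · rw [if_neg h0, zero_add]
      have h6 : ∃ i, τ i ≠ 0 := by
        by_contra hno
        push Not at hno
        exact h0 (funext hno)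
      have h7 := h τ (fun i => Finset.mem_range.1 (hτ i)) h6
      rw [div_le_iff₀ hpos] at h7
      linarith
  have h4 : ‖∑ τ ∈ T, ∑ x : ι → Bool, ee (∑ i, (τ i / q i : ℝ) * ((F i x - c i : ℤ) : ℝ))‖ ≤
      2 ^ Fintype.card ι + P * (2 ^ Fintype.card ι * δ) := by
    refine (norm_sum_le _ _).trans ((Finset.sum_le_sum h3).trans ?_)
    rw [Finset.sum_add_distrib, Finset.sum_const, hTcard, nsmul_eq_mul, Finset.sum_ite_eq' T 0]
    have : (if (0 : I → ℕ) ∈ T then (2 : ℝ) ^ Fintype.card ι else 0) ≤ 2 ^ Fintype.card ι := by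
      split_ifs
      · exact le_refl _
      · positivity
    linarith
  have h5 : ((P * (Finset.univ.filter (fun x => ∀ i, F i x = c i)).card : ℕ) : ℝ) ≤
      ((2 * 2 ^ Fintype.card ι : ℕ) : ℝ) := by
    refine h2.trans (h4.trans ?_)
    have hpos : (0 : ℝ) < 2 ^ Fintype.card ι := by positivity
    have := mul_le_mul_of_nonneg_left hδ hpos.le
    push_cast
    nlinarith
  exact_mod_cast h5

theorem MD_sum {J : Type} [Fintype J] [DecidableEq J] {I : Type} (s : Finset I) (us : List (J → ι))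
    (a : I → ℤ) (H : I → (ι → Bool) → ℤ) (w : I → List J → ℤ) (h : ∀ i ∈ s, MD us (H i) (w i)) :
    MD us (fun x => ∑ i ∈ s, a i * H i x) (fun l => ∑ i ∈ s, a i * w i l) := by
  classical
  induction s using Finset.induction_on with
  | empty =>
    refine MD_congr us _ _ _ _ (fun x => ?_) (fun l => ?_) (MD_zero us)
    · simp
    · simp
  | insert i s hi ih =>
    refine MD_congr us _ _ _ _ (fun x => ?_) (fun l => ?_)
      (MD_add us _ _ _ _ (MD_mul (a i) us _ _ (h i (by simp)))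
        (ih (fun j hj => h j (Finset.mem_insert_of_mem hj))))
    · rw [Finset.sum_insert hi]
    · rw [Finset.sum_insert hi]

end fourier

/-- mixed differences of high order vanish -/
theorem Ev_low {n : ℕ} (G : Shadow n) {o : ℕ} {l : List (Fin n)} (h : o < l.length) (s : Fin n → Bool) :
    Ev G o l s = 0 := by
  unfold Ev
  have h1 := Pool.Agent.H832R3.VJ.singF_dvd [] (rest G l s) (l.map G.crossing)
  rw [List.length_map] at h1
  obtain ⟨Y, hY⟩ := h1
  rw [hY]
  exact Pool.Agent.H832R3.VJ.V7.moment_pow_mul l.length Y o h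

namespace Sel

variable {k m R N s : ℕ} {π : Equiv.Perm (Fin (2 * k + 3))} (Z : Sel m R N s π)

/-- the mixed differences of the moment of order `o` with respect to `t ≥ o` groups -/
theorem MD_gen (hk : 0 < k) {o t : ℕ} (ho : 0 < o) (hot : o ≤ t) (ht : t ≤ m) : ∀ (r i : ℕ)
    (pre : List (JJ R N)) (_ : i + r = t) (_ : pre.length = i), MD ((List.range' i r).map Z.u)
      (fun x => Ev (star k) o (Z.crs 0 pre).reverse (Z.sig x))
      (fun l => if o = t then wt t (bits (pre ++ l)) else 0) := by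
  intro r
  induction r with
  | zero =>
    intro i pre him hpre x
    rw [add_zero] at him
    show Ev (star k) o (Z.crs 0 pre).reverse (Z.sig x) = if o = t then wt t (bits (pre ++ [])) else 0
    rw [List.append_nil]
    by_cases hot' : o = t
    · rw [if_pos hot']
      subst hot'
      obtain ⟨c, l, rfl⟩ : ∃ c l, pre = c :: l := by
        cases pre with
        | nil => exfalso; simp at hpre; omega
        | cons c l => exact ⟨c, l, rfl⟩
      rw [List.length_cons] at hpre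
      rw [Ev_perm (star k) o (List.reverse_perm _)]
      have hn : 0 < (2 * k + 3) * k := by positivity
      have h1 := mixed (star k) hn (Z.cr 0 c) (Z.crs 1 l) (bits (c :: l)) (Z.chain_crs l 0 c (by omega))
        (Z.nodup_crs (c :: l) 0 (by rw [List.length_cons]; omega)) (Z.sig x)
      rw [Z.length_crs, hpre, him] at h1
      have e : Z.crs 0 (c :: l) = Z.cr 0 c :: Z.crs 1 l := rfl
      rw [e]
      have h2 : 2 * Ev (star k) o (Z.cr 0 c :: Z.crs 1 l) (Z.sig x) = 2 * wt o (bits (c :: l)) := by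
        rw [h1]
        unfold wt
        obtain ⟨o', rfl⟩ : ∃ o', o = o' + 1 := ⟨o - 1, by omega⟩
        rw [Nat.add_sub_cancel, pow_succ]
        ring
      linarith
    · rw [if_neg hot']
      apply Ev_low
      rw [List.length_reverse, Z.length_crs]
      omega
  | succ r ih =>
    intro i pre him hpre
    rw [List.range'_succ, List.map_cons]
    intro c
    have h1 := ih (i + 1) (pre ++ [c]) (by omega) (by rw [List.length_append, hpre]; rfl)
    refine MD_congr _ _ _ _ _ (fun x => ?_) (fun l => ?_) h1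
    · rw [Z.crs_append, List.reverse_append, List.reverse_singleton, List.singleton_append, hpre, zero_add]
      have hnot : Z.cr i c ∉ (Z.crs 0 pre).reverse := by
        rw [List.mem_reverse]
        intro h
        obtain ⟨i', c', h2, h3, h4⟩ := Z.mem_crs _ _ _ h
        have := (Z.cr_inj (by omega) (by omega) _ _ h4).1
        omega
      rw [← Ev_cons (star k) o hnot]
      unfold D
      beta_reduce
      rw [Z.sig_upd (by omega), Z.sig_upd (by omega)]
    · rw [List.append_assoc, List.singleton_append]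

/-- the exponential sums -/
theorem phase_sel {L Q : ℕ} (hL : 1 ≤ L) (hN : 256 * L ^ 2 ≤ N) (hk : 0 < k) (hQ0 : 0 < Q) (hQ : Q ≤ L)
    (hcop : ∀ t, 2 ≤ t → t ≤ m → IsCoprime (Q : ℤ) (dl (t - 1) (wt t))) {δ : ℝ} (hδ : 0 ≤ δ)
    (hη : ∀ t, 2 ≤ t → t ≤ m → (t : ℝ) * (3 / 5 : ℝ) ^ R ≤ δ ^ (2 ^ t))
    (τ : Fin (m - 1) → ℕ) (hτ : ∀ i, τ i < Q ^ ((i : ℕ) + 2)) (hne : ∃ i, τ i ≠ 0) :
    ‖∑ x : Fin (k + 1) → Bool, ee (∑ i, (τ i / (Q ^ ((i : ℕ) + 2) : ℕ) : ℝ) *
      Fm (star k) ((i : ℕ) + 2) (Z.sig x))‖ / 2 ^ Fintype.card (Fin (k + 1)) ≤ δ := by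
  classical
  -- the largest order
  obtain ⟨i0, hi0, hmax⟩ : ∃ i0, τ i0 ≠ 0 ∧ ∀ i, i0 < i → τ i = 0 := by
    obtain ⟨i, hi⟩ := hne
    have hs : (Finset.univ.filter (fun i => τ i ≠ 0)).Nonempty := ⟨i, by simp [hi]⟩
    refine ⟨(Finset.univ.filter (fun i => τ i ≠ 0)).max' hs,
      (Finset.mem_filter.1 (Finset.max'_mem _ hs)).2, fun j hj => ?_⟩
    by_contra hno
    have := Finset.le_max' (Finset.univ.filter (fun i => τ i ≠ 0)) j (by simp [hno])
    exact absurd hj (not_lt.2 this)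
  set t : ℕ := (i0 : ℕ) + 2 with ht
  have hi0m := i0.2
  have htm : t ≤ m := by omega
  set S : Finset (Fin (m - 1)) := Finset.univ.filter (fun i => i ≤ i0) with hS
  set a : Fin (m - 1) → ℤ := fun i => (τ i : ℤ) * (Q : ℤ) ^ (m - ((i : ℕ) + 2)) with ha
  set H : (Fin (k + 1) → Bool) → ℤ := fun x => ∑ i ∈ S, a i * Fm (star k) ((i : ℕ) + 2) (Z.sig x) with hH
  have hQr : (0 : ℝ) < Q := by exact_mod_cast hQ0
  have hphase : ∀ x, ∑ i, (τ i / (Q ^ ((i : ℕ) + 2) : ℕ) : ℝ) * Fm (star k) ((i : ℕ) + 2) (Z.sig x) =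
      (1 / (Q : ℝ) ^ m) * H x := by
    intro x
    rw [hH]
    push_cast
    rw [Finset.mul_sum, hS, Finset.sum_filter]
    refine Finset.sum_congr rfl fun i _ => ?_
    split_ifs with hi
    · rw [ha]
      have him := i.2
      have e : (Q : ℝ) ^ m = (Q : ℝ) ^ ((i : ℕ) + 2) * (Q : ℝ) ^ (m - ((i : ℕ) + 2)) := by
        rw [← pow_add]; congr 1; omega
      push_cast
      rw [e]
      field_simp
    · rw [hmax i (not_le.1 hi)]
      simp
  rw [Finset.sum_congr rfl (fun x _ => by rw [hphase x])]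
  -- the mixed differences
  have hMDi : ∀ i ∈ S, MD ((List.range' 0 t).map Z.u) (fun x => Fm (star k) ((i : ℕ) + 2) (Z.sig x))
      (fun l => if (i : ℕ) + 2 = t then wt t (bits l) else 0) := by
    intro i hi
    have h1 := Z.MD_gen hk (o := (i : ℕ) + 2) (t := t) (by omega) (by
      have h2 := (Finset.mem_filter.1 hi).2
      rw [Fin.le_def] at h2
      omega) htm t 0 [] (by omega) rfl
    have e : Ev (star k) ((i : ℕ) + 2) (Z.crs 0 []).reverse = Fm (star k) ((i : ℕ) + 2) := Ev_nil _ _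
    rw [e] at h1
    exact h1
  have hMD := MD_sum S _ a _ _ hMDi
  have hw : ∀ l : List (JJ R N), ∑ i ∈ S, a i * (if (i : ℕ) + 2 = t then wt t (bits l) else 0) =
      a i0 * wt t (bits l) := by
    intro l
    rw [Finset.sum_eq_single i0]
    · rw [if_pos rfl]
    · intro i _ hne'
      rw [if_neg, mul_zero]
      intro h
      exact hne' (Fin.ext (by omega))
    · intro h
      exact absurd (by simp [hS]) h
  have hMD2 : MD ((List.range' 0 t).map Z.u) H (fun l => (fun es => a i0 * wt t es) (bits l)) :=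
    MD_congr _ _ _ _ _ (fun _ => rfl) hw hMD
  obtain ⟨t', ht'⟩ : ∃ t', t = t' + 1 := ⟨(i0 : ℕ) + 1, by omega⟩
  rw [ht', List.range'_succ, List.map_cons, ← ht'] at hMD2
  have hlen : ((List.range' (0 + 1) t').map Z.u).length = t' := by
    rw [List.length_map, List.length_range']
  have hinj : ∀ v ∈ Z.u 0 :: (List.range' (0 + 1) t').map Z.u, Function.Injective v := by
    intro v hv
    rw [List.mem_cons, List.mem_map] at hv
    rcases hv with rfl | ⟨i, hi, rfl⟩
    · intro c c' h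
      exact (Z.u_inj (by omega) (by omega) c c' h).2
    · rw [List.mem_range'_1] at hi
      intro c c' h
      exact (Z.u_inj (by omega) (by omega) c c' h).2
  have hpw : List.Pairwise (fun v v' : JJ R N → Fin (k + 1) => ∀ c c', v c ≠ v' c')
      (Z.u 0 :: (List.range' (0 + 1) t').map Z.u) := by
    rw [← List.map_cons, ← List.range'_succ (s := 0), List.pairwise_map]
    refine List.Pairwise.imp_of_mem ?_ List.pairwise_lt_range'
    intro i j hi hj hij c c' h
    rw [List.mem_range'_1] at hi hj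
    have := (Z.u_inj (by omega) (by omega) c c' h).1
    omega
  have hdl : dl t' (fun es => a i0 * wt t es) = a i0 * dl (t - 1) (wt t) := by
    rw [dl_mul, ht', Nat.add_sub_cancel]
  refine phase (R := R) (N := N) hL hN _ _ H hinj hpw (fun es => a i0 * wt t es) hMD2 (1 / (Q : ℝ) ^ m)
    ?_ hδ ?_
  · rw [hlen, hdl]
    have hndvd : ¬ (((Q ^ t : ℕ) : ℤ)) ∣ (τ i0 : ℤ) * dl (t - 1) (wt t) := by
      intro hdvd
      have h1 : IsCoprime (((Q ^ t : ℕ) : ℤ)) (dl (t - 1) (wt t)) := by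
        push_cast
        exact (hcop t (by omega) htm).pow_left
      have h2 := h1.dvd_of_dvd_mul_right hdvd
      have h3 : Q ^ t ∣ τ i0 := by exact_mod_cast h2
      have h4 := Nat.le_of_dvd (Nat.pos_of_ne_zero hi0) h3
      have h5 : τ i0 < Q ^ t := hτ i0
      omega
    have h1 := nd_frac (M := Q ^ t) (by positivity) hndvd
    have e : 1 / (Q : ℝ) ^ m * ((a i0 * dl (t - 1) (wt t) : ℤ) : ℝ) =
        (((τ i0 : ℤ) * dl (t - 1) (wt t) : ℤ) : ℝ) / ((Q ^ t : ℕ) : ℝ) := by
      have e2 : (Q : ℝ) ^ m = (Q : ℝ) ^ t * (Q : ℝ) ^ (m - t) := by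
        rw [← pow_add]; congr 1; omega
      have e3 : a i0 = (τ i0 : ℤ) * (Q : ℤ) ^ (m - t) := rfl
      rw [e3]
      push_cast
      rw [e2]
      field_simp
    rw [e]
    refine le_trans ?_ h1
    apply one_div_le_one_div_of_le (by positivity)
    rw [← ht']
    have h2 : Q ^ t ≤ 16 * L ^ t :=
      (Nat.pow_le_pow_left hQ t).trans (Nat.le_mul_of_pos_left _ (by norm_num))
    exact_mod_cast h2
  · rw [hlen]
    have h1 := hη t (by omega) htm
    rw [ht'] at h1
    push_cast at h1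
    exact h1

include Z in
theorem count_joint {L Q : ℕ} (hL : 1 ≤ L) (hN : 256 * L ^ 2 ≤ N) (hk : 0 < k) (hQ0 : 0 < Q) (hQ : Q ≤ L)
    (hcop : ∀ t, 2 ≤ t → t ≤ m → IsCoprime (Q : ℤ) (dl (t - 1) (wt t)))
    (hη : ∀ t, 2 ≤ t → t ≤ m → (t : ℝ) * (3 / 5 : ℝ) ^ R ≤
      (1 / ((∏ i : Fin (m - 1), Q ^ ((i : ℕ) + 2) : ℕ) : ℝ)) ^ (2 ^ t)) (c : Fin (m - 1) → ℤ) :
    (∏ i : Fin (m - 1), Q ^ ((i : ℕ) + 2)) * (Finset.univ.filter (fun x : Fin (k + 1) → Bool =>
      ∀ i : Fin (m - 1), Fm (star k) ((i : ℕ) + 2) (sgn (swP x * π)) = c i)).card ≤ 2 * 2 ^ (k + 1) := by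
  classical
  set P : ℕ := ∏ i : Fin (m - 1), Q ^ ((i : ℕ) + 2) with hP
  have hPpos : 0 < P := Finset.prod_pos fun i _ => by positivity
  have hPr : (0 : ℝ) < P := by exact_mod_cast hPpos
  have h2 := fourierN (ι := Fin (k + 1)) (fun i : Fin (m - 1) => Q ^ ((i : ℕ) + 2)) (fun i => by positivity)
    (fun i x => Fm (star k) ((i : ℕ) + 2) (Z.sig x)) c (1 / (P : ℝ)) (by positivity)
    (fun τ hτ hne => Z.phase_sel hL hN hk hQ0 hQ hcop (by positivity) hη τ hτ hne) (by
      rw [← hP]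
      apply le_of_eq
      field_simp)
  rw [Fintype.card_fin] at h2
  refine le_trans (le_of_eq (congrArg (fun z => P * z) ?_)) h2
  have e : Function.Involutive (fun (x : Fin (k + 1) → Bool) (e : Fin (k + 1)) => xor (x e) (Z.tau e)) := by
    intro x
    funext e
    show xor (xor (x e) (Z.tau e)) (Z.tau e) = x e
    cases x e <;> cases Z.tau e <;> rfl
  refine Finset.card_bij (fun x _ => (fun e => xor (x e) (Z.tau e))) ?_ ?_ ?_
  · intro x hx
    have hx' := (Finset.mem_filter.1 hx).2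
    refine Finset.mem_filter.2 ⟨Finset.mem_univ _, fun i => ?_⟩
    unfold sig
    have e2 : (fun e => xor (xor (x e) (Z.tau e)) (Z.tau e)) = x := e x
    rw [e2]
    exact hx' i
  · intro x _ x' _ h
    exact e.injective h
  · intro x hx
    have hx' := (Finset.mem_filter.1 hx).2
    exact ⟨fun e => xor (x e) (Z.tau e), Finset.mem_filter.2 ⟨Finset.mem_univ _, hx'⟩, e x⟩

end Sel

end Pool.Agent.NH45.Petal
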