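import Pool.Agent.NH45.Petal.M10

set_option autoImplicit false

/-! The number of the moments grows with the number of the petals. -/

namespace Pool.Agent.NH45.Petal

open Finset Equiv
open Real (exp log)
open Pool.Agent.H891R2.Jones Pool.Agent.R811.Cross Pool.Agent.H832R3.VJ

theorem ten_cube (m : ℕ) (hm : 18 ≤ m) : 10 * m ^ 3 ≤ 2 ^ m := by
  induction m, hm using Nat.le_induction with
  | base => norm_num
  | succ m hm ih =>
    have h1 : 18 * m ^ 2 ≤ m ^ 3 := by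
      calc 18 * m ^ 2 ≤ m * m ^ 2 := Nat.mul_le_mul_right _ hm
        _ = m ^ 3 := by ring
    have h2 : 18 * m ≤ m ^ 2 := by
      calc 18 * m ≤ m * m := Nat.mul_le_mul_right _ hm
        _ = m ^ 2 := by ring
    have e : (m + 1) ^ 3 = m ^ 3 + 3 * m ^ 2 + 3 * m + 1 := by ring
    have e2 : 2 ^ (m + 1) = 2 * 2 ^ m := by ring
    omega

theorem fourth (m : ℕ) (hm : 18 ≤ m) : 262144 * (m + 1) ^ 4 ≤ 4 ^ m := by
  induction m, hm using Nat.le_induction with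
  | base => norm_num
  | succ m hm ih =>
    have h0 : 18 * m ^ 3 ≤ m ^ 4 := by
      calc 18 * m ^ 3 ≤ m * m ^ 3 := Nat.mul_le_mul_right _ hm
        _ = m ^ 4 := by ring
    have h1 : 18 * m ^ 2 ≤ m ^ 3 := by
      calc 18 * m ^ 2 ≤ m * m ^ 2 := Nat.mul_le_mul_right _ hm
        _ = m ^ 3 := by ring
    have h2 : 18 * m ≤ m ^ 2 := by
      calc 18 * m ≤ m * m := Nat.mul_le_mul_right _ hm
        _ = m ^ 2 := by ring
    have e : (m + 1 + 1) ^ 4 = m ^ 4 + 8 * m ^ 3 + 24 * m ^ 2 + 32 * m + 16 := by ring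
    have e' : (m + 1) ^ 4 = m ^ 4 + 4 * m ^ 3 + 6 * m ^ 2 + 4 * m + 1 := by ring
    have e2 : 4 ^ (m + 1) = 4 * 4 ^ m := by ring
    rw [e'] at ih
    rw [e, e2]
    omega

theorem three_fifths (m : ℕ) (hm : 1 ≤ m) : ((3 : ℝ) / 5) ^ (4 ^ m) ≤ (1 / 2) ^ (2 ^ (2 * m - 1)) := by
  have e : 4 ^ m = 2 * 2 ^ (2 * m - 1) := by
    rw [← pow_succ']
    have : 2 * m - 1 + 1 = 2 * m := by omega
    rw [this, pow_mul]
    norm_num
  rw [e, pow_mul]
  apply pow_le_pow_left₀ (by norm_num)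
  norm_num

theorem small_m {m k : ℕ} (hm : 18 ≤ m) (hmk : 4096 ^ m ≤ 2 * k + 3) (c : Fin (m - 1) → ℤ) :
    ((Finset.univ.filter (fun π : Perm (Fin (2 * k + 3)) =>
      ∀ i : Fin (m - 1), Fm (star k) ((i : ℕ) + 2) (sgn π) = c i)).card : ℝ) ≤
      3 * (1 / 2) ^ m ^ 3 * (2 * k + 3).factorial := by
  have h10 := ten_cube m hm
  have h4 := fourth m hm
  have hEE : 2 * EE m = m ^ 2 + m - 2 := by
    obtain ⟨m', rfl⟩ : ∃ m', m = m' + 1 := ⟨m - 1, by omega⟩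
    have h := EE_eq m'
    rw [h]
    have : (m' + 1) ^ 2 + (m' + 1) - 2 = m' * (m' + 3) := by
      have e : (m' + 1) ^ 2 + (m' + 1) = m' * (m' + 3) + 2 := by ring
      omega
    exact this.symm
  have hm2 : 18 * m ≤ m ^ 2 := by
    calc 18 * m ≤ m * m := Nat.mul_le_mul_right _ hm
      _ = m ^ 2 := by ring
  have hm3 : 18 * m ^ 2 ≤ m ^ 3 := by
    calc 18 * m ^ 2 ≤ m * m ^ 2 := Nat.mul_le_mul_right _ hm
      _ = m ^ 3 := by ring
  have hpow : 2 ^ (2 * m - 1) = 2 ^ (m - 1) * 2 ^ m := by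
    rw [← pow_add]; congr 1; omega
  have hpow1 : 2 * 2 ^ (m - 1) = 2 ^ m := by
    rw [← pow_succ']; congr 1; omega
  have h35 := three_fifths m (by omega)
  have hq : ((4 ^ m : ℕ) : ℝ) = 2 ^ (2 * m) := by
    push_cast
    rw [pow_mul]; norm_num
  have hlt : m ≤ 2 ^ m := Nat.lt_two_pow_self.le
  have hltr : (m : ℝ) ≤ 2 ^ m := by exact_mod_cast hlt
  have half : ∀ {u v : ℕ}, u ≤ v → (2 : ℝ) ^ u * (1 / 2) ^ v ≤ 1 := by
    intro u v huv
    calc (2 : ℝ) ^ u * (1 / 2) ^ v ≤ 2 ^ u * (1 / 2) ^ u :=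
          mul_le_mul_of_nonneg_left (pow_le_pow_of_le_one (by norm_num) (by norm_num) huv) (by positivity)
      _ = 1 := by rw [← mul_pow]; norm_num
  have hη : (m : ℝ) * (((4 ^ m : ℕ) : ℝ) ^ ((3 - 1) * EE m)) ^ (2 ^ m) * (3 / 5) ^ (4 ^ m) ≤ 1 := by
    rw [hq, ← pow_mul, ← pow_mul, ← mul_assoc (2 * m)]
    have hle : 2 * m * ((3 - 1) * EE m) * 2 ^ m + m ≤ 2 ^ (2 * m - 1) := by
      have h1 : (3 - 1) * EE m ≤ m ^ 2 + m := by omega
      have h2 : 2 * m * ((3 - 1) * EE m) + m ≤ 5 * m ^ 3 := by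
        calc 2 * m * ((3 - 1) * EE m) + m ≤ 2 * m * (m ^ 2 + m) + m :=
              Nat.add_le_add_right (Nat.mul_le_mul_left _ h1) _
          _ = 2 * m ^ 3 + 2 * m ^ 2 + m := by ring
          _ ≤ 5 * m ^ 3 := by omega
      have h3 : 5 * m ^ 3 ≤ 2 ^ (m - 1) := by omega
      rw [hpow]
      calc 2 * m * ((3 - 1) * EE m) * 2 ^ m + m ≤ 2 * m * ((3 - 1) * EE m) * 2 ^ m + m * 2 ^ m :=
            Nat.add_le_add_left (Nat.le_mul_of_pos_right _ (by positivity)) _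
        _ = (2 * m * ((3 - 1) * EE m) + m) * 2 ^ m := by ring
        _ ≤ 2 ^ (m - 1) * 2 ^ m := Nat.mul_le_mul_right _ (h2.trans h3)
    calc (m : ℝ) * 2 ^ (2 * m * ((3 - 1) * EE m) * 2 ^ m) * (3 / 5) ^ (4 ^ m) ≤
          2 ^ m * 2 ^ (2 * m * ((3 - 1) * EE m) * 2 ^ m) * (1 / 2) ^ (2 ^ (2 * m - 1)) := by
          gcongr
      _ = 2 ^ (2 * m * ((3 - 1) * EE m) * 2 ^ m + m) * (1 / 2) ^ (2 ^ (2 * m - 1)) := by
          rw [pow_add]; ring
      _ ≤ 1 := half hle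
  have hqk : (4 ^ m) ^ (2 * 3) ≤ 2 * k + 3 := by
    refine le_trans (le_of_eq ?_) hmk
    rw [← pow_mul, mul_comm m, pow_mul]
    norm_num
  refine (par2 (a := 3) (q := 4 ^ m) (by omega) le_rfl h4 hqk hη c).trans
    (mul_le_mul_of_nonneg_right ?_ (Nat.cast_nonneg _))
  have hsplit : (3 : ℝ) * (1 / 2) ^ m ^ 3 = (1 / 2) ^ m ^ 3 + 2 * (1 / 2) ^ m ^ 3 := by ring
  rw [hsplit]
  apply add_le_add
  · -- the first term
    have hle : 5 * m + 1 + m ^ 3 ≤ 2 ^ (2 * m - 1) := by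
      have h1 : 5 * m + 1 + m ^ 3 ≤ 10 * m ^ 3 := by omega
      have h2 : 2 ^ m ≤ 2 ^ (2 * m - 1) := Nat.pow_le_pow_right (by norm_num) (by omega)
      omega
    have h1 : ((m * (4 ^ m * (4 ^ m + 1)) : ℕ) : ℝ) ≤ 2 ^ (5 * m + 1) := by
      have : m * (4 ^ m * (4 ^ m + 1)) ≤ 2 ^ (5 * m + 1) := by
        have h5 : 1 ≤ 4 ^ m := Nat.one_le_pow _ _ (by norm_num)
        calc m * (4 ^ m * (4 ^ m + 1)) ≤ 2 ^ m * (4 ^ m * (2 * 4 ^ m)) :=
              Nat.mul_le_mul hlt (Nat.mul_le_mul_left _ (by omega))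
          _ = 2 ^ (5 * m + 1) := by
              have e4 : (4 : ℕ) ^ m = 2 ^ (2 * m) := by rw [pow_mul]; norm_num
              rw [e4]
              rw [← pow_succ', ← pow_add, ← pow_add]
              congr 1
              ring
      exact_mod_cast this
    calc ((m * (4 ^ m * (4 ^ m + 1)) : ℕ) : ℝ) * (3 / 5) ^ (4 ^ m) ≤
          2 ^ (5 * m + 1) * (1 / 2) ^ (2 ^ (2 * m - 1)) :=
          mul_le_mul h1 h35 (by positivity) (by positivity)
      _ ≤ 2 ^ (5 * m + 1) * (1 / 2) ^ (5 * m + 1 + m ^ 3) :=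
          mul_le_mul_of_nonneg_left (pow_le_pow_of_le_one (by norm_num) (by norm_num) hle) (by positivity)
      _ = (2 ^ (5 * m + 1) * (1 / 2) ^ (5 * m + 1)) * (1 / 2) ^ m ^ 3 := by rw [pow_add]; ring
      _ = (1 / 2) ^ m ^ 3 := by rw [← mul_pow]; norm_num
  · apply mul_le_mul_of_nonneg_left _ (by norm_num)
    have h400 : 400 * (m + 1) ≤ 4 ^ m := by
      have h1 : m + 1 ≤ (m + 1) ^ 4 := Nat.le_self_pow (by norm_num) _
      omega
    have h400r : 400 * ((m : ℝ) + 1) ≤ 2 ^ (2 * m) := by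
      rw [← hq]
      exact_mod_cast h400
    have hbase : 400 * ((m : ℝ) + 1) / ((4 ^ m : ℕ) : ℝ) ^ (3 - 1) ≤ (1 / 2) ^ (2 * m) := by
      rw [hq]
      have hp : (0 : ℝ) < 2 ^ (2 * m) := by positivity
      have e : ((2 : ℝ) ^ (2 * m)) ^ (3 - 1) = 2 ^ (2 * m) * 2 ^ (2 * m) := by
        rw [← pow_two]
      rw [e, div_le_iff₀ (by positivity)]
      calc 400 * ((m : ℝ) + 1) ≤ 2 ^ (2 * m) := h400r
        _ = (1 / 2) ^ (2 * m) * (2 ^ (2 * m) * 2 ^ (2 * m)) := by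
            rw [← mul_assoc, ← mul_pow]; norm_num
    have hb0 : (0 : ℝ) ≤ 400 * ((m : ℝ) + 1) / ((4 ^ m : ℕ) : ℝ) ^ (3 - 1) := by positivity
    calc (400 * ((m : ℝ) + 1) / ((4 ^ m : ℕ) : ℝ) ^ (3 - 1)) ^ EE m ≤ ((1 / 2) ^ (2 * m)) ^ EE m :=
          pow_le_pow_left₀ hb0 hbase _
      _ = (1 / 2) ^ (2 * m * EE m) := by rw [← pow_mul]
      _ ≤ (1 / 2) ^ m ^ 3 := by
          apply pow_le_pow_of_le_one (by norm_num) (by norm_num)
          have h1 : m ^ 2 ≤ 2 * EE m := by omega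
          calc m ^ 3 = m * m ^ 2 := by ring
            _ ≤ m * (2 * EE m) := Nat.mul_le_mul_left _ h1
            _ = 2 * m * EE m := by ring

theorem log_cube (k : ℕ) (c : ℕ → ℤ) : ((Finset.univ.filter (fun π : Perm (Fin (2 * k + 3)) =>
      ∀ i : ℕ, 2 ≤ i → i ≤ Nat.log 4096 (2 * k + 3) → Fm (star k) i (sgn π) = c i)).card : ℝ) ≤
      exp (3400 - (log ((2 * k + 3 : ℕ) : ℝ)) ^ 3 / 1000) * (2 * k + 3).factorial := by
  set n : ℕ := 2 * k + 3 with hn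
  set m : ℕ := Nat.log 4096 n with hm
  have hn0 : n ≠ 0 := by omega
  have hnr : (0 : ℝ) < (n : ℝ) := by
    have : 0 < n := by omega
    exact_mod_cast this
  have hlow : 4096 ^ m ≤ n := Nat.pow_log_le_self 4096 hn0
  have hup : n < 4096 ^ (m + 1) := Nat.lt_pow_succ_log_self (by norm_num) n
  have hlog0 : 0 ≤ log (n : ℝ) := Real.log_natCast_nonneg n
  have hlog : log (n : ℝ) ≤ 12 * (m + 1) * log 2 := by
    have h1 : (n : ℝ) ≤ 4096 ^ (m + 1) := by exact_mod_cast hup.le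
    have h2 := Real.log_le_log hnr h1
    rw [Real.log_pow] at h2
    have h3 : log (4096 : ℝ) = 12 * log 2 := by
      rw [show (4096 : ℝ) = 2 ^ 12 by norm_num, Real.log_pow]
      norm_num
    rw [h3] at h2
    push_cast at h2
    linarith
  have l2 : log 2 < 0.6931471808 := Real.log_two_lt_d9
  have l2' : 0.6931471803 < log 2 := Real.log_two_gt_d9
  rcases Nat.lt_or_ge m 18 with h18 | h18
  · -- trivial
    have hcard : ((Finset.univ.filter (fun π : Perm (Fin n) =>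
      ∀ i : ℕ, 2 ≤ i → i ≤ m → Fm (star k) i (sgn π) = c i)).card : ℝ) ≤ n.factorial := by
      have h1 := Finset.card_filter_le (Finset.univ : Finset (Perm (Fin n)))
        (fun π : Perm (Fin n) => ∀ i : ℕ, 2 ≤ i → i ≤ m → Fm (star k) i (sgn π) = c i)
      rw [Finset.card_univ, Fintype.card_perm, Fintype.card_fin] at h1
      exact_mod_cast h1
    refine hcard.trans (le_mul_of_one_le_left (Nat.cast_nonneg _) (Real.one_le_exp ?_))
    have hm' : ((m : ℝ) + 1) ≤ 18 := by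
      have : m + 1 ≤ 18 := by omega
      exact_mod_cast this
    have h1 : log (n : ℝ) ≤ 150 := by
      calc log (n : ℝ) ≤ 12 * (m + 1) * log 2 := hlog
        _ ≤ 12 * 18 * 0.6931471808 := by
            apply mul_le_mul _ l2.le (by linarith) (by norm_num)
            linarith
        _ ≤ 150 := by norm_num
    have h2 : log (n : ℝ) ^ 3 ≤ 150 ^ 3 := pow_le_pow_left₀ hlog0 h1 3
    have h3 : (150 : ℝ) ^ 3 / 1000 ≤ 3400 := by norm_num
    linarith
  · have hsub : ((Finset.univ.filter (fun π : Perm (Fin n) =>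
      ∀ i : ℕ, 2 ≤ i → i ≤ m → Fm (star k) i (sgn π) = c i)).card : ℝ) ≤
      ((Finset.univ.filter (fun π : Perm (Fin n) =>
      ∀ i : Fin (m - 1), Fm (star k) ((i : ℕ) + 2) (sgn π) = (fun i : Fin (m - 1) => c ((i : ℕ) + 2)) i)).card : ℝ) := by
      have : (Finset.univ.filter (fun π : Perm (Fin n) =>
        ∀ i : ℕ, 2 ≤ i → i ≤ m → Fm (star k) i (sgn π) = c i)).card ≤
        (Finset.univ.filter (fun π : Perm (Fin n) =>
        ∀ i : Fin (m - 1), Fm (star k) ((i : ℕ) + 2) (sgn π) = (fun i : Fin (m - 1) => c ((i : ℕ) + 2)) i)).card := by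
        apply Finset.card_le_card
        intro π hπ
        rw [Finset.mem_filter] at hπ ⊢
        exact ⟨hπ.1, fun i => hπ.2 _ (by omega) (by have := i.2; omega)⟩
      exact_mod_cast this
    refine hsub.trans ((small_m h18 hlow _).trans (mul_le_mul_of_nonneg_right ?_ (Nat.cast_nonneg _)))
    have hmr : (18 : ℝ) ≤ m := by exact_mod_cast h18
    have e1 : (1 / 2 : ℝ) ^ m ^ 3 = exp (-(m ^ 3 * log 2)) := by
      rw [Real.exp_neg, ← Nat.cast_pow, Real.exp_nat_mul, Real.exp_log (by norm_num)]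
      rw [one_div, inv_pow]
    have e3 : (3 : ℝ) ≤ exp 3400 := by
      have := Real.add_one_le_exp (3400 : ℝ)
      linarith
    rw [e1, sub_eq_add_neg, Real.exp_add]
    apply mul_le_mul e3 _ (Real.exp_pos _).le (Real.exp_pos _).le
    rw [Real.exp_le_exp, neg_le_neg_iff]
    have h1 : log (n : ℝ) ^ 3 ≤ (12 * (m + 1) * log 2) ^ 3 := pow_le_pow_left₀ hlog0 hlog 3
    have h2 : ((m : ℝ) + 1) ^ 3 ≤ 1.2 * m ^ 3 := by nlinarith [sq_nonneg ((m : ℝ) - 18), mul_nonneg (sub_nonneg.2 hmr) (sq_nonneg (m : ℝ))]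
    have h3 : log (2 : ℝ) ^ 2 ≤ 0.4805 := by nlinarith
    have h4 : (12 * ((m : ℝ) + 1) * log 2) ^ 3 = 1728 * (((m : ℝ) + 1) ^ 3 * log 2 ^ 2) * log 2 := by ring
    have h5 : ((m : ℝ) + 1) ^ 3 * log 2 ^ 2 ≤ 1.2 * m ^ 3 * 0.4805 :=
      mul_le_mul h2 h3 (sq_nonneg _) (by positivity)
    have h6 : (1728 : ℝ) * (((m : ℝ) + 1) ^ 3 * log 2 ^ 2) ≤ 1000 * m ^ 3 := by
      have : (0 : ℝ) ≤ (m : ℝ) ^ 3 := by positivity
      nlinarith
    have h7 := mul_le_mul_of_nonneg_right h6 (show (0 : ℝ) ≤ log 2 by linarith)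
    rw [← h4] at h7
    linarith

end Pool.Agent.NH45.Petal
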