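import Pool.Agent.NH45.Petal.M1

set_option autoImplicit false

/-! The number of curves of smoothed diagrams. -/

namespace Pool.Agent.NH45.Petal

open Finset LaurentPolynomial Pool.Agent.H891R2.Jones Pool.Agent.H832R3.VJ Pool.Agent.R811.Cross
open Pool.Agent.Y463.BS (E lp v X cor al pts Two Concl three pair)

variable {n : ℕ} (G : Shadow n)

/-- the arcs of the smoothed crossings -/
def smo (S : List (Fin n)) : List (Fin (2 * n) × Fin (2 * n)) := S.flatMap (fun k => sm (G.crossing k))

/-- the strands through the other crossings -/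
def thr (S : List (Fin n)) : List (Fin (2 * n) × Fin (2 * n)) :=
  ((List.finRange n).filter (fun k => k ∉ S)).flatMap
    (fun k => [(G.p k, next (G.p k)), (G.q k, next (G.q k))])

/-- the number of curves after smoothing -/
noncomputable def lpS (S : List (Fin n)) : ℕ := lp (thr G S ++ smo G S)

theorem mem_thr (S : List (Fin n)) (z : Fin (2 * n) × Fin (2 * n)) : z ∈ thr G S ↔
    ∃ k, k ∉ S ∧ (z = (G.p k, next (G.p k)) ∨ z = (G.q k, next (G.q k))) := by
  unfold thr
  simp [List.mem_flatMap, List.mem_filter]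

theorem mem_smo (S : List (Fin n)) (z : Fin (2 * n) × Fin (2 * n)) : z ∈ smo G S ↔
    ∃ k, k ∈ S ∧ z ∈ sm (G.crossing k) := by
  unfold smo
  simp [List.mem_flatMap]

theorem pts_thr (l : List (Fin n)) (e : Fin (2 * n)) :
    (pts (l.flatMap (fun k => [(G.p k, next (G.p k)), (G.q k, next (G.q k))]))).count e =
      (l.flatMap (corn G)).count e := by
  induction l with
  | nil => rfl
  | cons k l ih =>
    rw [List.flatMap_cons, List.flatMap_cons, Pool.Agent.Y463.BS.count_pts_append, ih,
      List.count_append]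
    congr 1

theorem pts_smo (l : List (Fin n)) (e : Fin (2 * n)) :
    (pts (smo G l)).count e = (l.flatMap (corn G)).count e := by
  unfold smo
  induction l with
  | nil => rfl
  | cons k l ih =>
    rw [List.flatMap_cons, List.flatMap_cons, Pool.Agent.Y463.BS.count_pts_append, ih,
      List.count_append, pts_sm]

theorem count_two (S : List (Fin n)) (hS : S.Nodup) (e : Fin (2 * n)) :
    (S.flatMap (corn G)).count e + (pts (thr G S)).count e = 2 := by
  unfold thr
  rw [pts_thr, ← List.count_append, ← List.flatMap_append]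
  exact (((perm_rest S hS).flatMap_right (corn G)).symm.count_eq e).trans (count_all G e)

/-- the points of a smoothing -/
theorem sm_cases (k : Fin n) (z : Fin (2 * n) × Fin (2 * n)) (h : z ∈ sm (G.crossing k)) :
    z = (G.p k, next (G.q k)) ∨ z = (next (G.q k), G.p k) ∨ z = (next (G.p k), G.q k) ∨
      z = (G.q k, next (G.p k)) := by
  unfold sm positive Shadow.crossing switch Crossing.sign at h
  cases hl : G.left k <;> rw [hl] at h <;> simp at h <;> tauto

theorem sm_mem (k : Fin n) :
    ((G.p k, next (G.q k)) ∈ sm (G.crossing k) ∨ (next (G.q k), G.p k) ∈ sm (G.crossing k)) ∧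
    ((next (G.p k), G.q k) ∈ sm (G.crossing k) ∨ (G.q k, next (G.p k)) ∈ sm (G.crossing k)) := by
  unfold sm positive Shadow.crossing switch Crossing.sign
  cases hl : G.left k <;> simp

theorem choice_cases (k : Fin n) (b : Bool) (u w : Fin (2 * n))
    (h : (u = (G.choice k b).a ∧ w = (G.choice k b).c) ∨ (u = (G.choice k b).b ∧ w = (G.choice k b).d)) :
    (u, w) = (G.p k, next (G.p k)) ∨ (w, u) = (G.p k, next (G.p k)) ∨
      (u, w) = (G.q k, next (G.q k)) ∨ (w, u) = (G.q k, next (G.q k)) := by
  unfold Shadow.choice positive negative Shadow.crossing switch Crossing.sign at h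
  cases hl : G.left k <;> cases b <;> rw [hl] at h <;> simp at h ⊢ <;> tauto

theorem choice_mem (k : Fin n) (b : Bool) :
    (((G.p k = (G.choice k b).a ∧ next (G.p k) = (G.choice k b).c) ∨
        (G.p k = (G.choice k b).b ∧ next (G.p k) = (G.choice k b).d)) ∨
        ((next (G.p k) = (G.choice k b).a ∧ G.p k = (G.choice k b).c) ∨
        (next (G.p k) = (G.choice k b).b ∧ G.p k = (G.choice k b).d))) ∧
        (((G.q k = (G.choice k b).a ∧ next (G.q k) = (G.choice k b).c) ∨
        (G.q k = (G.choice k b).b ∧ next (G.q k) = (G.choice k b).d)) ∨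
        ((next (G.q k) = (G.choice k b).a ∧ G.q k = (G.choice k b).c) ∨
        (next (G.q k) = (G.choice k b).b ∧ G.q k = (G.choice k b).d))) := by
  unfold Shadow.choice positive negative Shadow.crossing switch Crossing.sign
  cases G.left k <;> cases b <;> simp

theorem lp_rest (S : List (Fin n)) (s : Fin n → Bool) : lp (X (rest G S s) ++ smo G S) = lpS G S := by
  unfold lpS
  apply Pool.Agent.Y463.BS.lp_congr
  intro x y
  constructor
  · refine E.mono ?_
    intro u w huw
    rw [List.mem_append] at huw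
    rcases huw with huw | huw
    · obtain ⟨z, hz, huw⟩ := (Pool.Agent.Y463.BS.mem_X _ _ _).1 huw
      obtain ⟨k, hk, rfl⟩ := (mem_rest G _ s _).1 hz
      have hp : E (thr G S ++ smo G S) (G.p k) (next (G.p k)) :=
        E.of_mem (List.mem_append.2 (Or.inl ((mem_thr G S _).2 ⟨k, hk, Or.inl rfl⟩)))
      have hq : E (thr G S ++ smo G S) (G.q k) (next (G.q k)) :=
        E.of_mem (List.mem_append.2 (Or.inl ((mem_thr G S _).2 ⟨k, hk, Or.inr rfl⟩)))
      rcases choice_cases G k _ u w huw with h | h | h | h <;> obtain ⟨rfl, rfl⟩ := Prod.mk.inj h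
      · exact hp
      · exact hp.symm
      · exact hq
      · exact hq.symm
    · exact E.of_mem (List.mem_append.2 (Or.inr huw))
  · refine E.mono ?_
    intro u w huw
    rw [List.mem_append] at huw
    rcases huw with huw | huw
    · obtain ⟨k, hk, huw⟩ := (mem_thr G S _).1 huw
      have key : ∀ a b, ((a = (G.choice k (s k)).a ∧ b = (G.choice k (s k)).c) ∨
          (a = (G.choice k (s k)).b ∧ b = (G.choice k (s k)).d)) →
          E (X (rest G S s) ++ smo G S) a b := fun a b hab =>
        E.of_mem (List.mem_append.2 (Or.inl ((Pool.Agent.Y463.BS.mem_X _ _ _).2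
          ⟨_, (mem_rest G _ s _).2 ⟨k, hk, rfl⟩, hab⟩)))
      obtain ⟨h1, h2⟩ := choice_mem G k (s k)
      rcases huw with huw | huw <;> obtain ⟨rfl, rfl⟩ := Prod.mk.inj huw
      · rcases h1 with h | h
        · exact key _ _ h
        · exact (key _ _ h).symm
      · rcases h2 with h | h
        · exact key _ _ h
        · exact (key _ _ h).symm
    · exact E.of_mem (List.mem_append.2 (Or.inr huw))

theorem lpS_mem {S S' : List (Fin n)} (h : ∀ k, k ∈ S ↔ k ∈ S') : lpS G S = lpS G S' := by
  unfold lpS
  apply lp_mem'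
  intro z
  rw [List.mem_append, List.mem_append, mem_thr, mem_thr, mem_smo, mem_smo]
  simp only [h]

theorem lpS_nil (hn : 0 < n) : lpS G [] = 1 := by
  have : Nonempty (Fin (2 * n)) := ⟨⟨0, by omega⟩⟩
  rw [← lp_rest G [] (fun _ => true)]
  have h1 := lp_one (strand_all G (fun _ => true))
  rw [← h1]
  apply lp_mem'
  intro z
  have e : rest G [] (fun _ => true) = (G.diagram (fun _ => true)).crossings := by
    unfold rest Shadow.diagram
    simp
  rw [e]
  rfl

/-! ### inside and outside -/

theorem arc_thr {i : Fin n} {e : Fin (2 * n)} (h1 : e ≠ G.p i) (h2 : e ≠ G.q i) :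
    arc G i e = arc G i (next e) := by
  obtain ⟨l1, c1⟩ := pb_max G i
  have b1 := pb_lt G i
  unfold arc
  rw [decide_eq_decide]
  have a1 : (e : ℕ) ≠ G.p i := fun h => h1 (Fin.ext h)
  have b1 : (e : ℕ) ≠ G.q i := fun h => h2 (Fin.ext h)
  rcases next_val e with ⟨he, hn⟩ | ⟨he, hn⟩ <;> rw [hn] <;> omega

theorem arc_self (i : Fin n) : arc G i (G.p i) = arc G i (next (G.q i)) ∧
    arc G i (G.q i) = arc G i (next (G.p i)) ∧ arc G i (G.p i) ≠ arc G i (G.q i) := by
  obtain ⟨l1, c1⟩ := pb_max G i
  have b1 := pb_lt G i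
  unfold arc
  simp only [decide_eq_decide, ne_eq]
  refine ⟨?_, ?_, ?_⟩
  · rcases next_val (G.q i) with ⟨he, hn⟩ | ⟨he, hn⟩ <;> rw [hn] <;> omega
  · rcases next_val (G.p i) with ⟨he, hn⟩ | ⟨he, hn⟩ <;> rw [hn] <;> omega
  · omega

theorem arc_non {i j : Fin n} (hij : i ≠ j) (hno : ¬ G.Interlaced i j) :
    arc G i (G.p j) = arc G i (G.q j) := by
  rw [int_iff, not_not] at hno
  have d := pa_inj G hij
  obtain ⟨l1, c1⟩ := pb_max G i
  obtain ⟨l2, c2⟩ := pb_max G j
  unfold arc
  rw [decide_eq_decide]
  omega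

theorem arc_int {i j : Fin n} (h : G.Interlaced i j) : arc G i (G.p j) ≠ arc G i (G.q j) := by
  have hij := ne_of_interlaced G h
  rw [int_iff] at h
  have d := pa_inj G hij
  obtain ⟨l1, c1⟩ := pb_max G i
  obtain ⟨l2, c2⟩ := pb_max G j
  unfold arc
  rw [ne_eq, decide_eq_decide]
  intro h3
  apply h
  omega

theorem arc_E {S : List (Fin n)} {c : Fin n} (hS : ∀ k ∈ S, k ≠ c → ¬ G.Interlaced c k) (hc : c ∈ S)
    {x y : Fin (2 * n)} (h : E (thr G S ++ smo G S) x y) : arc G c x = arc G c y := by
  induction h with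
  | rel x y h0 =>
    rw [List.mem_append, mem_thr, mem_smo] at h0
    rcases h0 with ⟨k, hk, h0⟩ | ⟨k, hk, h0⟩
    · have hkc : k ≠ c := fun h => hk (h ▸ hc)
      rcases h0 with h0 | h0 <;> obtain ⟨rfl, rfl⟩ := Prod.mk.inj h0
      · exact arc_thr G (p_ne G hkc) (pq_ne G _ _)
      · exact arc_thr G (pq_ne G _ _).symm (q_ne G hkc)
    · have hk2 : arc G c (G.p k) = arc G c (next (G.q k)) ∧ arc G c (G.q k) = arc G c (next (G.p k)) := by
        by_cases hkc : k = c
        · subst hkc
          obtain ⟨h1, h2, -⟩ := arc_self G k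
          exact ⟨h1, h2⟩
        · have h1 := arc_non G (Ne.symm hkc) (hS k hk hkc)
          have h2 := arc_thr G (i := c) (p_ne G hkc) (pq_ne G _ _)
          have h3 := arc_thr G (i := c) (pq_ne G c k).symm (q_ne G hkc)
          exact ⟨by rw [h1, h3], by rw [← h1, h2]⟩
      rcases sm_cases G k _ h0 with h | h | h | h <;> obtain ⟨rfl, rfl⟩ := Prod.mk.inj h
      · exact hk2.1
      · exact hk2.1.symm
      · exact hk2.2.symm
      · exact hk2.2
  | refl x => rfl
  | symm x y _ ih => exact ih.symm
  | trans x y z _ _ h1 h2 => exact h1.trans h2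

/-! ### smoothing one more crossing -/

theorem E_app {P : Type} {L M : List (P × P)} {x y : P} (h : E M x y) : E (L ++ M) x y :=
  E.mono (fun _ _ hpq => E.of_mem (List.mem_append.2 (Or.inr hpq))) h

theorem lp_smoothed {S : List (Fin n)} (c : Fin n) : lpS G (c :: S) =
    lp ((G.p c, next (G.q c)) :: (next (G.p c), G.q c) :: (thr G (c :: S) ++ smo G S)) := by
  unfold lpS
  apply Pool.Agent.Y463.BS.lp_congr
  intro x y
  have e1 : smo G (c :: S) = sm (G.crossing c) ++ smo G S := by
    unfold smo; rw [List.flatMap_cons]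
  rw [e1]
  constructor
  · refine E.mono ?_
    intro u w huw
    rw [List.mem_append, List.mem_append] at huw
    have h1 : E ((G.p c, next (G.q c)) :: (next (G.p c), G.q c) :: (thr G (c :: S) ++ smo G S))
      (G.p c) (next (G.q c)) := E.of_mem (by simp)
    have h2 : E ((G.p c, next (G.q c)) :: (next (G.p c), G.q c) :: (thr G (c :: S) ++ smo G S))
      (next (G.p c)) (G.q c) := E.of_mem (by simp)
    rcases huw with huw | huw | huw
    · exact E.of_mem (by simp [huw])
    · rcases sm_cases G c _ huw with h | h | h | h <;> obtain ⟨rfl, rfl⟩ := Prod.mk.inj h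
      · exact h1
      · exact h1.symm
      · exact h2
      · exact h2.symm
    · exact E.of_mem (by simp [huw])
  · refine E.mono ?_
    intro u w huw
    obtain ⟨h1, h2⟩ := sm_mem G c
    have key : ∀ a b, (a, b) ∈ sm (G.crossing c) →
        E (thr G (c :: S) ++ (sm (G.crossing c) ++ smo G S)) a b := fun a b hab =>
      E.of_mem (by simp [hab])
    simp only [List.mem_cons] at huw
    rcases huw with huw | huw | huw
    · obtain ⟨rfl, rfl⟩ := Prod.mk.inj huw
      rcases h1 with h | h
      · exact key _ _ h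
      · exact (key _ _ h).symm
    · obtain ⟨rfl, rfl⟩ := Prod.mk.inj huw
      rcases h2 with h | h
      · exact key _ _ h
      · exact (key _ _ h).symm
    · refine E.of_mem ?_
      rw [List.mem_append] at huw ⊢
      rw [List.mem_append]
      tauto

theorem lp_through {S : List (Fin n)} {c : Fin n} (hc : c ∉ S) : lpS G S =
    lp ((G.p c, next (G.p c)) :: (next (G.q c), G.q c) :: (thr G (c :: S) ++ smo G S)) := by
  unfold lpS
  apply Pool.Agent.Y463.BS.lp_congr
  intro x y
  constructor
  · refine E.mono ?_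
    intro u w huw
    rw [List.mem_append, mem_thr] at huw
    rcases huw with ⟨k, hk, huw⟩ | huw
    · by_cases hkc : k = c
      · subst hkc
        rcases huw with h | h <;> obtain ⟨rfl, rfl⟩ := Prod.mk.inj h
        · exact E.of_mem (by simp)
        · exact E.symm (E.of_mem (by simp))
      · refine E.of_mem ?_
        simp only [List.mem_cons, List.mem_append, mem_thr]
        right; right; left
        exact ⟨k, by simp [hk, hkc], huw⟩
    · exact E.of_mem (by simp [huw])
  · refine E.mono ?_
    intro u w huw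
    simp only [List.mem_cons, List.mem_append, mem_thr] at huw
    rcases huw with huw | huw | ⟨k, hk, huw⟩ | huw
    · obtain ⟨rfl, rfl⟩ := Prod.mk.inj huw
      exact E.of_mem (List.mem_append.2 (Or.inl ((mem_thr G S _).2 ⟨c, hc, Or.inl rfl⟩)))
    · obtain ⟨rfl, rfl⟩ := Prod.mk.inj huw
      exact (E.of_mem (List.mem_append.2 (Or.inl ((mem_thr G S _).2 ⟨c, hc, Or.inr rfl⟩)))).symm
    · simp only [not_or] at hk
      exact E.of_mem (List.mem_append.2 (Or.inl ((mem_thr G S _).2 ⟨k, hk.2, huw⟩)))
    · exact E.of_mem (List.mem_append.2 (Or.inr huw))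

theorem concl_c {S : List (Fin n)} {c : Fin n} (hc : (c :: S).Nodup) :
    Concl (thr G (c :: S) ++ smo G S) (G.p c) (next (G.q c)) (next (G.p c)) (G.q c) := by
  refine pair _ _ rfl _ _ _ _ (fun e => ?_)
  right
  have h1 := count_two G (c :: S) hc e
  rw [List.flatMap_cons, List.count_append] at h1
  have h2 : ([G.p c, next (G.q c), next (G.p c), G.q c]).count e = (corn G c).count e := by
    unfold corn
    simp only [List.count_cons, List.count_nil]
    omega
  rw [List.count_append, Pool.Agent.Y463.BS.count_pts_append, pts_smo, h2]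
  omega

/-- the three cases, with the connections -/
theorem two_cases {P : Type} [Finite P] [DecidableEq P] {L : List (P × P)} {a b c d : P}
    (h : Concl L a b c d) :
    (E L a b ∧ lp ((a, b) :: (c, d) :: L) = lp ((a, c) :: (b, d) :: L) + 1) ∨
    (E L a c ∧ lp ((a, b) :: (c, d) :: L) + 1 = lp ((a, c) :: (b, d) :: L)) ∨ E L a d := by
  have h' := h
  rcases h' with ⟨h1, h2, h3⟩ | ⟨h1, h2, h3⟩ | ⟨h1, h2, h3⟩
  · rcases three L a b c d h with ⟨-, -, k1, k2, k3, -⟩ | ⟨k1, k2, k3⟩ | ⟨-, -, k1, k2, k3, k4⟩
    · left; exact ⟨h1, by omega⟩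
    · exfalso
      have m : ∀ {z : P × P} {u w}, E L u w → E (z :: L) u w :=
        fun h => E.mono (fun p q hpq => E.of_mem (List.mem_cons_of_mem _ hpq)) h
      have := Pool.Agent.Y463.BS.lp_same (m (z := (c, d)) h1)
      have := Pool.Agent.Y463.BS.lp_same h2
      omega
    · exact absurd h1 k4
  · rcases three L a b c d h with ⟨-, -, k1, k2, k3, k4⟩ | ⟨k1, k2, k3⟩ | ⟨-, -, k1, k2, k3, k4⟩
    · exact absurd h1 k4
    · right; left; exact ⟨h1, by omega⟩
    · exfalso
      have m : ∀ {z : P × P} {u w}, E L u w → E (z :: L) u w :=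
        fun h => E.mono (fun p q hpq => E.of_mem (List.mem_cons_of_mem _ hpq)) h
      have := Pool.Agent.Y463.BS.lp_same (m (z := (b, d)) h1)
      have := Pool.Agent.Y463.BS.lp_same h2
      omega
  · exact Or.inr (Or.inr h1)

theorem arc_Q {S : List (Fin n)} {c d : Fin n} (hS : ∀ k ∈ c :: S, k ≠ d → ¬ G.Interlaced d k)
    (hd : d ∈ c :: S) {x y : Fin (2 * n)} (h : E (thr G (c :: S) ++ smo G S) x y) :
    arc G d x = arc G d y := by
  refine arc_E G hS hd ?_
  refine E.mono ?_ h
  intro u w huw
  refine E.of_mem ?_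
  rw [List.mem_append] at huw ⊢
  rcases huw with h | h
  · exact Or.inl h
  · right
    unfold smo
    rw [List.flatMap_cons]
    exact List.mem_append.2 (Or.inr h)

/-- an isolated crossing -/
theorem lp_iso {S : List (Fin n)} {c : Fin n} (hc : (c :: S).Nodup)
    (hS : ∀ k ∈ S, ¬ G.Interlaced c k) : lpS G (c :: S) = lpS G S + 1 := by
  obtain ⟨hc1, hc2⟩ := List.nodup_cons.1 hc
  rw [lp_smoothed, lp_through G hc1]
  obtain ⟨a1, a2, a3⟩ := arc_self G c
  have hinv : ∀ {x y}, E (thr G (c :: S) ++ smo G S) x y → arc G c x = arc G c y := fun h =>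
    arc_Q G (by
      intro k hk hkc
      rcases List.mem_cons.1 hk with h1 | h1
      · exact absurd h1 hkc
      · exact hS k h1) (by simp) h
  rcases two_cases (concl_c G hc) with ⟨-, h⟩ | ⟨h, -⟩ | h
  · exact h
  · exact absurd ((hinv h).trans a2.symm) a3
  · exact absurd (hinv h) a3

/-- a crossing which is interlaced with one other crossing -/
theorem lp_pend {S : List (Fin n)} {c d : Fin n} (hc : (c :: d :: S).Nodup) (hcd : G.Interlaced c d)
    (hS : ∀ k ∈ S, ¬ G.Interlaced c k) : lpS G (c :: d :: S) = lpS G S := by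
  have hne : c ≠ d := ne_of_interlaced G hcd
  have hcS : (c :: S).Nodup := by
    simp only [List.nodup_cons, List.mem_cons, not_or] at hc ⊢
    exact ⟨hc.1.2, hc.2.2⟩
  have hdc : (d :: c :: S).Nodup := by
    simp only [List.nodup_cons, List.mem_cons, not_or] at hc ⊢
    exact ⟨⟨hne.symm, hc.2.1⟩, hc.1.2, hc.2.2⟩
  have h1 := lp_iso G hcS hS
  have h2 : lpS G (c :: d :: S) = lpS G (d :: c :: S) := lpS_mem G (fun k => by
    simp only [List.mem_cons]; tauto)
  have h3 : lpS G (d :: c :: S) + 1 = lpS G (c :: S) := by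
    rw [lp_smoothed G d, lp_through G (List.nodup_cons.1 hdc).1]
    have hinv : ∀ {x y}, E (thr G (d :: c :: S) ++ smo G (c :: S)) x y → arc G c x = arc G c y := by
      intro x y h
      have hE : E (thr G (c :: S) ++ smo G (c :: S)) x y := by
        refine E.mono ?_ h
        intro u w huw
        refine E.of_mem ?_
        rw [List.mem_append, mem_thr] at huw ⊢
        rcases huw with ⟨k, hk, huw⟩ | huw
        · left
          simp only [List.mem_cons, not_or] at hk
          exact ⟨k, by simp [hk.2.1, hk.2.2], huw⟩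
        · exact Or.inr huw
      refine arc_E G (S := c :: S) ?_ (by simp) hE
      intro k hk hkc
      rcases List.mem_cons.1 hk with h1 | h1
      · exact absurd h1 hkc
      · exact hS k h1
    have b1 := arc_int G hcd
    have b2 : arc G c (G.p d) = arc G c (next (G.p d)) := arc_thr G (p_ne G hne.symm) (pq_ne G _ _)
    have b3 : arc G c (G.q d) = arc G c (next (G.q d)) :=
      arc_thr G (pq_ne G _ _).symm (q_ne G hne.symm)
    rcases two_cases (concl_c G hdc) with ⟨h, -⟩ | ⟨-, h⟩ | h
    · exact absurd ((hinv h).trans b3.symm) b1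
    · exact h
    · exact absurd (hinv h) b1
  omega

/-! ### the weights -/

/-- the weight of the set `S` of smoothed crossings and the double points `l` -/
noncomputable def ww : List (Fin n) → List (Fin n) → ℤ
  | [], S => (-2) ^ lpS G S
  | c :: l, S => 2 * ww l S + ww l (c :: S)

theorem Vw_congr {P : Type} (l : List (Crossing P)) : ∀ (arcs arcs' : List (P × P))
    (cr cr' : List (Crossing P)) (_ : ∀ z, z ∈ arcs ↔ z ∈ arcs') (_ : cr.Perm cr'),
    Vw arcs cr l = Vw arcs' cr' l := by
  induction l with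
  | nil =>
    intro arcs arcs' cr cr' h h'
    unfold Vw
    rw [V6b.fPoly_congr arcs arcs' cr cr' (fun p q => by rw [h, h]) h']
  | cons x l ih =>
    intro arcs arcs' cr cr' h h'
    rw [Vw, Vw, ih arcs arcs' _ _ h (h'.cons _), ih (sm x ++ arcs) (sm x ++ arcs') _ _ (fun z => by
      rw [List.mem_append, List.mem_append, h]) h']

theorem rest_mem {l l' : List (Fin n)} (h : ∀ k, k ∈ l ↔ k ∈ l') (s : Fin n → Bool) :
    rest G l s = rest G l' s := by
  unfold rest
  congr 1
  apply List.filter_congr
  intro k _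
  rw [decide_eq_decide, h]

theorem Vw_ww (hn : 0 < n) (l : List (Fin n)) : ∀ (S : List (Fin n)) (s : Fin n → Bool) (_ : (l ++ S).Nodup),
    -2 * Vw (smo G S) (rest G (l ++ S) s) (l.map G.crossing) = ww G l S := by
  have : Nonempty (Fin (2 * n)) := ⟨⟨0, by omega⟩⟩
  induction l with
  | nil =>
    intro S s hS
    show -2 * moment 0 (⟨smo G S, rest G ([] ++ S) s⟩ : Diagram (Fin (2 * n))).fPoly = (-2) ^ lpS G S
    rw [List.nil_append] at hS ⊢
    rw [m0_two]
    · unfold v
      show (-2 : ℤ) ^ lp (X (rest G S s) ++ smo G S) = _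
      rw [lp_rest]
    · intro e
      right
      have h := count_rest G S hS s e
      show (pts (smo G S) ++ (rest G S s).flatMap cor).count e = 2
      rw [List.count_append, pts_smo]
      exact h
  | cons c l ih =>
    intro S s hS
    rw [List.cons_append, List.nodup_cons] at hS
    obtain ⟨hc, hS'⟩ := hS
    have h1 := ih S (Function.update s c true) hS'
    have h2 := ih (c :: S) s (by
      rw [List.nodup_append] at hS' ⊢
      rw [List.mem_append, not_or] at hc
      refine ⟨hS'.1, List.nodup_cons.2 ⟨hc.2, hS'.2.1⟩, ?_⟩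
      intro a ha b hb
      rcases List.mem_cons.1 hb with rfl | hb
      · exact fun h => hc.1 (h ▸ ha)
      · exact hS'.2.2 a ha b hb)
    rw [ww, ← h1, ← h2]
    have e1 : Vw (smo G S) (positive (G.crossing c) :: rest G (c :: (l ++ S)) s) (l.map G.crossing) =
        Vw (smo G S) (rest G (l ++ S) (Function.update s c true)) (l.map G.crossing) :=
      Vw_congr _ _ _ _ _ (fun _ => Iff.rfl) (rest_perm G hc s true).symm
    have e2 : rest G (c :: (l ++ S)) s = rest G (l ++ c :: S) s := rest_mem G (fun k => by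
      simp only [List.mem_cons, List.mem_append]; tauto) s
    have e3 : smo G (c :: S) = sm (G.crossing c) ++ smo G S := by
      unfold smo; rw [List.flatMap_cons]
    show -2 * (2 * Vw (smo G S) (positive (G.crossing c) :: rest G (c :: (l ++ S)) s) (l.map G.crossing) +
      Vw (sm (G.crossing c) ++ smo G S) (rest G (c :: (l ++ S)) s) (l.map G.crossing)) = _
    rw [e1, e3, e2]
    ring

end Pool.Agent.NH45.Petal
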