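import Pool.Agent.NH45.Petal.M2

set_option autoImplicit false

/-! The weights of chains of crossings. -/

namespace Pool.Agent.NH45.Petal

open Finset Pool.Agent.H891R2.Jones Pool.Agent.H832R3.VJ Pool.Agent.R811.Cross

/-- the weight of the remaining chain: `α` is the weight of the state, `α'` the weight without the
previous crossing, which is smoothed if `fl` -/
def om : List Bool → ℤ → ℤ → Bool → ℤ
  | [], α, _, _ => α
  | e :: es, α, α', fl => 2 * om es α α false + om es (if fl && e then α' else -2 * α) α true

theorem om_lin (es : List Bool) : ∀ (α α' β β' a b : ℤ) (fl : Bool),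
    om es (a * α + b * β) (a * α' + b * β') fl = a * om es α α' fl + b * om es β β' fl := by
  induction es with
  | nil => intro α α' β β' a b fl; rfl
  | cons e es ih =>
    intro α α' β β' a b fl
    rw [om, om, om, ih α α β β a b false]
    have h := ih (if fl && e then α' else -2 * α) α (if fl && e then β' else -2 * β) β a b true
    have e1 : (if fl && e then a * α' + b * β' else -2 * (a * α + b * β)) =
        a * (if fl && e then α' else -2 * α) + b * (if fl && e then β' else -2 * β) := by
      split_ifs
      · rfl
      · ring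
    rw [e1, h]
    ring

theorem om_sub (es : List Bool) (α α' β β' : ℤ) (fl : Bool) :
    om es α α' fl - om es β β' fl = om es (α - β) (α' - β') fl := by
  have h := om_lin es α α' β β' 1 (-1) fl
  have e1 : 1 * α + -1 * β = α - β := by ring
  have e2 : 1 * α' + -1 * β' = α' - β' := by ring
  rw [e1, e2] at h
  rw [h]
  ring

/-- the full mixed difference of a function of bits -/
def dl : ℕ → (List Bool → ℤ) → ℤ
  | 0, g => g []
  | j + 1, g => dl j (fun es => g (true :: es)) - dl j (fun es => g (false :: es))

theorem dl_sub (j : ℕ) : ∀ (g h : List Bool → ℤ), dl j (fun es => g es - h es) = dl j g - dl j h := by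
  induction j with
  | zero => intro g h; rfl
  | succ j ih =>
    intro g h
    rw [dl, dl, dl, ih, ih]
    ring

theorem dl_add (j : ℕ) : ∀ (g h : List Bool → ℤ), dl j (fun es => g es + h es) = dl j g + dl j h := by
  induction j with
  | zero => intro g h; rfl
  | succ j ih =>
    intro g h
    rw [dl, dl, dl, ih, ih]
    ring

theorem dl_mul (j : ℕ) (a : ℤ) : ∀ (g : List Bool → ℤ), dl j (fun es => a * g es) = a * dl j g := by
  induction j with
  | zero => intro g; rfl
  | succ j ih =>
    intro g
    rw [dl, dl, ih, ih]
    ring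

theorem dl_sum {ι : Type} (s : Finset ι) (j : ℕ) : ∀ (g : ι → List Bool → ℤ),
    dl j (fun es => ∑ i ∈ s, g i es) = ∑ i ∈ s, dl j (g i) := by
  induction j with
  | zero => intro g; rfl
  | succ j ih =>
    intro g
    rw [dl, ih, ih, ← Finset.sum_sub_distrib]
    rfl

theorem dl_congr (j : ℕ) : ∀ (g h : List Bool → ℤ), (∀ es, es.length = j → g es = h es) →
    dl j g = dl j h := by
  induction j with
  | zero => intro g h hgh; exact hgh [] rfl
  | succ j ih =>
    intro g h hgh
    rw [dl, dl, ih _ (fun es => h (true :: es)) (fun es hes => hgh _ (by simp [hes])),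
      ih _ (fun es => h (false :: es)) (fun es hes => hgh _ (by simp [hes]))]

theorem dl_om_false (j : ℕ) (α α' : ℤ) : dl (j + 1) (fun es => om es α α' false) = 0 := by
  rw [dl]
  simp only [om, Bool.false_and]
  exact sub_self _

theorem dl_om_true (j : ℕ) : ∀ (α α' : ℤ), dl (j + 1) (fun es => om es α α' true) = 2 ^ j * (α' + 2 * α) := by
  have step : ∀ (j : ℕ) (α α' : ℤ), dl (j + 1) (fun es => om es α α' true) =
      dl j (fun es => om es (α' + 2 * α) 0 true) := by
    intro j α α'
    rw [dl, ← dl_sub]
    congr 1
    funext es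
    simp only [om, Bool.and_true, Bool.and_false, Bool.false_eq_true, if_true, if_false]
    have := om_sub es α' α (-2 * α) α true
    rw [sub_self] at this
    have e : α' - -2 * α = α' + 2 * α := by ring
    rw [e] at this
    linarith
  induction j with
  | zero => intro α α'; rw [step]; simp [dl, om]
  | succ j ih =>
    intro α α'
    rw [step, ih]
    ring

/-- the weight of a chain -/
def omega0 (es : List Bool) : ℤ := om (false :: es) (-2) (-2) false

theorem dl_omega0 (j : ℕ) : dl (j + 1) omega0 = 6 * 2 ^ j := by
  have e : omega0 = fun es => 2 * om es (-2) (-2) false + om es 4 (-2) true := by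
    funext es
    unfold omega0
    simp [om]
  rw [e, dl_add, dl_mul, dl_om_false, dl_om_true]
  ring

variable {n : ℕ} (G : Shadow n)

/-- chains: consecutive crossings are interlaced if the bit is true, the other ones are not -/
inductive Chain : Fin n → List (Fin n) → List Bool → Prop
  | nil (y : Fin n) : Chain y [] []
  | cons (y x : Fin n) (l : List (Fin n)) (e : Bool) (es : List Bool)
      (h1 : G.Interlaced x y ↔ e = true) (h2 : ∀ k ∈ l, ¬ G.Interlaced k y) (h : Chain x l es) :
      Chain y (x :: l) (e :: es)

theorem ww_chain : ∀ (l : List (Fin n)) (y : Fin n) (es : List Bool), Chain G y l es →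
    (∀ S : List (Fin n), (l ++ S).Nodup → (∀ k ∈ S, ∀ x ∈ l, ¬ G.Interlaced x k) →
      ∀ α' : ℤ, ww G l S = om es ((-2) ^ lpS G S) α' false) ∧
    (∀ S : List (Fin n), (l ++ y :: S).Nodup → (∀ k ∈ S, ∀ x ∈ l, ¬ G.Interlaced x k) →
      ww G l (y :: S) = om es ((-2) ^ lpS G (y :: S)) ((-2) ^ lpS G S) true) := by
  intro l
  induction l with
  | nil =>
    intro y es h
    cases h
    exact ⟨fun S _ _ _ => rfl, fun S _ _ => rfl⟩
  | cons x l ih =>
    intro y es h
    cases h with
    | cons _ _ _ e es h1 h2 h3 =>
      obtain ⟨ih1, ih2⟩ := ih x es h3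
      have hnd : ∀ S : List (Fin n), (x :: l ++ S).Nodup → (l ++ S).Nodup ∧ (l ++ x :: S).Nodup ∧
          (x :: S).Nodup := by
        intro S hS
        rw [List.cons_append, List.nodup_cons, List.mem_append, not_or, List.nodup_append] at hS
        obtain ⟨⟨a1, a2⟩, b1, b2, b3⟩ := hS
        refine ⟨List.nodup_append.2 ⟨b1, b2, b3⟩, List.nodup_append.2 ⟨b1, List.nodup_cons.2 ⟨a2, b2⟩, ?_⟩,
          List.nodup_cons.2 ⟨a2, b2⟩⟩
        intro a ha b hb
        rcases List.mem_cons.1 hb with rfl | hb
        · exact fun h => a1 (h ▸ ha)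
        · exact b3 a ha b hb
      constructor
      · intro S hS hno α'
        obtain ⟨n1, n2, n3⟩ := hnd S hS
        rw [ww, om, ih1 S n1 (fun k hk z hz => hno k hk z (List.mem_cons_of_mem _ hz)) ((-2) ^ lpS G S),
          ih2 S n2 (fun k hk z hz => hno k hk z (List.mem_cons_of_mem _ hz)),
          lp_iso G n3 (fun k hk => hno k hk x (by simp))]
        simp only [Bool.false_and, Bool.false_eq_true, if_false]
        rw [pow_succ, mul_comm ((-2 : ℤ) ^ lpS G S)]
      · intro S hS hno
        obtain ⟨n1, n2, n3⟩ := hnd (y :: S) hS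
        have hno' : ∀ k ∈ y :: S, ∀ z ∈ l, ¬ G.Interlaced z k := by
          intro k hk z hz
          rcases List.mem_cons.1 hk with rfl | hk
          · exact h2 z hz
          · exact hno k hk z (List.mem_cons_of_mem _ hz)
        rw [ww, om, ih1 (y :: S) n1 hno' ((-2) ^ lpS G (y :: S)), ih2 (y :: S) n2 hno']
        simp only [Bool.true_and]
        congr 2
        by_cases he : e = true
        · rw [if_pos he, lp_pend G n3 (h1.2 he) (fun k hk => hno k hk x (by simp))]
        · rw [if_neg he, lp_iso G n3, pow_succ]
          · ring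
          · intro k hk
            rcases List.mem_cons.1 hk with rfl | hk
            · exact fun h => he (h1.1 h)
            · exact hno k hk x (by simp)

/-- the weight of a chain -/
theorem ww_omega (hn : 0 < n) (x : Fin n) (l : List (Fin n)) (es : List Bool) (h : Chain G x l es)
    (hl : (x :: l).Nodup) : ww G (x :: l) [] = omega0 es := by
  obtain ⟨h1, h2⟩ := ww_chain G l x es h
  have e0 := lpS_nil G hn
  have hx : lpS G [x] = 2 := by
    rw [lp_iso G (by simp) (by simp), e0]
  obtain ⟨hx1, hx2⟩ := List.nodup_cons.1 hl
  rw [ww, h1 [] (by simpa using hx2) (by simp) (-2), h2 [] (by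
    rw [List.nodup_append]
    refine ⟨hx2, by simp, ?_⟩
    intro a ha b hb
    rw [List.mem_singleton] at hb
    subst hb
    exact fun h => hx1 (h ▸ ha)) (by simp), e0, hx]
  unfold omega0
  rw [om]
  norm_num

/-- the mixed difference of the moment of order `m` -/
theorem mixed (hn : 0 < n) (x : Fin n) (l : List (Fin n)) (es : List Bool) (h : Chain G x l es)
    (hl : (x :: l).Nodup) (s : Fin n → Bool) :
    2 * Ev G (l.length + 1) (x :: l) s = -((-4) ^ (l.length + 1) * (l.length + 1).factorial * omega0 es) := by
  have h1 := Ev_top G (x :: l) s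
  rw [List.length_cons] at h1
  rw [h1]
  have h2 := Vw_ww G hn (x :: l) [] s (by simpa using hl)
  rw [ww_omega G hn x l es h hl, List.append_nil] at h2
  have e : smo G [] = [] := rfl
  rw [e] at h2
  rw [← h2]
  ring

end Pool.Agent.NH45.Petal
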