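import Pool.Agent.NH45.Petal.Fourier

set_option autoImplicit false

/-! The distance to the nearest integer; small values of lazy random walks modulo `1`. -/

namespace Pool.Agent.NH45.Petal

open Finset Real

/-- the distance to the nearest integer -/
noncomputable def nd (x : ℝ) : ℝ := |x - round x|

theorem nd_le (x : ℝ) (k : ℤ) : nd x ≤ |x - k| := round_le x k

theorem nd_nonneg (x : ℝ) : 0 ≤ nd x := abs_nonneg _

theorem nd_half (x : ℝ) : nd x ≤ 1 / 2 := abs_sub_round x

theorem nd_add (x y : ℝ) : nd (x + y) ≤ nd x + nd y := by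
  refine (nd_le (x + y) (round x + round y)).trans ?_
  have e : x + y - ((round x + round y : ℤ) : ℝ) = (x - round x) + (y - round y) := by
    push_cast; ring
  rw [e]
  exact abs_add_le _ _

theorem nd_neg (x : ℝ) : nd (-x) = nd x := by
  have h : ∀ x, nd (-x) ≤ nd x := by
    intro x
    refine (nd_le (-x) (-round x)).trans (le_of_eq ?_)
    unfold nd
    have e : -x - ((-round x : ℤ) : ℝ) = -(x - round x) := by push_cast; ring
    rw [e, abs_neg]
  refine le_antisymm (h x) ?_
  have := h (-x)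
  rwa [neg_neg] at this

theorem nd_sub (x y : ℝ) : nd (x - y) ≤ nd x + nd y := by
  rw [sub_eq_add_neg]
  refine (nd_add _ _).trans ?_
  rw [nd_neg]

theorem nd_mul (q : ℕ) (x : ℝ) : nd (q * x) ≤ q * nd x := by
  refine (nd_le (q * x) (q * round x)).trans (le_of_eq ?_)
  have e : q * x - ((q * round x : ℤ) : ℝ) = q * (x - round x) := by push_cast; ring
  rw [e, abs_mul, Nat.abs_cast]
  rfl

theorem cos_nd (x : ℝ) : cos (2 * π * x) = cos (2 * π * nd x) := by
  unfold nd
  have e : 2 * π * |x - round x| = |2 * π * (x - round x)| := by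
    rw [abs_mul, abs_of_pos (by positivity : (0 : ℝ) < 2 * π)]
  rw [e, cos_abs]
  have e2 : 2 * π * (x - round x) = 2 * π * x - (round x : ℤ) * (2 * π) := by ring
  rw [e2, cos_sub_int_mul_two_pi]

/-- the mean of `cos` along a lazy step -/
noncomputable def kp (t : ℝ) : ℝ := (1 + cos t) / 2

theorem kp_nonneg (t : ℝ) : 0 ≤ kp t := by
  unfold kp
  have := neg_one_le_cos t
  linarith

theorem kp_le_one (t : ℝ) : kp t ≤ 1 := by
  unfold kp
  have := cos_le_one t
  linarith

theorem kp_nd (x : ℝ) : kp (2 * π * x) ≤ 1 - 4 * nd x ^ 2 := by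
  unfold kp
  rw [cos_nd]
  have h0 := nd_nonneg x
  have h1 := nd_half x
  have h2 : 2 * nd x ≤ sin (π * nd x) := by
    have := mul_le_sin (x := π * nd x) (by positivity) (by nlinarith [pi_pos])
    have e : 2 / π * (π * nd x) = 2 * nd x := by field_simp
    rwa [e] at this
  have e : 2 * π * nd x = 2 * (π * nd x) := by ring
  rw [e, cos_two_mul]
  have h3 := sin_sq_add_cos_sq (π * nd x)
  have h4 := pow_le_pow_left₀ (by positivity) h2 2
  nlinarith

theorem kp_exp (x : ℝ) : kp (2 * π * x) ≤ exp (-(4 * nd x ^ 2)) := by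
  refine (kp_nd x).trans ?_
  have := add_one_le_exp (-(4 * nd x ^ 2))
  linarith

theorem cos_small {y : ℝ} (h : nd y < 1 / 8) : 7 / 10 ≤ cos (2 * π * y) := by
  rw [cos_nd]
  have h0 := nd_nonneg y
  have h1 : cos (π / 4) ≤ cos (2 * π * nd y) := by
    apply cos_le_cos_of_nonneg_of_le_pi
    · positivity
    · linarith [pi_pos]
    · nlinarith [pi_pos]
  rw [cos_pi_div_four] at h1
  have h2 : (7 / 5 : ℝ) ≤ √2 := by
    apply le_sqrt_of_sq_le
    norm_num
  linarith

/-- a multiple which is not too close to an integer -/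
theorem exists_q {α δ r : ℝ} (hδ : 0 < δ) (hα : δ ≤ nd α) (hr : r ≤ 1 / 4) (hr0 : 0 < r) {q : ℕ}
    (hq : 1 ≤ q) (hqd : r ≤ q * δ) : ∃ q' : ℕ, 1 ≤ q' ∧ q' ≤ q ∧ r ≤ nd (q' * α) := by
  by_cases h : r ≤ nd α
  · exact ⟨1, le_refl _, hq, by simpa using h⟩
  · rw [not_le] at h
    have hβ : 0 < nd α := lt_of_lt_of_le hδ hα
    refine ⟨⌈r / nd α⌉₊, ?_, ?_, ?_⟩
    · exact Nat.ceil_pos.2 (div_pos hr0 hβ)
    · rw [Nat.ceil_le, div_le_iff₀ hβ]
      refine hqd.trans ?_
      exact mul_le_mul_of_nonneg_left hα (Nat.cast_nonneg _)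
    · set q' := ⌈r / nd α⌉₊ with hq'
      have h1 : r / nd α ≤ q' := Nat.le_ceil _
      have h2 : (q' : ℝ) < r / nd α + 1 := Nat.ceil_lt_add_one (by positivity)
      have h3 : r ≤ q' * nd α := by rwa [div_le_iff₀ hβ] at h1
      have h4 : q' * nd α ≤ 1 / 2 := by
        have : q' * nd α ≤ (r / nd α + 1) * nd α := mul_le_mul_of_nonneg_right h2.le hβ.le
        have e : (r / nd α + 1) * nd α = r + nd α := by field_simp
        linarith
      refine h3.trans ?_
      -- `q' α` is an integer plus `± q' nd α`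
      have h5 : |q' * (α - round α)| = q' * nd α := by
        rw [abs_mul, Nat.abs_cast]; rfl
      unfold nd at *
      set z : ℤ := round ((q' : ℝ) * α) with hz
      set y : ℝ := q' * (α - round α) with hy
      have e : (q' : ℝ) * α - z = y + ((q' * round α - z : ℤ) : ℝ) := by
        rw [hy]; push_cast; ring
      rw [e, ← h5]
      rw [← h5] at h4
      by_cases h6 : (q' * round α - z : ℤ) = 0
      · rw [h6]; simp
      · have h7 : (1 : ℝ) ≤ |((q' * round α - z : ℤ) : ℝ)| := by
          rw [← Int.cast_abs]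
          exact_mod_cast Int.one_le_abs h6
        set w : ℝ := ((q' * round α - z : ℤ) : ℝ)
        have h8 : |w| - |y| ≤ |y + w| := by
          have := abs_sub_abs_le_abs_sub w (-y)
          rw [abs_neg] at this
          have e : w - -y = y + w := by ring
          rwa [e] at this
        linarith

/-- the step -/
def zz (p : Bool × Bool) : ℤ := bet p.1 - bet p.2

theorem exp_step (t : ℝ) : ∑ p : Bool × Bool, Complex.exp (((t * zz p : ℝ) : ℂ) * Complex.I) =
    ((4 * kp t : ℝ) : ℂ) := by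
  rw [Fintype.sum_prod_type]
  simp only [Fintype.sum_bool, zz, bet, if_true, Bool.false_eq_true, if_false]
  unfold kp
  push_cast
  rw [Complex.cos]
  have e1 : (t : ℂ) * 0 * Complex.I = 0 := by ring
  have e2 : (t : ℂ) * 1 * Complex.I = t * Complex.I := by ring
  have e3 : (t : ℂ) * -1 * Complex.I = -(t : ℂ) * Complex.I := by ring
  rw [e1, e2, e3, Complex.exp_zero]
  ring

/-- the mean of `cos` at a lazy random walk -/
theorem sum_walks {I : Type} [Fintype I] [DecidableEq I] (t : I → ℝ) :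
    ∑ p : I → Bool × Bool, cos (∑ i, t i * zz (p i)) = ∏ i, (4 * kp (t i)) := by
  have h1 : ∀ p : I → Bool × Bool, Complex.exp (((∑ i, t i * zz (p i) : ℝ) : ℂ) * Complex.I) =
      ∏ i, Complex.exp (((t i * zz (p i) : ℝ) : ℂ) * Complex.I) := by
    intro p
    rw [← Complex.exp_sum, ← Finset.sum_mul, Complex.ofReal_sum]
  have h2 : ∑ p : I → Bool × Bool, Complex.exp (((∑ i, t i * zz (p i) : ℝ) : ℂ) * Complex.I) =
      ((∏ i, (4 * kp (t i)) : ℝ) : ℂ) := by
    rw [Finset.sum_congr rfl (fun p _ => h1 p)]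
    have h := Finset.prod_univ_sum (fun _ : I => (Finset.univ : Finset (Bool × Bool)))
      (fun i x' => Complex.exp (((t i * zz x' : ℝ) : ℂ) * Complex.I))
    rw [Fintype.piFinset_univ] at h
    rw [← h, Complex.ofReal_prod]
    exact Finset.prod_congr rfl fun i _ => exp_step (t i)
  have h3 := congrArg Complex.re h2
  rw [Complex.re_sum, Complex.ofReal_re] at h3
  rw [← h3]
  refine Finset.sum_congr rfl fun p _ => ?_
  rw [Complex.exp_ofReal_mul_I_re]

theorem exp_four : exp (-4) ≤ 1 / 50 := by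
  rw [exp_neg]
  have h1 : (2.7 : ℝ) ≤ exp 1 := by linarith [exp_one_gt_d9]
  have h2 : (2.7 : ℝ) ^ 4 ≤ exp 1 ^ 4 := pow_le_pow_left₀ (by norm_num) h1 4
  have h3 : exp 1 ^ 4 = exp 4 := by rw [← exp_nat_mul]; norm_num
  rw [h3] at h2
  have h4 : (50 : ℝ) ≤ exp 4 := by
    refine le_trans ?_ h2
    norm_num
  rw [inv_le_comm₀ (exp_pos 4) (by norm_num)]
  linarith

theorem prod_subset {I : Type} {S S' : Finset I} (h : S ⊆ S') {f : I → ℝ}
    (h0 : ∀ i, 0 ≤ f i) (h1 : ∀ i, f i ≤ 1) : ∏ i ∈ S', f i ≤ ∏ i ∈ S, f i := by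
  classical
  rw [← Finset.prod_sdiff h]
  have h2 : ∏ i ∈ S' \ S, f i ≤ 1 := Finset.prod_le_one (fun i _ => h0 i) (fun i _ => h1 i)
  have h3 : 0 ≤ ∏ i ∈ S, f i := Finset.prod_nonneg (fun i _ => h0 i)
  calc (∏ i ∈ S' \ S, f i) * ∏ i ∈ S, f i ≤ 1 * ∏ i ∈ S, f i := mul_le_mul_of_nonneg_right h2 h3
    _ = _ := one_mul _

/-- the small values of a lazy random walk modulo `1` -/
theorem small {I : Type} [Fintype I] [DecidableEq I] (g : I → ℝ) (α : ℝ) (S : Finset I)
    (hS : ∀ i ∈ S, g i = α) {N : ℕ} (hN : 16 ≤ N) (hNS : N ≤ S.card) {δ : ℝ} (hδ : 0 < δ)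
    (hα : δ ≤ nd α) {q : ℕ} (hq : 1 ≤ q) (hqd : 1 ≤ q * δ * √N) :
    ((Finset.univ.filter (fun p : I → Bool × Bool => nd (∑ i, g i * zz (p i)) < 1 / (8 * q))).card : ℝ) ≤
      3 / 5 * 4 ^ Fintype.card I := by
  classical
  have hN0 : (0 : ℝ) < N := by
    have : 0 < N := by omega
    exact_mod_cast this
  have hsq : 0 < √(N : ℝ) := sqrt_pos.2 hN0
  have hq0 : (0 : ℝ) < q := by exact_mod_cast hq
  have h4 : (4 : ℝ) ≤ √N := by
    apply le_sqrt_of_sq_le
    have : (16 : ℝ) ≤ N := by exact_mod_cast hN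
    linarith
  obtain ⟨q', h1, h2, h3⟩ := exists_q (r := 1 / √N) hδ hα (by
    rw [div_le_div_iff₀ hsq (by norm_num)]; linarith) (by positivity) hq (by
    rw [div_le_iff₀ hsq]; exact hqd)
  set A := Finset.univ.filter (fun p : I → Bool × Bool => nd (∑ i, g i * zz (p i)) < 1 / (8 * q)) with hA
  have hq'0 : (0 : ℝ) < q' := by exact_mod_cast h1
  have hcard : ((Finset.univ : Finset (I → Bool × Bool)).card : ℝ) = 4 ^ Fintype.card I := by
    rw [Finset.card_univ, Fintype.card_fun, Fintype.card_prod, Fintype.card_bool]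
    push_cast
    norm_num
  -- the mean of the cosine is large
  have h5 : (17 / 10 : ℝ) * A.card - 4 ^ Fintype.card I ≤
      ∑ p : I → Bool × Bool, cos (∑ i, (2 * π * (q' * g i)) * zz (p i)) := by
    have h6 : ∀ p : I → Bool × Bool, (if p ∈ A then (17 / 10 : ℝ) else 0) - 1 ≤
        cos (∑ i, (2 * π * (q' * g i)) * zz (p i)) := by
      intro p
      have e : ∑ i, (2 * π * (q' * g i)) * zz (p i) = 2 * π * (q' * ∑ i, g i * zz (p i)) := by
        rw [Finset.mul_sum, Finset.mul_sum]
        exact Finset.sum_congr rfl fun i _ => by ring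
      rw [e]
      split_ifs with hp
      · have h7 := (Finset.mem_filter.1 hp).2
        have h8 : nd (q' * ∑ i, g i * zz (p i)) < 1 / 8 := by
          refine lt_of_le_of_lt (nd_mul _ _) ?_
          have h9 : (q' : ℝ) ≤ q := by exact_mod_cast h2
          calc (q' : ℝ) * nd (∑ i, g i * zz (p i)) < q' * (1 / (8 * q)) :=
                mul_lt_mul_of_pos_left h7 hq'0
            _ ≤ q * (1 / (8 * q)) := mul_le_mul_of_nonneg_right h9 (by positivity)
            _ = 1 / 8 := by field_simp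
        have := cos_small h8
        linarith
      · have := neg_one_le_cos (2 * π * (q' * ∑ i, g i * zz (p i)))
        linarith
    refine le_trans (le_of_eq ?_) (Finset.sum_le_sum fun p _ => h6 p)
    rw [Finset.sum_sub_distrib, Finset.sum_ite_mem, Finset.univ_inter, Finset.sum_const,
      Finset.sum_const, nsmul_eq_mul, nsmul_eq_mul, hcard]
    ring
  rw [sum_walks, Finset.prod_mul_distrib, Finset.prod_const, Finset.card_univ] at h5
  have h6 : ∏ i, kp (2 * π * (q' * g i)) ≤ 1 / 50 := by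
    have h7 : ∏ i, kp (2 * π * (q' * g i)) ≤ ∏ i ∈ S, kp (2 * π * (q' * g i)) :=
      prod_subset (Finset.subset_univ S) (fun i => kp_nonneg _) (fun i => kp_le_one _)
    have h8 : ∏ i ∈ S, kp (2 * π * (q' * g i)) ≤ exp (-(4 / N)) ^ S.card := by
      rw [← Finset.prod_const]
      refine Finset.prod_le_prod (fun i _ => kp_nonneg _) (fun i hi => ?_)
      refine (kp_exp _).trans ?_
      rw [exp_le_exp, hS i hi]
      have h9 : 1 / (N : ℝ) ≤ nd (q' * α) ^ 2 := by
        have := pow_le_pow_left₀ (by positivity) h3 2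
        rw [div_pow, one_pow, sq_sqrt hN0.le] at this
        exact this
      have e : 4 / (N : ℝ) = 4 * (1 / N) := by ring
      rw [e]
      linarith
    have h9 : exp (-(4 / N)) ^ S.card ≤ exp (-(4 / N)) ^ N :=
      pow_le_pow_of_le_one (exp_pos _).le (exp_le_one_iff.2 (by
        have : (0 : ℝ) < 4 / N := by positivity
        linarith)) hNS
    have h10 : exp (-(4 / N)) ^ N = exp (-4) := by
      rw [← exp_nat_mul]
      congr 1
      field_simp
    rw [h10] at h9
    exact h7.trans (h8.trans (h9.trans exp_four))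
  have h7 : (0 : ℝ) < 4 ^ Fintype.card I := by positivity
  have h8 := mul_le_mul_of_nonneg_left h6 h7.le
  linarith

end Pool.Agent.NH45.Petal
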