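import Pool.Agent.NH45.Petal.M4
import Pool.Agent.R811.Cross.Comb

set_option autoImplicit false
set_option linter.unusedSectionVars false

/-! Exponential sums on the cube: repeated application of the Cauchy–Schwarz inequality. -/

namespace Pool.Agent.NH45.Petal

open Finset Real
open Pool.Agent.R811.Cross (D)

variable {ι J : Type} [Fintype ι] [DecidableEq ι] [Fintype J] [DecidableEq J]

/-- replace the coordinates `u c` of `x` by `a c` -/
noncomputable def ov (u : J → ι) (a : J → Bool) (x : ι → Bool) : ι → Bool := Function.extend u a x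

theorem ov_upd {u : J → ι} (hu : Function.Injective u) (a : J → Bool) (x : ι → Bool) (c : J) (y : Bool) :
    ov u (Function.update a c y) x = Function.update (ov u a x) (u c) y := by
  funext k
  unfold ov
  by_cases hk : ∃ c', u c' = k
  · obtain ⟨c', rfl⟩ := hk
    rw [hu.extend_apply]
    by_cases hc : c' = c
    · subst hc; rw [Function.update_self, Function.update_self]
    · rw [Function.update_of_ne hc, Function.update_of_ne (fun h => hc (hu h)), hu.extend_apply]
  · rw [Function.extend_apply' _ _ _ hk, Function.update_of_ne (fun h => hk ⟨c, h.symm⟩),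
      Function.extend_apply' _ _ _ hk]

theorem ov_comm {u : J → ι} (hu : Function.Injective u) (a : J → Bool) (x : ι → Bool) {i : ι}
    (hi : ∀ c, u c ≠ i) (y : Bool) :
    ov u a (Function.update x i y) = Function.update (ov u a x) i y := by
  funext k
  unfold ov
  by_cases hk : ∃ c', u c' = k
  · obtain ⟨c', rfl⟩ := hk
    rw [hu.extend_apply, Function.update_of_ne (hi c'), hu.extend_apply]
  · rw [Function.extend_apply' _ _ _ hk]
    by_cases hki : k = i
    · subst hki; rw [Function.update_self, Function.update_self]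
    · rw [Function.update_of_ne hki, Function.update_of_ne hki, Function.extend_apply' _ _ _ hk]

/-- the mixed differences of `H` in directions from the groups `us` are given by `w` -/
def MD : List (J → ι) → ((ι → Bool) → ℤ) → (List J → ℤ) → Prop
  | [], H, w => ∀ x, H x = w []
  | u :: us, H, w => ∀ c, MD us (D (u c) H) (fun l => w (c :: l))

theorem MD_congr : ∀ (us : List (J → ι)) (H H' : (ι → Bool) → ℤ) (w w' : List J → ℤ),
    (∀ x, H x = H' x) → (∀ l, w l = w' l) → MD us H w → MD us H' w' := by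
  intro us H H' w w' h1 h2 h
  have e1 : H = H' := funext h1
  have e2 : w = w' := funext h2
  rwa [← e1, ← e2]

theorem MD_add : ∀ (us : List (J → ι)) (H H' : (ι → Bool) → ℤ) (w w' : List J → ℤ),
    MD us H w → MD us H' w' → MD us (fun x => H x + H' x) (fun l => w l + w' l) := by
  intro us
  induction us with
  | nil => intro H H' w w' h h' x; show H x + H' x = w [] + w' []; rw [h x, h' x]
  | cons u us ih =>
    intro H H' w w' h h' c
    refine MD_congr us _ _ _ _ (fun x => ?_) (fun l => rfl) (ih _ _ _ _ (h c) (h' c))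
    unfold D
    ring

theorem MD_mul (a : ℤ) : ∀ (us : List (J → ι)) (H : (ι → Bool) → ℤ) (w : List J → ℤ),
    MD us H w → MD us (fun x => a * H x) (fun l => a * w l) := by
  intro us
  induction us with
  | nil => intro H w h x; show a * H x = a * w []; rw [h x]
  | cons u us ih =>
    intro H w h c
    refine MD_congr us _ _ _ _ (fun x => ?_) (fun l => rfl) (ih _ _ (h c))
    unfold D
    ring

theorem MD_zero : ∀ (us : List (J → ι)), MD us (fun _ : ι → Bool => 0) (fun _ => 0) := by
  intro us
  induction us with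
  | nil => intro x; rfl
  | cons u us ih =>
    intro c
    refine MD_congr us _ _ _ _ (fun x => ?_) (fun l => rfl) ih
    unfold D
    ring

theorem MD_comp {u : J → ι} (hu : Function.Injective u) (a : J → Bool) : ∀ (us : List (J → ι))
    (_ : ∀ u' ∈ us, ∀ c c', u c ≠ u' c') (H : (ι → Bool) → ℤ) (w : List J → ℤ),
    MD us H w → MD us (fun x => H (ov u a x)) w := by
  intro us
  induction us with
  | nil => intro _ H w h x; exact h _
  | cons u' us ih =>
    intro hd H w h c
    refine MD_congr us _ _ _ _ (fun x => ?_) (fun l => rfl)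
      (ih (fun u'' hu'' => hd u'' (List.mem_cons_of_mem _ hu'')) _ _ (h c))
    unfold D
    beta_reduce
    rw [ov_comm hu a x (fun c' => hd u' (by simp) c' c), ov_comm hu a x (fun c' => hd u' (by simp) c' c)]

theorem MD_line {u : J → ι} (hu : Function.Injective u) (us : List (J → ι))
    (hd : ∀ u' ∈ us, ∀ c c', u c ≠ u' c') (H : (ι → Bool) → ℤ) (w : List J → ℤ)
    (h : MD (u :: us) H w) (a : J → Bool) (S : Finset J) :
    MD us (fun x => H (ov u (fun c => if c ∈ S then a c else false) x) - H (ov u (fun _ => false) x))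
      (fun l => ∑ c ∈ S, bet (a c) * w (c :: l)) := by
  induction S using Finset.induction_on with
  | empty =>
    refine MD_congr us _ _ _ _ (fun x => ?_) (fun l => ?_) (MD_zero us)
    · simp
    · simp
  | insert c S hc ih =>
    set aS : J → Bool := fun c => if c ∈ S then a c else false with haS
    have h1 := MD_mul (bet (a c)) us _ _ (MD_comp hu aS us hd _ _ (h c))
    have e1 : (fun k => if k ∈ insert c S then a k else false) = Function.update aS c (a c) := by
      funext k
      by_cases hk : k = c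
      · subst hk; simp
      · simp [hk, haS]
    have e2 : Function.update aS c false = aS := by
      have : aS c = false := by simp [haS, hc]
      rw [← this]; exact Function.update_eq_self c aS
    refine MD_congr us _ _ _ _ (fun x => ?_) (fun l => ?_) (MD_add us _ _ _ _ ih h1)
    · rw [e1]
      unfold D
      rw [← ov_upd hu, ← ov_upd hu, e2]
      cases hac : a c
      · rw [e2]; simp [bet]
      · simp [bet]
    · rw [Finset.sum_insert hc]
      ring

theorem MD_contr {u : J → ι} (hu : Function.Injective u) (us : List (J → ι))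
    (hd : ∀ u' ∈ us, ∀ c c', u c ≠ u' c') (H : (ι → Bool) → ℤ) (w : List J → ℤ)
    (h : MD (u :: us) H w) (a a' : J → Bool) :
    MD us (fun x => H (ov u a x) - H (ov u a' x))
      (fun l => ∑ c, (bet (a c) - bet (a' c)) * w (c :: l)) := by
  have h1 := MD_line hu us hd H w h a Finset.univ
  have h2 := MD_line hu us hd H w h a' Finset.univ
  refine MD_congr us _ _ _ _ (fun x => ?_) (fun l => ?_)
    (MD_add us _ _ _ _ h1 (MD_mul (-1) us _ _ h2))
  · simp only [Finset.mem_univ, if_true]
    ring
  · simp only [sub_mul, Finset.sum_sub_distrib]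
    ring

/-! ### exponential sums -/

/-- `e ^ (2 π i t)` -/
noncomputable def ee (t : ℝ) : ℂ := Complex.exp (((2 * π * t : ℝ) : ℂ) * Complex.I)

theorem ee_zero : ee 0 = 1 := by unfold ee; simp

theorem ee_add (s t : ℝ) : ee (s + t) = ee s * ee t := by
  unfold ee
  rw [← Complex.exp_add]
  congr 1
  push_cast
  ring

theorem norm_ee (t : ℝ) : ‖ee t‖ = 1 := by
  unfold ee
  exact Complex.norm_exp_ofReal_mul_I _

theorem conj_ee (t : ℝ) : (starRingEnd ℂ) (ee t) = ee (-t) := by
  unfold ee
  rw [← Complex.exp_conj]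
  congr 1
  rw [map_mul, Complex.conj_ofReal, Complex.conj_I]
  push_cast
  ring

theorem ee_sum {I : Type} (s : Finset I) (f : I → ℝ) : ee (∑ i ∈ s, f i) = ∏ i ∈ s, ee (f i) := by
  classical
  induction s using Finset.induction_on with
  | empty => simp [ee_zero]
  | insert a s ha ih => rw [Finset.sum_insert ha, Finset.prod_insert ha, ee_add, ih]

theorem norm_one_ee (t : ℝ) : ‖(1 : ℂ) + ee t‖ ^ 2 = 4 * kp (2 * π * t) := by
  rw [← Complex.normSq_eq_norm_sq, Complex.normSq_apply]
  unfold ee kp
  rw [Complex.add_re, Complex.add_im, Complex.exp_ofReal_mul_I_re, Complex.exp_ofReal_mul_I_im,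
    Complex.one_re, Complex.one_im]
  have := sin_sq_add_cos_sq (2 * π * t)
  nlinarith

theorem sum_ov {u : J → ι} (hu : Function.Injective u) {β : Type} [AddCommMonoid β]
    (f : (ι → Bool) → β) : 2 ^ Fintype.card J • ∑ x, f x = ∑ x, ∑ a : J → Bool, f (ov u a x) := by
  classical
  have e : Function.Involutive (fun z : (ι → Bool) × (J → Bool) => (ov u z.2 z.1, z.1 ∘ u)) := by
    rintro ⟨x, a⟩
    show (ov u (x ∘ u) (ov u a x), (ov u a x) ∘ u) = (x, a)
    refine Prod.ext ?_ ?_
    · funext k
      show Function.extend u (x ∘ u) (Function.extend u a x) k = x k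
      by_cases hk : ∃ c', u c' = k
      · obtain ⟨c', rfl⟩ := hk
        rw [hu.extend_apply]
        rfl
      · rw [Function.extend_apply' _ _ _ hk, Function.extend_apply' _ _ _ hk]
    · funext c
      exact hu.extend_apply _ _ _
  have h1 := Equiv.sum_comp e.toPerm (fun z : (ι → Bool) × (J → Bool) => f z.1)
  rw [Fintype.sum_prod_type, Fintype.sum_prod_type] at h1
  have h2 : ∑ x : ι → Bool, ∑ _y : J → Bool, f x = 2 ^ Fintype.card J • ∑ x, f x := by
    simp only [Finset.sum_const, Finset.card_univ, Fintype.card_fun, Fintype.card_bool]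
    rw [← Finset.sum_nsmul]
  rw [← h2]
  exact h1.symm

theorem card_cubeR : ((Finset.univ : Finset (ι → Bool)).card : ℝ) = 2 ^ Fintype.card ι := by
  rw [Finset.card_univ, Fintype.card_fun, Fintype.card_bool]
  push_cast
  rfl

theorem cs_step {u : J → ι} (hu : Function.Injective u) (H : (ι → Bool) → ℤ) (θ : ℝ) :
    (2 ^ Fintype.card J * ‖∑ x, ee (θ * H x)‖) ^ 2 ≤
      2 ^ Fintype.card ι * ∑ x, ‖∑ a : J → Bool, ee (θ * H (ov u a x))‖ ^ 2 := by
  have h1 := sum_ov hu (fun x => ee (θ * H x))
  have h2 : (2 : ℝ) ^ Fintype.card J * ‖∑ x, ee (θ * H x)‖ =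
      ‖∑ x, ∑ a : J → Bool, ee (θ * H (ov u a x))‖ := by
    rw [← h1, nsmul_eq_mul, norm_mul]
    push_cast
    rw [norm_pow, Complex.norm_ofNat]
  rw [h2]
  have h3 := norm_sum_le (Finset.univ : Finset (ι → Bool)) (fun x => ∑ a : J → Bool, ee (θ * H (ov u a x)))
  have h4 := pow_le_pow_left₀ (norm_nonneg _) h3 2
  refine h4.trans ?_
  have h5 := sq_sum_le_card_mul_sum_sq (s := (Finset.univ : Finset (ι → Bool)))
    (f := fun x => ‖∑ a : J → Bool, ee (θ * H (ov u a x))‖)
  rw [card_cubeR] at h5
  exact h5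

/-- the last step -/
theorem base_step {u : J → ι} (hu : Function.Injective u) (H : (ι → Bool) → ℤ) (w : List J → ℤ)
    (h : MD [u] H w) (θ : ℝ) :
    (‖∑ x, ee (θ * H x)‖ / 2 ^ Fintype.card ι) ^ 2 ≤ ∏ c, kp (2 * π * (θ * w [c])) := by
  have h1 := cs_step hu H θ
  have h2 : ∀ x : ι → Bool, ‖∑ a : J → Bool, ee (θ * H (ov u a x))‖ ^ 2 =
      4 ^ Fintype.card J * ∏ c, kp (2 * π * (θ * w [c])) := by
    intro x
    have h3 : ∀ a : J → Bool, ee (θ * H (ov u a x)) = ee (θ * H (ov u (fun _ => false) x)) *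
        ∏ c, ee (bet (a c) * (θ * w [c])) := by
      intro a
      have h4 := MD_line hu [] (by simp) H w h a Finset.univ x
      simp only [Finset.mem_univ, if_true] at h4
      have h5 : (H (ov u a x) : ℝ) = H (ov u (fun _ => false) x) + ∑ c, (bet (a c) : ℝ) * w [c] := by
        have h6 : H (ov u a x) = H (ov u (fun _ => false) x) + ∑ c, bet (a c) * w [c] := by
          have e : (fun c => a c) = a := rfl
          rw [e] at h4
          linarith
        rw [h6]
        push_cast
        rfl
      rw [h5, mul_add, ee_add, Finset.mul_sum, ee_sum]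
      congr 1
      refine Finset.prod_congr rfl fun c _ => ?_
      congr 1
      ring
    rw [Finset.sum_congr rfl (fun a _ => h3 a), ← Finset.mul_sum, norm_mul, norm_ee, one_mul]
    have h4 := Finset.prod_univ_sum (fun _ : J => (Finset.univ : Finset Bool))
      (fun c x' => ee ((bet x' : ℝ) * (θ * w [c])))
    rw [Fintype.piFinset_univ] at h4
    rw [← h4, norm_prod, ← Finset.prod_pow]
    have h5 : ∀ c ∈ (Finset.univ : Finset J), ‖∑ x' : Bool, ee ((bet x' : ℝ) * (θ * w [c]))‖ ^ 2 =
        4 * kp (2 * π * (θ * w [c])) := by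
      intro c _
      rw [Fintype.sum_bool]
      simp only [bet, if_true, Bool.false_eq_true, if_false, Int.cast_one, one_mul, Int.cast_zero,
        zero_mul, ee_zero]
      rw [add_comm, norm_one_ee]
    rw [Finset.prod_congr rfl h5, Finset.prod_mul_distrib, Finset.prod_const, Finset.card_univ]
  rw [Finset.sum_congr rfl (fun x _ => h2 x), Finset.sum_const, nsmul_eq_mul, card_cubeR] at h1
  have hN : (0 : ℝ) < 2 ^ Fintype.card ι := by positivity
  have hJ : (0 : ℝ) < 2 ^ Fintype.card J := by positivity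
  have e4 : (4 : ℝ) ^ Fintype.card J = (2 ^ Fintype.card J) ^ 2 := by
    rw [← pow_mul, mul_comm, pow_mul]; norm_num
  rw [div_pow, div_le_iff₀ (by positivity)]
  rw [e4, mul_pow] at h1
  have h3 : (2 ^ Fintype.card J : ℝ) ^ 2 * ‖∑ x, ee (θ * H x)‖ ^ 2 ≤
      (2 ^ Fintype.card J : ℝ) ^ 2 * ((∏ c, kp (2 * π * (θ * w [c]))) * (2 ^ Fintype.card ι) ^ 2) := by
    refine h1.trans (le_of_eq ?_)
    ring
  exact le_of_mul_le_mul_left h3 (by positivity)

/-- the van der Corput step -/
theorem vdc {u : J → ι} (hu : Function.Injective u) (H : (ι → Bool) → ℤ) (θ : ℝ) :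
    (‖∑ x, ee (θ * H x)‖ / 2 ^ Fintype.card ι) ^ 2 ≤
      (∑ p : J → Bool × Bool, ‖∑ x, ee (θ * ((H (ov u (fun c => (p c).1) x) -
        H (ov u (fun c => (p c).2) x) : ℤ)))‖ / 2 ^ Fintype.card ι) / 4 ^ Fintype.card J := by
  have h1 := cs_step hu H θ
  have h2 : ∀ x : ι → Bool, ((‖∑ a : J → Bool, ee (θ * H (ov u a x))‖ ^ 2 : ℝ) : ℂ) =
      ∑ p : J → Bool × Bool, ee (θ * ((H (ov u (fun c => (p c).1) x) -
        H (ov u (fun c => (p c).2) x) : ℤ))) := by
    intro x
    have h3 := Complex.mul_conj (∑ a : J → Bool, ee (θ * H (ov u a x)))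
    rw [Complex.normSq_eq_norm_sq] at h3
    rw [← h3, map_sum, Finset.sum_mul_sum]
    have h4 := (Equiv.arrowProdEquivProdArrow J (fun _ => Bool) (fun _ => Bool)).sum_comp
      (fun z : (J → Bool) × (J → Bool) => ee (θ * ((H (ov u z.1 x) - H (ov u z.2 x) : ℤ))))
    rw [Fintype.sum_prod_type] at h4
    have h5 : ∀ a a' : J → Bool, ee (θ * H (ov u a x)) * (starRingEnd ℂ) (ee (θ * H (ov u a' x))) =
        ee (θ * ((H (ov u a x) - H (ov u a' x) : ℤ))) := by
      intro a a'
      rw [conj_ee, ← ee_add]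
      congr 1
      push_cast
      ring
    rw [Finset.sum_congr rfl (fun a _ => Finset.sum_congr rfl (fun a' _ => h5 a a'))]
    rw [← h4]
    rfl
  have h3 : ∑ x : ι → Bool, ‖∑ a : J → Bool, ee (θ * H (ov u a x))‖ ^ 2 ≤
      ∑ p : J → Bool × Bool, ‖∑ x, ee (θ * ((H (ov u (fun c => (p c).1) x) -
        H (ov u (fun c => (p c).2) x) : ℤ)))‖ := by
    have h4 : ((∑ x : ι → Bool, ‖∑ a : J → Bool, ee (θ * H (ov u a x))‖ ^ 2 : ℝ) : ℂ) =
        ∑ p : J → Bool × Bool, ∑ x, ee (θ * ((H (ov u (fun c => (p c).1) x) -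
          H (ov u (fun c => (p c).2) x) : ℤ))) := by
      rw [Complex.ofReal_sum, Finset.sum_congr rfl (fun x _ => h2 x), Finset.sum_comm]
    have h5 : ‖((∑ x : ι → Bool, ‖∑ a : J → Bool, ee (θ * H (ov u a x))‖ ^ 2 : ℝ) : ℂ)‖ =
        ∑ x : ι → Bool, ‖∑ a : J → Bool, ee (θ * H (ov u a x))‖ ^ 2 := by
      rw [Complex.norm_real, Real.norm_eq_abs, abs_of_nonneg]
      exact Finset.sum_nonneg fun x _ => sq_nonneg _
    rw [← h5, h4]
    exact norm_sum_le _ _
  have hN : (0 : ℝ) < 2 ^ Fintype.card ι := by positivity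
  have e4 : (4 : ℝ) ^ Fintype.card J = (2 ^ Fintype.card J) ^ 2 := by
    rw [← pow_mul, mul_comm, pow_mul]; norm_num
  rw [← Finset.sum_div, div_div, div_pow, div_le_div_iff₀ (by positivity) (by positivity), e4]
  have h4 := h1.trans (mul_le_mul_of_nonneg_left h3 hN.le)
  rw [mul_pow] at h4
  nlinarith [mul_le_mul_of_nonneg_right h4 hN.le]

/-- the bound after all steps -/
noncomputable def BB (θ : ℝ) : ℕ → (List J → ℤ) → ℝ
  | 0, w => ∏ c, kp (2 * π * (θ * w [c]))
  | t + 1, w => (∑ p : J → Bool × Bool, BB θ t (fun l => ∑ c, zz (p c) * w (c :: l))) /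
      4 ^ Fintype.card J

theorem BB_nonneg (θ : ℝ) (t : ℕ) : ∀ w : List J → ℤ, 0 ≤ BB θ t w := by
  induction t with
  | zero => intro w; exact Finset.prod_nonneg fun c _ => kp_nonneg _
  | succ t ih =>
    intro w
    exact div_nonneg (Finset.sum_nonneg fun p _ => ih _) (by positivity)

theorem card_pairs : ((Finset.univ : Finset (J → Bool × Bool)).card : ℝ) = 4 ^ Fintype.card J := by
  rw [Finset.card_univ, Fintype.card_fun, Fintype.card_prod, Fintype.card_bool]
  push_cast
  norm_num

theorem BB_le_one (θ : ℝ) (t : ℕ) : ∀ w : List J → ℤ, BB θ t w ≤ 1 := by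
  induction t with
  | zero => intro w; exact Finset.prod_le_one (fun c _ => kp_nonneg _) (fun c _ => kp_le_one _)
  | succ t ih =>
    intro w
    rw [BB, div_le_one (by positivity), ← card_pairs]
    refine (Finset.sum_le_sum fun p _ => ih _).trans (le_of_eq ?_)
    simp

theorem gcs (θ : ℝ) : ∀ (us : List (J → ι)) (u : J → ι) (H : (ι → Bool) → ℤ) (w : List J → ℤ)
    (_ : ∀ v ∈ u :: us, Function.Injective v)
    (_ : List.Pairwise (fun v v' : J → ι => ∀ c c', v c ≠ v' c') (u :: us))
    (_ : MD (u :: us) H w),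
    (‖∑ x, ee (θ * H x)‖ / 2 ^ Fintype.card ι) ^ (2 ^ (us.length + 1)) ≤ BB θ us.length w := by
  intro us
  induction us with
  | nil =>
    intro u H w hinj _ h
    exact base_step (hinj u (by simp)) H w h θ
  | cons u' us ih =>
    intro u H w hinj hpw h
    rw [List.pairwise_cons] at hpw
    have hu := hinj u (by simp)
    have h1 := vdc hu H θ
    have h0 : 0 ≤ ‖∑ x, ee (θ * H x)‖ / 2 ^ Fintype.card ι := by positivity
    rw [List.length_cons, pow_succ' 2 (us.length + 1), pow_mul]
    have hJ : (0 : ℝ) < 4 ^ Fintype.card J := by positivity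
    have h2 := pow_le_pow_left₀ (by positivity) h1 (2 ^ (us.length + 1))
    refine h2.trans ?_
    rw [BB]
    have h3 : (∑ p : J → Bool × Bool, ‖∑ x, ee (θ * ((H (ov u (fun c => (p c).1) x) -
        H (ov u (fun c => (p c).2) x) : ℤ)))‖ / 2 ^ Fintype.card ι) / 4 ^ Fintype.card J =
        ∑ p : J → Bool × Bool, (1 / 4 ^ Fintype.card J : ℝ) * (‖∑ x, ee (θ * ((H (ov u (fun c => (p c).1) x) -
        H (ov u (fun c => (p c).2) x) : ℤ)))‖ / 2 ^ Fintype.card ι) := by
      rw [← Finset.mul_sum]; ring
    rw [h3]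
    have h4 := Real.pow_arith_mean_le_arith_mean_pow (Finset.univ : Finset (J → Bool × Bool))
      (fun _ => (1 / 4 ^ Fintype.card J : ℝ)) (fun p => ‖∑ x, ee (θ * ((H (ov u (fun c => (p c).1) x) -
        H (ov u (fun c => (p c).2) x) : ℤ)))‖ / 2 ^ Fintype.card ι) (fun _ _ => by positivity)
      (by rw [Finset.sum_const, nsmul_eq_mul, card_pairs]; field_simp)
      (fun _ _ => by positivity) (2 ^ (us.length + 1))
    refine h4.trans ?_
    rw [Finset.sum_div]
    refine Finset.sum_le_sum fun p _ => ?_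
    have h5 := ih u' (fun x => H (ov u (fun c => (p c).1) x) - H (ov u (fun c => (p c).2) x))
      (fun l => ∑ c, zz (p c) * w (c :: l)) (fun v hv => hinj v (List.mem_cons_of_mem _ hv)) hpw.2
      (MD_contr hu (u' :: us) (fun v hv => hpw.1 v hv) H w h _ _)
    have h6 : (1 / 4 ^ Fintype.card J : ℝ) * (‖∑ x, ee (θ * ((H (ov u (fun c => (p c).1) x) -
        H (ov u (fun c => (p c).2) x) : ℤ)))‖ / 2 ^ Fintype.card ι) ^ (2 ^ (us.length + 1)) ≤
        (1 / 4 ^ Fintype.card J : ℝ) * BB θ us.length (fun l => ∑ c, zz (p c) * w (c :: l)) :=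
      mul_le_mul_of_nonneg_left h5 (by positivity)
    refine h6.trans (le_of_eq ?_)
    ring

end Pool.Agent.NH45.Petal
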