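import Pool.Agent.NH45.Petal.M5
import Pool.Agent.NH45.Petal.M3

set_option autoImplicit false
set_option linter.unusedSectionVars false

/-! Anticoncentration of multilinear functions with the weights of chains. -/

namespace Pool.Agent.NH45.Petal

open Finset Real
open Pool.Agent.R811.Cross (D)

/-- the crossings of a group: the place of the end, the place of the beginning, a number -/
abbrev JJ (R N : ℕ) : Type := Fin R × (Fin (R + 1) × Fin N)

/-- the interlacement of consecutive crossings -/
def bits {R N : ℕ} : List (JJ R N) → List Bool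
  | [] => []
  | [_] => []
  | c :: c' :: l => decide ((c'.2.1 : ℕ) ≤ (c.1 : ℕ)) :: bits (c' :: l)

theorem card_JJ (R N : ℕ) : Fintype.card (JJ R N) = R * ((R + 1) * N) := by
  simp [JJ]

/-- the products of the conditions for the first coordinates -/
theorem card_curry {R : ℕ} {J' X : Type} [Fintype J'] [DecidableEq J'] [Fintype X] [DecidableEq X]
    (A : Finset (J' → X)) : (Finset.univ.filter (fun p : Fin R × J' → X => ∀ β, (fun j => p (β, j)) ∈ A)).card =
      A.card ^ R := by
  classical
  have h1 : A.card ^ R = (Fintype.piFinset (fun _ : Fin R => A)).card := by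
    rw [Fintype.card_piFinset, Finset.prod_const, Finset.card_univ, Fintype.card_fin]
  rw [h1]
  refine Finset.card_bij (fun p _ β j => p (β, j)) ?_ ?_ ?_
  · intro p hp
    rw [Fintype.mem_piFinset]
    exact (Finset.mem_filter.1 hp).2
  · intro p _ p' _ h
    funext z
    exact congrFun (congrFun h z.1) z.2
  · intro f hf
    rw [Fintype.mem_piFinset] at hf
    exact ⟨fun z => f z.1 z.2, Finset.mem_filter.2 ⟨Finset.mem_univ _, hf⟩, rfl⟩

theorem bad_card {R N L t : ℕ} (hL : 1 ≤ L) (hN : 256 * L ^ 2 ≤ N) (g : Fin (R + 1) → ℝ)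
    (b0 : Fin (R + 1)) (hb : 1 / (16 * (L : ℝ) ^ (t + 1)) ≤ nd (g b0)) :
    ((Finset.univ.filter (fun p : JJ R N → Bool × Bool => ∀ β : Fin R,
      nd (∑ j : Fin (R + 1) × Fin N, g j.1 * zz (p (β, j))) < 1 / (8 * (L : ℝ) ^ t))).card : ℝ) ≤
      (3 / 5) ^ R * 4 ^ Fintype.card (JJ R N) := by
  classical
  set A : Finset (Fin (R + 1) × Fin N → Bool × Bool) := Finset.univ.filter
    (fun q => nd (∑ j : Fin (R + 1) × Fin N, g j.1 * zz (q j)) < 1 / (8 * ((L ^ t : ℕ) : ℝ))) with hA
  have hL0 : (0 : ℝ) < L := by exact_mod_cast hL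
  have h1 := card_curry (R := R) A
  have h2 : (Finset.univ.filter (fun p : JJ R N → Bool × Bool => ∀ β : Fin R,
      nd (∑ j : Fin (R + 1) × Fin N, g j.1 * zz (p (β, j))) < 1 / (8 * (L : ℝ) ^ t))) =
      (Finset.univ.filter (fun p : JJ R N → Bool × Bool => ∀ β, (fun j => p (β, j)) ∈ A)) := by
    ext p
    simp only [Finset.mem_filter, Finset.mem_univ, true_and, hA]
    push_cast
    exact Iff.rfl
  rw [h2]
  have h3 : (A.card : ℝ) ≤ 3 / 5 * 4 ^ ((R + 1) * N) := by
    have h4 := small (fun j : Fin (R + 1) × Fin N => g j.1) (g b0)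
      (Finset.univ.filter (fun j : Fin (R + 1) × Fin N => j.1 = b0))
      (fun i hi => by rw [(Finset.mem_filter.1 hi).2]) (N := N) (by nlinarith) (by
        have : (Finset.univ : Finset (Fin N)).card ≤
            (Finset.univ.filter (fun j : Fin (R + 1) × Fin N => j.1 = b0)).card := by
          apply Finset.card_le_card_of_injOn (fun i => (b0, i))
          · intro i _
            rw [Finset.mem_coe, Finset.mem_filter]
            exact ⟨Finset.mem_univ _, rfl⟩
          · intro i _ i' _ h
            exact (Prod.mk.inj h).2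
        rwa [Finset.card_univ, Fintype.card_fin] at this)
      (δ := 1 / (16 * (L : ℝ) ^ (t + 1))) (by positivity) hb (q := L ^ t) (Nat.one_le_pow _ _ hL) (by
        have h5 : (16 * L : ℝ) ≤ √N := by
          apply le_sqrt_of_sq_le
          have : (256 : ℝ) * L ^ 2 ≤ N := by exact_mod_cast hN
          nlinarith
        push_cast
        rw [pow_succ]
        have e : (L : ℝ) ^ t * (1 / (16 * (L ^ t * L))) * √N = √N / (16 * L) := by
          field_simp
        rw [e, le_div_iff₀ (by positivity)]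
        linarith)
    rw [Fintype.card_prod, Fintype.card_fin, Fintype.card_fin] at h4
    exact h4
  have h5 : ((Finset.univ.filter (fun p : JJ R N → Bool × Bool => ∀ β, (fun j => p (β, j)) ∈ A)).card : ℝ) =
      (A.card : ℝ) ^ R := by
    have : (Finset.univ.filter (fun p : JJ R N → Bool × Bool => ∀ β, (fun j => p (β, j)) ∈ A)).card =
      A.card ^ R := h1
    rw [this]
    push_cast
    rfl
  rw [h5, card_JJ]
  refine (pow_le_pow_left₀ (Nat.cast_nonneg _) h3 R).trans (le_of_eq ?_)
  rw [mul_pow, ← pow_mul, mul_comm ((R + 1) * N) R]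

theorem lev {R N L : ℕ} (hL : 1 ≤ L) (hN : 256 * L ^ 2 ≤ N) (θ : ℝ) : ∀ (t : ℕ)
    (w : List (JJ R N) → ℤ) (Ω : Fin (R + 1) → List Bool → ℤ)
    (_ : ∀ c l, l.length = t → w (c :: l) = Ω c.2.1 (bits (c :: l)))
    (_ : ∃ b, 1 / (16 * (L : ℝ) ^ (t + 1)) ≤ nd (θ * dl t (Ω b))),
    BB θ t w ≤ (t + 1) * (3 / 5) ^ R := by
  intro t
  induction t with
  | zero =>
    intro w Ω hw hb
    obtain ⟨b, hb⟩ := hb
    rw [BB]
    have h1 : ∏ c : JJ R N, kp (2 * π * (θ * w [c])) ≤
        ∏ c ∈ Finset.univ.filter (fun c : JJ R N => c.2.1 = b), kp (2 * π * (θ * w [c])) :=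
      prod_subset (Finset.subset_univ _) (fun c => kp_nonneg _) (fun c => kp_le_one _)
    refine h1.trans ?_
    have hL0 : (0 : ℝ) < L := by exact_mod_cast hL
    have h2 : ∏ c ∈ Finset.univ.filter (fun c : JJ R N => c.2.1 = b), kp (2 * π * (θ * w [c])) ≤
        exp (-(1 / (64 * (L : ℝ) ^ 2))) ^ (Finset.univ.filter (fun c : JJ R N => c.2.1 = b)).card := by
      rw [← Finset.prod_const]
      refine Finset.prod_le_prod (fun c _ => kp_nonneg _) (fun c hc => ?_)
      refine (kp_exp _).trans ?_
      rw [hw c [] rfl, (Finset.mem_filter.1 hc).2, exp_le_exp]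
      have e : dl 0 (Ω b) = Ω b (bits [c]) := rfl
      rw [e, zero_add, pow_one] at hb
      have h3 := pow_le_pow_left₀ (by positivity) hb 2
      have e2 : (1 / (16 * (L : ℝ))) ^ 2 = 1 / (64 * (L : ℝ) ^ 2) / 4 := by
        field_simp
        norm_num
      rw [e2] at h3
      linarith
    refine h2.trans ?_
    have h3 : R * N ≤ (Finset.univ.filter (fun c : JJ R N => c.2.1 = b)).card := by
      have : (Finset.univ : Finset (Fin R × Fin N)).card ≤
          (Finset.univ.filter (fun c : JJ R N => c.2.1 = b)).card := by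
        apply Finset.card_le_card_of_injOn (fun i => (i.1, (b, i.2)))
        · intro i _
          rw [Finset.mem_coe, Finset.mem_filter]
          exact ⟨Finset.mem_univ _, rfl⟩
        · rintro ⟨i1, i2⟩ _ ⟨i1', i2'⟩ _ h
          simp only [Prod.mk.injEq, true_and] at h
          exact Prod.ext h.1 h.2
      rwa [Finset.card_univ, Fintype.card_prod, Fintype.card_fin, Fintype.card_fin] at this
    have hpos : (0 : ℝ) < 1 / (64 * (L : ℝ) ^ 2) := by positivity
    have h4 : exp (-(1 / (64 * (L : ℝ) ^ 2))) ^ (Finset.univ.filter (fun c : JJ R N => c.2.1 = b)).card ≤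
        exp (-(1 / (64 * (L : ℝ) ^ 2))) ^ (R * N) :=
      pow_le_pow_of_le_one (exp_pos _).le (exp_le_one_iff.2 (by linarith)) h3
    have h5 : exp (-(1 / (64 * (L : ℝ) ^ 2))) ^ (R * N) ≤ exp (-4) ^ R := by
      rw [mul_comm R N, pow_mul]
      refine pow_le_pow_left₀ (by positivity) ?_ R
      rw [← exp_nat_mul, exp_le_exp]
      have h6 : (256 : ℝ) * L ^ 2 ≤ N := by exact_mod_cast hN
      have h7 : (4 : ℝ) ≤ N * (1 / (64 * (L : ℝ) ^ 2)) := by
        rw [mul_one_div, le_div_iff₀ (by positivity)]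
        linarith
      linarith
    have h6 : exp (-4) ^ R ≤ (3 / 5) ^ R :=
      pow_le_pow_left₀ (exp_pos _).le (exp_four.trans (by norm_num)) R
    have h7 : ((0 : ℕ) + 1 : ℝ) * (3 / 5) ^ R = (3 / 5) ^ R := by norm_num
    rw [h7]
    linarith
  | succ t ih =>
    intro w Ω hw hb
    obtain ⟨b0, hb⟩ := hb
    rw [BB]
    set g : Fin (R + 1) → ℝ := fun b => θ * dl (t + 1) (Ω b) with hg
    have hbad := bad_card (t := t + 1) (N := N) hL hN g b0 hb
    set Bad := Finset.univ.filter (fun p : JJ R N → Bool × Bool => ∀ β : Fin R,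
      nd (∑ j : Fin (R + 1) × Fin N, g j.1 * zz (p (β, j))) < 1 / (8 * (L : ℝ) ^ (t + 1))) with hBad
    have key : ∀ p : JJ R N → Bool × Bool, BB θ t (fun l => ∑ c, zz (p c) * w (c :: l)) ≤
        (if p ∈ Bad then 1 else 0) + ((t + 1) * (3 / 5) ^ R) := by
      intro p
      by_cases hp : p ∈ Bad
      · rw [if_pos hp]
        have := BB_le_one θ t (fun l => ∑ c, zz (p c) * w (c :: l))
        have h1 : (0 : ℝ) ≤ (t + 1) * (3 / 5) ^ R := by positivity
        linarith
      · rw [if_neg hp, zero_add]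
        set Ω' : Fin (R + 1) → List Bool → ℤ := fun b' es =>
          ∑ c : JJ R N, zz (p c) * Ω c.2.1 (decide ((b' : ℕ) ≤ (c.1 : ℕ)) :: es) with hΩ'
        apply ih _ Ω'
        · intro c' l hl
          rw [hΩ']
          refine Finset.sum_congr rfl fun c _ => ?_
          rw [hw c (c' :: l) (by simp [hl])]
          rfl
        · by_contra hno
          push Not at hno
          apply hp
          rw [hBad, Finset.mem_filter]
          refine ⟨Finset.mem_univ _, fun β => ?_⟩
          have hdl : ∀ b', dl t (Ω' b') = ∑ c : JJ R N, zz (p c) *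
              dl t (fun es => Ω c.2.1 (decide ((b' : ℕ) ≤ (c.1 : ℕ)) :: es)) := by
            intro b'
            rw [hΩ', dl_sum]
            exact Finset.sum_congr rfl fun c _ => dl_mul _ _ _
          have hdiff : dl t (Ω' β.castSucc) - dl t (Ω' β.succ) =
              ∑ j : Fin (R + 1) × Fin N, zz (p (β, j)) * dl (t + 1) (Ω j.1) := by
            rw [hdl, hdl, ← Finset.sum_sub_distrib, Fintype.sum_prod_type]
            rw [Finset.sum_eq_single β]
            · refine Finset.sum_congr rfl fun j _ => ?_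
              rw [← mul_sub]
              congr 1
              rw [dl]
              have e1 : decide (((β.castSucc : Fin (R + 1)) : ℕ) ≤ (β : ℕ)) = true := by simp
              have e2 : decide (((β.succ : Fin (R + 1)) : ℕ) ≤ (β : ℕ)) = false := by simp
              rw [e1, e2]
            · intro β' _ hne
              refine Finset.sum_eq_zero fun j _ => ?_
              have hne' : (β' : ℕ) ≠ β := fun h => hne (Fin.ext h)
              have e1 : decide (((β.castSucc : Fin (R + 1)) : ℕ) ≤ (β' : ℕ)) =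
                  decide (((β.succ : Fin (R + 1)) : ℕ) ≤ (β' : ℕ)) := by
                rw [decide_eq_decide, Fin.val_castSucc, Fin.val_succ]
                omega
              rw [e1, sub_self]
            · intro h; exact absurd (Finset.mem_univ _) h
          have e : ∑ j : Fin (R + 1) × Fin N, g j.1 * zz (p (β, j)) =
              θ * dl t (Ω' β.castSucc) - θ * dl t (Ω' β.succ) := by
            have h1 : ((dl t (Ω' β.castSucc) - dl t (Ω' β.succ) : ℤ) : ℝ) =
              ((∑ j : Fin (R + 1) × Fin N, zz (p (β, j)) * dl (t + 1) (Ω j.1) : ℤ) : ℝ) := by rw [hdiff]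
            push_cast at h1
            rw [← mul_sub, h1, Finset.mul_sum]
            refine Finset.sum_congr rfl fun j _ => ?_
            rw [hg]
            ring
          rw [e]
          refine lt_of_le_of_lt (nd_sub _ _) ?_
          have h1 := hno β.castSucc
          have h2 := hno β.succ
          have e2 : 1 / (8 * (L : ℝ) ^ (t + 1)) = 1 / (16 * (L : ℝ) ^ (t + 1)) +
              1 / (16 * (L : ℝ) ^ (t + 1)) := by ring
          rw [e2]
          exact add_lt_add h1 h2
    have hJ : (0 : ℝ) < 4 ^ Fintype.card (JJ R N) := by positivity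
    rw [div_le_iff₀ hJ]
    refine (Finset.sum_le_sum fun p _ => key p).trans ?_
    rw [Finset.sum_add_distrib, Finset.sum_const, nsmul_eq_mul, card_pairs, Finset.sum_ite_mem,
      Finset.univ_inter, Finset.sum_const, nsmul_eq_mul, mul_one]
    push_cast
    nlinarith

/-! ### anticoncentration -/

theorem nd_frac {M : ℕ} (hM : 0 < M) {z : ℤ} (hz : ¬ (M : ℤ) ∣ z) : 1 / (M : ℝ) ≤ nd ((z : ℝ) / M) := by
  unfold nd
  have hM0 : (0 : ℝ) < M := by exact_mod_cast hM
  set k := round ((z : ℝ) / M)
  have e : (z : ℝ) / M - k = ((z - k * M : ℤ) : ℝ) / M := by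
    push_cast
    field_simp
  rw [e, abs_div, abs_of_pos hM0]
  apply div_le_div_of_nonneg_right _ hM0.le
  rw [← Int.cast_abs]
  have : z - k * M ≠ 0 := fun h => hz ⟨k, by linarith⟩
  exact_mod_cast Int.one_le_abs this

variable {ι : Type} [Fintype ι] [DecidableEq ι]

theorem fourier {M : ℕ} [NeZero M] (H : (ι → Bool) → ℤ) (c : ℤ)
    (h : ∀ τ : ℕ, 0 < τ → τ < M → ‖∑ x, ee ((τ / M : ℝ) * H x)‖ / 2 ^ Fintype.card ι ≤ 1 / M) :
    M * (Finset.univ.filter (fun x => H x = c)).card ≤ 2 * 2 ^ Fintype.card ι := by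
  classical
  have hM : (0 : ℝ) < M := by exact_mod_cast Nat.pos_of_ne_zero (NeZero.ne M)
  have hprim : (ZMod.stdAddChar (N := M)).IsPrimitive := ZMod.isPrimitive_stdAddChar M
  have key : (((M * (Finset.univ.filter (fun x => H x = c)).card : ℕ) : ℝ)) ≤
      ((2 * 2 ^ Fintype.card ι : ℕ) : ℝ) := by
    set G : (ι → Bool) → ZMod M := fun x => ((H x - c : ℤ) : ZMod M) with hG
    have h1 : ∀ x, ∑ t : ZMod M, ZMod.stdAddChar (N := M) (t * G x) = if G x = 0 then (M : ℂ) else 0 := by
      intro x
      rw [AddChar.sum_mulShift _ hprim, ZMod.card]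
      split_ifs <;> simp
    have h2 : (((M * (Finset.univ.filter (fun x => G x = 0)).card : ℕ) : ℝ)) =
        ‖∑ x, ∑ t : ZMod M, ZMod.stdAddChar (N := M) (t * G x)‖ := by
      rw [Finset.sum_congr rfl (fun x _ => h1 x), ← Finset.sum_filter, Finset.sum_const,
        nsmul_eq_mul, norm_mul, Complex.norm_natCast, Complex.norm_natCast]
      push_cast
      ring
    have h3 : (Finset.univ.filter (fun x => H x = c)).card ≤ (Finset.univ.filter (fun x => G x = 0)).card := by
      apply Finset.card_le_card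
      intro x hx
      rw [Finset.mem_filter] at hx ⊢
      refine ⟨hx.1, ?_⟩
      rw [hG]
      show ((H x - c : ℤ) : ZMod M) = 0
      rw [hx.2, sub_self, Int.cast_zero]
    have h4 : (((M * (Finset.univ.filter (fun x => H x = c)).card : ℕ) : ℝ)) ≤
        (((M * (Finset.univ.filter (fun x => G x = 0)).card : ℕ) : ℝ)) := by
      exact_mod_cast Nat.mul_le_mul_left M h3
    refine h4.trans ?_
    rw [h2, Finset.sum_comm]
    refine (norm_sum_le _ _).trans ?_
    have h5 : ∀ t : ZMod M, ‖∑ x, ZMod.stdAddChar (N := M) (t * G x)‖ ≤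
        (if t = 0 then 2 ^ Fintype.card ι else 0) + 2 ^ Fintype.card ι * (1 / M : ℝ) := by
      intro t
      by_cases ht : t = 0
      · rw [if_pos ht, ht]
        have h6 : ‖∑ x, ZMod.stdAddChar (N := M) (0 * G x)‖ ≤ 2 ^ Fintype.card ι := by
          refine (norm_sum_le _ _).trans (le_of_eq ?_)
          rw [Finset.sum_congr rfl (fun x _ => norm_psi _), Finset.sum_const, nsmul_eq_mul, card_cubeR,
            mul_one]
        have : (0 : ℝ) ≤ 2 ^ Fintype.card ι * (1 / M : ℝ) := by positivity
        linarith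
      · rw [if_neg ht, zero_add]
        have h6 := h t.val (ZMod.val_pos.2 ht) (ZMod.val_lt t)
        rw [div_le_iff₀ (by positivity)] at h6
        rw [mul_comm]
        refine le_trans (le_of_eq ?_) h6
        have h7 : ∀ x, ZMod.stdAddChar (N := M) (t * G x) = ee ((t.val / M : ℝ) * (-c)) *
            ee ((t.val / M : ℝ) * H x) := by
          intro x
          have e1 : t * G x = (((t.val : ℤ) * (H x - c) : ℤ) : ZMod M) := by
            rw [hG]
            push_cast
            rw [ZMod.natCast_zmod_val]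
          rw [e1, ZMod.stdAddChar_coe, ← ee_add]
          unfold ee
          congr 1
          push_cast
          ring
        rw [Finset.sum_congr rfl (fun x _ => h7 x), ← Finset.mul_sum, norm_mul, norm_ee, one_mul]
    refine (Finset.sum_le_sum fun t _ => h5 t).trans ?_
    rw [Finset.sum_add_distrib, Finset.sum_ite_eq' Finset.univ (0 : ZMod M), if_pos (Finset.mem_univ _),
      Finset.sum_const, Finset.card_univ, ZMod.card, nsmul_eq_mul]
    push_cast
    have e : (M : ℝ) * (2 ^ Fintype.card ι * (1 / M)) = 2 ^ Fintype.card ι := by field_simp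
    rw [e]
    linarith
  exact_mod_cast key

/-- anticoncentration of functions on the cube with the mixed differences `κ ω` -/
theorem anti {R N L M : ℕ} [NeZero M] (hL : 1 ≤ L) (hN : 256 * L ^ 2 ≤ N)
    (us : List (JJ R N → ι)) (u : JJ R N → ι) (H : (ι → Bool) → ℤ)
    (hinj : ∀ v ∈ u :: us, Function.Injective v)
    (hpw : List.Pairwise (fun v v' : JJ R N → ι => ∀ c c', v c ≠ v' c') (u :: us))
    (om' : List Bool → ℤ) (h : MD (u :: us) H (fun l => om' (bits l)))
    (hunit : IsUnit ((dl us.length om' : ℤ) : ZMod M)) (hM : M ≤ 16 * L ^ (us.length + 1))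
    (hη : (us.length + 1) * (3 / 5 : ℝ) ^ R ≤ (1 / M) ^ (2 ^ (us.length + 1))) (c : ℤ) :
    M * (Finset.univ.filter (fun x => H x = c)).card ≤ 2 * 2 ^ Fintype.card ι := by
  have hM0 : 0 < M := Nat.pos_of_ne_zero (NeZero.ne M)
  have hMr : (0 : ℝ) < M := by exact_mod_cast hM0
  apply fourier
  intro τ h1 h2
  have h3 := gcs (τ / M : ℝ) us u H _ hinj hpw h
  have h5 : ¬ (M : ℤ) ∣ (τ : ℤ) * dl us.length om' := by
    intro hdvd
    have h6 : (((τ : ℤ) * dl us.length om' : ℤ) : ZMod M) = 0 :=
      (ZMod.intCast_zmod_eq_zero_iff_dvd _ _).2 (by exact_mod_cast hdvd)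
    rw [Int.cast_mul] at h6
    have h7 := (hunit.mul_left_eq_zero).1 h6
    rw [Int.cast_natCast, ZMod.natCast_eq_zero_iff] at h7
    exact absurd (Nat.le_of_dvd h1 h7) (by omega)
  have h6 := nd_frac hM0 h5
  have e : (τ / M : ℝ) * (dl us.length om' : ℤ) = (((τ : ℤ) * dl us.length om' : ℤ) : ℝ) / M := by
    push_cast; ring
  have h7 : (M : ℝ) ≤ 16 * (L : ℝ) ^ (us.length + 1) := by exact_mod_cast hM
  have h8 : 1 / (16 * (L : ℝ) ^ (us.length + 1)) ≤ nd ((τ / M : ℝ) * (dl us.length om' : ℤ)) := by
    rw [e]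
    exact le_trans (one_div_le_one_div_of_le hMr h7) h6
  have h4 := lev (R := R) (N := N) hL hN (τ / M : ℝ) us.length (fun l => om' (bits l))
    (fun _ => om') (fun _ _ _ => rfl) ⟨0, h8⟩
  exact le_of_pow_le_pow_left₀ (by positivity) (by positivity) (h3.trans (h4.trans hη))

end Pool.Agent.NH45.Petal
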