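import Pool.Agent.NH45.Petal.Stat

set_option autoImplicit false

/-! Exponential concentration on the symmetric group, and the number of pairs of heights in two blocks. -/

namespace Pool.Agent.NH45.Petal

open Finset Equiv
open Real (exp exp_pos exp_le_exp add_one_le_exp exp_add exp_neg exp_le_one_iff abs_exp_sub_one_sub_id_le)

theorem exp_le_sq (x : ℝ) : exp x ≤ x + exp (x ^ 2) := by
  by_cases h : |x| ≤ 1
  · have h1 := abs_exp_sub_one_sub_id_le h
    have h2 := le_abs_self (exp x - 1 - x)
    have h3 := add_one_le_exp (x ^ 2)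
    linarith
  · rw [not_le] at h
    have h1 : 1 ≤ |x| := h.le
    rcases le_or_gt 0 x with hx | hx
    · rw [abs_of_nonneg hx] at h1
      have : x ≤ x ^ 2 := by nlinarith
      have := exp_le_exp.2 this
      linarith
    · rw [abs_of_neg hx] at h1
      have h2 := add_one_le_exp (x ^ 2)
      have h3 : exp x ≤ 1 := exp_le_one_iff.2 hx.le
      nlinarith

/-- the exponential moments of a function on the symmetric group which changes by at most `c` under
transpositions -/
theorem expo (c : ℝ) : ∀ (n : ℕ) (f : Perm (Fin n) → ℝ),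
    (∀ π a b, |f (swap a b * π) - f π| ≤ c) → ∀ t : ℝ,
    ∑ π, exp (t * (f π - (∑ σ, f σ) / n.factorial)) ≤ n.factorial * exp (4 * c ^ 2 * t ^ 2 * n) := by
  intro n
  induction n with
  | zero =>
    intro f _ t
    have h : ∀ π : Perm (Fin 0), f π = f 1 := fun π => by rw [Subsingleton.elim π 1]
    simp [h]
  | succ n ih =>
    intro f hf t
    have hc : 0 ≤ c := (abs_nonneg _).trans (hf 1 0 0)
    set N : ℝ := (n.factorial : ℝ) with hN
    have hNpos : 0 < N := by rw [hN]; exact_mod_cast n.factorial_pos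
    set mp : Fin (n + 1) → ℝ := fun p => (∑ e, f (DF p e)) / N with hmp
    have hN1 : (((n + 1).factorial : ℕ) : ℝ) = (n + 1) * N := by
      rw [Nat.factorial_succ]; push_cast; rfl
    set m : ℝ := (∑ σ, f σ) / ((n + 1).factorial : ℕ) with hm
    have hn1 : (0 : ℝ) < n + 1 := by positivity
    have hm' : (n + 1) * m = ∑ p, mp p := by
      rw [hm, hN1, sum_DF f, hmp, ← Finset.sum_div]
      field_simp
    have h1 : ∀ p, ∑ e, exp (t * (f (DF p e) - mp p)) ≤ N * exp (4 * c ^ 2 * t ^ 2 * n) := by
      intro p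
      refine ih (fun e => f (DF p e)) ?_ t
      intro e a b
      rw [DF_swap]
      exact hf _ _ _
    have h2 : ∀ p, |mp p - mp 0| ≤ c := by
      intro p
      rw [hmp]
      simp only
      rw [← sub_div, ← Finset.sum_sub_distrib, abs_div, abs_of_pos hNpos, div_le_iff₀ hNpos]
      refine (Finset.abs_sum_le_sum_abs _ _).trans ?_
      refine (Finset.sum_le_sum fun e _ => (?_ : |f (DF p e) - f (DF 0 e)| ≤ c)).trans ?_
      · rw [DF_eq p e]; exact hf _ _ _
      · rw [Finset.sum_const, nsmul_eq_mul, card_perm, mul_comm]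
    have h3 : ∀ p, |mp p - m| ≤ 2 * c := by
      intro p
      have h4 : (n + 1) * (mp p - m) = ∑ p', (mp p - mp p') := by
        rw [mul_sub, hm', Finset.sum_sub_distrib, Finset.sum_const, Finset.card_univ, Fintype.card_fin,
          nsmul_eq_mul]
        push_cast
        ring
      have h5 : |(n + 1) * (mp p - m)| ≤ (n + 1) * (2 * c) := by
        rw [h4]
        refine (Finset.abs_sum_le_sum_abs _ _).trans ?_
        refine (Finset.sum_le_sum fun p' _ => (?_ : |mp p - mp p'| ≤ 2 * c)).trans ?_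
        · have e : mp p - mp p' = (mp p - mp 0) - (mp p' - mp 0) := by ring
          rw [e]
          refine (abs_sub _ _).trans ?_
          linarith [h2 p, h2 p']
        · rw [Finset.sum_const, Finset.card_univ, Fintype.card_fin, nsmul_eq_mul]
          push_cast
          exact le_refl _
      rw [abs_mul, abs_of_pos hn1] at h5
      exact le_of_mul_le_mul_left h5 hn1
    rw [sum_DF]
    have h6 : ∀ p, ∑ e, exp (t * (f (DF p e) - m)) ≤
        exp (t * (mp p - m)) * (N * exp (4 * c ^ 2 * t ^ 2 * n)) := by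
      intro p
      have e1 : ∑ e, exp (t * (f (DF p e) - m)) =
          exp (t * (mp p - m)) * ∑ e, exp (t * (f (DF p e) - mp p)) := by
        rw [Finset.mul_sum]
        refine Finset.sum_congr rfl fun e _ => ?_
        rw [← exp_add]
        congr 1
        ring
      rw [e1]
      exact mul_le_mul_of_nonneg_left (h1 p) (exp_pos _).le
    refine (Finset.sum_le_sum fun p _ => h6 p).trans ?_
    rw [← Finset.sum_mul]
    have h7 : ∑ p, exp (t * (mp p - m)) ≤ (n + 1) * exp (4 * c ^ 2 * t ^ 2) := by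
      have h8 : ∀ p, exp (t * (mp p - m)) ≤ t * (mp p - m) + exp (4 * c ^ 2 * t ^ 2) := by
        intro p
        refine (exp_le_sq _).trans ?_
        have h9 : (t * (mp p - m)) ^ 2 ≤ 4 * c ^ 2 * t ^ 2 := by
          have h10 : (mp p - m) ^ 2 ≤ (2 * c) ^ 2 := by
            have := pow_le_pow_left₀ (abs_nonneg _) (h3 p) 2
            rwa [sq_abs] at this
          rw [mul_pow]
          nlinarith [sq_nonneg t]
        have := exp_le_exp.2 h9
        linarith
      refine (Finset.sum_le_sum fun p _ => h8 p).trans ?_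
      rw [Finset.sum_add_distrib, ← Finset.mul_sum, Finset.sum_sub_distrib, ← hm', Finset.sum_const,
        Finset.sum_const, Finset.card_univ, Fintype.card_fin, nsmul_eq_mul, nsmul_eq_mul]
      push_cast
      apply le_of_eq
      ring
    refine (mul_le_mul_of_nonneg_right h7 (by positivity)).trans (le_of_eq ?_)
    rw [hN1]
    have e : 4 * c ^ 2 * t ^ 2 * ((n + 1 : ℕ) : ℝ) = 4 * c ^ 2 * t ^ 2 + 4 * c ^ 2 * t ^ 2 * n := by
      push_cast; ring
    rw [e, exp_add]
    ring

/-- the lower tail -/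
theorem tail {c : ℝ} (hc : 0 < c) {n : ℕ} (hn : 0 < n) (f : Perm (Fin n) → ℝ)
    (hf : ∀ π a b, |f (swap a b * π) - f π| ≤ c) (μ a : ℝ) (ha : 0 ≤ a)
    (hmean : μ * n.factorial ≤ ∑ σ, f σ) :
    ((Finset.univ.filter (fun π => f π < μ - a)).card : ℝ) ≤
      n.factorial * exp (-(a ^ 2 / (16 * c ^ 2 * n))) := by
  have hnr : (0 : ℝ) < n := by exact_mod_cast hn
  set t : ℝ := -(a / (8 * c ^ 2 * n)) with ht
  have h := expo c n f hf t
  set m := (∑ σ, f σ) / (n.factorial : ℝ) with hm
  have hpos : (0 : ℝ) < n.factorial := by exact_mod_cast n.factorial_pos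
  have hmμ : μ ≤ m := by rw [hm, le_div_iff₀ hpos]; exact hmean
  have ht0 : t ≤ 0 := by rw [ht]; exact neg_nonpos.2 (by positivity)
  have h1 : ∑ π ∈ Finset.univ.filter (fun π => f π < μ - a), exp (a ^ 2 / (8 * c ^ 2 * n)) ≤
      ∑ π, exp (t * (f π - m)) := by
    refine (Finset.sum_le_sum fun π hπ =>
      (?_ : exp (a ^ 2 / (8 * c ^ 2 * n)) ≤ exp (t * (f π - m)))).trans
      (Finset.sum_le_sum_of_subset_of_nonneg (Finset.subset_univ _) fun _ _ _ => (exp_pos _).le)
    rw [Finset.mem_filter] at hπ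
    rw [exp_le_exp]
    have h2 : f π - m ≤ -a := by linarith [hπ.2]
    have h3 := mul_le_mul_of_nonpos_left h2 ht0
    have e : t * -a = a ^ 2 / (8 * c ^ 2 * n) := by rw [ht]; ring
    rw [e] at h3
    exact h3
  rw [Finset.sum_const, nsmul_eq_mul] at h1
  have h2 := h1.trans h
  have e1 : 4 * c ^ 2 * t ^ 2 * n = a ^ 2 / (16 * c ^ 2 * n) := by
    rw [ht]
    field_simp
    ring
  have e2 : exp (a ^ 2 / (8 * c ^ 2 * n)) = exp (a ^ 2 / (16 * c ^ 2 * n)) * exp (a ^ 2 / (16 * c ^ 2 * n)) := by
    rw [← exp_add]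
    congr 1
    field_simp
    ring
  rw [e1, e2, ← mul_assoc] at h2
  have h3 := le_of_mul_le_mul_right h2 (exp_pos _)
  rw [exp_neg, ← div_eq_mul_inv, le_div_iff₀ (exp_pos _)]
  exact h3

/-! ### the pairs of heights in two blocks -/

variable {k : ℕ}

/-- the segments in the block `g` whose partner is in the block `g'` -/
def XX (s g g' : ℕ) (π : Perm (Fin (2 * k + 3))) : Finset (Fin (2 * k + 3)) :=
  Finset.univ.filter (fun p => (p : ℕ) / s = g ∧ ((rho π p : Fin (2 * k + 3)) : ℕ) / s = g')

theorem XX_swap (s g g' : ℕ) (π : Perm (Fin (2 * k + 3))) (a b : Fin (2 * k + 3)) :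
    (XX s g g' (swap a b * π)).card ≤ (XX s g g' π).card + 4 := by
  classical
  set Z : Finset (Fin (2 * k + 3)) := {π.symm a, π.symm b, π.symm (xi a), π.symm (xi b)} with hZ
  have hZc : Z.card ≤ 4 := Finset.card_le_four
  have hout : ∀ p, p ∉ Z → rho (swap a b * π) p = rho π p := by
    intro p hp
    simp only [hZ, Finset.mem_insert, Finset.mem_singleton, not_or] at hp
    obtain ⟨h1, h2, h3, h4⟩ := hp
    apply rho_swap
    · intro h; exact h1 (by rw [← h, symm_apply_apply])
    · intro h; exact h2 (by rw [← h, symm_apply_apply])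
    · intro h; exact h3 (by rw [← h, xi_xi, symm_apply_apply])
    · intro h; exact h4 (by rw [← h, xi_xi, symm_apply_apply])
  have hsub : XX s g g' (swap a b * π) ⊆ XX s g g' π ∪ Z := by
    intro t ht
    rw [Finset.mem_union]
    by_cases h1 : t ∈ Z
    · exact Or.inr h1
    left
    unfold XX at ht ⊢
    rw [Finset.mem_filter] at ht ⊢
    rwa [hout _ h1] at ht
  refine (Finset.card_le_card hsub).trans ((Finset.card_union_le _ _).trans ?_)
  omega

theorem XX_lip (s g g' : ℕ) (π : Perm (Fin (2 * k + 3))) (a b : Fin (2 * k + 3)) :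
    |((XX s g g' (swap a b * π)).card : ℝ) - (XX s g g' π).card| ≤ 4 := by
  have h1 := XX_swap s g g' π a b
  have h2 := XX_swap s g g' (swap a b * π) a b
  rw [← mul_assoc, swap_mul_self, one_mul] at h2
  rw [abs_le]
  have h1' : ((XX s g g' (swap a b * π)).card : ℝ) ≤ (XX s g g' π).card + 4 := by exact_mod_cast h1
  have h2' : ((XX s g g' π).card : ℝ) ≤ (XX s g g' (swap a b * π)).card + 4 := by exact_mod_cast h2
  constructor <;> linarith

theorem rho_count (a a' : Fin (2 * k + 3)) (h1 : a ≠ a') :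
    (2 * k + 3).factorial ≤ (Finset.univ.filter (fun π : Perm (Fin (2 * k + 3)) =>
      rho π a = a')).card * (2 * k + 3) := by
  classical
  have hinj : Function.Injective ![a, a'] := by
    intro i j hij
    fin_cases i <;> fin_cases j <;> simp at hij ⊢ <;> first | exact absurd hij h1 | exact absurd hij.symm h1
  set x0 : Fin 2 ↪ Fin (2 * k + 3) := ⟨![a, a'], hinj⟩ with hx0
  set S : Finset (Fin 2 ↪ Fin (2 * k + 3)) := Finset.univ.filter (fun ω => ω 1 = xi (ω 0)) with hS
  have ht := tuple x0 S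
  have hset : (Finset.univ.filter (fun π : Perm (Fin (2 * k + 3)) => x0.trans π.toEmbedding ∈ S)) =
      (Finset.univ.filter (fun π : Perm (Fin (2 * k + 3)) => rho π a = a')) := by
    ext π
    rw [Finset.mem_filter, Finset.mem_filter, Finset.mem_filter]
    have e1 : (x0.trans π.toEmbedding) 1 = π a' := rfl
    have e2 : (x0.trans π.toEmbedding) 0 = π a := rfl
    rw [e1, e2]
    have key : ∀ p p', π p' = xi (π p) ↔ rho π p = p' := by
      intro p p'
      rw [← pi_rho]
      constructor
      · intro h; exact (π.injective h).symm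
      · rintro rfl; rfl
    rw [key]
    simp
  rw [hset] at ht
  have hScard : 2 * (k + 1) ≤ S.card := by
    have h7 : ((Finset.univ : Finset (Fin (k + 1) × Bool))).card ≤ S.card := by
      have hemb : ∀ z : Fin (k + 1) × Bool,
          Function.Injective ![hgt z.1 z.2, hgt z.1 (!z.2)] := by
        intro z i j hij
        have hne : hgt z.1 z.2 ≠ hgt z.1 (!z.2) := by
          intro h
          have := (hgt_inj h).2
          cases hz : z.2 <;> rw [hz] at this <;> simp at this
        fin_cases i <;> fin_cases j <;> simp at hij ⊢ <;>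
          first | exact absurd hij hne | exact absurd hij.symm hne
      apply Finset.card_le_card_of_injOn (fun z => (⟨_, hemb z⟩ : Fin 2 ↪ Fin (2 * k + 3)))
      · intro z _
        rw [Finset.mem_coe, hS, Finset.mem_filter]
        refine ⟨Finset.mem_univ _, ?_⟩
        show hgt z.1 (!z.2) = xi (hgt z.1 z.2)
        rw [xi_hgt]
      · rintro ⟨z1, z2⟩ _ ⟨y1, y2⟩ _ h
        have g0 : hgt z1 z2 = hgt y1 y2 := congrArg (fun ω : Fin 2 ↪ Fin (2 * k + 3) => ω 0) h
        obtain ⟨rfl, rfl⟩ := hgt_inj g0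
        rfl
    rw [Finset.card_univ, Fintype.card_prod, Fintype.card_fin, Fintype.card_bool] at h7
    linarith
  have hcard : Fintype.card (Fin 2 ↪ Fin (2 * k + 3)) = (2 * k + 3) * (2 * (k + 1)) := by
    rw [Fintype.card_embedding_eq, Fintype.card_fin, Fintype.card_fin]
    simp only [Nat.descFactorial_succ, Nat.descFactorial_zero]
    have e3 : 2 * k + 3 - 1 = 2 * (k + 1) := by omega
    rw [e3]
    simp only [Nat.sub_zero]
    ring
  rw [hcard] at ht
  set N := (Finset.univ.filter (fun π : Perm (Fin (2 * k + 3)) => rho π a = a')).card with hN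
  have hpos : 0 < 2 * (k + 1) := by positivity
  have h8 : (2 * (k + 1)) * (2 * k + 3).factorial ≤ (2 * (k + 1)) * (N * (2 * k + 3)) := by
    calc (2 * (k + 1)) * (2 * k + 3).factorial = (2 * k + 3).factorial * (2 * (k + 1)) := by ring
      _ ≤ (2 * k + 3).factorial * S.card := Nat.mul_le_mul_left _ hScard
      _ = N * ((2 * k + 3) * (2 * (k + 1))) := ht.symm
      _ = (2 * (k + 1)) * (N * (2 * k + 3)) := by ring
  exact Nat.le_of_mul_le_mul_left h8 hpos

theorem block_card {s g : ℕ} (hg : (g + 1) * s ≤ 2 * k + 3) :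
    s ≤ (Finset.univ.filter (fun p : Fin (2 * k + 3) => (p : ℕ) / s = g)).card := by
  rcases Nat.eq_zero_or_pos s with h0 | hs
  · omega
  have e : (g + 1) * s = g * s + s := by ring
  have h := Finset.card_le_card_of_injOn (s := (Finset.univ : Finset (Fin s)))
    (t := Finset.univ.filter (fun p : Fin (2 * k + 3) => (p : ℕ) / s = g))
    (fun i => (⟨g * s + i, by have := i.2; omega⟩ : Fin (2 * k + 3))) (by
      intro i _
      rw [Finset.mem_coe, Finset.mem_filter]
      refine ⟨Finset.mem_univ _, ?_⟩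
      show (g * s + (i : ℕ)) / s = g
      rw [mul_comm, Nat.mul_add_div hs, Nat.div_eq_of_lt i.2, add_zero]) (by
      intro i _ j _ hij
      have := congrArg Fin.val hij
      simp only at this
      exact Fin.ext (by omega))
  rwa [Finset.card_univ, Fintype.card_fin] at h

theorem XX_mean {s g g' : ℕ} (hg : (g + 1) * s ≤ 2 * k + 3) (hg' : (g' + 1) * s ≤ 2 * k + 3) (hne : g ≠ g') :
    s ^ 2 * (2 * k + 3).factorial ≤
      (∑ π : Perm (Fin (2 * k + 3)), (XX s g g' π).card) * (2 * k + 3) := by
  classical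
  set A := Finset.univ.filter (fun p : Fin (2 * k + 3) => (p : ℕ) / s = g) with hA
  set B := Finset.univ.filter (fun p : Fin (2 * k + 3) => (p : ℕ) / s = g') with hB
  have h1 : ∑ π : Perm (Fin (2 * k + 3)), (XX s g g' π).card = ∑ z ∈ A ×ˢ B,
      (Finset.univ.filter (fun π : Perm (Fin (2 * k + 3)) => rho π z.1 = z.2)).card := by
    have e1 : ∀ π : Perm (Fin (2 * k + 3)), (XX s g g' π).card = ∑ z ∈ A ×ˢ B, if rho π z.1 = z.2 then 1 else 0 := by
      intro π
      rw [Finset.sum_product]
      have e2 : ∀ p ∈ A, (∑ p' ∈ B, if rho π p = p' then 1 else 0) = if rho π p ∈ B then 1 else 0 := by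
        intro p _
        rw [Finset.sum_ite_eq]
      have e3 : (∑ x ∈ A, ∑ y ∈ B, if rho π (x, y).1 = (x, y).2 then 1 else 0) =
          ∑ p ∈ A, if rho π p ∈ B then 1 else 0 := Finset.sum_congr rfl e2
      rw [e3, ← Finset.card_filter]
      unfold XX
      congr 1
      ext p
      simp [hA, hB]
    rw [Finset.sum_congr rfl (fun π _ => e1 π), Finset.sum_comm]
    refine Finset.sum_congr rfl fun z _ => ?_
    rw [Finset.card_filter]
  rw [h1, Finset.sum_mul]
  calc s ^ 2 * (2 * k + 3).factorial ≤ (A.card * B.card) * (2 * k + 3).factorial := by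
        rw [pow_two]
        exact Nat.mul_le_mul_right _ (Nat.mul_le_mul (block_card hg) (block_card hg'))
    _ = ∑ _z ∈ A ×ˢ B, (2 * k + 3).factorial := by
        rw [Finset.sum_const, Finset.card_product, smul_eq_mul]
    _ ≤ _ := by
        refine Finset.sum_le_sum fun z hz => ?_
        rw [Finset.mem_product, hA, hB, Finset.mem_filter, Finset.mem_filter] at hz
        apply rho_count
        intro h
        apply hne
        rw [← hz.1.2, ← hz.2.2, h]

/-- few pairs are rare -/
theorem XX_tail {s g g' : ℕ} (hg : (g + 1) * s ≤ 2 * k + 3) (hg' : (g' + 1) * s ≤ 2 * k + 3) (hne : g ≠ g') :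
    ((Finset.univ.filter (fun π : Perm (Fin (2 * k + 3)) =>
      ((XX s g g' π).card : ℝ) < s ^ 2 / (2 * (2 * k + 3 : ℕ)))).card : ℝ) ≤
      (2 * k + 3).factorial * exp (-((s : ℝ) ^ 4 / (1024 * (2 * k + 3 : ℕ) ^ 3))) := by
  set n : ℕ := 2 * k + 3 with hn
  have hn0 : (0 : ℝ) < n := by
    have : 0 < n := by omega
    exact_mod_cast this
  have h := tail (c := 4) (by norm_num) (n := n) (by omega) (fun π : Perm (Fin n) => ((XX s g g' π).card : ℝ))
    (fun π a b => XX_lip s g g' π a b) ((s : ℝ) ^ 2 / n) ((s : ℝ) ^ 2 / (2 * n)) (by positivity) (by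
      have h1 := XX_mean (k := k) hg hg' hne
      have h2 : ((s : ℝ) ^ 2 * n.factorial) ≤ (∑ π : Perm (Fin n), ((XX s g g' π).card : ℝ)) * n := by
        exact_mod_cast h1
      rw [div_mul_eq_mul_div, div_le_iff₀ hn0]
      exact h2)
  have e1 : (s : ℝ) ^ 2 / n - (s : ℝ) ^ 2 / (2 * n) = (s : ℝ) ^ 2 / (2 * n) := by
    field_simp
    norm_num
  have e2 : ((s : ℝ) ^ 2 / (2 * n)) ^ 2 / (16 * 4 ^ 2 * n) = (s : ℝ) ^ 4 / (1024 * (n : ℝ) ^ 3) := by
    field_simp
    ring
  rw [e1, e2] at h
  exact h

end Pool.Agent.NH45.Petal
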