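import Pool.Agent.NH45.Petal.M7
import Pool.Agent.NH45.Petal.M6

set_option autoImplicit false

/-! Chains of crossings with neighbouring heights in a petal diagram. -/

namespace Pool.Agent.NH45.Petal

open Finset Equiv
open Pool.Agent.H891R2.Jones Pool.Agent.H832R3.VJ Pool.Agent.R811.Cross

section perm

variable {n : ℕ} (G : Shadow n)

theorem singF_perm {P : Type} {l l' : List (Crossing P)} (h : l.Perm l') : ∀ (arcs : List (P × P))
    (cr : List (Crossing P)), singF arcs cr l = singF arcs cr l' := by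
  induction h with
  | nil => intro arcs cr; rfl
  | cons x _ ih =>
    intro arcs cr
    show singF arcs (positive x :: cr) _ - singF arcs (negative x :: cr) _ =
      singF arcs (positive x :: cr) _ - singF arcs (negative x :: cr) _
    rw [ih, ih]
  | swap x y l =>
    intro arcs cr
    show (singF arcs (positive x :: positive y :: cr) l - singF arcs (negative x :: positive y :: cr) l) -
      (singF arcs (positive x :: negative y :: cr) l - singF arcs (negative x :: negative y :: cr) l) =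
      (singF arcs (positive y :: positive x :: cr) l - singF arcs (negative y :: positive x :: cr) l) -
      (singF arcs (positive y :: negative x :: cr) l - singF arcs (negative y :: negative x :: cr) l)
    have e : ∀ z w : Crossing P, singF arcs (z :: w :: cr) l = singF arcs (w :: z :: cr) l :=
      fun z w => V6b.singF_congr l arcs arcs _ _ (fun _ _ => Iff.rfl) (List.Perm.swap _ _ _)
    rw [e (positive x), e (negative x), e (positive x), e (negative x)]
    ring
  | trans _ _ h1 h2 => intro arcs cr; rw [h1, h2]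

theorem Ev_perm (m : ℕ) {l l' : List (Fin n)} (h : l.Perm l') : Ev G m l = Ev G m l' := by
  funext s
  unfold Ev
  rw [rest_mem G (fun k => h.mem_iff) s, singF_perm (h.map G.crossing)]

end perm

variable {k : ℕ}

/-- Chains of crossings: the crossing `cr i c` is the one of the segment `lo i c` and the segment whose
height is the partner of its height. -/
structure Sel (m R N s : ℕ) (π : Perm (Fin (2 * k + 3))) where
  lo : ℕ → JJ R N → Fin (2 * k + 3)
  cr : ℕ → JJ R N → Fin ((2 * k + 3) * k)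
  blk1 : ∀ i < m, ∀ c, ((lo i c : Fin (2 * k + 3)) : ℕ) / s = i * (2 * R + 1) + 2 * (c.2.1 : ℕ)
  blk2 : ∀ i < m, ∀ c, ((rho π (lo i c) : Fin (2 * k + 3)) : ℕ) / s =
    (i + 1) * (2 * R + 1) + (2 * (c.1 : ℕ) + 1)
  inj : ∀ i < m, ∀ c c' : JJ R N, c.1 = c'.1 → c.2.1 = c'.2.1 → lo i c = lo i c' → c = c'
  conn : ∀ i < m, ∀ c, Conn (cr i c) (lo i c) (rho π (lo i c))

/-- many pairs of heights -/
def Rich (m R N s : ℕ) (π : Perm (Fin (2 * k + 3))) : Prop :=
  ∀ i < m, ∀ (β : Fin R) (γ : Fin (R + 1)),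
    N ≤ (XX s (i * (2 * R + 1) + 2 * (γ : ℕ)) ((i + 1) * (2 * R + 1) + (2 * (β : ℕ) + 1)) π).card

theorem exists_sel {m R N s : ℕ} (hs : 0 < s) (hk : 0 < k) (hfit : (m + 1) * (2 * R + 1) * s ≤ 2 * k + 2)
    {π : Perm (Fin (2 * k + 3))} (h : Rich m R N s π) : Nonempty (Sel m R N s π) := by
  classical
  have h1 : ∀ i : ℕ, ∃ lo : JJ R N → Fin (2 * k + 3), i < m →
      ((∀ c, lo c ∈ XX s (i * (2 * R + 1) + 2 * (c.2.1 : ℕ)) ((i + 1) * (2 * R + 1) + (2 * (c.1 : ℕ) + 1)) π) ∧
      (∀ c c' : JJ R N, c.1 = c'.1 → c.2.1 = c'.2.1 → lo c = lo c' → c = c')) := by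
    intro i
    by_cases hi : i < m
    · have h2 : ∀ (β : Fin R) (γ : Fin (R + 1)), ∃ φ : Fin N → Fin (2 * k + 3), Function.Injective φ ∧
          ∀ j, φ j ∈ XX s (i * (2 * R + 1) + 2 * (γ : ℕ)) ((i + 1) * (2 * R + 1) + (2 * (β : ℕ) + 1)) π := by
        intro β γ
        obtain ⟨S, hS, hcard⟩ := Finset.exists_subset_card_eq (h i hi β γ)
        refine ⟨S.orderEmbOfFin hcard, (S.orderEmbOfFin hcard).injective, fun j => ?_⟩
        exact hS (Finset.orderEmbOfFin_mem S hcard j)
      choose φ hφ1 hφ2 using h2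
      refine ⟨fun c => φ c.1 c.2.1 c.2.2, fun _ => ⟨fun c => hφ2 _ _ _, ?_⟩⟩
      rintro ⟨β, γ, j⟩ ⟨β', γ', j'⟩ h3 h4 h5
      simp only at h3 h4 h5
      subst h3
      subst h4
      rw [hφ1 _ _ h5]
    · exact ⟨fun _ => 0, fun h => absurd h hi⟩
  choose lo hlo using h1
  have hconn : ∀ (i : ℕ) (c : JJ R N), ∃ cr : Fin ((2 * k + 3) * k), i < m →
      Conn cr (lo i c) (rho π (lo i c)) := by
    intro i c
    by_cases hi : i < m
    · have h2 := (Finset.mem_filter.1 ((hlo i hi).1 c)).2
      obtain ⟨h3, h4⟩ := h2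
      have hβ := c.1.2
      have hγ := c.2.1.2
      have e1 : (i + 1) * (2 * R + 1) = i * (2 * R + 1) + (2 * R + 1) := by ring
      have hlo1 := Nat.lt_div_mul_add (a := ((lo i c : Fin (2 * k + 3)) : ℕ)) hs
      have hhi1 := Nat.div_mul_le_self ((rho π (lo i c) : Fin (2 * k + 3)) : ℕ) s
      have hhi2 := Nat.lt_div_mul_add (a := ((rho π (lo i c) : Fin (2 * k + 3)) : ℕ)) hs
      rw [h3] at hlo1
      rw [h4] at hhi1 hhi2
      have g1 : (i * (2 * R + 1) + 2 * (c.2.1 : ℕ) + 2) * s ≤
          ((i + 1) * (2 * R + 1) + (2 * (c.1 : ℕ) + 1)) * s := Nat.mul_le_mul_right _ (by omega)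
      have g2 : ((i + 1) * (2 * R + 1) + (2 * (c.1 : ℕ) + 1) + 1) * s ≤ (m + 1) * (2 * R + 1) * s := by
        apply Nat.mul_le_mul_right
        have : (i + 2) * (2 * R + 1) ≤ (m + 1) * (2 * R + 1) := Nat.mul_le_mul_right _ (by omega)
        have e2 : (i + 2) * (2 * R + 1) = (i + 1) * (2 * R + 1) + (2 * R + 1) := by ring
        omega
      have e3 : (i * (2 * R + 1) + 2 * (c.2.1 : ℕ) + 2) * s =
          (i * (2 * R + 1) + 2 * (c.2.1 : ℕ)) * s + s + s := by ring
      have e4 : ((i + 1) * (2 * R + 1) + (2 * (c.1 : ℕ) + 1) + 1) * s =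
          ((i + 1) * (2 * R + 1) + (2 * (c.1 : ℕ) + 1)) * s + s := by ring
      obtain ⟨cr, hcr⟩ := conn_exists (lo i c) (rho π (lo i c)) (by omega) (by omega)
      exact ⟨cr, fun _ => hcr⟩
    · have hpos : 0 < (2 * k + 3) * k := by positivity
      exact ⟨⟨0, hpos⟩, fun h => absurd h hi⟩
  choose cr hcr using hconn
  exact ⟨⟨lo, cr, fun i hi c => (Finset.mem_filter.1 ((hlo i hi).1 c)).2.1,
    fun i hi c => (Finset.mem_filter.1 ((hlo i hi).1 c)).2.2, fun i hi => (hlo i hi).2,
    fun i hi c => hcr i c hi⟩⟩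

namespace Sel

variable {m R N s : ℕ} {π : Perm (Fin (2 * k + 3))} (Z : Sel m R N s π)

theorem lt_of_blk {a b : ℕ} (h : a / s < b / s) : a < b := by
  by_contra hno
  rw [not_lt] at hno
  exact absurd (Nat.div_le_div_right (c := s) hno) (not_le.2 h)

include Z in
theorem ne_rho {i : ℕ} (hi : i < m) (c : JJ R N) : rho π (Z.lo i c) ≠ Z.lo i c := by
  intro h
  have h1 := Z.blk1 i hi c
  have h2 := Z.blk2 i hi c
  rw [h, h1] at h2
  have hγ := c.2.1.2
  have e1 : (i + 1) * (2 * R + 1) = i * (2 * R + 1) + (2 * R + 1) := by ring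
  omega

/-- the pair of heights -/
def u (i : ℕ) (c : JJ R N) : Fin (k + 1) := blk (π (Z.lo i c))

theorem blk_cr {i : ℕ} (hi : i < m) (c : JJ R N) : Blk π (Z.cr i c) (Z.u i c) :=
  Blk_of_conn (Z.ne_rho hi c) (Z.conn i hi c)

theorem u_inj {i i' : ℕ} (hi : i < m) (hi' : i' < m) (c c' : JJ R N) (h : Z.u i c = Z.u i' c') :
    i = i' ∧ c = c' := by
  have a1 := Z.blk1 i hi c
  have a2 := Z.blk2 i hi c
  have b1 := Z.blk1 i' hi' c'
  have b2 := Z.blk2 i' hi' c'
  have hβ := c.1.2
  have hγ := c.2.1.2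
  have hβ' := c'.1.2
  have hγ' := c'.2.1.2
  have hcomm : ∀ j : ℕ, (j + 1) * (2 * R + 1) = j * (2 * R + 1) + (2 * R + 1) := fun j => by ring
  have hlt : ∀ j j' : ℕ, j < j' → j * (2 * R + 1) + (2 * R + 1) ≤ j' * (2 * R + 1) := by
    intro j j' hjj
    rw [← hcomm]
    exact Nat.mul_le_mul_right _ hjj
  rcases blk_eq (Z.ne_rho hi c) (Z.ne_rho hi' c') h with h1 | h1
  · rw [h1, b1] at a1
    have hii : i = i' := by
      rcases Nat.lt_trichotomy i i' with h2 | h2 | h2
      · have := hlt _ _ h2; omega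
      · exact h2
      · have := hlt _ _ h2; omega
    subst hii
    have hγγ : c.2.1 = c'.2.1 := Fin.ext (by omega)
    rw [h1, b2] at a2
    have hββ : c.1 = c'.1 := Fin.ext (by omega)
    exact ⟨rfl, Z.inj i hi c c' hββ hγγ h1⟩
  · exfalso
    rw [h1, b1] at a2
    have h3 := hcomm i
    rcases Nat.lt_trichotomy (i + 1) i' with h2 | h2 | h2
    · have := hlt _ _ h2; omega
    · rw [← h2] at a2; omega
    · have := hlt _ _ h2; omega

theorem cr_inj {i i' : ℕ} (hi : i < m) (hi' : i' < m) (c c' : JJ R N) (h : Z.cr i c = Z.cr i' c') :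
    i = i' ∧ c = c' := by
  apply Z.u_inj hi hi'
  have h1 := (Z.blk_cr hi c).1
  have h2 := (Z.blk_cr hi' c').1
  rw [h, h2] at h1
  exact (Fin.ext h1).symm

theorem inter {i i' : ℕ} (hii : i < i') (hi' : i' < m) (c c' : JJ R N) :
    (star k).Interlaced (Z.cr i' c') (Z.cr i c) ↔ (i' = i + 1 ∧ (c'.2.1 : ℕ) ≤ (c.1 : ℕ)) := by
  have hi : i < m := by omega
  have a1 := Z.blk1 i hi c
  have a2 := Z.blk2 i hi c
  have b1 := Z.blk1 i' hi' c'
  have b2 := Z.blk2 i' hi' c'
  have hβ := c.1.2
  have hγ := c.2.1.2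
  have hβ' := c'.1.2
  have hγ' := c'.2.1.2
  have hcomm : ∀ j : ℕ, (j + 1) * (2 * R + 1) = j * (2 * R + 1) + (2 * R + 1) := fun j => by ring
  have hlt : ∀ j j' : ℕ, j < j' → j * (2 * R + 1) + (2 * R + 1) ≤ j' * (2 * R + 1) := by
    intro j j' hjj
    rw [← hcomm]
    exact Nat.mul_le_mul_right _ hjj
  have h1 := hlt _ _ hii
  have h2 := hcomm i
  have h3 := hcomm i'
  have hne : ((Z.lo i' c' : Fin (2 * k + 3)) : ℕ) / s ≠ ((rho π (Z.lo i c) : Fin (2 * k + 3)) : ℕ) / s := by
    rw [b1, a2]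
    intro h
    rcases Nat.lt_trichotomy (i + 1) i' with h4 | h4 | h4
    · have := hlt _ _ h4; omega
    · rw [← h4] at h; omega
    · omega
  have hint := inter_iff (Z.conn i hi c) (Z.conn i' hi' c') (lt_of_blk (s := s) (by rw [a1, a2]; omega))
    (lt_of_blk (s := s) (by rw [b1, b2]; omega)) (lt_of_blk (s := s) (by rw [a1, b1]; omega))
    (lt_of_blk (s := s) (by rw [a2, b2]; omega)) (fun h => hne (by rw [h]))
  have hcne : Z.cr i' c' ≠ Z.cr i c := fun h => by
    have := (Z.cr_inj hi' hi c' c h).1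
    omega
  rw [int_symm (star k) hcne, hint]
  constructor
  · intro h
    have h5 : ((Z.lo i' c' : Fin (2 * k + 3)) : ℕ) / s < ((rho π (Z.lo i c) : Fin (2 * k + 3)) : ℕ) / s :=
      lt_of_le_of_ne (Nat.div_le_div_right h.le) hne
    rw [b1, a2] at h5
    rcases Nat.lt_trichotomy (i + 1) i' with h4 | h4 | h4
    · have := hlt _ _ h4; omega
    · refine ⟨h4.symm, ?_⟩
      rw [← h4] at h5
      omega
    · omega
  · rintro ⟨h4, h5⟩
    apply lt_of_blk (s := s)
    rw [b1, a2, h4]
    omega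

/-- the list of crossings -/
def crs : ℕ → List (JJ R N) → List (Fin ((2 * k + 3) * k))
  | _, [] => []
  | i, c :: l => Z.cr i c :: crs (i + 1) l

theorem mem_crs : ∀ (l : List (JJ R N)) (i : ℕ) (y : Fin ((2 * k + 3) * k)), y ∈ Z.crs i l →
    ∃ i' c', i ≤ i' ∧ i' < i + l.length ∧ y = Z.cr i' c' := by
  intro l
  induction l with
  | nil => intro i y h; simp [crs] at h
  | cons c l ih =>
    intro i y h
    rw [crs, List.mem_cons] at h
    rcases h with h | h
    · exact ⟨i, c, le_refl _, by simp, h⟩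
    · obtain ⟨i', c', h1, h2, h3⟩ := ih (i + 1) y h
      exact ⟨i', c', by omega, by rw [List.length_cons]; omega, h3⟩

theorem crs_append : ∀ (l : List (JJ R N)) (i : ℕ) (c : JJ R N),
    Z.crs i (l ++ [c]) = Z.crs i l ++ [Z.cr (i + l.length) c] := by
  intro l
  induction l with
  | nil => intro i c; rfl
  | cons c' l ih =>
    intro i c
    rw [List.cons_append, crs, crs, ih, List.cons_append, List.length_cons]
    have : i + 1 + l.length = i + (l.length + 1) := by omega
    rw [this]

theorem length_crs : ∀ (l : List (JJ R N)) (i : ℕ), (Z.crs i l).length = l.length := by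
  intro l
  induction l with
  | nil => intro i; rfl
  | cons c l ih => intro i; rw [crs, List.length_cons, List.length_cons, ih]

theorem nodup_crs : ∀ (l : List (JJ R N)) (i : ℕ) (_ : i + l.length ≤ m), (Z.crs i l).Nodup := by
  intro l
  induction l with
  | nil => intro i _; exact List.nodup_nil
  | cons c l ih =>
    intro i hi
    rw [List.length_cons] at hi
    rw [crs, List.nodup_cons]
    refine ⟨?_, ih (i + 1) (by omega)⟩
    intro h
    obtain ⟨i', c', h1, h2, h3⟩ := Z.mem_crs _ _ _ h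
    have := (Z.cr_inj (by omega) (by omega) _ _ h3).1
    omega

theorem chain_crs : ∀ (l : List (JJ R N)) (i : ℕ) (c : JJ R N) (_ : i + l.length < m),
    Chain (star k) (Z.cr i c) (Z.crs (i + 1) l) (bits (c :: l)) := by
  intro l
  induction l with
  | nil => intro i c _; exact Chain.nil _
  | cons c' l ih =>
    intro i c hi
    rw [List.length_cons] at hi
    rw [crs, bits]
    refine Chain.cons _ _ _ _ _ ?_ ?_ (ih (i + 1) c' (by omega))
    · rw [Z.inter (by omega) (by omega) c c', decide_eq_true_iff]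
      constructor
      · exact fun h => h.2
      · exact fun h => ⟨rfl, h⟩
    · intro y hy
      obtain ⟨i', c'', h1, h2, rfl⟩ := Z.mem_crs _ _ _ hy
      rw [Z.inter (by omega) (by omega) c c'']
      omega

open Classical in
/-- the correction of the signs -/
noncomputable def tau (e : Fin (k + 1)) : Bool :=
  decide (∃ i c, i < m ∧ Z.u i c = e ∧ sgn π (Z.cr i c) = true)

theorem tau_u {i : ℕ} (hi : i < m) (c : JJ R N) : Z.tau (Z.u i c) = sgn π (Z.cr i c) := by
  classical
  unfold tau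
  cases h : sgn π (Z.cr i c)
  · rw [decide_eq_false_iff_not]
    rintro ⟨i', c', h1, h2, h3⟩
    obtain ⟨rfl, rfl⟩ := Z.u_inj h1 hi c' c h2
    rw [h] at h3
    cases h3
  · rw [decide_eq_true_iff]
    exact ⟨i, c, hi, rfl, h⟩

/-- the signs of the crossings -/
noncomputable def sig (x : Fin (k + 1) → Bool) : Fin ((2 * k + 3) * k) → Bool :=
  sgn (swP (fun e => xor (x e) (Z.tau e)) * π)

theorem sig_upd {i : ℕ} (hi : i < m) (c : JJ R N) (x : Fin (k + 1) → Bool) (y : Bool) :
    Z.sig (Function.update x (Z.u i c) y) = Function.update (Z.sig x) (Z.cr i c) y := by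
  unfold sig
  have e : (fun e => xor (Function.update x (Z.u i c) y e) (Z.tau e)) =
      Function.update (fun e => xor (x e) (Z.tau e)) (Z.u i c) (xor y (Z.tau (Z.u i c))) := by
    funext e
    by_cases he : e = Z.u i c
    · subst he; rw [Function.update_self, Function.update_self]
    · rw [Function.update_of_ne he, Function.update_of_ne he]
  rw [e, sgn_upd (Z.blk_cr hi c), Z.tau_u hi c]
  congr 1
  cases y <;> cases sgn π (Z.cr i c) <;> rfl

/-- the weights -/
def wt (m : ℕ) (es : List Bool) : ℤ := 2 * (-4) ^ (m - 1) * m.factorial * omega0 es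

theorem MD_sel (hm : 0 < m) (hk : 0 < k) : ∀ (r i : ℕ) (pre : List (JJ R N)) (_ : i + r = m)
    (_ : pre.length = i), MD ((List.range' i r).map Z.u)
      (fun x => Ev (star k) m (Z.crs 0 pre).reverse (Z.sig x)) (fun l => wt m (bits (pre ++ l))) := by
  intro r
  induction r with
  | zero =>
    intro i pre him hpre x
    rw [add_zero] at him
    obtain ⟨c, l, rfl⟩ : ∃ c l, pre = c :: l := by
      cases pre with
      | nil => exfalso; simp at hpre; omega
      | cons c l => exact ⟨c, l, rfl⟩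
    rw [List.length_cons] at hpre
    show Ev (star k) m (Z.crs 0 (c :: l)).reverse (Z.sig x) = wt m (bits ((c :: l) ++ []))
    rw [List.append_nil, Ev_perm (star k) m (List.reverse_perm _)]
    have hn : 0 < (2 * k + 3) * k := by positivity
    have h1 := mixed (star k) hn (Z.cr 0 c) (Z.crs 1 l) (bits (c :: l)) (Z.chain_crs l 0 c (by omega))
      (Z.nodup_crs (c :: l) 0 (by rw [List.length_cons]; omega)) (Z.sig x)
    rw [Z.length_crs, hpre, him] at h1
    have e : Z.crs 0 (c :: l) = Z.cr 0 c :: Z.crs 1 l := rfl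
    rw [e]
    have h2 : 2 * Ev (star k) m (Z.cr 0 c :: Z.crs 1 l) (Z.sig x) = 2 * wt m (bits (c :: l)) := by
      rw [h1]
      unfold wt
      obtain ⟨m', rfl⟩ : ∃ m', m = m' + 1 := ⟨m - 1, by omega⟩
      rw [Nat.add_sub_cancel, pow_succ]
      ring
    linarith
  | succ r ih =>
    intro i pre him hpre
    rw [List.range'_succ, List.map_cons]
    intro c
    have h1 := ih (i + 1) (pre ++ [c]) (by omega) (by rw [List.length_append, hpre]; rfl)
    refine MD_congr _ _ _ _ _ (fun x => ?_) (fun l => ?_) h1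
    · rw [Z.crs_append, List.reverse_append, List.reverse_singleton, List.singleton_append, hpre, zero_add]
      have hnot : Z.cr i c ∉ (Z.crs 0 pre).reverse := by
        rw [List.mem_reverse]
        intro h
        obtain ⟨i', c', h2, h3, h4⟩ := Z.mem_crs _ _ _ h
        have := (Z.cr_inj (by omega) (by omega) _ _ h4).1
        omega
      rw [← Ev_cons (star k) m hnot]
      unfold D
      beta_reduce
      rw [Z.sig_upd (by omega), Z.sig_upd (by omega)]
    · rw [List.append_assoc, List.singleton_append]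

include Z in
theorem count_sel {L M : ℕ} [NeZero M] (hL : 1 ≤ L) (hN : 256 * L ^ 2 ≤ N) (hm : 2 ≤ m) (hk : 0 < k)
    (hunit : IsUnit ((dl (m - 1) (wt m) : ℤ) : ZMod M)) (hM : M ≤ 16 * L ^ m)
    (hη : (m : ℝ) * (3 / 5 : ℝ) ^ R ≤ (1 / M) ^ (2 ^ m)) (c : ℤ) :
    M * (Finset.univ.filter (fun x : Fin (k + 1) → Bool => Fm (star k) m (sgn (swP x * π)) = c)).card ≤
      2 * 2 ^ (k + 1) := by
  classical
  have h1 := Z.MD_sel (by omega) hk m 0 [] (by omega) rfl
  obtain ⟨t, rfl⟩ : ∃ t, m = t + 1 := ⟨m - 1, by omega⟩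
  rw [List.range'_succ, List.map_cons] at h1
  have hlen : ((List.range' (0 + 1) t).map Z.u).length = t := by
    rw [List.length_map, List.length_range']
  have hinj : ∀ v ∈ Z.u 0 :: (List.range' (0 + 1) t).map Z.u, Function.Injective v := by
    intro v hv
    rw [List.mem_cons, List.mem_map] at hv
    rcases hv with rfl | ⟨i, hi, rfl⟩
    · intro c c' h
      exact (Z.u_inj (by omega) (by omega) c c' h).2
    · rw [List.mem_range'_1] at hi
      intro c c' h
      exact (Z.u_inj (by omega) (by omega) c c' h).2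
  have hpw : List.Pairwise (fun v v' : JJ R N → Fin (k + 1) => ∀ c c', v c ≠ v' c')
      (Z.u 0 :: (List.range' (0 + 1) t).map Z.u) := by
    rw [← List.map_cons, ← List.range'_succ (s := 0), List.pairwise_map]
    refine List.Pairwise.imp_of_mem ?_ List.pairwise_lt_range'
    intro i j hi hj hij c c' h
    rw [List.mem_range'_1] at hi hj
    have := (Z.u_inj (by omega) (by omega) c c' h).1
    omega
  have hMD : MD (Z.u 0 :: (List.range' (0 + 1) t).map Z.u) (fun x => Fm (star k) (t + 1) (Z.sig x))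
      (fun l => wt (t + 1) (bits l)) := by
    have e : Ev (star k) (t + 1) (Z.crs 0 []).reverse = Fm (star k) (t + 1) := Ev_nil _ _
    rw [e] at h1
    exact h1
  have h2 := anti (M := M) (R := R) (N := N) hL hN ((List.range' (0 + 1) t).map Z.u) (Z.u 0)
    (fun x => Fm (star k) (t + 1) (Z.sig x)) hinj hpw (wt (t + 1)) hMD (by
      rw [hlen]
      exact hunit) (by rw [hlen]; exact hM) (by
      rw [hlen]
      push_cast at hη
      exact hη) c
  rw [Fintype.card_fin] at h2
  refine le_trans (le_of_eq (congrArg (fun z => M * z) ?_)) h2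
  have e : Function.Involutive (fun (x : Fin (k + 1) → Bool) (e : Fin (k + 1)) => xor (x e) (Z.tau e)) := by
    intro x
    funext e
    show xor (xor (x e) (Z.tau e)) (Z.tau e) = x e
    cases x e <;> cases Z.tau e <;> rfl
  refine Finset.card_bij (fun x _ => (fun e => xor (x e) (Z.tau e))) ?_ ?_ ?_
  · intro x hx
    rw [Finset.mem_filter] at hx ⊢
    refine ⟨Finset.mem_univ _, ?_⟩
    unfold sig
    have e2 : (fun e => xor (xor (x e) (Z.tau e)) (Z.tau e)) = x := e x
    rw [e2]
    exact hx.2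
  · intro x _ x' _ h
    exact e.injective h
  · intro x hx
    rw [Finset.mem_filter] at hx
    refine ⟨fun e => xor (x e) (Z.tau e), ?_, e x⟩
    rw [Finset.mem_filter]
    exact ⟨Finset.mem_univ _, hx.2⟩

end Sel

end Pool.Agent.NH45.Petal
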