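import Pool.Agent.NH45.Petal.M11

set_option autoImplicit false

/-! The moments of the `f`-polynomials of random petal diagrams. -/

namespace Pool.Agent.NH45.Petal

open Finset Equiv
open Real (exp exp_pos exp_le_exp exp_le_one_iff)
open Pool.Agent.H891R2.Jones Pool.Agent.R811.Cross Pool.Agent.H832R3.VJ

variable {k : ℕ}

/-- averaging over the exchanges of neighbouring heights -/
theorem averaging_P (P : (Fin ((2 * k + 3) * k) → Bool) → Prop) [DecidablePred P] :
    2 ^ (k + 1) * (Finset.univ.filter (fun π : Perm (Fin (2 * k + 3)) => P (sgn π))).card =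
      ∑ π : Perm (Fin (2 * k + 3)), (Finset.univ.filter (fun x : Fin (k + 1) → Bool =>
        P (sgn (swP x * π)))).card := by
  have h1 : ∀ π : Perm (Fin (2 * k + 3)), (Finset.univ.filter (fun x : Fin (k + 1) → Bool =>
        P (sgn (swP x * π)))).card =
      ∑ x : Fin (k + 1) → Bool, if P (sgn (swP x * π)) then 1 else 0 := by
    intro π
    rw [Finset.card_filter]
  rw [Finset.sum_congr rfl (fun π _ => h1 π), Finset.sum_comm]
  have h2 : ∀ x : Fin (k + 1) → Bool, ∑ π : Perm (Fin (2 * k + 3)),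
      (if P (sgn (swP x * π)) then 1 else 0) =
      (Finset.univ.filter (fun π : Perm (Fin (2 * k + 3)) => P (sgn π))).card := by
    intro x
    rw [Finset.card_filter]
    exact Equiv.sum_comp (Equiv.mulLeft (swP x)) (fun π => if P (sgn π) then 1 else 0)
  rw [Finset.sum_congr rfl (fun x _ => h2 x), Finset.sum_const, Finset.card_univ, Fintype.card_fun,
    Fintype.card_bool, Fintype.card_fin, smul_eq_mul]

open Classical in
/-- permutations with few pairs of heights are rare -/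
theorem not_rich {m R N s : ℕ} (hfit : (m + 1) * (2 * R + 1) * s ≤ 2 * k + 2)
    (hN : (N : ℝ) ≤ (s : ℝ) ^ 2 / (2 * (2 * k + 3 : ℕ))) :
    ((Finset.univ.filter (fun π : Perm (Fin (2 * k + 3)) => ¬ Rich m R N s π)).card : ℝ) ≤
      (m * (R * (R + 1)) : ℕ) * ((2 * k + 3).factorial *
        exp (-((s : ℝ) ^ 4 / (1024 * (2 * k + 3 : ℕ) ^ 3)))) := by
  set I : Finset (ℕ × (Fin R × Fin (R + 1))) := Finset.range m ×ˢ Finset.univ with hI
  set T : ℕ × (Fin R × Fin (R + 1)) → Finset (Perm (Fin (2 * k + 3))) := fun z =>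
    Finset.univ.filter (fun π : Perm (Fin (2 * k + 3)) =>
      ((XX s (z.1 * (2 * R + 1) + 2 * (z.2.2 : ℕ)) ((z.1 + 1) * (2 * R + 1) + (2 * (z.2.1 : ℕ) + 1)) π).card : ℝ) <
        (s : ℝ) ^ 2 / (2 * (2 * k + 3 : ℕ))) with hT
  have hsub : Finset.univ.filter (fun π : Perm (Fin (2 * k + 3)) => ¬ Rich m R N s π) ⊆ I.biUnion T := by
    intro π hπ
    have h1 := (Finset.mem_filter.1 hπ).2
    unfold Rich at h1
    push Not at h1
    obtain ⟨i, hi, β, γ, h2⟩ := h1
    rw [Finset.mem_biUnion]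
    refine ⟨(i, (β, γ)), ?_, ?_⟩
    · rw [hI, Finset.mem_product]
      exact ⟨Finset.mem_range.2 hi, Finset.mem_univ _⟩
    · rw [hT, Finset.mem_filter]
      refine ⟨Finset.mem_univ _, lt_of_lt_of_le ?_ hN⟩
      exact_mod_cast h2
  have h1 : ((Finset.univ.filter (fun π : Perm (Fin (2 * k + 3)) => ¬ Rich m R N s π)).card : ℝ) ≤
      ∑ z ∈ I, ((T z).card : ℝ) := by
    have := (Finset.card_le_card hsub).trans Finset.card_biUnion_le
    exact_mod_cast this
  refine h1.trans ?_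
  have h2 : ∀ z ∈ I, ((T z).card : ℝ) ≤ (2 * k + 3).factorial *
        exp (-((s : ℝ) ^ 4 / (1024 * (2 * k + 3 : ℕ) ^ 3))) := by
    rintro ⟨i, β, γ⟩ hz
    rw [hI, Finset.mem_product] at hz
    have hi := Finset.mem_range.1 hz.1
    simp only at hi
    have hβ := β.2
    have hγ := γ.2
    have e1 : (i + 1) * (2 * R + 1) = i * (2 * R + 1) + (2 * R + 1) := by ring
    have e2 : (i + 2) * (2 * R + 1) = (i + 1) * (2 * R + 1) + (2 * R + 1) := by ring
    have e3 : (i + 2) * (2 * R + 1) ≤ (m + 1) * (2 * R + 1) := Nat.mul_le_mul_right _ (by omega)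
    apply XX_tail
    · have : (i * (2 * R + 1) + 2 * (γ : ℕ) + 1) * s ≤ (m + 1) * (2 * R + 1) * s :=
        Nat.mul_le_mul_right _ (by omega)
      show (i * (2 * R + 1) + 2 * (γ : ℕ) + 1) * s ≤ 2 * k + 3
      omega
    · have : ((i + 1) * (2 * R + 1) + (2 * (β : ℕ) + 1) + 1) * s ≤ (m + 1) * (2 * R + 1) * s :=
        Nat.mul_le_mul_right _ (by omega)
      show ((i + 1) * (2 * R + 1) + (2 * (β : ℕ) + 1) + 1) * s ≤ 2 * k + 3
      omega
    · show i * (2 * R + 1) + 2 * (γ : ℕ) ≠ (i + 1) * (2 * R + 1) + (2 * (β : ℕ) + 1)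
      omega
  refine (Finset.sum_le_sum h2).trans (le_of_eq ?_)
  rw [Finset.sum_const, nsmul_eq_mul, hI, Finset.card_product, Finset.card_range, Finset.card_univ,
    Fintype.card_prod, Fintype.card_fin, Fintype.card_fin]

/-- the bound for given parameters -/
theorem bound_joint {m R s L Q : ℕ} (hm : 2 ≤ m) (hR : 0 < R) (hs : 0 < s) (hL : 1 ≤ L)
    (hfit : (m + 1) * (2 * R + 1) * s ≤ 2 * k + 2)
    (hN : ((256 * L ^ 2 : ℕ) : ℝ) ≤ (s : ℝ) ^ 2 / (2 * (2 * k + 3 : ℕ)))
    (hQ0 : 0 < Q) (hQ : Q ≤ L)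
    (hcop : ∀ t, 2 ≤ t → t ≤ m → IsCoprime (Q : ℤ) (dl (t - 1) (Sel.wt t)))
    (hη : ∀ t, 2 ≤ t → t ≤ m → (t : ℝ) * (3 / 5 : ℝ) ^ R ≤
      (1 / ((∏ i : Fin (m - 1), Q ^ ((i : ℕ) + 2) : ℕ) : ℝ)) ^ (2 ^ t)) (c : Fin (m - 1) → ℤ) :
    ((Finset.univ.filter (fun π : Perm (Fin (2 * k + 3)) =>
      ∀ i : Fin (m - 1), Fm (star k) ((i : ℕ) + 2) (sgn π) = c i)).card : ℝ) ≤
      ((m * (R * (R + 1)) : ℕ) * exp (-((s : ℝ) ^ 4 / (1024 * (2 * k + 3 : ℕ) ^ 3))) +
        2 / ((∏ i : Fin (m - 1), Q ^ ((i : ℕ) + 2) : ℕ) : ℝ)) * (2 * k + 3).factorial := by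
  classical
  set M : ℕ := ∏ i : Fin (m - 1), Q ^ ((i : ℕ) + 2) with hM
  have hM0 : 0 < M := Finset.prod_pos fun i _ => by positivity
  have hMr : (0 : ℝ) < M := by exact_mod_cast hM0
  have hk : 0 < k := by
    by_contra h0
    have : k = 0 := by omega
    subst this
    have h1 : 3 * 3 * 1 ≤ (m + 1) * (2 * R + 1) * s :=
      Nat.mul_le_mul (Nat.mul_le_mul (by omega) (by omega)) hs
    omega
  set P : (Fin ((2 * k + 3) * k) → Bool) → Prop :=
    fun z => ∀ i : Fin (m - 1), Fm (star k) ((i : ℕ) + 2) z = c i with hP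
  have hcount : ∀ π : Perm (Fin (2 * k + 3)), Rich m R (256 * L ^ 2) s π →
      M * (Finset.univ.filter (fun x : Fin (k + 1) → Bool => P (sgn (swP x * π)))).card ≤ 2 * 2 ^ (k + 1) := by
    intro π h10
    obtain ⟨Z⟩ := exists_sel hs hk hfit h10
    have := Z.count_joint hL le_rfl hk hQ0 hQ hcop hη c
    convert this using 3
  set A := (Finset.univ.filter (fun π : Perm (Fin (2 * k + 3)) => P (sgn π))).card with hA
  set Bd := Finset.univ.filter (fun π : Perm (Fin (2 * k + 3)) => ¬ Rich m R (256 * L ^ 2) s π) with hBd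
  set Nf := (2 * k + 3).factorial with hNf
  have hav := averaging_P (k := k) P
  rw [← hA] at hav
  have key : M * (2 ^ (k + 1) * A) ≤ 2 ^ (k + 1) * (M * Bd.card + 2 * Nf) := by
    rw [hav, Finset.mul_sum, ← Finset.sum_filter_add_sum_filter_not (Finset.univ)
      (fun π : Perm (Fin (2 * k + 3)) => ¬ Rich m R (256 * L ^ 2) s π)]
    have h7 : ∑ π ∈ Bd, M * (Finset.univ.filter (fun x : Fin (k + 1) → Bool =>
        P (sgn (swP x * π)))).card ≤ Bd.card * (M * 2 ^ (k + 1)) := by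
      have h9 : ∀ π ∈ Bd, M * (Finset.univ.filter (fun x : Fin (k + 1) → Bool =>
          P (sgn (swP x * π)))).card ≤ M * 2 ^ (k + 1) := by
        intro π _
        refine Nat.mul_le_mul_left _ ?_
        refine (Finset.card_le_univ _).trans ?_
        rw [Fintype.card_fun, Fintype.card_bool, Fintype.card_fin]
      refine (Finset.sum_le_sum h9).trans (le_of_eq ?_)
      rw [Finset.sum_const, smul_eq_mul]
    have h8 : ∑ π ∈ Finset.univ.filter (fun π : Perm (Fin (2 * k + 3)) => ¬ ¬ Rich m R (256 * L ^ 2) s π),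
        M * (Finset.univ.filter (fun x : Fin (k + 1) → Bool =>
        P (sgn (swP x * π)))).card ≤ Nf * (2 * 2 ^ (k + 1)) := by
      have h9 : ∀ π ∈ Finset.univ.filter (fun π : Perm (Fin (2 * k + 3)) => ¬ ¬ Rich m R (256 * L ^ 2) s π),
          M * (Finset.univ.filter (fun x : Fin (k + 1) → Bool =>
          P (sgn (swP x * π)))).card ≤ 2 * 2 ^ (k + 1) := fun π hπ =>
        hcount π (not_not.1 (Finset.mem_filter.1 hπ).2)
      refine (Finset.sum_le_sum h9).trans ?_
      rw [Finset.sum_const, smul_eq_mul]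
      refine Nat.mul_le_mul_right _ ?_
      refine (Finset.card_le_univ _).trans ?_
      rw [Fintype.card_perm, Fintype.card_fin]
    refine (add_le_add h7 h8).trans (le_of_eq ?_)
    ring
  have key2 : M * A ≤ M * Bd.card + 2 * Nf := by
    have : 2 ^ (k + 1) * (M * A) ≤ 2 ^ (k + 1) * (M * Bd.card + 2 * Nf) := by
      calc 2 ^ (k + 1) * (M * A) = M * (2 ^ (k + 1) * A) := by ring
        _ ≤ _ := key
    exact Nat.le_of_mul_le_mul_left this (by positivity)
  have key3 : (M : ℝ) * A ≤ M * Bd.card + 2 * Nf := by exact_mod_cast key2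
  have hb := not_rich (k := k) (m := m) (R := R) (N := 256 * L ^ 2) (s := s) hfit hN
  have hb' : (Bd.card : ℝ) ≤ (m * (R * (R + 1)) : ℕ) * (Nf * exp (-((s : ℝ) ^ 4 / (1024 * (2 * k + 3 : ℕ) ^ 3)))) := by
    refine le_trans (le_of_eq ?_) hb
    rw [hBd]
  have hAA : ((Finset.univ.filter (fun π : Perm (Fin (2 * k + 3)) =>
      ∀ i : Fin (m - 1), Fm (star k) ((i : ℕ) + 2) (sgn π) = c i)).card : ℝ) = A := by
    rw [hA]
  rw [hAA]
  have e : (A : ℝ) = (M * A) / M := by field_simp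
  rw [e, div_le_iff₀ hMr]
  refine key3.trans ?_
  have h1 := mul_le_mul_of_nonneg_left hb' hMr.le
  refine (add_le_add_left h1 _).trans (le_of_eq ?_)
  field_simp

end Pool.Agent.NH45.Petal
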