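import Pool.Agent.R811.Cross.Defs

set_option autoImplicit false

/-! The star diagram with `2 k + 3` segments, and petal diagrams. -/

namespace Pool.Agent.NH45.Petal

open Pool.Agent.H891R2.Jones Pool.Agent.R811.Cross

/-- The segment of the star diagram which crosses the segment `i` at the double point `c = i k + r`
(`r < k`): the segment `i - 2 (r + 1)` modulo `2 k + 3`. -/
def other (k c : ℕ) : ℕ := (c / k + (2 * k + 3) - 2 * (c % k + 1)) % (2 * k + 3)

theorem other_cases (k c : ℕ) (hc : c < (2 * k + 3) * k) :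
    c / k < 2 * k + 3 ∧ c % k < k ∧ other k c < 2 * k + 3 ∧
    ((2 * (c % k + 1) ≤ c / k ∧ other k c + 2 * (c % k + 1) = c / k) ∨
      (c / k < 2 * (c % k + 1) ∧ other k c + 2 * (c % k + 1) = c / k + (2 * k + 3))) := by
  have hk : 0 < k := by
    rcases Nat.eq_zero_or_pos k with h | h
    · subst h; simp at hc
    · exact h
  have h1 : c / k < 2 * k + 3 := by
    rw [Nat.div_lt_iff_lt_mul hk]; exact hc
  have h2 : c % k < k := Nat.mod_lt _ hk
  have h3 : other k c < 2 * k + 3 := Nat.mod_lt _ (by omega)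
  refine ⟨h1, h2, h3, ?_⟩
  unfold other
  generalize c / k = i at h1
  generalize c % k = r at h2
  rcases Nat.lt_or_ge i (2 * (r + 1)) with h | h
  · right
    refine ⟨h, ?_⟩
    rw [Nat.mod_eq_of_lt (by omega)]
    omega
  · left
    refine ⟨h, ?_⟩
    have e : i + (2 * k + 3) - 2 * (r + 1) = (i - 2 * (r + 1)) + (2 * k + 3) := by omega
    rw [e, Nat.add_mod_right, Nat.mod_eq_of_lt (by omega)]
    omega

theorem p_lt (k c : ℕ) (hc : c < (2 * k + 3) * k) :
    (c / k) * (2 * k) + (k + c % k) < 2 * ((2 * k + 3) * k) := by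
  obtain ⟨h1, h2, _, _⟩ := other_cases k c hc
  have h4 : (c / k + 1) * (2 * k) ≤ (2 * k + 3) * (2 * k) := Nat.mul_le_mul_right _ h1
  have e1 : (c / k + 1) * (2 * k) = (c / k) * (2 * k) + 2 * k := by ring
  have e2 : (2 * k + 3) * (2 * k) = 2 * ((2 * k + 3) * k) := by ring
  omega

theorem q_lt (k c : ℕ) (hc : c < (2 * k + 3) * k) :
    other k c * (2 * k) + (k - 1 - c % k) < 2 * ((2 * k + 3) * k) := by
  obtain ⟨h1, h2, h3, _⟩ := other_cases k c hc
  have h4 : (other k c + 1) * (2 * k) ≤ (2 * k + 3) * (2 * k) := Nat.mul_le_mul_right _ h3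
  have e1 : (other k c + 1) * (2 * k) = other k c * (2 * k) + 2 * k := by ring
  have e2 : (2 * k + 3) * (2 * k) = 2 * ((2 * k + 3) * k) := by ring
  omega

theorem dm {m a b x y : ℕ} (hx : x < m) (hy : y < m) (h : a * m + x = b * m + y) : a = b ∧ x = y := by
  have hm : 0 < m := by omega
  have h1 : (a * m + x) / m = a := by
    rw [mul_comm, Nat.mul_add_div hm, Nat.div_eq_of_lt hx, add_zero]
  have h2 : (b * m + y) / m = b := by
    rw [mul_comm, Nat.mul_add_div hm, Nat.div_eq_of_lt hy, add_zero]
  have h3 : a = b := by rw [← h1, h, h2]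
  subst h3
  exact ⟨rfl, by omega⟩

/-- The star diagram with `2 k + 3` segments.  The segments are numbered `0, …, 2 k + 2` in the order in
which one runs through them; any two of them which do not follow each other (cyclically) cross once,
and the segment `j` meets successively the segments `j + 2 k, j + 2 k - 2, …, j + 2, j - 2, j - 4, …,
j - 2 k` (modulo `2 k + 3`).  The double point `c = i k + r` (`r < k`) is the one of the segments `i` and
`j = i - 2 (r + 1)`; it is the passage number `k + r` on the segment `i` and the passage number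
`k - 1 - r` on the segment `j` (the passages on a segment have the numbers `0, …, 2 k - 1`); the segment
`j` crosses the segment `i` from the right to the left. -/
def star (k : ℕ) : Shadow ((2 * k + 3) * k) where
  p c := ⟨(c / k) * (2 * k) + (k + c % k), p_lt k c c.2⟩
  q c := ⟨other k c * (2 * k) + (k - 1 - c % k), q_lt k c c.2⟩
  bij := by
    rw [Fintype.bijective_iff_injective_and_card]
    refine ⟨?_, by simp only [Fintype.card_sum, Fintype.card_fin]; ring⟩
    rintro (c | c) (c' | c') h
    all_goals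
      obtain ⟨a1, a2, a3, a4⟩ := other_cases k c c.2
      obtain ⟨b1, b2, b3, b4⟩ := other_cases k c' c'.2
    · have h' : ((c : ℕ) / k) * (2 * k) + (k + c % k) = ((c' : ℕ) / k) * (2 * k) + (k + c' % k) :=
        congrArg Fin.val h
      obtain ⟨e1, e2⟩ := dm (by omega) (by omega) h'
      have h3 : (c : ℕ) = c' := by
        rw [← Nat.div_add_mod (c : ℕ) k, ← Nat.div_add_mod (c' : ℕ) k, e1]
        omega
      rw [Fin.ext h3]
    · have h' : ((c : ℕ) / k) * (2 * k) + (k + c % k) = other k c' * (2 * k) + (k - 1 - c' % k) :=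
        congrArg Fin.val h
      obtain ⟨e1, e2⟩ := dm (by omega) (by omega) h'
      omega
    · have h' : other k c * (2 * k) + (k - 1 - c % k) = ((c' : ℕ) / k) * (2 * k) + (k + c' % k) :=
        congrArg Fin.val h
      obtain ⟨e1, e2⟩ := dm (by omega) (by omega) h'
      omega
    · have h' : other k c * (2 * k) + (k - 1 - c % k) = other k c' * (2 * k) + (k - 1 - c' % k) :=
        congrArg Fin.val h
      obtain ⟨e1, e2⟩ := dm (by omega) (by omega) h'
      have e3 : (c : ℕ) % k = (c' : ℕ) % k := by omega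
      rw [e3, e1] at a4
      have e4 : (c : ℕ) / k = (c' : ℕ) / k := by
        clear h h' e2
        generalize (c : ℕ) / k = x at *
        generalize (c' : ℕ) / k = y at *
        generalize (c' : ℕ) % k = z at *
        generalize other k c' = w at *
        omega
      have h3 : (c : ℕ) = c' := by
        rw [← Nat.div_add_mod (c : ℕ) k, ← Nat.div_add_mod (c' : ℕ) k, e4, e3]
      rw [Fin.ext h3]
  left _ := true

/-- the first segment of the double point `c` -/
def segP {k : ℕ} (c : Fin ((2 * k + 3) * k)) : Fin (2 * k + 3) := ⟨c / k, (other_cases k c c.2).1⟩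

/-- the second segment of the double point `c` -/
def segQ {k : ℕ} (c : Fin ((2 * k + 3) * k)) : Fin (2 * k + 3) := ⟨other k c, (other_cases k c c.2).2.2.1⟩

/-- The petal diagram of the permutation `π` of `0, …, 2 k + 2` (more precisely, the star diagram which
is obtained from it): the segment `i` of the star diagram is a straight segment at the height `π i`.
At the double point of `i` and `j = i - 2 (r + 1)` the crossing is positive if and only if `i` is the
upper segment. -/
def petal (k : ℕ) (π : Equiv.Perm (Fin (2 * k + 3))) : Diagram (Fin (2 * ((2 * k + 3) * k))) :=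
  (star k).diagram (fun c => decide (π (segQ c) < π (segP c)))

/-- the double point `c` is the one of the segments `a` and `b` -/
def Conn {k : ℕ} (c : Fin ((2 * k + 3) * k)) (a b : Fin (2 * k + 3)) : Prop :=
  (segP c = a ∧ segQ c = b) ∨ (segP c = b ∧ segQ c = a)

theorem conn_exists {k : ℕ} (a b : Fin (2 * k + 3)) (h1 : (a : ℕ) + 2 ≤ b) (h2 : (b : ℕ) ≤ a + (2 * k + 1)) :
    ∃ c : Fin ((2 * k + 3) * k), Conn c a b := by
  have hb := b.2
  have key : ∀ i r : ℕ, i < 2 * k + 3 → r < k → ∃ c : Fin ((2 * k + 3) * k), (c : ℕ) / k = i ∧ (c : ℕ) % k = r := by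
    intro i r hi hr
    refine ⟨⟨i * k + r, ?_⟩, ?_, ?_⟩
    · calc i * k + r < i * k + k := by omega
        _ = (i + 1) * k := by ring
        _ ≤ (2 * k + 3) * k := Nat.mul_le_mul_right _ hi
    · show (i * k + r) / k = i
      rw [mul_comm, Nat.mul_add_div (by omega), Nat.div_eq_of_lt hr, add_zero]
    · show (i * k + r) % k = r
      rw [mul_comm, Nat.mul_add_mod, Nat.mod_eq_of_lt hr]
  rcases Nat.even_or_odd' ((b : ℕ) - a) with ⟨m, hm | hm⟩
  · obtain ⟨c, hc1, hc2⟩ := key b (m - 1) b.2 (by omega)
    obtain ⟨a1, a2, a3, a4⟩ := other_cases k c c.2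
    rw [hc1, hc2] at a4
    refine ⟨c, Or.inr ⟨Fin.ext hc1, Fin.ext ?_⟩⟩
    show other k c = a
    omega
  · obtain ⟨c, hc1, hc2⟩ := key a (k - m) (by omega) (by omega)
    obtain ⟨a1, a2, a3, a4⟩ := other_cases k c c.2
    rw [hc1, hc2] at a4
    refine ⟨c, Or.inl ⟨Fin.ext hc1, Fin.ext ?_⟩⟩
    show other k c = b
    omega

theorem conn_unique {k : ℕ} {c c' : Fin ((2 * k + 3) * k)} {a b : Fin (2 * k + 3)} (h : Conn c a b)
    (h' : Conn c' a b) : c = c' := by
  obtain ⟨a1, a2, a3, a4⟩ := other_cases k c c.2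
  obtain ⟨b1, b2, b3, b4⟩ := other_cases k c' c'.2
  have key : (c : ℕ) / k = (c' : ℕ) / k ∧ (c : ℕ) % k = (c' : ℕ) % k := by
    rcases h with ⟨h1, h2⟩ | ⟨h1, h2⟩ <;> rcases h' with ⟨h3, h4⟩ | ⟨h3, h4⟩
    all_goals
      have h1' : (c : ℕ) / k = _ := congrArg Fin.val h1
      have h2' : other k c = _ := congrArg Fin.val h2
      have h3' : (c' : ℕ) / k = _ := congrArg Fin.val h3
      have h4' : other k c' = _ := congrArg Fin.val h4
      rw [h1', h2'] at a4
      rw [h3', h4'] at b4
      rw [h1', h3']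
      omega
  apply Fin.ext
  rw [← Nat.div_add_mod (c : ℕ) k, ← Nat.div_add_mod (c' : ℕ) k, key.1, key.2]

end Pool.Agent.NH45.Petal
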