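import Mathlib

set_option autoImplicit false

/-! The variance of a Lipschitz function on the symmetric group. -/

namespace Pool.Agent.NH45.Petal

open Finset Equiv

/-- the permutation of `0, …, n` with `0 ↦ p` which is given by `e` on the other numbers -/
def DF {n : ℕ} (p : Fin (n + 1)) (e : Perm (Fin n)) : Perm (Fin (n + 1)) := Perm.decomposeFin.symm (p, e)

theorem DF_zero {n : ℕ} (p : Fin (n + 1)) (e : Perm (Fin n)) : DF p e 0 = p :=
  Perm.decomposeFin_symm_apply_zero p e

theorem DF_succ {n : ℕ} (p : Fin (n + 1)) (e : Perm (Fin n)) (x : Fin n) :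
    DF p e x.succ = swap 0 p (e x).succ := Perm.decomposeFin_symm_apply_succ e p x

theorem DF_eq {n : ℕ} (p : Fin (n + 1)) (e : Perm (Fin n)) : DF p e = swap 0 p * DF 0 e := by
  ext x
  refine Fin.cases ?_ (fun x => ?_) x
  · rw [Perm.mul_apply, DF_zero, DF_zero, swap_apply_left]
  · rw [Perm.mul_apply, DF_succ, DF_succ, swap_self]
    rfl

theorem DF_swap {n : ℕ} (p : Fin (n + 1)) (e : Perm (Fin n)) (a b : Fin n) :
    DF p (swap a b * e) = swap (swap 0 p a.succ) (swap 0 p b.succ) * DF p e := by
  have h0 : DF 0 (swap a b * e) = swap a.succ b.succ * DF 0 e := by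
    ext x
    refine Fin.cases ?_ (fun x => ?_) x
    · rw [Perm.mul_apply, DF_zero, DF_zero, swap_apply_of_ne_of_ne (Fin.succ_ne_zero a).symm
        (Fin.succ_ne_zero b).symm]
    · rw [Perm.mul_apply, DF_succ, DF_succ, swap_self, Perm.mul_apply]
      show (swap a b (e x)).succ.val = (swap a.succ b.succ (e x).succ).val
      congr 1
      exact ((Fin.succ_injective n).map_swap a b (e x))
  rw [DF_eq p (swap a b * e), h0, DF_eq p e, ← mul_assoc, ← mul_assoc, mul_swap_eq_swap_mul]

/-- the sum over the permutations -/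
theorem sum_DF {n : ℕ} (g : Perm (Fin (n + 1)) → ℝ) : ∑ π, g π = ∑ p, ∑ e, g (DF p e) := by
  rw [← (Perm.decomposeFin (n := n)).symm.sum_comp, Fintype.sum_prod_type]
  rfl

theorem card_perm (n : ℕ) : ((Finset.univ : Finset (Perm (Fin n))).card : ℝ) = n.factorial := by
  rw [Finset.card_univ, Fintype.card_perm, Fintype.card_fin]

/-- the variance of a function on the symmetric group which changes by at most `c` under transpositions -/
theorem variance (c : ℝ) : ∀ (n : ℕ) (f : Perm (Fin n) → ℝ),
    (∀ π a b, |f (swap a b * π) - f π| ≤ c) →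
    ∑ π, (f π - (∑ σ, f σ) / n.factorial) ^ 2 ≤ 4 * c ^ 2 * n * n.factorial := by
  intro n
  induction n with
  | zero =>
    intro f _
    have h : ∀ π : Perm (Fin 0), f π = f 1 := fun π => by rw [Subsingleton.elim π 1]
    simp [h]
  | succ n ih =>
    intro f hf
    have hc : 0 ≤ c := (abs_nonneg _).trans (hf 1 0 0)
    set N : ℝ := (n.factorial : ℝ) with hN
    have hNpos : 0 < N := by rw [hN]; exact_mod_cast n.factorial_pos
    set mp : Fin (n + 1) → ℝ := fun p => (∑ e, f (DF p e)) / N with hmp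
    have hN1 : (((n + 1).factorial : ℕ) : ℝ) = (n + 1) * N := by
      rw [Nat.factorial_succ]; push_cast; rfl
    set m : ℝ := (∑ σ, f σ) / ((n + 1).factorial : ℕ) with hm
    have hn1 : (0 : ℝ) < n + 1 := by positivity
    have hm' : (n + 1) * m = ∑ p, mp p := by
      rw [hm, hN1, sum_DF f, hmp, ← Finset.sum_div]
      field_simp
    have h1 : ∀ p, ∑ e, (f (DF p e) - mp p) ^ 2 ≤ 4 * c ^ 2 * n * N := by
      intro p
      refine ih (fun e => f (DF p e)) ?_
      intro e a b
      rw [DF_swap]
      exact hf _ _ _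
    have h2 : ∀ p, |mp p - mp 0| ≤ c := by
      intro p
      rw [hmp]
      simp only
      rw [← sub_div, ← Finset.sum_sub_distrib, abs_div, abs_of_pos hNpos, div_le_iff₀ hNpos]
      refine (Finset.abs_sum_le_sum_abs _ _).trans ?_
      refine (Finset.sum_le_sum fun e _ => (?_ : |f (DF p e) - f (DF 0 e)| ≤ c)).trans ?_
      · rw [DF_eq p e]; exact hf _ _ _
      · rw [Finset.sum_const, nsmul_eq_mul, card_perm, mul_comm]
    have h3 : ∀ p, |mp p - m| ≤ 2 * c := by
      intro p
      have h4 : (n + 1) * (mp p - m) = ∑ p', (mp p - mp p') := by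
        rw [mul_sub, hm', Finset.sum_sub_distrib, Finset.sum_const, Finset.card_univ, Fintype.card_fin,
          nsmul_eq_mul]
        push_cast
        ring
      have h5 : |(n + 1) * (mp p - m)| ≤ (n + 1) * (2 * c) := by
        rw [h4]
        refine (Finset.abs_sum_le_sum_abs _ _).trans ?_
        refine (Finset.sum_le_sum fun p' _ => (?_ : |mp p - mp p'| ≤ 2 * c)).trans ?_
        · have e : mp p - mp p' = (mp p - mp 0) - (mp p' - mp 0) := by ring
          rw [e]
          refine (abs_sub _ _).trans ?_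
          linarith [h2 p, h2 p']
        · rw [Finset.sum_const, Finset.card_univ, Fintype.card_fin, nsmul_eq_mul]
          push_cast
          exact le_refl _
      rw [abs_mul, abs_of_pos hn1] at h5
      exact le_of_mul_le_mul_left h5 hn1
    rw [sum_DF]
    have h6 : ∀ p, ∑ e, (f (DF p e) - m) ^ 2 ≤ 4 * c ^ 2 * n * N + N * (4 * c ^ 2) := by
      intro p
      have e1 : ∑ e, (f (DF p e) - m) ^ 2 = ∑ e, (f (DF p e) - mp p) ^ 2 +
          2 * (mp p - m) * ∑ e, (f (DF p e) - mp p) + N * (mp p - m) ^ 2 := by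
        rw [Finset.mul_sum, ← Finset.sum_add_distrib, hN, ← card_perm, ← nsmul_eq_mul, ← Finset.sum_const,
          ← Finset.sum_add_distrib]
        refine Finset.sum_congr rfl fun e _ => ?_
        ring
      have e2 : ∑ e, (f (DF p e) - mp p) = 0 := by
        rw [Finset.sum_sub_distrib, Finset.sum_const, nsmul_eq_mul, card_perm, ← hN]
        simp only [hmp]
        field_simp
        ring
      rw [e1, e2, mul_zero, add_zero]
      have h7 : (mp p - m) ^ 2 ≤ 4 * c ^ 2 := by
        have := pow_le_pow_left₀ (abs_nonneg _) (h3 p) 2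
        rw [sq_abs] at this
        linarith
      have := mul_le_mul_of_nonneg_left h7 hNpos.le
      linarith [h1 p]
    refine (Finset.sum_le_sum fun p _ => h6 p).trans ?_
    rw [Finset.sum_const, Finset.card_univ, Fintype.card_fin, nsmul_eq_mul, hN1]
    push_cast
    apply le_of_eq
    ring

/-- Chebyshev's inequality -/
theorem cheb (c : ℝ) (n : ℕ) (f : Perm (Fin n) → ℝ) (hf : ∀ π a b, |f (swap a b * π) - f π| ≤ c)
    (μ : ℝ) (hμ : 0 ≤ μ) (hmean : μ * n.factorial ≤ ∑ σ, f σ) :
    ((Finset.univ.filter (fun π => f π < μ / 2)).card : ℝ) * μ ^ 2 ≤ 16 * c ^ 2 * n * n.factorial := by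
  have h := variance c n f hf
  set m := (∑ σ, f σ) / (n.factorial : ℝ) with hm
  have hpos : (0 : ℝ) < n.factorial := by exact_mod_cast n.factorial_pos
  have hmμ : μ ≤ m := by rw [hm, le_div_iff₀ hpos]; exact hmean
  have h1 : ∑ π ∈ Finset.univ.filter (fun π => f π < μ / 2), (μ / 2) ^ 2 ≤ ∑ π, (f π - m) ^ 2 := by
    refine (Finset.sum_le_sum fun π hπ => (?_ : (μ / 2) ^ 2 ≤ (f π - m) ^ 2)).trans
      (Finset.sum_le_sum_of_subset_of_nonneg (Finset.subset_univ _) fun _ _ _ => sq_nonneg _)
    rw [Finset.mem_filter] at hπ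
    have h2 : μ / 2 ≤ m - f π := by linarith [hπ.2]
    have h3 := pow_le_pow_left₀ (by linarith) h2 2
    have e : (m - f π) ^ 2 = (f π - m) ^ 2 := by ring
    rw [e] at h3
    exact h3
  rw [Finset.sum_const, nsmul_eq_mul] at h1
  have h2 := h1.trans h
  nlinarith

end Pool.Agent.NH45.Petal
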