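import Pool.Agent.NH45.Petal.Bits
import Pool.Agent.NH45.Petal.Var

set_option autoImplicit false

/-! The number of good pairs of heights for a random permutation. -/

namespace Pool.Agent.NH45.Petal

open Finset Equiv

variable {k : ℕ}

/-! ### the Lipschitz condition -/

theorem blk_ev (t : Fin (k + 1)) : blk (ev t) = t := Fin.ext (by
  have := t.2
  show min ((2 * (t : ℕ)) / 2) k = t
  omega)

theorem blk_od (t : Fin (k + 1)) : blk (od t) = t := Fin.ext (by
  have := t.2
  show min ((2 * (t : ℕ) + 1) / 2) k = t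
  omega)

theorem rho_swap {π : Perm (Fin (2 * k + 3))} {a b p : Fin (2 * k + 3)} (h1 : π p ≠ a) (h2 : π p ≠ b)
    (h3 : xi (π p) ≠ a) (h4 : xi (π p) ≠ b) : rho (swap a b * π) p = rho π p := by
  apply (swap a b * π).injective
  rw [pi_rho, Perm.mul_apply, Perm.mul_apply, pi_rho, swap_apply_of_ne_of_ne h1 h2,
    swap_apply_of_ne_of_ne h3 h4]

theorem good_swap (w : ℕ) (π : Perm (Fin (2 * k + 3))) (a b : Fin (2 * k + 3)) :
    (Good w (swap a b * π)).card ≤ (Good w π).card + 4 := by
  classical
  set Z : Finset (Fin (2 * k + 3)) := {π.symm a, π.symm b, π.symm (xi a), π.symm (xi b)} with hZ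
  have hZc : Z.card ≤ 4 := Finset.card_le_four
  have hout : ∀ p, p ∉ Z → rho (swap a b * π) p = rho π p := by
    intro p hp
    simp only [hZ, Finset.mem_insert, Finset.mem_singleton, not_or] at hp
    obtain ⟨h1, h2, h3, h4⟩ := hp
    apply rho_swap
    · intro h; exact h1 (by rw [← h, symm_apply_apply])
    · intro h; exact h2 (by rw [← h, symm_apply_apply])
    · intro h; exact h3 (by rw [← h, xi_xi, symm_apply_apply])
    · intro h; exact h4 (by rw [← h, xi_xi, symm_apply_apply])
  have hsub : Good w (swap a b * π) ⊆ Good w π ∪ Z.image blk := by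
    intro t ht
    rw [Finset.mem_union, Finset.mem_image]
    by_cases h1 : ev t ∈ Z
    · exact Or.inr ⟨_, h1, blk_ev t⟩
    by_cases h2 : od t ∈ Z
    · exact Or.inr ⟨_, h2, blk_od t⟩
    left
    unfold Good at ht ⊢
    rw [Finset.mem_filter] at ht ⊢
    rwa [hout _ h1, hout _ h2] at ht
  refine (Finset.card_le_card hsub).trans ((Finset.card_union_le _ _).trans ?_)
  have := (Finset.card_image_le (s := Z) (f := blk)).trans hZc
  omega

theorem good_lip (w : ℕ) (π : Perm (Fin (2 * k + 3))) (a b : Fin (2 * k + 3)) :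
    |((Good w (swap a b * π)).card : ℝ) - (Good w π).card| ≤ 4 := by
  have h1 := good_swap w π a b
  have h2 := good_swap w (swap a b * π) a b
  rw [← mul_assoc, swap_mul_self, one_mul] at h2
  rw [abs_le]
  have h1' : ((Good w (swap a b * π)).card : ℝ) ≤ (Good w π).card + 4 := by exact_mod_cast h1
  have h2' : ((Good w π).card : ℝ) ≤ (Good w (swap a b * π)).card + 4 := by exact_mod_cast h2
  constructor <;> linarith

/-! ### the mean -/

theorem tuple {n m : ℕ} (x0 : Fin m ↪ Fin n) (S : Finset (Fin m ↪ Fin n)) :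
    (Finset.univ.filter (fun π : Perm (Fin n) => x0.trans π.toEmbedding ∈ S)).card *
      Fintype.card (Fin m ↪ Fin n) = n.factorial * S.card := by
  classical
  set c : (Fin m ↪ Fin n) → ℕ := fun ω =>
    (Finset.univ.filter (fun π : Perm (Fin n) => x0.trans π.toEmbedding = ω)).card with hc
  have hle : ∀ ω ω', c ω ≤ c ω' := by
    intro ω ω'
    obtain ⟨σ, hσ⟩ := Perm.exists_extending_pair ω ω' ω.injective ω'.injective
    apply Finset.card_le_card_of_injOn (fun π => σ * π)
    · intro π hπ
      rw [Finset.mem_coe, Finset.mem_filter] at hπ ⊢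
      refine ⟨Finset.mem_univ _, ?_⟩
      apply Function.Embedding.ext
      intro i
      have h1 : π (x0 i) = ω i := by rw [← hπ.2]; rfl
      show σ (π (x0 i)) = ω' i
      rw [h1, ← hσ]
    · intro π _ π' _ h
      exact mul_left_cancel h
  have hconst : ∀ ω ω', c ω = c ω' := fun ω ω' => le_antisymm (hle _ _) (hle _ _)
  have htot : ∑ ω, c ω = n.factorial := by
    have h := Finset.card_eq_sum_card_fiberwise (s := (Finset.univ : Finset (Perm (Fin n))))
      (t := (Finset.univ : Finset (Fin m ↪ Fin n))) (f := fun π => x0.trans π.toEmbedding)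
      (fun _ _ => Finset.mem_coe.2 (Finset.mem_univ _))
    rw [Finset.card_univ, Fintype.card_perm, Fintype.card_fin] at h
    exact h.symm
  have hS : (Finset.univ.filter (fun π : Perm (Fin n) => x0.trans π.toEmbedding ∈ S)).card =
      ∑ ω ∈ S, c ω := by
    have h := Finset.card_eq_sum_card_fiberwise
      (s := (Finset.univ.filter (fun π : Perm (Fin n) => x0.trans π.toEmbedding ∈ S)))
      (t := S) (f := fun π => x0.trans π.toEmbedding)
      (fun π hπ => (Finset.mem_filter.1 hπ).2)
    rw [h]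
    refine Finset.sum_congr rfl fun ω hω => ?_
    rw [hc]
    simp only
    congr 1
    ext π
    rw [Finset.mem_filter, Finset.mem_filter, Finset.mem_filter]
    constructor
    · rintro ⟨_, h⟩; exact ⟨Finset.mem_univ _, h⟩
    · rintro ⟨_, h⟩; exact ⟨⟨Finset.mem_univ _, by rw [h]; exact hω⟩, h⟩
  rcases S.eq_empty_or_nonempty with h0 | ⟨ω0, _⟩
  · rw [hS, h0]; simp
  · have h1 : ∑ ω, c ω = Fintype.card (Fin m ↪ Fin n) * c ω0 := by
      rw [Finset.sum_congr rfl (fun ω _ => hconst ω ω0), Finset.sum_const, Finset.card_univ, smul_eq_mul]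
    have h2 : ∑ ω ∈ S, c ω = S.card * c ω0 := by
      rw [Finset.sum_congr rfl (fun ω _ => hconst ω ω0), Finset.sum_const, smul_eq_mul]
    rw [hS, h2, ← htot, h1]
    ring

/-- the height `2 e` or `2 e + 1` -/
def hgt (e : Fin (k + 1)) (b : Bool) : Fin (2 * k + 3) := ⟨2 * e + (if b then 1 else 0), by split_ifs <;> omega⟩

theorem hgt_val (e : Fin (k + 1)) (b : Bool) : ((hgt e b : Fin (2 * k + 3)) : ℕ) =
    2 * (e : ℕ) + (if b then 1 else 0) := rfl

theorem hgt_inj {e e' : Fin (k + 1)} {b b' : Bool} (h : hgt e b = hgt e' b') : e = e' ∧ b = b' := by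
  have h1 := congrArg Fin.val h
  rw [hgt_val, hgt_val] at h1
  have h2 : (e : ℕ) = e' ∧ b = b' := by
    cases b <;> cases b' <;> simp at h1 ⊢ <;> omega
  exact ⟨Fin.ext h2.1, h2.2⟩

theorem xi_hgt (e : Fin (k + 1)) (b : Bool) : xi (hgt e b) = hgt e (!b) := by
  apply Fin.ext
  have := e.2
  rw [xi_val, hgt_val, hgt_val]
  cases b <;> simp <;> omega

/-- four heights -/
theorem exists_emb {n : ℕ} (a b c d : Fin n) (h1 : a ≠ b) (h2 : a ≠ c) (h3 : a ≠ d) (h4 : b ≠ c)
    (h5 : b ≠ d) (h6 : c ≠ d) : Function.Injective ![a, b, c, d] := by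
  intro i j hij
  fin_cases i <;> fin_cases j <;> simp at hij ⊢ <;> first | exact absurd hij (by assumption) |
    exact absurd hij.symm (by assumption)

theorem pair_count (hk : 0 < k) (a a' b b' : Fin (2 * k + 3)) (h1 : a ≠ a') (h2 : a ≠ b) (h3 : a ≠ b')
    (h4 : a' ≠ b) (h5 : a' ≠ b') (h6 : b ≠ b') :
    (2 * k + 3).factorial ≤ (Finset.univ.filter (fun π : Perm (Fin (2 * k + 3)) =>
      rho π a = a' ∧ rho π b = b')).card * ((2 * k + 3) * (2 * k + 1)) := by
  classical
  set x0 : Fin 4 ↪ Fin (2 * k + 3) := ⟨![a, a', b, b'], exists_emb _ _ _ _ h1 h2 h3 h4 h5 h6⟩ with hx0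
  set S : Finset (Fin 4 ↪ Fin (2 * k + 3)) :=
    Finset.univ.filter (fun ω => ω 1 = xi (ω 0) ∧ ω 3 = xi (ω 2)) with hS
  have ht := tuple x0 S
  have hset : (Finset.univ.filter (fun π : Perm (Fin (2 * k + 3)) => x0.trans π.toEmbedding ∈ S)) =
      (Finset.univ.filter (fun π : Perm (Fin (2 * k + 3)) => rho π a = a' ∧ rho π b = b')) := by
    ext π
    rw [Finset.mem_filter, Finset.mem_filter, Finset.mem_filter]
    have e1 : (x0.trans π.toEmbedding) 1 = π a' := rfl
    have e2 : (x0.trans π.toEmbedding) 0 = π a := rfl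
    have e3 : (x0.trans π.toEmbedding) 3 = π b' := rfl
    have e4 : (x0.trans π.toEmbedding) 2 = π b := rfl
    rw [e1, e2, e3, e4]
    have key : ∀ p p', π p' = xi (π p) ↔ rho π p = p' := by
      intro p p'
      rw [← pi_rho]
      constructor
      · intro h; exact (π.injective h).symm
      · rintro rfl; rfl
    rw [key, key]
    simp
  rw [hset] at ht
  have hScard : 4 * (k * (k + 1)) ≤ S.card := by
    have h7 : ((Finset.univ : Finset (Fin (k + 1) × Bool × Fin k × Bool))).card ≤ S.card := by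
      have hemb : ∀ z : Fin (k + 1) × Bool × Fin k × Bool,
          Function.Injective ![hgt z.1 z.2.1, hgt z.1 (!z.2.1), hgt (z.1.succAbove z.2.2.1) z.2.2.2,
            hgt (z.1.succAbove z.2.2.1) (!z.2.2.2)] := by
        intro z
        have hne := Fin.succAbove_ne z.1 z.2.2.1
        apply exists_emb
        · intro h; have := (hgt_inj h).2; cases hz : z.2.1 <;> rw [hz] at this <;> simp at this
        · intro h; exact hne (hgt_inj h).1.symm
        · intro h; exact hne (hgt_inj h).1.symm
        · intro h; exact hne (hgt_inj h).1.symm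
        · intro h; exact hne (hgt_inj h).1.symm
        · intro h; have := (hgt_inj h).2; cases hz : z.2.2.2 <;> rw [hz] at this <;> simp at this
      apply Finset.card_le_card_of_injOn (fun z => (⟨_, hemb z⟩ : Fin 4 ↪ Fin (2 * k + 3)))
      · intro z _
        rw [Finset.mem_coe, hS, Finset.mem_filter]
        refine ⟨Finset.mem_univ _, ?_, ?_⟩
        · show hgt z.1 (!z.2.1) = xi (hgt z.1 z.2.1)
          rw [xi_hgt]
        · show hgt (z.1.succAbove z.2.2.1) (!z.2.2.2) = xi (hgt (z.1.succAbove z.2.2.1) z.2.2.2)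
          rw [xi_hgt]
      · rintro ⟨z1, z2, z3, z4⟩ _ ⟨y1, y2, y3, y4⟩ _ h
        have g0 : hgt z1 z2 = hgt y1 y2 := congrArg (fun ω : Fin 4 ↪ Fin (2 * k + 3) => ω 0) h
        have g2 : hgt (z1.succAbove z3) z4 = hgt (y1.succAbove y3) y4 :=
          congrArg (fun ω : Fin 4 ↪ Fin (2 * k + 3) => ω 2) h
        obtain ⟨rfl, rfl⟩ := hgt_inj g0
        obtain ⟨g3, rfl⟩ := hgt_inj g2
        obtain rfl := Fin.succAbove_right_injective g3
        rfl
    rw [Finset.card_univ, Fintype.card_prod, Fintype.card_prod, Fintype.card_prod, Fintype.card_fin,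
      Fintype.card_fin, Fintype.card_bool] at h7
    linarith
  have hcard : Fintype.card (Fin 4 ↪ Fin (2 * k + 3)) = (2 * k + 3) * (2 * k + 2) * (2 * k + 1) * (2 * k) := by
    rw [Fintype.card_embedding_eq, Fintype.card_fin, Fintype.card_fin]
    simp only [Nat.descFactorial_succ, Nat.descFactorial_zero]
    have e1 : 2 * k + 3 - 3 = 2 * k := by omega
    have e2 : 2 * k + 3 - 2 = 2 * k + 1 := by omega
    have e3 : 2 * k + 3 - 1 = 2 * k + 2 := by omega
    rw [e1, e2, e3]
    simp only [Nat.sub_zero]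
    ring
  rw [hcard] at ht
  set N := (Finset.univ.filter (fun π : Perm (Fin (2 * k + 3)) => rho π a = a' ∧ rho π b = b')).card with hN
  have hpos : 0 < 4 * (k * (k + 1)) := by positivity
  have h8 : (4 * (k * (k + 1))) * (2 * k + 3).factorial ≤
      (4 * (k * (k + 1))) * (N * ((2 * k + 3) * (2 * k + 1))) := by
    calc (4 * (k * (k + 1))) * (2 * k + 3).factorial = (2 * k + 3).factorial * (4 * (k * (k + 1))) := by ring
      _ ≤ (2 * k + 3).factorial * S.card := Nat.mul_le_mul_left _ hScard
      _ = N * ((2 * k + 3) * (2 * k + 2) * (2 * k + 1) * (2 * k)) := ht.symm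
      _ = (4 * (k * (k + 1))) * (N * ((2 * k + 3) * (2 * k + 1))) := by ring
  exact Nat.le_of_mul_le_mul_left h8 hpos

theorem one_t {w : ℕ} (hk : 0 < k) (t : Fin (k + 1)) (h1 : 2 * w ≤ (t : ℕ)) (h2 : (t : ℕ) < 3 * w) :
    ((4 * w - 1) * (2 * k + 2 - 6 * w)) * (2 * k + 3).factorial ≤
      (Finset.univ.filter (fun π : Perm (Fin (2 * k + 3)) => t ∈ Good w π)).card *
        ((2 * k + 3) * (2 * k + 1)) := by
  classical
  set J' : Finset (Fin (2 * k + 3)) := Finset.univ.filter (fun p => 6 * w + 1 ≤ (p : ℕ)) with hJ'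
  set J : Finset (Fin (2 * k + 3)) := Finset.univ.filter (fun p => (p : ℕ) + 2 ≤ 4 * w) with hJ
  have ht := t.2
  have cJ' : 2 * k + 2 - 6 * w ≤ J'.card := by
    have h := Finset.card_le_card_of_injOn (s := (Finset.univ : Finset (Fin (2 * k + 2 - 6 * w)))) (t := J')
      (fun i => (⟨6 * w + 1 + i, by have := i.2; omega⟩ : Fin (2 * k + 3))) (by
        intro i _
        rw [Finset.mem_coe, hJ', Finset.mem_filter]
        exact ⟨Finset.mem_univ _, by show 6 * w + 1 ≤ 6 * w + 1 + (i : ℕ); omega⟩) (by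
        intro i _ j _ hij
        have := congrArg Fin.val hij
        simp only at this
        exact Fin.ext (by omega))
    rwa [Finset.card_univ, Fintype.card_fin] at h
  have cJ : 4 * w - 1 ≤ J.card := by
    have h := Finset.card_le_card_of_injOn (s := (Finset.univ : Finset (Fin (4 * w - 1)))) (t := J)
      (fun i => (⟨i, by have := i.2; omega⟩ : Fin (2 * k + 3))) (by
        intro i _
        rw [Finset.mem_coe, hJ, Finset.mem_filter]
        have := i.2
        exact ⟨Finset.mem_univ _, by show (i : ℕ) + 2 ≤ 4 * w; omega⟩) (by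
        intro i _ j _ hij
        have := congrArg Fin.val hij
        simp only at this
        exact Fin.ext (by omega))
    rwa [Finset.card_univ, Fintype.card_fin] at h
  have hfib := Finset.card_eq_sum_card_fiberwise
      (s := (Finset.univ.filter (fun π : Perm (Fin (2 * k + 3)) => t ∈ Good w π)))
      (t := J' ×ˢ J) (f := fun π => (rho π (ev t), rho π (od t))) (by
        intro π hπ
        have h3 := (Finset.mem_filter.1 hπ).2
        have h4 := (Finset.mem_filter.1 h3).2
        rw [Finset.mem_coe, Finset.mem_product, hJ', hJ, Finset.mem_filter, Finset.mem_filter]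
        exact ⟨⟨Finset.mem_univ _, h4.2.2.1⟩, ⟨Finset.mem_univ _, h4.2.2.2⟩⟩)
  rw [hfib, Finset.sum_mul]
  have hterm : ∀ z ∈ J' ×ˢ J, (2 * k + 3).factorial ≤
      ((Finset.univ.filter (fun π : Perm (Fin (2 * k + 3)) => t ∈ Good w π)).filter
        (fun π => (rho π (ev t), rho π (od t)) = z)).card * ((2 * k + 3) * (2 * k + 1)) := by
    rintro ⟨a', b'⟩ hz
    rw [Finset.mem_product, hJ', hJ, Finset.mem_filter, Finset.mem_filter] at hz
    obtain ⟨⟨_, h3⟩, ⟨_, h4⟩⟩ := hz
    simp only at h3 h4
    have hev : ((ev t : Fin (2 * k + 3)) : ℕ) = 2 * t := rfl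
    have hod : ((od t : Fin (2 * k + 3)) : ℕ) = 2 * t + 1 := rfl
    refine (pair_count hk (ev t) a' (od t) b' ?_ ?_ ?_ ?_ ?_ ?_).trans (Nat.mul_le_mul_right _ ?_)
    · intro h; have := congrArg Fin.val h; omega
    · intro h; have := congrArg Fin.val h; omega
    · intro h; have := congrArg Fin.val h; omega
    · intro h; have := congrArg Fin.val h; omega
    · intro h; have := congrArg Fin.val h; omega
    · intro h; have := congrArg Fin.val h; omega
    · apply Finset.card_le_card
      intro π hπ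
      rw [Finset.mem_filter] at hπ
      obtain ⟨_, h5, h6⟩ := hπ
      rw [Finset.mem_filter, Finset.mem_filter]
      refine ⟨⟨Finset.mem_univ _, ?_⟩, by rw [h5, h6]⟩
      unfold Good
      rw [Finset.mem_filter, h5, h6]
      exact ⟨Finset.mem_univ _, h1, h2, h3, h4⟩
  calc ((4 * w - 1) * (2 * k + 2 - 6 * w)) * (2 * k + 3).factorial ≤
      ∑ _z ∈ J' ×ˢ J, (2 * k + 3).factorial := by
        rw [Finset.sum_const, Finset.card_product, smul_eq_mul, mul_comm J'.card]
        exact Nat.mul_le_mul_right _ (Nat.mul_le_mul cJ cJ')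
    _ ≤ _ := Finset.sum_le_sum hterm

theorem mean {w : ℕ} (hk : 0 < k) (hw : 3 * w ≤ k + 1) :
    w * ((4 * w - 1) * (2 * k + 2 - 6 * w)) * (2 * k + 3).factorial ≤
      (∑ π : Perm (Fin (2 * k + 3)), (Good w π).card) * ((2 * k + 3) * (2 * k + 1)) := by
  classical
  have h1 : ∑ π : Perm (Fin (2 * k + 3)), (Good w π).card = ∑ t : Fin (k + 1),
      (Finset.univ.filter (fun π : Perm (Fin (2 * k + 3)) => t ∈ Good w π)).card := by
    have e1 : ∀ π : Perm (Fin (2 * k + 3)), (Good w π).card = ∑ t : Fin (k + 1), if t ∈ Good w π then 1 else 0 := by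
      intro π
      rw [Finset.sum_boole]
      simp
    rw [Finset.sum_congr rfl (fun π _ => e1 π), Finset.sum_comm]
    refine Finset.sum_congr rfl fun t _ => ?_
    rw [Finset.card_filter]
  rw [h1, Finset.sum_mul]
  set T : Finset (Fin (k + 1)) := Finset.univ.filter (fun t => 2 * w ≤ (t : ℕ) ∧ (t : ℕ) < 3 * w) with hT
  have cT : w ≤ T.card := by
    have h := Finset.card_le_card_of_injOn (s := (Finset.univ : Finset (Fin w))) (t := T)
      (fun i => (⟨2 * w + i, by have := i.2; omega⟩ : Fin (k + 1))) (by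
        intro i _
        rw [Finset.mem_coe, hT, Finset.mem_filter]
        have := i.2
        refine ⟨Finset.mem_univ _, ?_, ?_⟩
        · show 2 * w ≤ 2 * w + (i : ℕ); omega
        · show 2 * w + (i : ℕ) < 3 * w; omega) (by
        intro i _ j _ hij
        have := congrArg Fin.val hij
        simp only at this
        exact Fin.ext (by omega))
    rwa [Finset.card_univ, Fintype.card_fin] at h
  calc w * ((4 * w - 1) * (2 * k + 2 - 6 * w)) * (2 * k + 3).factorial ≤
      ∑ _t ∈ T, ((4 * w - 1) * (2 * k + 2 - 6 * w)) * (2 * k + 3).factorial := by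
        rw [Finset.sum_const, smul_eq_mul, mul_assoc]
        exact Nat.mul_le_mul_right _ cT
    _ ≤ ∑ t ∈ T, (Finset.univ.filter (fun π : Perm (Fin (2 * k + 3)) => t ∈ Good w π)).card *
        ((2 * k + 3) * (2 * k + 1)) := by
        refine Finset.sum_le_sum fun t ht => ?_
        rw [hT, Finset.mem_filter] at ht
        exact one_t hk t ht.2.1 ht.2.2
    _ ≤ _ := Finset.sum_le_sum_of_subset (Finset.subset_univ _)

end Pool.Agent.NH45.Petal
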