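import Mathlib

set_option autoImplicit false

/-! Products of cosines along a lazy random walk. -/

namespace Pool.Agent.NH45.Petal

open Real

/-- one step of the walk, with the weight `g` -/
noncomputable def TT (g f : ℤ → ℝ) (s : ℤ) : ℝ :=
  (2 * (g s * f s) + g (s + 1) * f (s + 1) + g (s - 1) * f (s - 1)) / 4

/-- one step of the walk -/
noncomputable def AA (f : ℤ → ℝ) (s : ℤ) : ℝ := (2 * f s + f (s + 1) + f (s - 1)) / 4

theorem TT_apply (g f : ℤ → ℝ) (s : ℤ) :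
    TT g f s = (2 * (g s * f s) + g (s + 1) * f (s + 1) + g (s - 1) * f (s - 1)) / 4 := rfl

theorem AA_apply (f : ℤ → ℝ) (s : ℤ) : AA f s = (2 * f s + f (s + 1) + f (s - 1)) / 4 := rfl

/-- the values are in the unit interval -/
def In01 (f : ℤ → ℝ) : Prop := ∀ s, 0 ≤ f s ∧ f s ≤ 1

theorem TT_in {g f : ℤ → ℝ} (hg : In01 g) (hf : In01 f) : In01 (TT g f) := by
  intro s
  have h : ∀ t, 0 ≤ g t * f t ∧ g t * f t ≤ 1 := fun t =>
    ⟨mul_nonneg (hg t).1 (hf t).1, mul_le_one₀ (hg t).2 (hf t).1 (hf t).2⟩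
  have h1 := h s
  have h2 := h (s + 1)
  have h3 := h (s - 1)
  unfold TT
  constructor <;> linarith

theorem iter_in {g f : ℤ → ℝ} (hg : In01 g) (hf : In01 f) (n : ℕ) : In01 ((TT g)^[n] f) := by
  induction n with
  | zero => exact hf
  | succ n ih => rw [Function.iterate_succ_apply']; exact TT_in hg ih

theorem one_in : In01 (fun _ => 1) := fun _ => ⟨zero_le_one, le_refl _⟩

theorem TT_mono {g f h : ℤ → ℝ} (hg : In01 g) (hf : ∀ s, f s ≤ h s) (s : ℤ) : TT g f s ≤ TT g h s := by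
  unfold TT
  have h1 := mul_le_mul_of_nonneg_left (hf s) (hg s).1
  have h2 := mul_le_mul_of_nonneg_left (hf (s + 1)) (hg (s + 1)).1
  have h3 := mul_le_mul_of_nonneg_left (hf (s - 1)) (hg (s - 1)).1
  linarith

theorem iter_mono {g f h : ℤ → ℝ} (hg : In01 g) (n : ℕ) (hf : ∀ s, f s ≤ h s) (s : ℤ) :
    (TT g)^[n] f s ≤ (TT g)^[n] h s := by
  induction n generalizing s with
  | zero => exact hf s
  | succ n ih =>
    rw [Function.iterate_succ_apply', Function.iterate_succ_apply']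
    exact TT_mono hg ih s

theorem TT_smul (g f : ℤ → ℝ) (c : ℝ) : TT g (fun s => c * f s) = fun s => c * TT g f s := by
  funext s; unfold TT; ring

theorem iter_smul (g f : ℤ → ℝ) (c : ℝ) (n : ℕ) :
    (TT g)^[n] (fun s => c * f s) = fun s => c * (TT g)^[n] f s := by
  induction n with
  | zero => rfl
  | succ n ih => rw [Function.iterate_succ_apply', ih, TT_smul]; funext s; rw [Function.iterate_succ_apply']

/-- repeated contraction -/
theorem contract {g : ℤ → ℝ} (hg : In01 g) (B : ℕ) (q : ℝ) (hq : 0 ≤ q)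
    (h : ∀ s, (TT g)^[B] (fun _ => 1) s ≤ q) (m r : ℕ) (hr : m * B ≤ r) (s : ℤ) :
    (TT g)^[r] (fun _ => 1) s ≤ q ^ m := by
  induction m generalizing r s with
  | zero => rw [pow_zero]; exact (iter_in hg one_in r s).2
  | succ m ih =>
    have hr' : r = B + (r - B) := by
      have : B ≤ (m + 1) * B := Nat.le_mul_of_pos_left B (Nat.succ_pos m)
      omega
    rw [hr', Function.iterate_add_apply]
    have h1 : ∀ t, (TT g)^[r - B] (fun _ => 1) t ≤ q ^ m * (fun _ : ℤ => (1 : ℝ)) t := by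
      intro t
      rw [mul_one]
      apply ih
      have : (m + 1) * B = m * B + B := by ring
      omega
    refine (iter_mono hg B h1 s).trans ?_
    rw [iter_smul, pow_succ]
    exact mul_le_mul_of_nonneg_left (h s) (pow_nonneg hq m)

theorem bil {x y p p' Q η : ℝ} (hx : 0 ≤ x ∧ x ≤ 1) (hy : 0 ≤ y ∧ y ≤ 1) (hp : 0 ≤ p ∧ p ≤ 1)
    (hp' : 0 ≤ p' ∧ p' ≤ 1) (hQ : 0 ≤ Q) (h : p + p' ≤ 1 + Q) (hxy : x * y ≤ η) :
    x * p + y * p' ≤ 1 + η * Q := by
  have h1 : x * y * (p + p' - 1 - Q) ≤ 0 :=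
    mul_nonpos_of_nonneg_of_nonpos (mul_nonneg hx.1 hy.1) (by linarith)
  have h2 : 0 ≤ x * (1 - y) * (1 - p) :=
    mul_nonneg (mul_nonneg hx.1 (by linarith [hy.2])) (by linarith [hp.2])
  have h3 : 0 ≤ y * (1 - x) * (1 - p') :=
    mul_nonneg (mul_nonneg hy.1 (by linarith [hx.2])) (by linarith [hp'.2])
  have h4 : 0 ≤ (1 - x) * (1 - y) := mul_nonneg (by linarith [hx.2]) (by linarith [hy.2])
  have h5 : x * y * Q ≤ η * Q := mul_le_mul_of_nonneg_right hxy hQ
  nlinarith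

/-- two starting points -/
theorem pairs {g : ℤ → ℝ} (hg : In01 g) (d : ℤ) (η : ℝ) (hη : 0 ≤ η)
    (h : ∀ w, g w * g (w + d) ≤ η) (b : ℕ) (s : ℤ) :
    (TT g)^[b] (fun _ => 1) s + (TT g)^[b] (fun _ => 1) (s + d) ≤ 1 + η ^ b := by
  induction b generalizing s with
  | zero => simp
  | succ b ih =>
    rw [Function.iterate_succ_apply']
    set P := (TT g)^[b] (fun _ => 1) with hP
    have hPin : In01 P := iter_in hg one_in b
    have key : ∀ t, g t * P t + g (t + d) * P (t + d) ≤ 1 + η * η ^ b := fun t =>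
      bil (hg t) (hg (t + d)) (hPin t) (hPin (t + d)) (pow_nonneg hη b) (ih t) (h t)
    have k1 := key s
    have k2 := key (s + 1)
    have k3 := key (s - 1)
    have e1 : s + 1 + d = s + d + 1 := by ring
    have e2 : s - 1 + d = s + d - 1 := by ring
    rw [e1] at k2
    rw [e2] at k3
    unfold TT
    rw [pow_succ]
    linarith

theorem iter_le_AA {g f : ℤ → ℝ} (hg : In01 g) (hf : In01 f) (n : ℕ) (s : ℤ) :
    (TT g)^[n] f s ≤ AA^[n] f s := by
  induction n generalizing s with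
  | zero => exact le_refl _
  | succ n ih =>
    rw [Function.iterate_succ_apply', Function.iterate_succ_apply']
    have hin := iter_in hg hf n
    have key : ∀ t, g t * (TT g)^[n] f t ≤ AA^[n] f t := fun t =>
      (mul_le_of_le_one_left (hin t).1 (hg t).2).trans (ih t)
    rw [TT_apply, AA_apply]
    have k1 := key s
    have k2 := key (s + 1)
    have k3 := key (s - 1)
    linarith

theorem AA_local {f h : ℤ → ℝ} (n : ℕ) (s : ℤ) (hfh : ∀ m, |m - s| ≤ n → f m ≤ h m) :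
    AA^[n] f s ≤ AA^[n] h s := by
  induction n generalizing s with
  | zero => exact hfh s (by simp)
  | succ n ih =>
    rw [Function.iterate_succ_apply', Function.iterate_succ_apply']
    have k1 := ih s (fun m hm => hfh m (by push_cast; omega))
    have k2 := ih (s + 1) (fun m hm => hfh m (by push_cast; rw [abs_le] at hm ⊢; omega))
    have k3 := ih (s - 1) (fun m hm => hfh m (by push_cast; rw [abs_le] at hm ⊢; omega))
    unfold AA at k1 k2 k3 ⊢
    linarith

theorem AA_comp (f : ℤ → ℝ) (n : ℕ) (t s : ℤ) :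
    AA^[n] (fun m => f (t + m)) s = AA^[n] f (t + s) := by
  induction n generalizing s with
  | zero => rfl
  | succ n ih =>
    rw [Function.iterate_succ_apply', Function.iterate_succ_apply']
    unfold AA at ih ⊢
    rw [ih, ih, ih, ← add_assoc, ← add_sub_assoc]

theorem AA_neg (f : ℤ → ℝ) (n : ℕ) (t s : ℤ) :
    AA^[n] (fun m => f (t - m)) s = AA^[n] f (t - s) := by
  induction n generalizing s with
  | zero => rfl
  | succ n ih =>
    rw [Function.iterate_succ_apply', Function.iterate_succ_apply']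
    unfold AA at ih ⊢
    rw [ih, ih, ih]
    have e1 : t - (s + 1) = t - s - 1 := by ring
    have e2 : t - (s - 1) = t - s + 1 := by ring
    rw [e1, e2]
    ring

theorem AA_avg (f h : ℤ → ℝ) (n : ℕ) (s : ℤ) :
    AA^[n] (fun m => (f m + h m) / 2) s = (AA^[n] f s + AA^[n] h s) / 2 := by
  induction n generalizing s with
  | zero => rfl
  | succ n ih =>
    rw [Function.iterate_succ_apply', Function.iterate_succ_apply', Function.iterate_succ_apply']
    unfold AA at ih ⊢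
    rw [ih, ih, ih]
    ring

theorem AA_poly (c0 c2 c4 : ℝ) (n : ℕ) (s : ℤ) :
    AA^[n] (fun m => c0 + c2 * (m : ℝ) ^ 2 + c4 * (m : ℝ) ^ 4) s =
      c0 + c2 * ((s : ℝ) ^ 2 + n / 2) + c4 * ((s : ℝ) ^ 4 + 3 * n * (s : ℝ) ^ 2 + (3 * n ^ 2 - n) / 4) := by
  induction n generalizing s with
  | zero => simp
  | succ n ih =>
    rw [Function.iterate_succ_apply']
    unfold AA at ih ⊢
    rw [ih, ih, ih]
    push_cast
    ring

theorem bonf {y : ℝ} (h0 : 0 ≤ y) (h1 : y ≤ 1) (b : ℕ) :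
    (1 - y) ^ b ≤ 1 - b * y + b * (b - 1) / 2 * y ^ 2 := by
  induction b with
  | zero => simp
  | succ b ih =>
    rw [pow_succ]
    have h2 : (1 - y) ^ b * (1 - y) ≤ (1 - b * y + b * (b - 1) / 2 * y ^ 2) * (1 - y) :=
      mul_le_mul_of_nonneg_right ih (by linarith)
    refine h2.trans ?_
    push_cast
    have h3 : (0 : ℝ) ≤ (b : ℝ) * (b - 1) := by
      rcases Nat.eq_zero_or_pos b with hb | hb
      · rw [hb]; simp
      · have : (1 : ℝ) ≤ b := by exact_mod_cast hb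
        exact mul_nonneg (by linarith) (by linarith)
    have h4 : 0 ≤ (b : ℝ) * (b - 1) * y ^ 3 := mul_nonneg h3 (pow_nonneg h0 3)
    nlinarith

theorem cos_prod (α : ℝ) (w m : ℝ) (h : |α * m| ≤ 1 / 4) :
    |cos (π * (α * w))| * |cos (π * (α * (w + 2 * m)))| ≤ 1 - 4 * (α * m) ^ 2 := by
  rw [← abs_mul]
  have e : cos (π * (α * w)) * cos (π * (α * (w + 2 * m))) =
      (cos (2 * (π * (α * m))) + cos (2 * (π * (α * (w + m))))) / 2 := by
    have e1 : 2 * (π * (α * m)) = π * (α * (w + 2 * m)) - π * (α * w) := by ring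
    have e2 : 2 * (π * (α * (w + m))) = π * (α * (w + 2 * m)) + π * (α * w) := by ring
    rw [e1, e2, cos_sub, cos_add]
    ring
  rw [e]
  have hpi := pi_pos
  have h1 : |π * (α * m)| ≤ π / 4 := by
    rw [abs_mul, abs_of_pos hpi]
    nlinarith
  have h2 : cos (2 * (π * (α * m))) = 1 - 2 * sin (π * (α * m)) ^ 2 := by
    rw [cos_two_mul, ← sin_sq_add_cos_sq (π * (α * m))]; ring
  have h3 : 0 ≤ cos (2 * (π * (α * m))) := by
    apply cos_nonneg_of_mem_Icc
    rw [abs_le] at h1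
    exact ⟨by linarith, by linarith⟩
  have h4 : 4 * (α * m) ^ 2 ≤ sin (π * (α * m)) ^ 2 := by
    have h5 : 2 / π * |π * (α * m)| ≤ sin |π * (α * m)| :=
      mul_le_sin (abs_nonneg _) (by linarith)
    have h6 : 2 / π * |π * (α * m)| = 2 * |α * m| := by
      rw [abs_mul, abs_of_pos hpi]
      field_simp
    rw [h6] at h5
    have h7 : sin |π * (α * m)| ^ 2 = sin (π * (α * m)) ^ 2 := by
      rcases abs_choice (π * (α * m)) with h | h <;> rw [h]
      rw [sin_neg]; ring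
    rw [← h7]
    have h8 : (2 * |α * m|) ^ 2 ≤ sin |π * (α * m)| ^ 2 :=
      pow_le_pow_left₀ (by positivity) h5 2
    have h9 : (2 * |α * m|) ^ 2 = 4 * (α * m) ^ 2 := by rw [mul_pow, sq_abs]; ring
    linarith
  have h10 := abs_cos_le_one (2 * (π * (α * (w + m))))
  rw [abs_le] at h10
  rw [abs_le]
  constructor <;> linarith

/-- the weight -/
noncomputable def gc (α : ℝ) (w : ℤ) : ℝ := |cos (π * (α * w))|

theorem gc_in (α : ℝ) : In01 (gc α) := fun _ => ⟨abs_nonneg _, abs_cos_le_one _⟩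

theorem block_small {α : ℝ} (h0 : 0 < α) (h1 : α ≤ 1 / 4) :
    ∃ B : ℕ, 0 < B ∧ 2 * (B * α) ≤ 1 ∧ ∀ s, (TT (gc α))^[B] (fun _ => 1) s ≤ 1011 / 1024 := by
  obtain ⟨b, hb1, hb2, hb3⟩ : ∃ b : ℕ, 1 ≤ b ∧ b * α ≤ 1 / 4 ∧ 1 / 8 ≤ b * α := by
    refine ⟨⌊1 / (4 * α)⌋₊, ?_, ?_, ?_⟩
    · rw [Nat.one_le_floor_iff, le_div_iff₀ (by linarith)]; linarith
    · have h2 : (⌊1 / (4 * α)⌋₊ : ℝ) ≤ 1 / (4 * α) := Nat.floor_le (by positivity)
      calc (⌊1 / (4 * α)⌋₊ : ℝ) * α ≤ 1 / (4 * α) * α := mul_le_mul_of_nonneg_right h2 h0.le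
        _ = 1 / 4 := by field_simp
    · have h2 : 1 / (4 * α) < (⌊1 / (4 * α)⌋₊ : ℝ) + 1 := Nat.lt_floor_add_one _
      have h3 : (1 : ℝ) ≤ (⌊1 / (4 * α)⌋₊ : ℝ) := by
        have : 1 ≤ ⌊1 / (4 * α)⌋₊ := by
          rw [Nat.one_le_floor_iff, le_div_iff₀ (by linarith)]; linarith
        exact_mod_cast this
      have h4 : 1 / (4 * α) * α = 1 / 4 := by field_simp
      have h5 : 1 / (4 * α) * α ≤ ((⌊1 / (4 * α)⌋₊ : ℝ) + 1) * α :=
        mul_le_mul_of_nonneg_right h2.le h0.le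
      nlinarith
  refine ⟨2 * b, by omega, by push_cast; linarith, fun s => ?_⟩
  have hg := gc_in α
  rw [two_mul, Function.iterate_add_apply]
  set P := (TT (gc α))^[b] (fun _ => 1) with hP
  have hPin : In01 P := iter_in hg one_in b
  refine (iter_le_AA hg hPin b s).trans ?_
  have e1 : AA^[b] P s = AA^[b] (fun m => (P (s + m) + P (s - m)) / 2) 0 := by
    rw [AA_avg (fun m => P (s + m)) (fun m => P (s - m)), AA_comp, AA_neg]
    simp
  rw [e1]
  set x : ℝ := b * α with hx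
  have hb0 : (0 : ℝ) < b := by exact_mod_cast hb1
  refine (AA_local (h := fun m : ℤ => 1 + (-(2 * b * α ^ 2)) * (m : ℝ) ^ 2 +
    (4 * b ^ 2 * α ^ 4) * (m : ℝ) ^ 4) b 0 ?_).trans ?_
  · intro m hm
    rw [sub_zero] at hm
    have hm' : |(m : ℝ)| ≤ b := by
      have : ((|m| : ℤ) : ℝ) ≤ b := by exact_mod_cast hm
      rwa [Int.cast_abs] at this
    have hα : |α * (m : ℝ)| ≤ 1 / 4 := by
      rw [abs_mul, abs_of_pos h0]
      calc α * |(m : ℝ)| ≤ α * b := mul_le_mul_of_nonneg_left hm' h0.le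
        _ = b * α := by ring
        _ ≤ 1 / 4 := hb2
    have hy1 : 4 * (α * (m : ℝ)) ^ 2 ≤ 1 := by
      have := pow_le_pow_left₀ (abs_nonneg _) hα 2
      rw [sq_abs] at this
      linarith
    have hpr : P (s - m) + P (s - m + 2 * m) ≤ 1 + (1 - 4 * (α * (m : ℝ)) ^ 2) ^ b := by
      apply pairs hg (2 * m) _ (by linarith)
      intro w
      have := cos_prod α w m hα
      unfold gc
      push_cast
      exact this
    have e2 : s - m + 2 * m = s + m := by ring
    rw [e2] at hpr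
    have hbf := bonf (y := 4 * (α * (m : ℝ)) ^ 2) (by positivity) hy1 b
    show (P (s + m) + P (s - m)) / 2 ≤ _
    have h5 : (b : ℝ) * (b - 1) / 2 * (4 * (α * (m : ℝ)) ^ 2) ^ 2 ≤
        8 * b ^ 2 * α ^ 4 * (m : ℝ) ^ 4 := by
      have : (0 : ℝ) ≤ b * (α * (m : ℝ)) ^ 4 := by positivity
      nlinarith
    have h6 : (b : ℝ) * (4 * (α * (m : ℝ)) ^ 2) = 4 * b * α ^ 2 * (m : ℝ) ^ 2 := by ring
    rw [h6] at hbf
    linarith
  · rw [AA_poly]
    have hxx : x = b * α := hx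
    have h8 : (1 : ℝ) + -(2 * b * α ^ 2) * (((0 : ℤ) : ℝ) ^ 2 + b / 2) +
        4 * b ^ 2 * α ^ 4 * (((0 : ℤ) : ℝ) ^ 4 + 3 * b * ((0 : ℤ) : ℝ) ^ 2 + (3 * b ^ 2 - b) / 4) =
        1 - x ^ 2 + 3 * x ^ 4 - b ^ 3 * α ^ 4 := by
      rw [hxx]; push_cast; ring
    rw [h8]
    have h9 : (0 : ℝ) ≤ b ^ 3 * α ^ 4 := by positivity
    have h10 : 1 / 64 ≤ x ^ 2 := by nlinarith
    have h11 : x ^ 2 ≤ 1 / 16 := by nlinarith
    nlinarith

theorem block_big {α : ℝ} (h0 : 1 / 4 < α) (h1 : α ≤ 1 / 2) (s : ℤ) :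
    (TT (gc α))^[1] (fun _ => 1) s ≤ 1011 / 1024 := by
  have key : ∀ w : ℤ, gc α w + gc α (w + 1) ≤ 1 + 7 / 8 := by
    intro w
    have e : cos (π * (α * w)) * cos (π * (α * ((w + 1 : ℤ) : ℝ))) =
        (cos (π * α) + cos (2 * (π * (α * (w + 1 / 2))))) / 2 := by
      push_cast
      have e1 : π * α = π * (α * (w + 1)) - π * (α * w) := by ring
      have e2 : 2 * (π * (α * (w + 1 / 2))) = π * (α * (w + 1)) + π * (α * w) := by ring
      rw [e2, e1, cos_sub, cos_add]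
      ring
    have h2 : |cos (π * α)| ≤ 3 / 4 := by
      have hpi := pi_pos
      have h3 : 0 ≤ cos (π * α) := cos_nonneg_of_mem_Icc ⟨by nlinarith, by nlinarith⟩
      rw [abs_of_nonneg h3]
      have h4 : cos (π * α) ≤ cos (π / 4) := by
        apply cos_le_cos_of_nonneg_of_le_pi (by positivity)
        · nlinarith
        · nlinarith
      rw [cos_pi_div_four] at h4
      have h5 : √2 ≤ 3 / 2 := by
        rw [Real.sqrt_le_left (by norm_num)]
        norm_num
      linarith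
    have h3 : gc α w * gc α (w + 1) ≤ 7 / 8 := by
      unfold gc
      rw [← abs_mul, e]
      have h10 := abs_cos_le_one (2 * (π * (α * ((w : ℝ) + 1 / 2))))
      rw [abs_le] at h10 h2 ⊢
      constructor <;> linarith
    have a := gc_in α w
    have b := gc_in α (w + 1)
    nlinarith [mul_nonneg (sub_nonneg.2 a.2) (sub_nonneg.2 b.2)]
  have k1 := key s
  have k2 := key (s - 1)
  rw [sub_add_cancel] at k2
  rw [Function.iterate_one]
  unfold TT
  simp only [mul_one]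
  linarith

/-- the decay of the products of cosines -/
theorem decay (M : ℕ) (hM : 0 < M) (τ : ℤ) (hτ : 2 * |τ| ≤ M) (r : ℕ) (hr : M ≤ r) (s : ℤ) :
    (TT (gc (τ / M)))^[r] (fun _ => 1) s ≤ (1011 / 1024 : ℝ) ^ (2 * τ.natAbs) := by
  have hMr : (0 : ℝ) < M := by exact_mod_cast hM
  have e : gc ((τ : ℝ) / M) = gc (|(τ : ℝ)| / M) := by
    funext w
    unfold gc
    rcases abs_choice (τ : ℝ) with h | h <;> rw [h]
    have : π * (-(τ : ℝ) / M * w) = -(π * ((τ : ℝ) / M * w)) := by ring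
    rw [this, cos_neg]
  rw [e]
  by_cases h0 : τ = 0
  · subst h0
    simp only [Int.natAbs_zero, mul_zero, pow_zero]
    exact (iter_in (gc_in _) one_in r s).2
  have hpos : (0 : ℝ) < |(τ : ℝ)| := abs_pos.2 (by exact_mod_cast h0)
  have hhalf : |(τ : ℝ)| / M ≤ 1 / 2 := by
    rw [div_le_iff₀ hMr]
    have : ((2 * |τ| : ℤ) : ℝ) ≤ M := by exact_mod_cast hτ
    push_cast at this
    linarith
  obtain ⟨B, hB1, hB2, hB3⟩ : ∃ B : ℕ, 0 < B ∧ 2 * (B * (|(τ : ℝ)| / M)) ≤ 1 ∧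
      ∀ s, (TT (gc (|(τ : ℝ)| / M)))^[B] (fun _ => 1) s ≤ 1011 / 1024 := by
    rcases le_or_gt (|(τ : ℝ)| / M) (1 / 4) with h | h
    · exact block_small (by positivity) h
    · exact ⟨1, one_pos, by push_cast; linarith, fun s => block_big h hhalf s⟩
  apply contract (gc_in _) B _ (by norm_num) hB3
  refine le_trans ?_ hr
  have h1 : (2 * (τ.natAbs : ℝ)) * B ≤ M := by
    rw [Nat.cast_natAbs, Int.cast_abs]
    have h2 : 2 * (B * (|(τ : ℝ)| / M)) * M ≤ 1 * M := mul_le_mul_of_nonneg_right hB2 hMr.le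
    have h3 : 2 * (B * (|(τ : ℝ)| / M)) * M = 2 * |(τ : ℝ)| * B := by field_simp
    linarith
  exact_mod_cast h1

end Pool.Agent.NH45.Petal
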